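import Pool.Agent.H118_IntCx.Combine

namespace Pool.Agent.H118_IntCx

open Real

theorem no_data_zero (n m : ℕ) (hn : 1 ≤ n) : ¬ Data (2 ^ n * 3 ^ m) 0 := by
  rintro ⟨b, q, Ls, hm, hl, hr⟩
  have hLs : Ls = [] := List.length_eq_zero_iff.1 hl
  subst hLs
  obtain ⟨r, hr1, hr2, hr3⟩ := hr 1 (q + 1) le_rfl (by omega) (by simp)
  have hr4 : r = 1 := by
    simp at hr2
    omega
  subst hr4
  have hqpos : 1 ≤ q := by
    rcases Nat.eq_zero_or_pos q with h | h
    · subst h
      have : 0 < 2 ^ n * 3 ^ m := by positivity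
      omega
    · exact h
  have hq1 : q = 1 := by
    by_contra hne
    have h2 : 3 ^ (q + 1) ∣ q - 1 := by
      have e : ((q - 1 : ℕ) : ℤ) = (q : ℤ) - (1 : ℕ) := by push_cast [Nat.cast_sub hqpos]; ring
      have : ((3 ^ (q + 1) : ℕ) : ℤ) ∣ ((q - 1 : ℕ) : ℤ) := by
        rw [e]
        push_cast at hr3 ⊢
        exact hr3
      exact_mod_cast this
    have h3 := Nat.le_of_dvd (by omega) h2
    have h4 : q + 1 < 3 ^ (q + 1) := Nat.lt_pow_self (by norm_num)
    omega
  rw [hq1, Nat.mul_one] at hm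
  have h5 : 2 ∣ 3 ^ b := by
    rw [← hm]
    exact Dvd.dvd.mul_right (dvd_pow_self 2 (by omega)) _
  have h6 := Nat.Prime.dvd_of_dvd_pow Nat.prime_two h5
  omega

theorem pow_aux (x : ℕ) (hx : 4 ≤ x) : 9 * (8 * x + 24) * 2 ^ (x + 1) ≤ 9 ^ (x + 1) := by
  induction x, hx using Nat.le_induction with
  | base => norm_num
  | succ x hx ih =>
    calc 9 * (8 * (x + 1) + 24) * 2 ^ (x + 1 + 1)
        = 2 * (9 * (8 * (x + 1) + 24)) * 2 ^ (x + 1) := by rw [pow_succ 2 (x + 1)]; ring
      _ ≤ 9 * (9 * (8 * x + 24)) * 2 ^ (x + 1) := Nat.mul_le_mul_right _ (by omega)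
      _ = 9 * (9 * (8 * x + 24) * 2 ^ (x + 1)) := by ring
      _ ≤ 9 * 9 ^ (x + 1) := Nat.mul_le_mul_left _ ih
      _ = 9 ^ (x + 1 + 1) := by rw [pow_succ 9 (x + 1)]; ring

/-- if `l` is at least `1.386` and `10 log l ≤ l` then `35 ≤ l`. -/
theorem big_of (l : ℝ) (h1 : 1.386 ≤ l) (h2 : 10 * log l ≤ l) : 35 ≤ l := by
  by_contra hlt
  push Not at hlt
  have hconc := strictConcaveOn_log_Ioi.concaveOn
  have ha : (1.386 : ℝ) ∈ Set.Ioi (0 : ℝ) := by norm_num
  have hb : (35 : ℝ) ∈ Set.Ioi (0 : ℝ) := by norm_num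
  set t : ℝ := (l - 1.386) / (35 - 1.386) with ht
  have ht0 : 0 ≤ t := div_nonneg (by linarith) (by norm_num)
  have ht1 : t < 1 := by
    rw [ht, div_lt_one (by norm_num)]
    linarith
  have hl : l = (1 - t) * 1.386 + t * 35 := by
    rw [ht]; field_simp; ring
  have hc := hconc.2 ha hb (by linarith : 0 ≤ 1 - t) ht0 (by ring)
  simp only [smul_eq_mul] at hc
  rw [← hl] at hc
  have hA : 0.2 < log (1.386 : ℝ) := by
    have := Real.one_sub_inv_le_log_of_pos (by norm_num : (0 : ℝ) < 1.386)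
    have h3 : (0.2 : ℝ) < 1 - (1.386 : ℝ)⁻¹ := by norm_num
    linarith
  have hB : 3.5 < log (35 : ℝ) := by
    rw [Real.lt_log_iff_exp_lt (by norm_num)]
    have h3 : exp (3.5 : ℝ) ^ 2 < 35 ^ 2 := by
      rw [← Real.exp_nat_mul]
      have e : ((2 : ℕ) : ℝ) * 3.5 = ((7 : ℕ) : ℝ) * 1 := by norm_num
      rw [e, Real.exp_nat_mul]
      have h4 := Real.exp_one_lt_d9
      calc exp 1 ^ 7 ≤ (2.7182818286 : ℝ) ^ 7 := pow_le_pow_left₀ (exp_pos 1).le h4.le 7
        _ < 35 ^ 2 := by norm_num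
    exact lt_of_pow_lt_pow_left₀ 2 (by norm_num) h3
  have h5 : 10 * ((1 - t) * log 1.386 + t * log 35) ≤ (1 - t) * 1.386 + t * 35 := by
    rw [← hl]; linarith
  have h6 : (1 - t) * 0.2 < (1 - t) * log 1.386 := mul_lt_mul_of_pos_left hA (by linarith)
  have h7 : t * 3.5 ≤ t * log 35 := mul_le_mul_of_nonneg_left hB.le ht0
  nlinarith

theorem asym_key (n : ℕ) (hn : 35 ≤ log n) (A' : ℕ) (hA1 : 1 ≤ A')
    (hA : (A' : ℝ) ≤ log n / (10 * log (log n))) :
    ∃ L M : ℕ, L = 4 * (M + 4) ∧ 9 * L * n ≤ 3 ^ M ∧ (65 * L ^ 2 * A') ^ (A' + 1) ≤ n := by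
  set l := log (n : ℝ) with hl
  set u := log l with hu
  have hn16 : 16 ≤ n := by
    by_contra hlt
    push Not at hlt
    rcases Nat.eq_zero_or_pos n with h0 | h0
    · subst h0
      rw [hl] at hn
      simp at hn
      linarith
    · have : l ≤ log 16 := by
        apply Real.log_le_log (by exact_mod_cast h0)
        exact_mod_cast hlt.le
      have h16 : log (16 : ℝ) ≤ 15 := by
        have := Real.log_le_sub_one_of_pos (by norm_num : (0 : ℝ) < 16)
        linarith
      linarith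
  have hnR : (0 : ℝ) < n := by
    have : 0 < n := by omega
    exact_mod_cast this
  have hlpos : 0 < l := by linarith
  have hexpl : exp l = n := by rw [hl, Real.exp_log hnR]
  have hu1 : 1 ≤ u := by
    rw [hu, Real.le_log_iff_exp_le hlpos]
    have := Real.exp_one_lt_d9
    linarith
  set g := Nat.log 2 n with hg
  have hg1 : 2 ^ g ≤ n := Nat.pow_log_le_self 2 (by omega)
  have hg2 : n < 2 ^ (g + 1) := Nat.lt_pow_succ_log_self (by norm_num) n
  have hg4 : 4 ≤ g := by
    rw [hg]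
    exact Nat.le_log_of_pow_le (by norm_num) (by norm_num; omega)
  have hgl : (g : ℝ) * log 2 ≤ l := by
    have : log ((2 : ℝ) ^ g) ≤ log n := by
      apply Real.log_le_log (by positivity)
      exact_mod_cast hg1
    rwa [Real.log_pow] at this
  have h2 := Real.log_two_gt_d9
  have hgl2 : (g : ℝ) * 0.6931 ≤ l := by
    refine le_trans ?_ hgl
    exact mul_le_mul_of_nonneg_left (by linarith) (by positivity)
  refine ⟨8 * g + 24, 2 * (g + 1), by ring, ?_, ?_⟩
  · calc 9 * (8 * g + 24) * n ≤ 9 * (8 * g + 24) * 2 ^ (g + 1) := Nat.mul_le_mul_left _ hg2.le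
      _ ≤ 9 ^ (g + 1) := pow_aux g hg4
      _ = 3 ^ (2 * (g + 1)) := by rw [pow_mul]; norm_num
  · have hAR : (1 : ℝ) ≤ A' := by exact_mod_cast hA1
    have hA2 : (A' : ℝ) * (10 * u) ≤ l := by
      rwa [le_div_iff₀ (by linarith)] at hA
    have hA3 : (A' : ℝ) ≤ l / 10 := by
      rw [le_div_iff₀ (by norm_num)]
      nlinarith
    have hLR : ((8 * g + 24 : ℕ) : ℝ) ≤ 12.3 * l := by
      push_cast
      nlinarith
    have hL0 : (0 : ℝ) ≤ ((8 * g + 24 : ℕ) : ℝ) := by positivity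
    have hWR : ((65 * (8 * g + 24) ^ 2 * A' : ℕ) : ℝ) ≤ l ^ 5 := by
      have e : ((65 * (8 * g + 24) ^ 2 * A' : ℕ) : ℝ)
          = 65 * (((8 * g + 24 : ℕ) : ℝ)) ^ 2 * A' := by push_cast; ring
      rw [e]
      have h3 : (((8 * g + 24 : ℕ) : ℝ)) ^ 2 ≤ (12.3 * l) ^ 2 := pow_le_pow_left₀ hL0 hLR 2
      calc 65 * (((8 * g + 24 : ℕ) : ℝ)) ^ 2 * A' ≤ 65 * (12.3 * l) ^ 2 * (l / 10) := by
            apply mul_le_mul _ hA3 (by positivity) (by positivity)
            exact mul_le_mul_of_nonneg_left h3 (by norm_num)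
        _ = (65 * 12.3 ^ 2 / 10) * l ^ 3 := by ring
        _ ≤ l ^ 2 * l ^ 3 := by
            apply mul_le_mul_of_nonneg_right _ (by positivity)
            have : (35 : ℝ) ^ 2 ≤ l ^ 2 := pow_le_pow_left₀ (by norm_num) hn 2
            norm_num at this ⊢
            linarith
        _ = l ^ 5 := by ring
    have hfin : (((65 * (8 * g + 24) ^ 2 * A') ^ (A' + 1) : ℕ) : ℝ) ≤ n := by
      rw [Nat.cast_pow]
      calc (((65 * (8 * g + 24) ^ 2 * A' : ℕ) : ℝ)) ^ (A' + 1) ≤ (l ^ 5) ^ (A' + 1) :=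
            pow_le_pow_left₀ (by positivity) hWR _
        _ = exp (((A' + 1 : ℕ) : ℝ) * (5 * u)) := by
            rw [Real.exp_nat_mul]
            congr 1
            rw [hu, show (5 : ℝ) * log l = ((5 : ℕ) : ℝ) * log l by norm_num, Real.exp_nat_mul,
              Real.exp_log hlpos]
        _ ≤ exp l := by
            apply Real.exp_le_exp.2
            push_cast
            nlinarith
        _ = n := hexpl
    exact_mod_cast hfin

theorem main_growth (n m k : ℕ) (hn : 4 ≤ n) (h : Reach (2 ^ n * 3 ^ m) k) :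
    3 * m + 3 * n * (log 2 / log 3) + (1 / 150) * (log n / log (log n)) ≤ (k : ℝ) := by
  obtain ⟨A, hD, hA⟩ := reach_data h
  have hl1 : (1.386 : ℝ) ≤ log n := by
    have h1 : log (4 : ℝ) ≤ log n := Real.log_le_log (by norm_num) (by exact_mod_cast hn)
    have h2 : log (4 : ℝ) = 2 * log 2 := by
      rw [show (4 : ℝ) = 2 ^ 2 by norm_num, Real.log_pow]; norm_num
    have h3 := Real.log_two_gt_d9
    linarith
  have hlpos : 0 < log (n : ℝ) := by linarith
  have hu : 0.27 < log (log (n : ℝ)) := by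
    have h1 := Real.one_sub_inv_le_log_of_pos hlpos
    have h2 : (log (n : ℝ))⁻¹ ≤ (1.386 : ℝ)⁻¹ := inv_anti₀ (by norm_num) hl1
    have h3 : (1.386 : ℝ)⁻¹ < 0.73 := by norm_num
    linarith
  have hkey : log n / (10 * log (log n)) ≤ A := by
    by_contra hlt
    push Not at hlt
    rcases Nat.eq_zero_or_pos A with h0 | h0
    · subst h0
      exact no_data_zero n m (by omega) hD
    · have h10 : 10 * log (log (n : ℝ)) ≤ log n := by
        have h1 : (1 : ℝ) ≤ A := by exact_mod_cast h0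
        have h2 : (1 : ℝ) < log n / (10 * log (log n)) := lt_of_le_of_lt h1 hlt
        rw [one_lt_div (by linarith)] at h2
        exact h2.le
      have h35 := big_of _ hl1 h10
      obtain ⟨L, M, hL, hX, hW⟩ := asym_key n h35 A h0 hlt.le
      exact no_data n m A A L M le_rfl h0 hL hX hW hD
  have hlog3 : 0 < log (3 : ℝ) := Real.log_pos (by norm_num)
  -- logarithms
  have hc := cw_ge_one (2 ^ n * 3 ^ m)
  have h1 : (676 / 625 : ℝ) ^ A * ((2 : ℝ) ^ n * 3 ^ m) ^ 3 ≤ 3 ^ k := by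
    refine le_trans ?_ hA
    push_cast
    apply mul_le_mul_of_nonneg_left _ (by positivity)
    exact le_mul_of_one_le_right (by positivity) hc
  have h2 := Real.log_le_log (by positivity) h1
  rw [Real.log_mul (by positivity) (by positivity), Real.log_pow, Real.log_pow,
    Real.log_mul (by positivity) (by positivity), Real.log_pow, Real.log_pow, Real.log_pow] at h2
  have h15 : log 3 ≤ 15 * log (676 / 625 : ℝ) := by
    have : log (3 : ℝ) ≤ log ((676 / 625 : ℝ) ^ 15) := by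
      apply Real.log_le_log (by norm_num)
      norm_num
    rw [Real.log_pow] at this
    exact_mod_cast this
  have hx : log (n : ℝ) / log (log n) ≤ 10 * A := by
    rw [div_le_iff₀ (by linarith)] at hkey ⊢
    linarith
  have hx0 : 0 ≤ log (n : ℝ) / log (log n) := div_nonneg hlpos.le (by linarith)
  have hx2 : (1 / 150) * (log (n : ℝ) / log (log n)) * log 3 ≤ A * log (676 / 625 : ℝ) := by
    have hAn : (0 : ℝ) ≤ A := by positivity
    calc (1 / 150) * (log (n : ℝ) / log (log n)) * log 3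
        ≤ (1 / 150) * (10 * A) * log 3 := by
          apply mul_le_mul_of_nonneg_right _ hlog3.le
          linarith
      _ = A * (log 3 / 15) := by ring
      _ ≤ A * log (676 / 625 : ℝ) := by
          apply mul_le_mul_of_nonneg_left _ hAn
          linarith
  have e3 : 3 * (m : ℝ) + 3 * n * (log 2 / log 3) + (1 / 150) * (log n / log (log n))
      = (3 * m * log 3 + 3 * n * log 2 + (1 / 150) * (log n / log (log n)) * log 3) / log 3 := by
    field_simp
  rw [e3, div_le_iff₀ hlog3]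
  push_cast at h2
  nlinarith

end Pool.Agent.H118_IntCx
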