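import Pool.Agent.H118_IntCx.Pade

namespace Pool.Agent.H118_IntCx

theorem G_nonneg (s t : ℤ) (hs : 0 ≤ s) (ht : 0 ≤ t) (N p q : ℕ) : 0 ≤ G s t N p q := by
  induction N generalizing p q with
  | zero => rw [G_zero]; norm_num
  | succ N ihN =>
    induction p generalizing q with
    | zero =>
      induction q with
      | zero => rw [G_succ_zero_zero]
      | succ q ihq =>
        rw [G_R2z]
        have := ihN 0 (q + 1)
        positivity
    | succ p ihp =>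
      rw [G_R1]
      have h1 := ihp q
      have h2 := ihN (p + 1) q
      positivity

theorem G_bound (s t : ℤ) (hs : 0 ≤ s) (ht : 0 ≤ t) (σ : ℝ) (hσ : 0 ≤ σ) (h1 : s * σ ≤ 1)
    (h2 : t * σ ≤ 1) (N p q : ℕ) :
    (G s t N p q : ℝ) * (σ ^ N * ((1 - s * σ) ^ p * (1 - t * σ) ^ q)) ≤ 1 := by
  have hsσ : 0 ≤ (s : ℝ) * σ := mul_nonneg (by exact_mod_cast hs) hσ
  have htσ : 0 ≤ (t : ℝ) * σ := mul_nonneg (by exact_mod_cast ht) hσ
  have ha0 : 0 ≤ 1 - (s : ℝ) * σ := by linarith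
  have ha1 : 1 - (s : ℝ) * σ ≤ 1 := by linarith
  have hb0 : 0 ≤ 1 - (t : ℝ) * σ := by linarith
  have hb1 : 1 - (t : ℝ) * σ ≤ 1 := by linarith
  induction N generalizing p q with
  | zero =>
    rw [G_zero]
    have e1 : (1 - (s : ℝ) * σ) ^ p ≤ 1 := pow_le_one₀ ha0 ha1
    have e2 : (1 - (t : ℝ) * σ) ^ q ≤ 1 := pow_le_one₀ hb0 hb1
    have e3 : 0 ≤ (1 - (t : ℝ) * σ) ^ q := pow_nonneg hb0 q
    have e4 : (1 - (s : ℝ) * σ) ^ p * (1 - (t : ℝ) * σ) ^ q ≤ 1 := mul_le_one₀ e1 e3 e2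
    simpa using e4
  | succ N ihN =>
    induction p generalizing q with
    | zero =>
      induction q with
      | zero => rw [G_succ_zero_zero]; simp
      | succ q ihq =>
        rw [G_R2z]
        have h3 := ihN 0 (q + 1)
        push_cast
        have e : ((G s t (N + 1) 0 q : ℝ) + (t : ℝ) * (G s t N 0 (q + 1) : ℝ))
            * (σ ^ (N + 1) * ((1 - (s : ℝ) * σ) ^ 0 * (1 - (t : ℝ) * σ) ^ (q + 1)))
            = (1 - (t : ℝ) * σ) * ((G s t (N + 1) 0 q : ℝ)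
              * (σ ^ (N + 1) * ((1 - (s : ℝ) * σ) ^ 0 * (1 - (t : ℝ) * σ) ^ q)))
              + ((t : ℝ) * σ) * ((G s t N 0 (q + 1) : ℝ)
              * (σ ^ N * ((1 - (s : ℝ) * σ) ^ 0 * (1 - (t : ℝ) * σ) ^ (q + 1)))) := by
          ring
        rw [e]
        nlinarith [mul_le_mul_of_nonneg_left ihq hb0, mul_le_mul_of_nonneg_left h3 htσ]
    | succ p ihp =>
      rw [G_R1]
      have h3 := ihp q
      have h4 := ihN (p + 1) q
      push_cast
      have e : ((G s t (N + 1) p q : ℝ) + (s : ℝ) * (G s t N (p + 1) q : ℝ))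
          * (σ ^ (N + 1) * ((1 - (s : ℝ) * σ) ^ (p + 1) * (1 - (t : ℝ) * σ) ^ q))
          = (1 - (s : ℝ) * σ) * ((G s t (N + 1) p q : ℝ)
            * (σ ^ (N + 1) * ((1 - (s : ℝ) * σ) ^ p * (1 - (t : ℝ) * σ) ^ q)))
            + ((s : ℝ) * σ) * ((G s t N (p + 1) q : ℝ)
            * (σ ^ N * ((1 - (s : ℝ) * σ) ^ (p + 1) * (1 - (t : ℝ) * σ) ^ q))) := by
        ring
      rw [e]
      nlinarith [mul_le_mul_of_nonneg_left h3 ha0, mul_le_mul_of_nonneg_left h4 hsσ]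

/-- Diagonal recurrence. -/
theorem G_diag (s t : ℤ) (N p : ℕ) :
    G s t (N + 2) (p + 1) (p + 1) = G s t (N + 2) p p + (s + t) * G s t (N + 1) (p + 1) (p + 1)
      + (-(s * t)) * G s t N (p + 1) (p + 1) := by
  have h1 := G_R1 s t (N + 1) p (p + 1)
  have h2 := G_R2 s t (N + 1) p p
  have h3 := G_R1 s t N p (p + 1)
  rw [h1, h2]
  have h4 : G s t (N + 1) p (p + 1)
      = G s t (N + 1) (p + 1) (p + 1) - s * G s t N (p + 1) (p + 1) := by linarith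
  rw [h4]
  ring

theorem G_diag_one (s t : ℤ) (p : ℕ) :
    G s t 1 (p + 1) (p + 1) = G s t 1 p p + (s + t) := by
  have h1 := G_R1 s t 0 p (p + 1)
  have h2 := G_R2 s t 0 p p
  rw [h1, h2, G_zero, G_zero]
  ring

/-- Positivity and the generating function bound when `t ≤ 0` but `s + t ≥ 0` and `q ≤ p`. -/
theorem G_neg (s t : ℤ) (hs : 0 ≤ s) (ht : t ≤ 0) (hst : 0 ≤ s + t) (σ : ℝ) (hσ : 0 ≤ σ)
    (h1 : s * σ ≤ 1) (N : ℕ) : ∀ p q : ℕ, q ≤ p →
    0 ≤ G s t N p q ∧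
    (G s t N p q : ℝ) * (σ ^ N * ((1 - s * σ) ^ p * (1 - t * σ) ^ q)) ≤ 1 := by
  have hsσ : 0 ≤ (s : ℝ) * σ := mul_nonneg (by exact_mod_cast hs) hσ
  have htσ : (t : ℝ) * σ ≤ 0 := mul_nonpos_of_nonpos_of_nonneg (by exact_mod_cast ht) hσ
  have ha0 : 0 ≤ 1 - (s : ℝ) * σ := by linarith
  have ha1 : 1 - (s : ℝ) * σ ≤ 1 := by linarith
  have hb0 : 0 ≤ 1 - (t : ℝ) * σ := by linarith
  have hstR : 0 ≤ (s : ℝ) + t := by exact_mod_cast hst
  have hprodnn : 0 ≤ -((s : ℝ) * t) := by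
    have hs' : (0 : ℝ) ≤ s := by exact_mod_cast hs
    have ht' : (t : ℝ) ≤ 0 := by exact_mod_cast ht
    nlinarith
  have hZ : 0 ≤ -(s * t) := by nlinarith
  have hab0 : 0 ≤ (1 - (s : ℝ) * σ) * (1 - (t : ℝ) * σ) := mul_nonneg ha0 hb0
  have hab : (1 - (s : ℝ) * σ) * (1 - (t : ℝ) * σ)
      = 1 - ((s : ℝ) + t) * σ - (-((s : ℝ) * t)) * σ ^ 2 := by ring
  have hab1 : (1 - (s : ℝ) * σ) * (1 - (t : ℝ) * σ) ≤ 1 := by
    rw [hab]
    have e1 : 0 ≤ ((s : ℝ) + t) * σ := mul_nonneg hstR hσ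
    have e2 : 0 ≤ (-((s : ℝ) * t)) * σ ^ 2 := mul_nonneg hprodnn (by positivity)
    linarith
  -- general step from `p` to `p + 1` (q fixed) using the first recurrence
  have step : ∀ N p q : ℕ,
      (0 ≤ G s t (N + 1) p q ∧
        (G s t (N + 1) p q : ℝ) * (σ ^ (N + 1) * ((1 - s * σ) ^ p * (1 - t * σ) ^ q)) ≤ 1) →
      (0 ≤ G s t N (p + 1) q ∧
        (G s t N (p + 1) q : ℝ) * (σ ^ N * ((1 - s * σ) ^ (p + 1) * (1 - t * σ) ^ q)) ≤ 1) →
      (0 ≤ G s t (N + 1) (p + 1) q ∧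
        (G s t (N + 1) (p + 1) q : ℝ)
          * (σ ^ (N + 1) * ((1 - s * σ) ^ (p + 1) * (1 - t * σ) ^ q)) ≤ 1) := by
    intro N p q hA hB
    refine ⟨?_, ?_⟩
    · rw [G_R1]
      have := hA.1
      have := hB.1
      positivity
    · rw [G_R1]
      push_cast
      have e : ((G s t (N + 1) p q : ℝ) + (s : ℝ) * (G s t N (p + 1) q : ℝ))
          * (σ ^ (N + 1) * ((1 - (s : ℝ) * σ) ^ (p + 1) * (1 - (t : ℝ) * σ) ^ q))
          = (1 - (s : ℝ) * σ) * ((G s t (N + 1) p q : ℝ)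
            * (σ ^ (N + 1) * ((1 - (s : ℝ) * σ) ^ p * (1 - (t : ℝ) * σ) ^ q)))
            + ((s : ℝ) * σ) * ((G s t N (p + 1) q : ℝ)
            * (σ ^ N * ((1 - (s : ℝ) * σ) ^ (p + 1) * (1 - (t : ℝ) * σ) ^ q))) := by
        ring
      rw [e]
      nlinarith [mul_le_mul_of_nonneg_left hA.2 ha0, mul_le_mul_of_nonneg_left hB.2 hsσ]
  -- from the diagonal to everything above it
  have up : ∀ N : ℕ, (∀ p : ℕ, 0 ≤ G s t (N + 1) p p ∧
        (G s t (N + 1) p p : ℝ) * (σ ^ (N + 1) * ((1 - s * σ) ^ p * (1 - t * σ) ^ p)) ≤ 1) →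
      (∀ p q : ℕ, q ≤ p → 0 ≤ G s t N p q ∧
        (G s t N p q : ℝ) * (σ ^ N * ((1 - s * σ) ^ p * (1 - t * σ) ^ q)) ≤ 1) →
      ∀ p q : ℕ, q ≤ p → 0 ≤ G s t (N + 1) p q ∧
        (G s t (N + 1) p q : ℝ) * (σ ^ (N + 1) * ((1 - s * σ) ^ p * (1 - t * σ) ^ q)) ≤ 1 := by
    intro N hd hN p q hqp
    induction p, hqp using Nat.le_induction with
    | base => exact hd q
    | succ p hp ih => exact step N p q ih (hN (p + 1) q (by omega))
  -- value at N = 0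
  have h0 : ∀ p q : ℕ, q ≤ p → 0 ≤ G s t 0 p q ∧
        (G s t 0 p q : ℝ) * (σ ^ 0 * ((1 - s * σ) ^ p * (1 - t * σ) ^ q)) ≤ 1 := by
    intro p q hqp
    obtain ⟨d, rfl⟩ := Nat.exists_eq_add_of_le hqp
    rw [G_zero]
    refine ⟨by norm_num, ?_⟩
    have e : ((1 : ℤ) : ℝ) * (σ ^ 0 * ((1 - (s : ℝ) * σ) ^ (q + d) * (1 - (t : ℝ) * σ) ^ q))
        = (1 - (s : ℝ) * σ) ^ d * ((1 - (s : ℝ) * σ) * (1 - (t : ℝ) * σ)) ^ q := by
      rw [mul_pow, pow_add]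
      push_cast
      ring
    rw [e]
    exact mul_le_one₀ (pow_le_one₀ ha0 ha1) (pow_nonneg hab0 q) (pow_le_one₀ hab0 hab1)
  -- diagonal at N = 1
  have d1 : ∀ p : ℕ, 0 ≤ G s t 1 p p ∧
        (G s t 1 p p : ℝ) * (σ ^ 1 * ((1 - s * σ) ^ p * (1 - t * σ) ^ p)) ≤ 1 := by
    intro p
    induction p with
    | zero =>
      rw [show (1 : ℕ) = 0 + 1 from rfl, G_succ_zero_zero]
      simp
    | succ p ih =>
      rw [G_diag_one]
      refine ⟨by have := ih.1; positivity, ?_⟩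
      push_cast
      have e : ((G s t 1 p p : ℝ) + ((s : ℝ) + t))
          * (σ ^ 1 * ((1 - (s : ℝ) * σ) ^ (p + 1) * (1 - (t : ℝ) * σ) ^ (p + 1)))
          = ((1 - (s : ℝ) * σ) * (1 - (t : ℝ) * σ)) * ((G s t 1 p p : ℝ)
            * (σ ^ 1 * ((1 - (s : ℝ) * σ) ^ p * (1 - (t : ℝ) * σ) ^ p)))
            + (((s : ℝ) + t) * σ)
              * ((1 - (s : ℝ) * σ) * (1 - (t : ℝ) * σ)) ^ (p + 1) := by
        rw [mul_pow]
        ring
      rw [e]
      have e1 : 0 ≤ ((s : ℝ) + t) * σ := mul_nonneg hstR hσ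
      have e2 : 0 ≤ (-((s : ℝ) * t)) * σ ^ 2 := mul_nonneg hprodnn (by positivity)
      have e3 : ((1 - (s : ℝ) * σ) * (1 - (t : ℝ) * σ)) ^ (p + 1) ≤ 1 := pow_le_one₀ hab0 hab1
      have e4 := mul_le_mul_of_nonneg_left ih.2 hab0
      have e5 := mul_le_mul_of_nonneg_left e3 e1
      have e6 := hab
      linarith
  -- all N
  have key : ∀ N : ℕ, (∀ p q : ℕ, q ≤ p → 0 ≤ G s t N p q ∧
        (G s t N p q : ℝ) * (σ ^ N * ((1 - s * σ) ^ p * (1 - t * σ) ^ q)) ≤ 1) ∧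
      (∀ p q : ℕ, q ≤ p → 0 ≤ G s t (N + 1) p q ∧
        (G s t (N + 1) p q : ℝ) * (σ ^ (N + 1) * ((1 - s * σ) ^ p * (1 - t * σ) ^ q)) ≤ 1) := by
    intro N
    induction N with
    | zero => exact ⟨h0, up 0 d1 h0⟩
    | succ N ih =>
      refine ⟨ih.2, up (N + 1) ?_ ih.2⟩
      intro p
      induction p with
      | zero => rw [G_succ_zero_zero]; simp
      | succ p ihp =>
        have A := ih.2 (p + 1) (p + 1) le_rfl
        have B := ih.1 (p + 1) (p + 1) le_rfl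
        rw [show N + 1 + 1 = N + 2 from rfl] at ihp ⊢
        rw [G_diag]
        refine ⟨?_, ?_⟩
        · have a1 := ihp.1
          have a2 := A.1
          have a3 := B.1
          have b1 := mul_nonneg hst a2
          have b2 := mul_nonneg hZ a3
          linarith
        · push_cast
          have e : ((G s t (N + 2) p p : ℝ) + ((s : ℝ) + t) * (G s t (N + 1) (p + 1) (p + 1) : ℝ)
              + (-((s : ℝ) * t)) * (G s t N (p + 1) (p + 1) : ℝ))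
              * (σ ^ (N + 2) * ((1 - (s : ℝ) * σ) ^ (p + 1) * (1 - (t : ℝ) * σ) ^ (p + 1)))
              = ((1 - (s : ℝ) * σ) * (1 - (t : ℝ) * σ)) * ((G s t (N + 2) p p : ℝ)
                * (σ ^ (N + 2) * ((1 - (s : ℝ) * σ) ^ p * (1 - (t : ℝ) * σ) ^ p)))
                + (((s : ℝ) + t) * σ) * ((G s t (N + 1) (p + 1) (p + 1) : ℝ)
                  * (σ ^ (N + 1)
                    * ((1 - (s : ℝ) * σ) ^ (p + 1) * (1 - (t : ℝ) * σ) ^ (p + 1))))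
                + ((-((s : ℝ) * t)) * σ ^ 2) * ((G s t N (p + 1) (p + 1) : ℝ)
                  * (σ ^ N
                    * ((1 - (s : ℝ) * σ) ^ (p + 1) * (1 - (t : ℝ) * σ) ^ (p + 1)))) := by
            ring
          rw [e]
          have e1 : 0 ≤ ((s : ℝ) + t) * σ := mul_nonneg hstR hσ
          have e2 : 0 ≤ (-((s : ℝ) * t)) * σ ^ 2 := mul_nonneg hprodnn (by positivity)
          have f1 := mul_le_mul_of_nonneg_left ihp.2 hab0
          have f2 := mul_le_mul_of_nonneg_left A.2 e1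
          have f3 := mul_le_mul_of_nonneg_left B.2 e2
          have e6 := hab
          linarith
  exact (key N).1

end Pool.Agent.H118_IntCx
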