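import Pool.Agent.H118_IntCx.CodimW

/-!
# The generic case
-/

set_option autoImplicit false

namespace Pool.Agent.H118_IntCx

open Filter Topology Pool.Agent.TH461.SST Pool.Agent.TH932.Germs Pool.Agent.TH551.SU

variable {s : ℕ} {b : Fin s → ℕ} {r : ℕ}

/-- monomials as elements of the space of polynomials -/
noncomputable def pm {r m : ℕ} (J : eL r m) : Pol r m :=
  ⟨MvPolynomial.monomial J.1 1, mem_Pol.2 (totalDegree_mono_le (mem_eL.1 J.2) 1)⟩

lemma pm_li (m : ℕ) : LinearIndependent ℚ (pm : eL r m → Pol r m) := by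
  have hli : LinearIndependent ℚ (fun J : eL r m => MvPolynomial.monomial J.1 (1 : ℚ)) :=
    monomials_li.comp (fun J : eL r m => J.1) Subtype.val_injective
  exact LinearIndependent.of_comp (Pol r m).subtype hli

/-- families in the product -/
noncomputable def fam {r m m' : ℕ} (p : eL r m → Pol r m') : eL r m' ⊕ eL r m → Pol r m' × Pol r m
  | Sum.inl J => (pm J, 0)
  | Sum.inr J => (p J, pm J)

lemma fam_li {m m' : ℕ} (p : eL r m → Pol r m') : LinearIndependent ℚ (fam p) := by
  rw [Fintype.linearIndependent_iff]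
  intro g hg
  rw [Fintype.sum_sum_type] at hg
  simp only [fam] at hg
  have h2 := congrArg Prod.snd hg
  have h1 := congrArg Prod.fst hg
  rw [Prod.snd_add, Prod.snd_sum, Prod.snd_sum] at h2
  rw [Prod.fst_add, Prod.fst_sum, Prod.fst_sum] at h1
  simp only [Prod.smul_snd, Prod.smul_fst, smul_zero, Finset.sum_const_zero, zero_add,
    Prod.snd_zero, Prod.fst_zero] at h1 h2
  have h3 := Fintype.linearIndependent_iff.1 (pm_li m) (fun J => g (Sum.inr J)) h2
  simp only [h3, zero_smul, Finset.sum_const_zero, add_zero] at h1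
  have h4 := Fintype.linearIndependent_iff.1 (pm_li m') (fun J => g (Sum.inl J)) h1
  rintro (J | J)
  · exact h4 J
  · exact h3 J

lemma card_fam (m m' : ℕ) : Fintype.card (eL r m' ⊕ eL r m) =
    Module.finrank ℚ (Pol r m' × Pol r m) := by
  rw [Fintype.card_sum, Module.finrank_prod, finrank_Pol, finrank_Pol, Fintype.card_coe,
    Fintype.card_coe, card_eL, card_eL]

theorem caseA (hb : ∀ v, (b v).Prime) (hbi : Function.Injective b) (v0 : Fin s) (hv0 : b v0 = 2)
    {N : ℕ → ℕ} (hn : Tendsto (fun t => (N t : ℝ)) atTop atTop)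
    {x : ℕ → Fin r → ℚ} (gp : GP b (fun t => (N t : ℝ)) x)
    (P : MvPolynomial (Fin r) ℚ) (e : Fin r →₀ ℕ) (H y : ℕ → ℤ)
    (hH0 : ∀ t, H t ≠ 0) (hy0 : ∀ t, y t ≠ 0)
    (heq : ∀ᶠ t in (UU : Filter ℕ), (2 : ℚ) ^ (N t) * mo (x t) e =
      H t * MvPolynomial.eval (x t) P + y t * mo (x t) e)
    (hgen : ∀ F G : MvPolynomial (Fin r) ℚ, F ≠ 0 ∨ G ≠ 0 → ∀ᶠ t in (UU : Filter ℕ),
      H t * MvPolynomial.eval (x t) F + y t * mo (x t) e * MvPolynomial.eval (x t) G ≠ 0)
    (c : ℝ) (hHb : ∀ᶠ t in (UU : Filter ℕ), |(H t : ℝ)| ≤ Real.exp (c * N t))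
    (hyb : ∀ᶠ t in (UU : Filter ℕ), |(y t : ℝ)| ≤ Real.exp (c * N t))
    (m : ℕ) (γ : ℝ) (hγ : 0 < γ) :
    ∀ᶠ t in (UU : Filter ℕ), -(γ * N t) ≤
      (Nat.choose (m + P.totalDegree + r) r : ℝ) * ∑ v, lg b v (H t : ℚ) +
        (Nat.choose (m + r) r : ℝ) * (Real.log |(y t : ℝ)| - N t * Real.log 2) := by
  classical
  obtain ⟨k, hk⟩ : ∃ k, P.totalDegree = k := ⟨_, rfl⟩
  rw [hk]
  obtain ⟨Q, hQ0, hQs, hQi, hQb⟩ := exists_scale hb hbi gp
  obtain ⟨M, hM⟩ : ∃ M : ℕ, M = m + k + e.degree := ⟨_, rfl⟩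
  obtain ⟨c', hc0', hc'⟩ := scale_bd hb hn gp Q hQ0 hQb M
  have hQne : ∀ t, ((Q t : ℚ) ^ M) ≠ 0 := fun t => pow_ne_zero _ (by exact_mod_cast (hQ0 t).ne')
  let Λ : ℕ → (Pol r (m + k) × Pol r m) →ₗ[ℚ] ℚ := fun t =>
    { toFun := fun f => (Q t : ℚ) ^ M * (H t * MvPolynomial.eval (x t) f.1.1 +
        y t * mo (x t) e * MvPolynomial.eval (x t) f.2.1)
      map_add' := by
        intro f g
        rw [Prod.fst_add, Prod.snd_add, Submodule.coe_add, Submodule.coe_add, map_add, map_add]
        ring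
      map_smul' := by
        intro a f
        rw [Prod.smul_fst, Prod.smul_snd, Submodule.coe_smul, Submodule.coe_smul,
          MvPolynomial.smul_eval, MvPolynomial.smul_eval, RingHom.id_apply, smul_eq_mul]
        ring }
  have hΛ : ∀ t (f : Pol r (m + k) × Pol r m), Λ t f = (Q t : ℚ) ^ M *
      (H t * MvPolynomial.eval (x t) f.1.1 + y t * mo (x t) e * MvPolynomial.eval (x t) f.2.1) :=
    fun _ _ => rfl
  -- the families
  have hPm : ∀ J : eL r m, (MvPolynomial.monomial J.1 (1 : ℚ) * P) ∈ Pol r (m + k) := by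
    intro J
    rw [mem_Pol]
    refine (MvPolynomial.totalDegree_mul _ _).trans ?_
    have := totalDegree_mono_le (mem_eL.1 J.2) (1 : ℚ)
    omega
  let G : Option (Fin s) → eL r (m + k) ⊕ eL r m → Pol r (m + k) × Pol r m := fun v =>
    if v = some v0 then fam (fun J => ⟨MvPolynomial.monomial J.1 (1 : ℚ) * P, hPm J⟩) else
      fam (fun _ => 0)
  -- values
  have hval1 : ∀ t (J : eL r (m + k)) (p : eL r m → Pol r (m + k)),
      Λ t (fam p (Sum.inl J)) = H t * ((Q t : ℚ) ^ M * mo (x t) J.1) := by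
    intro t J p
    rw [hΛ]
    simp only [fam, pm]
    rw [eval_monomial']
    simp only [ZeroMemClass.coe_zero, map_zero]
    ring
  have hval2 : ∀ t (J : eL r m),
      Λ t (fam (fun _ => 0) (Sum.inr J)) = y t * ((Q t : ℚ) ^ M * mo (x t) (J.1 + e)) := by
    intro t J
    rw [hΛ]
    simp only [fam, pm]
    rw [eval_monomial', mo_add]
    simp only [ZeroMemClass.coe_zero, map_zero]
    ring
  have hval3 : ∀ᶠ t in (UU : Filter ℕ), ∀ (J : eL r m),
      Λ t (fam (fun J => ⟨MvPolynomial.monomial J.1 (1 : ℚ) * P, hPm J⟩) (Sum.inr J)) =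
        2 ^ (N t) * ((Q t : ℚ) ^ M * mo (x t) (J.1 + e)) := by
    filter_upwards [heq] with t ht J
    rw [hΛ]
    simp only [fam, pm]
    rw [map_mul, eval_monomial', mo_add]
    linear_combination (-(Q t : ℚ) ^ M * mo (x t) J.1) * ht
  have h := sub_uu' hb hbi (fun t => (N t : ℝ)) hn Λ (Set.range (fam (fun _ => 0))) ?_ ?_ ?_ ?_
    (card_fam m (m + k)) G ?_ γ hγ
  · filter_upwards [h, hval3] with t ht ht3
    refine ht.trans ?_
    have hmo : ∀ J : Fin r →₀ ℕ, ((Q t : ℚ) ^ M * mo (x t) J) ≠ 0 := fun J =>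
      mul_ne_zero (hQne t) (mo_pos (gp.pos t) J).ne'
    have hHq : (H t : ℚ) ≠ 0 := by exact_mod_cast hH0 t
    have hyq : (y t : ℚ) ≠ 0 := by exact_mod_cast hy0 t
    have h2q : (2 : ℚ) ^ (N t) ≠ 0 := by positivity
    -- the value at each place
    have hv : ∀ v, ∑ l, lg b v (Λ t (G v l)) =
        (∑ J : eL r (m + k), (lg b v (H t : ℚ) + lg b v ((Q t : ℚ) ^ M * mo (x t) J.1))) +
        ∑ J : eL r m, ((if v = some v0 then lg b v ((2 : ℚ) ^ (N t)) else lg b v (y t : ℚ)) +
          lg b v ((Q t : ℚ) ^ M * mo (x t) (J.1 + e))) := by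
      intro v
      rw [Fintype.sum_sum_type]
      by_cases hv : v = some v0
      · simp only [G, if_pos hv, hval1, ht3]
        congr 1
        · exact Finset.sum_congr rfl fun J _ => lg_mul hb v hHq (hmo _)
        · exact Finset.sum_congr rfl fun J _ => lg_mul hb v h2q (hmo _)
      · simp only [G, if_neg hv, hval1, hval2]
        congr 1
        · exact Finset.sum_congr rfl fun J _ => lg_mul hb v hHq (hmo _)
        · exact Finset.sum_congr rfl fun J _ => lg_mul hb v hyq (hmo _)
    simp only [hv, Finset.sum_add_distrib]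
    have hz1 : ∑ v, ∑ J : eL r (m + k), lg b v ((Q t : ℚ) ^ M * mo (x t) J.1) = 0 := by
      rw [Finset.sum_comm]
      exact Finset.sum_eq_zero fun J _ =>
        sum_lg_su hb hbi (su_mul hb (su_pow hb (hQs t) _) (mo_su hb (gp.su t) _))
    have hz2 : ∑ v, ∑ J : eL r m, lg b v ((Q t : ℚ) ^ M * mo (x t) (J.1 + e)) = 0 := by
      rw [Finset.sum_comm]
      exact Finset.sum_eq_zero fun J _ =>
        sum_lg_su hb hbi (su_mul hb (su_pow hb (hQs t) _) (mo_su hb (gp.su t) _))
    rw [hz1, hz2, add_zero, add_zero]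
    simp only [Finset.sum_const, Finset.card_univ, Fintype.card_coe, nsmul_eq_mul, card_eL]
    rw [← Finset.mul_sum, ← Finset.mul_sum]
    have hy1 : ∑ v, (if v = some v0 then lg b v ((2 : ℚ) ^ (N t)) else lg b v (y t : ℚ)) ≤
        Real.log |(y t : ℝ)| - N t * Real.log 2 := by
      rw [Fintype.sum_option, if_neg (by simp), lg_none_int]
      have h3 : ∑ v : Fin s, (if (some v : Option (Fin s)) = some v0 then
          lg b (some v) ((2 : ℚ) ^ (N t)) else lg b (some v) (y t : ℚ)) ≤
          ∑ v : Fin s, (if v = v0 then -(N t * Real.log 2) else 0) := by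
        refine Finset.sum_le_sum fun v _ => ?_
        by_cases hv : v = v0
        · rw [if_pos (by rw [hv]), if_pos hv, hv, lg_pow hb]
          have h4 : lg b (some v0) (2 : ℚ) = -Real.log 2 := by
            have := Fact.mk (hb v0)
            have h5 := lg_some_int hb v0 (z := 2) (by norm_num)
            have h6 : padicValInt (b v0) 2 = 1 := by
              have : (2 : ℤ) = ((b v0 : ℕ) : ℤ) := by rw [hv0]; rfl
              rw [this]
              simp
            rw [h6, hv0] at h5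
            push_cast at h5
            rw [h5]
            ring
          rw [h4]
          linarith
        · rw [if_neg (fun h => hv (Option.some.inj h)), if_neg hv]
          exact lg_int_le hb v _
      rw [Finset.sum_ite_eq' Finset.univ v0, if_pos (Finset.mem_univ _)] at h3
      linarith
    have h4 : (0 : ℝ) ≤ (Nat.choose (m + r) r : ℝ) := Nat.cast_nonneg _
    have h5 := mul_le_mul_of_nonneg_left hy1 h4
    linarith
  · exact (fam_li _).span_eq_top_of_card_eq_finrank' (card_fam m (m + k))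
  · rintro f ⟨J | J, rfl⟩
    · refine Eventually.of_forall fun t => ?_
      rw [hval1]
      have := mem_eL.1 J.2
      exact int_mul' ⟨H t, rfl⟩ (scale_int ⟨Q t, by push_cast; rfl⟩ (hQi t) (by omega))
    · refine Eventually.of_forall fun t => ?_
      rw [hval2]
      have := mem_eL.1 J.2
      exact int_mul' ⟨y t, rfl⟩ (scale_int ⟨Q t, by push_cast; rfl⟩ (hQi t)
        (by rw [map_add]; omega))
  · rintro f ⟨J | J, rfl⟩
    · refine ⟨c + c', ?_⟩
      filter_upwards [hc', hHb] with t h3 h4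
      rw [hval1, Rat.cast_mul, abs_mul, add_mul, Real.exp_add]
      have := mem_eL.1 J.2
      exact mul_le_mul (by push_cast; exact h4) (h3 _ (by omega)) (abs_nonneg _)
        (Real.exp_pos _).le
    · refine ⟨c + c', ?_⟩
      filter_upwards [hc', hyb] with t h3 h4
      rw [hval2, Rat.cast_mul, abs_mul, add_mul, Real.exp_add]
      have := mem_eL.1 J.2
      exact mul_le_mul (by push_cast; exact h4) (h3 _ (by rw [map_add]; omega)) (abs_nonneg _)
        (Real.exp_pos _).le
  · intro w hw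
    have hw' : w.1.1 ≠ 0 ∨ w.2.1 ≠ 0 := by
      by_contra hcon
      push Not at hcon
      exact hw (Prod.ext (Subtype.ext hcon.1) (Subtype.ext hcon.2))
    filter_upwards [hgen _ _ hw'] with t ht
    rw [hΛ]
    exact mul_ne_zero (hQne t) ht
  · intro v
    simp only [G]
    split_ifs with hv
    · exact fam_li _
    · exact fam_li _

end Pool.Agent.H118_IntCx
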