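import Pool.Agent.H118_IntCx.Ech

/-!
# Integral values of a large space of polynomials
-/

set_option autoImplicit false

namespace Pool.Agent.H118_IntCx

open Filter Topology Pool.Agent.TH461.SST Pool.Agent.TH932.Germs Pool.Agent.TH551.SU

variable {s : ℕ} {b : Fin s → ℕ}

/-- an enumeration which respects a weight -/
lemma exists_sort {α : Type} [Fintype α] {k : ℕ} (hk : Fintype.card α = k) (w : α → ℝ) :
    ∃ σ : α ≃ Fin k, ∀ J K, σ J ≤ σ K → w J ≤ w K := by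
  let e0 : α ≃ Fin k := Fintype.equivFinOfCardEq hk
  let f : Fin k → ℝ := fun i => w (e0.symm i)
  refine ⟨e0.trans (Tuple.sort f).symm, fun J K h => ?_⟩
  have h1 := Tuple.monotone_sort f h
  simp only [Function.comp_apply, Equiv.trans_apply, Equiv.apply_symm_apply, f,
    Equiv.symm_apply_apply] at h1
  exact h1

lemma sum_inj_le {α : Type} [Fintype α] {d : ℕ} (p : Fin d → α) (hp : Function.Injective p)
    (w : α → ℝ) (M : ℝ) (hM : ∀ J, |w J| ≤ M) :
    ∑ l, w (p l) ≤ ∑ J, w J + ((Fintype.card α : ℝ) - d) * M := by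
  classical
  have h1 : ∑ l, w (p l) = ∑ J ∈ Finset.univ.image p, w J := by
    rw [Finset.sum_image fun _ _ _ _ h => hp h]
  have h2 := Finset.sum_add_sum_compl (Finset.univ.image p) w
  have h3 : -(((Finset.univ.image p)ᶜ.card : ℝ) * M) ≤ ∑ J ∈ (Finset.univ.image p)ᶜ, w J := by
    rw [← nsmul_eq_mul, ← smul_neg, ← Finset.sum_const]
    exact Finset.sum_le_sum fun J _ => (abs_le.1 (hM J)).1
  have h4 : ((Finset.univ.image p)ᶜ.card : ℝ) = (Fintype.card α : ℝ) - d := by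
    rw [Finset.card_compl, Nat.cast_sub (Finset.card_le_univ _), Finset.card_image_of_injective _ hp,
      Finset.card_univ, Fintype.card_fin]
  rw [h4] at h3
  rw [h1]
  linarith

theorem gcdB (hb : ∀ v, (b v).Prime) (hbi : Function.Injective b) {n : ℕ → ℝ}
    (hn : Tendsto n atTop atTop) {r : ℕ} {x : ℕ → Fin r → ℚ} (gp : GP b n x)
    (C1 : ℝ) (hC1 : 0 ≤ C1)
    (hC : ∀ᶠ t in (UU : Filter ℕ), ∀ v i, |lg b v (x t i)| ≤ C1 * n t)
    (S : Finset (Fin r →₀ ℕ)) (m : ℕ) (hS : ∀ J ∈ S, J.degree ≤ m)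
    (W : Submodule ℚ (MvPolynomial (Fin r) ℚ)) [Module.Finite ℚ W]
    (hW : ∀ f ∈ W, f.support ⊆ S) (ρ : ℕ → ℚ)
    (hρ : ∀ᶠ t in (UU : Filter ℕ), ρ t ≠ 0) (T : Set (MvPolynomial (Fin r) ℚ))
    (hT : Submodule.span ℚ T = W)
    (hTi : ∀ f ∈ T, ∀ᶠ t in (UU : Filter ℕ), ∃ z : ℤ, ρ t * MvPolynomial.eval (x t) f = z)
    (hTb : ∀ f ∈ T, ∃ c : ℝ, ∀ᶠ t in (UU : Filter ℕ),
      |((ρ t * MvPolynomial.eval (x t) f : ℚ) : ℝ)| ≤ Real.exp (c * n t))
    (γ : ℝ) (hγ : 0 < γ) :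
    ∃ C : ℝ, ∀ᶠ t in (UU : Filter ℕ), -(γ * n t) ≤
      (Module.finrank ℚ W : ℝ) * ∑ v, lg b v (ρ t) +
        (s + 1) * (((S.card : ℝ) - Module.finrank ℚ W) * (m * (C1 * n t))) + C := by
  classical
  obtain ⟨d, hd⟩ : ∃ d, Module.finrank ℚ W = d := ⟨_, rfl⟩
  choose p g hp hgW hgli hgs using fun σ : S ≃ Fin S.card => ech_poly S σ W hW hd
  -- the subspace theorem for all enumerations
  have h1 : ∀ᶠ t in (UU : Filter ℕ), ∀ σ : Option (Fin s) → (S ≃ Fin S.card),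
      -(γ * n t) ≤ ∑ v, ∑ l, lg b v (ρ t * MvPolynomial.eval (x t) (g (σ v) l)) := by
    rw [eventually_all]
    intro σ
    exact sub_poly hb hbi hn gp W ρ hρ T hT hTi hTb (ι := Fin d) (by rw [Fintype.card_fin, hd])
      (fun v l => g (σ v) l) (fun v l => hgW _ _) (fun v => hgli _) γ hγ
  have h2 : ∀ᶠ t in (UU : Filter ℕ), ∀ (σ : S ≃ Fin S.card) (l : Fin d),
      MvPolynomial.eval (x t) (g σ l) ≠ 0 := by
    rw [eventually_all]
    intro σ
    rw [eventually_all]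
    intro l
    exact gp.gen _ ((hgli σ).ne_zero l)
  -- constants
  choose Cc hCc0 hCc using fun (v : Option (Fin s)) (σ : S ≃ Fin S.card) (l : Fin d) =>
    lg_sum_le hb v (g σ l).support (fun J => MvPolynomial.coeff J (g σ l))
  obtain ⟨C2, hC2⟩ : ∃ C2 : ℝ, ∀ v σ l, Cc v σ l ≤ C2 := by
    obtain ⟨C2, h⟩ := (Set.finite_range
      (fun q : Option (Fin s) × (S ≃ Fin S.card) × Fin d => Cc q.1 q.2.1 q.2.2)).bddAbove
    exact ⟨C2, fun v σ l => h ⟨(v, σ, l), rfl⟩⟩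
  refine ⟨(s + 1) * (d * C2), ?_⟩
  filter_upwards [h1, h2, hC, hρ, ev_top hn 0] with t ht1 ht2 ht3 ht4 ht5
  -- sort
  choose σ hσ using fun v => exists_sort (α := S) (k := S.card) (Fintype.card_coe S)
    (fun J => lg b v (mo (x t) J.1))
  have hM : ∀ v (J : S), |lg b v (mo (x t) J.1)| ≤ m * (C1 * n t) := by
    intro v J
    refine (abs_lg_mo hb v (gp.pos t) (ht3 v) J.1).trans ?_
    exact mul_le_mul_of_nonneg_right (by exact_mod_cast hS _ J.2) (mul_nonneg hC1 ht5)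
  have h3 : ∀ v l, lg b v (ρ t * MvPolynomial.eval (x t) (g (σ v) l)) ≤
      lg b v (ρ t) + lg b v (mo (x t) (p (σ v) l).1) + C2 := by
    intro v l
    rw [lg_mul hb v ht4 (ht2 _ _)]
    have h4 := hCc v (σ v) l (fun J => mo (x t) J) (lg b v (mo (x t) (p (σ v) l).1)) ?_ ?_
    · rw [← eval_mo] at h4
      linarith [hC2 v (σ v) l]
    · intro J hJ _
      refine ⟨(mo_pos (gp.pos t) J).ne', ?_⟩
      obtain ⟨hJS, hle⟩ := hgs (σ v) l J hJ
      exact hσ v ⟨J, hJS⟩ _ hle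
    · rw [← eval_mo]
      exact ht2 _ _
  have h5 : ∀ v, ∑ l, lg b v (ρ t * MvPolynomial.eval (x t) (g (σ v) l)) ≤
      d * lg b v (ρ t) + (∑ J : S, lg b v (mo (x t) J.1) +
        ((S.card : ℝ) - d) * (m * (C1 * n t))) + d * C2 := by
    intro v
    have h6 := sum_inj_le (p (σ v)) (hp (σ v)) (fun J : S => lg b v (mo (x t) J.1))
      (m * (C1 * n t)) (hM v)
    rw [Fintype.card_coe] at h6
    refine (Finset.sum_le_sum fun l _ => h3 v l).trans ?_
    rw [Finset.sum_add_distrib, Finset.sum_add_distrib, Finset.sum_const, Finset.sum_const,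
      Finset.card_univ, Fintype.card_fin, nsmul_eq_mul, nsmul_eq_mul]
    linarith
  have h6 := (ht1 σ).trans (Finset.sum_le_sum fun v _ => h5 v)
  have h7 : ∑ v, ∑ J : S, lg b v (mo (x t) J.1) = 0 := by
    rw [Finset.sum_comm]
    exact Finset.sum_eq_zero fun J _ => sum_lg_su hb hbi (mo_su hb (gp.su t) _)
  rw [Finset.sum_add_distrib, Finset.sum_add_distrib, Finset.sum_add_distrib, h7,
    ← Finset.mul_sum, Finset.sum_const, Finset.sum_const, Finset.card_univ, Fintype.card_option,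
    Fintype.card_fin, nsmul_eq_mul, nsmul_eq_mul] at h6
  push_cast at h6
  rw [hd]
  linarith

end Pool.Agent.H118_IntCx
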