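import Pool.Agent.H118_IntCx.CodimW
import Pool.Agent.H118_IntCx.GcdB

/-!
# Common divisors of values of coprime polynomials at S-units
-/

set_option autoImplicit false

namespace Pool.Agent.H118_IntCx

open Filter Topology Pool.Agent.TH461.SST Pool.Agent.TH932.Germs Pool.Agent.TH551.SU

variable {s : ℕ} {b : Fin s → ℕ}

theorem caseB (hb : ∀ v, (b v).Prime) (hbi : Function.Injective b) {n : ℕ → ℝ}
    (hn : Tendsto n atTop atTop) {r : ℕ} {x : ℕ → Fin r → ℚ} (gp : GP b n x)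
    {D C : MvPolynomial (Fin r) ℚ} (hD0 : D ≠ 0) (hC0 : C ≠ 0) (hrel : IsRelPrime D C)
    (ρ : ℕ → ℚ) (hρ : ∀ᶠ t in (UU : Filter ℕ), ρ t ≠ 0) (e1 e2 : Fin r →₀ ℕ)
    (h1 h2 : ℕ → ℤ)
    (hh1 : ∀ᶠ t in (UU : Filter ℕ), ρ t * MvPolynomial.eval (x t) D = h1 t * mo (x t) e1)
    (hh2 : ∀ᶠ t in (UU : Filter ℕ), ρ t * MvPolynomial.eval (x t) C = h2 t * mo (x t) e2)
    (c : ℝ) (hc1 : ∀ᶠ t in (UU : Filter ℕ), |(h1 t : ℝ)| ≤ Real.exp (c * n t))
    (hc2 : ∀ᶠ t in (UU : Filter ℕ), |(h2 t : ℝ)| ≤ Real.exp (c * n t)) (ε : ℝ) (hε : 0 < ε) :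
    ∀ᶠ t in (UU : Filter ℕ), -(ε * n t) ≤ ∑ v, lg b v (ρ t) := by
  classical
  obtain ⟨C1, hC10, hC1⟩ := gp.bd
  obtain ⟨η, hη⟩ : ∃ η : ℝ, η = ε / (4 * ((s + 1) * (C1 + 1))) := ⟨_, rfl⟩
  have hη0 : 0 < η := by rw [hη]; positivity
  obtain ⟨m, hm, hd, hcod⟩ := exists_deg hD0 hC0 hrel η hη0
  obtain ⟨Q, hQ0, hQs, hQi, hQb⟩ := exists_scale hb hbi gp
  obtain ⟨M, hM⟩ : ∃ M : ℕ, M = m + e1.degree + e2.degree := ⟨_, rfl⟩
  obtain ⟨c', hc0', hc'⟩ := scale_bd hb hn gp Q hQ0 hQb M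
  have hdeg1 : ∀ J ∈ eL r (m - D.totalDegree), (J + e1).degree ≤ M := by
    intro J hJ
    rw [map_add]
    have := mem_eL.1 hJ
    omega
  have hdeg2 : ∀ J ∈ eL r (m - C.totalDegree), (J + e2).degree ≤ M := by
    intro J hJ
    rw [map_add]
    have := mem_eL.1 hJ
    omega
  have hev1 : ∀ J : Fin r →₀ ℕ, ∀ᶠ t in (UU : Filter ℕ), (ρ t * (Q t : ℚ) ^ M) *
      MvPolynomial.eval (x t) (mulP D (MvPolynomial.monomial J 1)) =
      h1 t * ((Q t : ℚ) ^ M * mo (x t) (J + e1)) := by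
    intro J
    filter_upwards [hh1] with t ht
    rw [mulP_apply, map_mul, eval_monomial', one_mul, mo_add]
    linear_combination (Q t : ℚ) ^ M * mo (x t) J * ht
  have hev2 : ∀ J : Fin r →₀ ℕ, ∀ᶠ t in (UU : Filter ℕ), (ρ t * (Q t : ℚ) ^ M) *
      MvPolynomial.eval (x t) (mulP C (MvPolynomial.monomial J 1)) =
      h2 t * ((Q t : ℚ) ^ M * mo (x t) (J + e2)) := by
    intro J
    filter_upwards [hh2] with t ht
    rw [mulP_apply, map_mul, eval_monomial', one_mul, mo_add]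
    linear_combination (Q t : ℚ) ^ M * mo (x t) J * ht
  have hQne : ∀ t, ((Q t : ℚ) ^ M) ≠ 0 := fun t => pow_ne_zero _ (by exact_mod_cast (hQ0 t).ne')
  obtain ⟨C2, hC2⟩ := gcdB hb hbi hn gp C1 hC10 hC1 (eL r m) m (fun J hJ => mem_eL.1 hJ)
    (WW D C m) (fun f hf => support_of_Pol (WW_le (by omega) (by omega) hf))
    (fun t => ρ t * (Q t : ℚ) ^ M) (hρ.mono fun t ht => mul_ne_zero ht (hQne t))
    (TT D C m) (span_TT D C m) (by
      rintro f (⟨_, ⟨J, rfl⟩, rfl⟩ | ⟨_, ⟨J, rfl⟩, rfl⟩)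
      · filter_upwards [hev1 J.1] with t ht
        rw [ht]
        exact int_mul' ⟨h1 t, rfl⟩ (scale_int ⟨Q t, by push_cast; rfl⟩ (hQi t) (hdeg1 _ J.2))
      · filter_upwards [hev2 J.1] with t ht
        rw [ht]
        exact int_mul' ⟨h2 t, rfl⟩ (scale_int ⟨Q t, by push_cast; rfl⟩ (hQi t) (hdeg2 _ J.2)))
    (by
      rintro f (⟨_, ⟨J, rfl⟩, rfl⟩ | ⟨_, ⟨J, rfl⟩, rfl⟩)
      · refine ⟨c + c', ?_⟩
        filter_upwards [hev1 J.1, hc', hc1] with t ht h3 h4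
        rw [ht, Rat.cast_mul, abs_mul, add_mul, Real.exp_add]
        exact mul_le_mul (by push_cast; exact h4) (h3 _ (hdeg1 _ J.2)) (abs_nonneg _)
          (Real.exp_pos _).le
      · refine ⟨c + c', ?_⟩
        filter_upwards [hev2 J.1, hc', hc2] with t ht h3 h4
        rw [ht, Rat.cast_mul, abs_mul, add_mul, Real.exp_add]
        exact mul_le_mul (by push_cast; exact h4) (h3 _ (hdeg2 _ J.2)) (abs_nonneg _)
          (Real.exp_pos _).le)
    (ε / 4) (by positivity)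
  set d : ℝ := (Module.finrank ℚ (WW D C m) : ℝ) with hdd
  have hd1 : 1 ≤ d := by
    rw [hdd]
    exact_mod_cast hd
  filter_upwards [hC2, hρ, ev_top hn 0, ev_top hn (4 * |C2| / ε)] with t ht1 ht2 ht3 ht4
  have h3 : ∑ v, lg b v (ρ t * (Q t : ℚ) ^ M) = ∑ v, lg b v (ρ t) := by
    have h4 : ∀ v, lg b v (ρ t * (Q t : ℚ) ^ M) = lg b v (ρ t) + lg b v ((Q t : ℚ) ^ M) :=
      fun v => lg_mul hb v ht2 (hQne t)
    rw [Finset.sum_congr rfl fun v _ => h4 v, Finset.sum_add_distrib,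
      sum_lg_su hb hbi (su_pow hb (hQs t) M), add_zero]
  rw [h3] at ht1
  have h4 : (((eL r m).card : ℝ) - d) * (m * (C1 * n t)) ≤ η * d * (C1 * n t) := by
    calc (((eL r m).card : ℝ) - d) * (m * (C1 * n t)) =
          ((((eL r m).card : ℝ) - d) * m) * (C1 * n t) := by ring
      _ ≤ η * d * (C1 * n t) := mul_le_mul_of_nonneg_right hcod (mul_nonneg hC10 ht3)
  have h5 : (s + 1) * (η * d * (C1 * n t)) ≤ ε / 4 * n t * d := by
    have h6 : (s + 1) * (η * (C1 + 1)) = ε / 4 := by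
      rw [hη]
      field_simp
    have h7 : (s + 1) * (η * d * (C1 * n t)) ≤ (s + 1) * (η * d * ((C1 + 1) * n t)) := by
      have : C1 * n t ≤ (C1 + 1) * n t := by nlinarith
      gcongr
    calc (s + 1) * (η * d * (C1 * n t)) ≤ (s + 1) * (η * d * ((C1 + 1) * n t)) := h7
      _ = ((s + 1) * (η * (C1 + 1))) * n t * d := by ring
      _ = ε / 4 * n t * d := by rw [h6]
  have h6 : |C2| ≤ ε / 4 * n t := by
    rw [div_le_iff₀ hε] at ht4
    linarith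
  have h7 : C2 ≤ ε / 4 * n t * d := by
    have h8 : 0 ≤ ε / 4 * n t := by positivity
    have := le_abs_self C2
    nlinarith
  have h8 : ε / 4 * n t ≤ ε / 4 * n t * d := by
    have h9 : 0 ≤ ε / 4 * n t := by positivity
    nlinarith
  have h9 : ((s : ℝ) + 1) * ((((eL r m).card : ℝ) - d) * (m * (C1 * n t))) ≤ ε / 4 * n t * d :=
    (mul_le_mul_of_nonneg_left h4 (by positivity)).trans h5
  have h10 : -(3 * (ε / 4) * n t) * d ≤ (∑ v, lg b v (ρ t)) * d := by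
    linarith
  have h11 := le_of_mul_le_mul_right h10 (by linarith)
  have h12 : 0 ≤ ε * n t := by positivity
  linarith

end Pool.Agent.H118_IntCx
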