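import Pool.Agent.H118_IntCx.SumA

/-!
# Sizes of polynomials at S-units in general position
-/

set_option autoImplicit false

namespace Pool.Agent.H118_IntCx

open Filter Topology Pool.Agent.TH461.SST Pool.Agent.TH932.Germs Pool.Agent.TH551.SU

variable {s : ℕ} {b : Fin s → ℕ}

/-- the value of a polynomial has the size of its largest monomial, at each place -/
theorem sizes (hb : ∀ v, (b v).Prime) (hbi : Function.Injective b) {n : ℕ → ℝ}
    (hn : Tendsto n atTop atTop) {r : ℕ} {x : ℕ → Fin r → ℚ} (gp : GP b n x)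
    (F : MvPolynomial (Fin r) ℚ) (hF : F ≠ 0) (ε : ℝ) (hε : 0 < ε) :
    ∀ᶠ t in (UU : Filter ℕ), ∀ v,
      (∀ J ∈ F.support, lg b v (mo (x t) J) - ε * n t ≤ lg b v (MvPolynomial.eval (x t) F)) ∧
      ∃ J ∈ F.support, lg b v (MvPolynomial.eval (x t) F) ≤ lg b v (mo (x t) J) + ε * n t := by
  classical
  choose Cc hCc0 hCc using fun (v : Option (Fin s)) =>
    lg_sum_le hb v F.support (fun J => MvPolynomial.coeff J F)
  have hne : F.support.Nonempty := MvPolynomial.support_nonempty.2 hF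
  filter_upwards [sumA hb hbi hn gp F hF (ε / 2) (by positivity), gp.gen F hF,
    ev_top hn ((∑ v, Cc v) / (ε / 2))] with t h1 h2 h3
  have h4 : ∑ v, Cc v ≤ ε / 2 * n t := by
    rw [div_le_iff₀ (by positivity)] at h3
    linarith
  -- upper bounds
  have h5 : ∀ v, ∃ J ∈ F.support, lg b v (MvPolynomial.eval (x t) F) ≤
      lg b v (mo (x t) J) + Cc v := by
    intro v
    obtain ⟨J, hJ, hmax⟩ := Finset.exists_max_image F.support (fun J => lg b v (mo (x t) J)) hne
    refine ⟨J, hJ, ?_⟩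
    have h6 := hCc v (fun J => mo (x t) J) (lg b v (mo (x t) J)) (fun K hK _ =>
      ⟨(mo_pos (gp.pos t) K).ne', hmax K hK⟩) (by rw [← eval_mo]; exact h2)
    rwa [← eval_mo] at h6
  have hCs : ∀ v, Cc v ≤ ∑ v, Cc v := fun v =>
    Finset.single_le_sum (f := Cc) (fun v _ => hCc0 v) (Finset.mem_univ v)
  intro v
  refine ⟨?_, ?_⟩
  · intro J hJ
    choose K hK hKle using h5
    have h6 := h1 (fun w => if w = v then J else K w) (fun w => by
      split_ifs
      · exact hJ
      · exact hK w)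
    rw [← Finset.add_sum_erase _ _ (Finset.mem_univ v), if_pos rfl] at h6
    have h7 : ∑ w ∈ Finset.univ.erase v, (lg b w (MvPolynomial.eval (x t) F) -
        lg b w (mo (x t) (if w = v then J else K w))) ≤ ∑ w ∈ Finset.univ.erase v, Cc w := by
      refine Finset.sum_le_sum fun w hw => ?_
      rw [if_neg (Finset.ne_of_mem_erase hw)]
      linarith [hKle w]
    have h8 : ∑ w ∈ Finset.univ.erase v, Cc w ≤ ∑ w, Cc w :=
      Finset.sum_le_sum_of_subset_of_nonneg (Finset.erase_subset _ _) fun w _ _ => hCc0 w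
    linarith
  · obtain ⟨J, hJ, hle⟩ := h5 v
    refine ⟨J, hJ, ?_⟩
    have h9 : 0 ≤ ∑ v, Cc v := Finset.sum_nonneg fun v _ => hCc0 v
    linarith [hCs v]

/-- if the value is almost a unit, the monomials are almost proportional -/
theorem sizes_unit (hb : ∀ v, (b v).Prime) (hbi : Function.Injective b) {n : ℕ → ℝ}
    (hn : Tendsto n atTop atTop) {r : ℕ} {x : ℕ → Fin r → ℚ} (gp : GP b n x)
    (F : MvPolynomial (Fin r) ℚ) (hF : F ≠ 0) (ε : ℝ) (hε : 0 < ε) :
    ∀ᶠ t in (UU : Filter ℕ), ∀ v, ∀ J ∈ F.support, ∀ K ∈ F.support,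
      lg b v (mo (x t) J) - lg b v (mo (x t) K) ≤
        ∑ w, lg b w (MvPolynomial.eval (x t) F) + ε * n t := by
  classical
  filter_upwards [sumA hb hbi hn gp F hF ε hε] with t h1 v J hJ K hK
  have h2 := h1 (fun w => if w = v then J else K) (fun w => by
    split_ifs
    · exact hJ
    · exact hK)
  rw [Finset.sum_sub_distrib] at h2
  have h3 : ∑ w, lg b w (mo (x t) (if w = v then J else K)) =
      (lg b v (mo (x t) J) - lg b v (mo (x t) K)) + ∑ w, lg b w (mo (x t) K) := by
    rw [← Finset.add_sum_erase _ _ (Finset.mem_univ v), if_pos rfl,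
      ← Finset.add_sum_erase _ (fun w => lg b w (mo (x t) K)) (Finset.mem_univ v)]
    have h4 : ∑ w ∈ Finset.univ.erase v, lg b w (mo (x t) (if w = v then J else K)) =
        ∑ w ∈ Finset.univ.erase v, lg b w (mo (x t) K) :=
      Finset.sum_congr rfl fun w hw => by rw [if_neg (Finset.ne_of_mem_erase hw)]
    rw [h4]
    ring
  rw [h3, sum_lg_su hb hbi (mo_su hb (gp.su t) K)] at h2
  linarith

/-- the leading term of a product, for a weight -/
lemma exists_lead {r : ℕ} (P D : MvPolynomial (Fin r) ℚ) (hP : P ≠ 0) (hD : D ≠ 0)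
    (W : (Fin r →₀ ℕ) → ℝ) (hW : ∀ J K, W (J + K) = W J + W K) :
    ∃ a ∈ P.support, ∃ d ∈ D.support, (∀ a' ∈ P.support, W a' ≤ W a) ∧
      (∀ d' ∈ D.support, W d' ≤ W d) ∧ MvPolynomial.coeff (a + d) (P * D) ≠ 0 := by
  classical
  obtain ⟨a1, ha1, hmaxa⟩ := Finset.exists_max_image P.support W
    (MvPolynomial.support_nonempty.2 hP)
  obtain ⟨d1, hd1, hmaxd⟩ := Finset.exists_max_image D.support W
    (MvPolynomial.support_nonempty.2 hD)
  obtain ⟨a, ha, d, hd, huniq⟩ := UniqueSums.uniqueAdd_of_nonempty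
    (A := P.support.filter fun J => W J = W a1) (B := D.support.filter fun J => W J = W d1)
    ⟨a1, by simp [MvPolynomial.mem_support_iff.1 ha1]⟩
    ⟨d1, by simp [MvPolynomial.mem_support_iff.1 hd1]⟩
  rw [Finset.mem_filter] at ha hd
  refine ⟨a, ha.1, d, hd.1, fun a' h => by rw [ha.2]; exact hmaxa a' h,
    fun d' h => by rw [hd.2]; exact hmaxd d' h, ?_⟩
  rw [MvPolynomial.coeff_mul, Finset.sum_eq_single (a, d)]
  · exact mul_ne_zero (MvPolynomial.mem_support_iff.1 ha.1) (MvPolynomial.mem_support_iff.1 hd.1)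
  · rintro ⟨J, K⟩ hJK hne
    rw [Finset.HasAntidiagonal.mem_antidiagonal] at hJK
    simp only at hJK
    by_contra hcon
    have hJ : J ∈ P.support := MvPolynomial.mem_support_iff.2 (left_ne_zero_of_mul hcon)
    have hK : K ∈ D.support := MvPolynomial.mem_support_iff.2 (right_ne_zero_of_mul hcon)
    have h1 : W J + W K = W a1 + W d1 := by
      rw [← hW, hJK, hW, ha.2, hd.2]
    have h2 := hmaxa J hJ
    have h3 := hmaxd K hK
    have h4 : W J = W a1 := by linarith
    have h5 : W K = W d1 := by linarith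
    have h6 := huniq (Finset.mem_filter.2 ⟨hJ, h4⟩) (Finset.mem_filter.2 ⟨hK, h5⟩) hJK
    exact hne (Prod.ext h6.1 h6.2)
  · intro h
    exfalso
    apply h
    rw [Finset.HasAntidiagonal.mem_antidiagonal]

end Pool.Agent.H118_IntCx
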