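import Pool.Agent.H118_IntCx.CaseB
import Pool.Agent.H118_IntCx.Sizes

/-!
# The degenerate case
-/

set_option autoImplicit false

namespace Pool.Agent.H118_IntCx

open Filter Topology Pool.Agent.TH461.SST Pool.Agent.TH932.Germs Pool.Agent.TH551.SU

variable {s : ℕ} {b : Fin s → ℕ} {r : ℕ}

lemma su_two {v0 : Fin s} (hv0 : b v0 = 2) : IsSU b 2 := by
  classical
  refine ⟨1, fun v => if v = v0 then 1 else 0, Or.inl rfl, ?_⟩
  rw [Finset.prod_eq_single v0]
  · simp [hv0]
  · intro v _ hv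
    show (b v : ℚ) ^ (if v = v0 then (1 : ℤ) else 0) = 1
    rw [if_neg hv, zpow_zero]
  · intro h
    exact absurd (Finset.mem_univ _) h

lemma lg_two_ne (hb : ∀ v, (b v).Prime) (hbi : Function.Injective b) {v0 v1 : Fin s}
    (hv0 : b v0 = 2) (hv : v1 ≠ v0) : lg b (some v1) 2 = 0 := by
  have h5 := lg_some_int hb v1 (z := 2) (by norm_num)
  have h6 : padicValInt (b v1) 2 = 0 := by
    have h7 : ¬ (b v1) ∣ 2 := by
      intro h
      have := (Nat.prime_dvd_prime_iff_eq (hb v1) Nat.prime_two).1 h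
      exact hv (hbi (this.trans hv0.symm))
    exact padicValNat.eq_zero_of_not_dvd h7
  rw [h6] at h5
  push_cast at h5
  rw [h5]
  ring

theorem caseD (hb : ∀ v, (b v).Prime) (hbi : Function.Injective b) (v0 : Fin s) (hv0 : b v0 = 2)
    {N : ℕ → ℕ} (hn : Tendsto (fun t => (N t : ℝ)) atTop atTop)
    {x : ℕ → Fin r → ℚ} (gp : GP b (fun t => (N t : ℝ)) x)
    (P : MvPolynomial (Fin r) ℚ) (hP : P ≠ 0) (e : Fin r →₀ ℕ) (h y u0 : ℕ → ℤ)
    (hh0 : ∀ t, 0 < h t) (hy0 : ∀ t, 0 < y t) (hu0 : ∀ t, 0 < u0 t)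
    (heq : ∀ᶠ t in (UU : Filter ℕ), (2 : ℚ) ^ (N t) * mo (x t) e =
      ((h t * u0 t : ℤ) : ℚ) * MvPolynomial.eval (x t) P + y t * mo (x t) e)
    (F G : MvPolynomial (Fin r) ℚ) (hFG : F ≠ 0 ∨ G ≠ 0)
    (hrel : ∀ᶠ t in (UU : Filter ℕ), ((h t * u0 t : ℤ) : ℚ) * MvPolynomial.eval (x t) F +
      y t * mo (x t) e * MvPolynomial.eval (x t) G = 0)
    (c : ℝ) (hHb : ∀ᶠ t in (UU : Filter ℕ), |((h t * u0 t : ℤ) : ℝ)| ≤ Real.exp (c * N t))
    (hyb : ∀ᶠ t in (UU : Filter ℕ), |(y t : ℝ)| ≤ Real.exp (c * N t))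
    (ε : ℝ) (hε : 0 < ε) :
    ∀ᶠ t in (UU : Filter ℕ), ∀ a ∈ P.support, -(Real.log (y t) + ε * N t) ≤
      ∑ v ∈ Finset.univ.erase v0, (lg b (some v) (mo (x t) a) - lg b (some v) (mo (x t) e) +
        lg b (some v) (u0 t : ℚ)) := by
  classical
  have hH0 : ∀ t, ((h t * u0 t : ℤ) : ℚ) ≠ 0 := fun t => by
    exact_mod_cast (mul_pos (hh0 t) (hu0 t)).ne'
  have hyq : ∀ t, (y t : ℚ) ≠ 0 := fun t => by exact_mod_cast (hy0 t).ne'
  have hme : ∀ t (J : Fin r →₀ ℕ), mo (x t) J ≠ 0 := fun t J => (mo_pos (gp.pos t) J).ne'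
  -- both are nonzero
  have hF0 : F ≠ 0 := by
    intro h0
    have hG0 : G ≠ 0 := by
      rcases hFG with h | h
      · exact absurd h0 h
      · exact h
    obtain ⟨t, h1, h2⟩ := (hrel.and (gp.gen G hG0)).exists
    rw [h0, map_zero, mul_zero, zero_add] at h1
    exact mul_ne_zero (mul_ne_zero (hyq t) (hme t e)) h2 h1
  have hG0 : G ≠ 0 := by
    intro h0
    obtain ⟨t, h1, h2⟩ := (hrel.and (gp.gen F hF0)).exists
    rw [h0, map_zero, mul_zero, add_zero] at h1
    exact mul_ne_zero (hH0 t) h2 h1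
  obtain ⟨C, D, g, hrp, hgC, hgD⟩ :=
    UniqueFactorizationMonoid.exists_reduced_factors F hF0 G
  have hg0 : g ≠ 0 := fun h0 => hF0 (by rw [← hgC, h0, zero_mul])
  have hC0 : C ≠ 0 := fun h0 => hF0 (by rw [← hgC, h0, mul_zero])
  have hD0 : D ≠ 0 := fun h0 => hG0 (by rw [← hgD, h0, mul_zero])
  have hrel' : ∀ᶠ t in (UU : Filter ℕ), ((h t * u0 t : ℤ) : ℚ) * MvPolynomial.eval (x t) C +
      y t * mo (x t) e * MvPolynomial.eval (x t) D = 0 := by
    filter_upwards [hrel, gp.gen g hg0] with t h1 h2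
    rw [← hgC, ← hgD, map_mul, map_mul] at h1
    have h3 : MvPolynomial.eval (x t) g * (((h t * u0 t : ℤ) : ℚ) * MvPolynomial.eval (x t) C +
      y t * mo (x t) e * MvPolynomial.eval (x t) D) = 0 := by
      rw [← h1]
      ring
    exact (mul_eq_zero.1 h3).resolve_left h2
  set E : MvPolynomial (Fin r) ℚ := P * D - C with hE
  have hE1 : ∀ᶠ t in (UU : Filter ℕ), ((h t * u0 t : ℤ) : ℚ) * MvPolynomial.eval (x t) E =
      2 ^ (N t) * mo (x t) e * MvPolynomial.eval (x t) D := by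
    filter_upwards [heq, hrel'] with t h1 h2
    rw [hE, map_sub, map_mul]
    linear_combination (-(MvPolynomial.eval (x t) D)) * h1 - h2
  have hE2 : ∀ᶠ t in (UU : Filter ℕ), (y t : ℚ) * MvPolynomial.eval (x t) E =
      -(2 ^ (N t) * MvPolynomial.eval (x t) C) := by
    filter_upwards [heq, hrel'] with t h1 h2
    have h3 : mo (x t) e * ((y t : ℚ) * MvPolynomial.eval (x t) E +
        2 ^ (N t) * MvPolynomial.eval (x t) C) = 0 := by
      rw [hE, map_sub, map_mul]
      linear_combination (MvPolynomial.eval (x t) C) * h1 + (MvPolynomial.eval (x t) P) * h2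
    have h4 := (mul_eq_zero.1 h3).resolve_left (hme t e)
    linarith
  have hE0 : E ≠ 0 := by
    intro h0
    obtain ⟨t, h1, h2⟩ := (hE1.and (gp.gen D hD0)).exists
    rw [h0, map_zero, mul_zero] at h1
    exact mul_ne_zero (mul_ne_zero (by positivity) (hme t e)) h2 h1.symm
  obtain ⟨ε1, hε1⟩ : ∃ ε1 : ℝ, ε1 = ε / (6 * s + 8) := ⟨_, rfl⟩
  have hε10 : 0 < ε1 := by rw [hε1]; positivity
  -- the gcd estimate
  have hB := caseB hb hbi hn gp hD0 hC0 hrp.symm
    (fun t => ((h t * u0 t : ℤ) : ℚ) / MvPolynomial.eval (x t) D)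
    (by filter_upwards [gp.gen D hD0] with t ht using div_ne_zero (hH0 t) ht)
    0 e (fun t => h t * u0 t) (fun t => -(y t))
    (by
      filter_upwards [gp.gen D hD0] with t ht
      have : mo (x t) 0 = 1 := by simp [mo]
      rw [this, mul_one]
      exact div_mul_cancel₀ _ ht)
    (by
      filter_upwards [gp.gen D hD0, hrel'] with t ht h2
      rw [div_mul_eq_mul_div, div_eq_iff ht]
      push_cast at h2 ⊢
      linear_combination h2)
    c hHb (by
      filter_upwards [hyb] with t ht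
      push_cast
      rwa [abs_neg]) ε1 hε10
  filter_upwards [hB, hE1, hE2, gp.gen D hD0, gp.gen E hE0, gp.gen C hC0,
    sizes hb hbi hn gp D hD0 ε1 hε10,
    sizes hb hbi hn gp C hC0 ε1 hε10, sizes hb hbi hn gp E hE0 ε1 hε10,
    sizes_unit hb hbi hn gp E hE0 ε1 hε10, ev_top hn 0]
    with t tB tE1 tE2 tD tE tC tsD tsC tsE tsu tn
  have hNp : 0 ≤ ε1 * (N t : ℝ) := mul_nonneg hε10.le tn
  -- the value of `E` is almost a unit
  have h2N : ((2 : ℚ) ^ (N t) * mo (x t) e) ≠ 0 := mul_ne_zero (by positivity) (hme t e)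
  have hsumE : ∑ v, lg b v (MvPolynomial.eval (x t) E) ≤ ε1 * N t := by
    have h3 : ∀ v, lg b v (((h t * u0 t : ℤ) : ℚ) / MvPolynomial.eval (x t) D) =
        lg b v ((2 : ℚ) ^ (N t) * mo (x t) e) - lg b v (MvPolynomial.eval (x t) E) := by
      intro v
      rw [← lg_div hb v h2N tE]
      congr 1
      rw [div_eq_div_iff tD tE, tE1]
    rw [Finset.sum_congr rfl fun v _ => h3 v, Finset.sum_sub_distrib,
      sum_lg_su hb hbi (su_mul hb (su_pow hb (su_two hv0) _) (mo_su hb (gp.su t) _))] at tB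
    linarith
  have hprop : ∀ v, ∀ J ∈ E.support, ∀ K ∈ E.support,
      lg b v (mo (x t) J) - lg b v (mo (x t) K) ≤ 2 * (ε1 * N t) := by
    intro v J hJ K hK
    have := tsu v J hJ K hK
    linarith
  obtain ⟨K0, hK0⟩ := MvPolynomial.support_nonempty.2 hE0
  have hEup : ∀ v, lg b v (MvPolynomial.eval (x t) E) ≤ lg b v (mo (x t) K0) + 3 * (ε1 * N t) := by
    intro v
    obtain ⟨K', hK', hle⟩ := (tsE v).2
    have := hprop v K' hK' K0 hK0
    linarith
  have hsum0 : ∀ J : Fin r →₀ ℕ, ∑ v ∈ Finset.univ.erase v0, lg b (some v) (mo (x t) J) =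
      -(lg b none (mo (x t) J) + lg b (some v0) (mo (x t) J)) := by
    intro J
    have h1 := sum_lg_su hb hbi (mo_su hb (gp.su t) J)
    rw [Fintype.sum_option, ← Finset.add_sum_erase _ _ (Finset.mem_univ v0)] at h1
    linarith
  have hcard : ((Finset.univ.erase v0).card : ℝ) ≤ s := by
    have h1 : (Finset.univ.erase v0).card ≤ s := by
      rw [Finset.card_erase_of_mem (Finset.mem_univ _), Finset.card_univ, Fintype.card_fin]
      omega
    exact_mod_cast h1
  have hconst : ∀ z : ℝ, 0 ≤ z → ∑ v ∈ Finset.univ.erase v0, z ≤ s * z := by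
    intro z hz
    rw [Finset.sum_const, nsmul_eq_mul]
    exact mul_le_mul_of_nonneg_right hcard hz
  -- the lowest terms at the odd places
  obtain ⟨a, ha, d, hd, hamax, hdmax, hco⟩ := exists_lead P D hP hD0
    (fun J => -∑ v ∈ Finset.univ.erase v0, lg b (some v) (mo (x t) J))
    (fun J K => by
      rw [hsum0, hsum0, hsum0, lg_mo_add hb _ (gp.pos t), lg_mo_add hb _ (gp.pos t)]
      ring)
  have hμadd : ∑ v ∈ Finset.univ.erase v0, lg b (some v) (mo (x t) (a + d)) =
      ∑ v ∈ Finset.univ.erase v0, lg b (some v) (mo (x t) a) +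
      ∑ v ∈ Finset.univ.erase v0, lg b (some v) (mo (x t) d) := by
    rw [hsum0, hsum0, hsum0, lg_mo_add hb _ (gp.pos t), lg_mo_add hb _ (gp.pos t)]
    ring
  have hhq : (h t : ℚ) ≠ 0 := by exact_mod_cast (hh0 t).ne'
  have huq : (u0 t : ℚ) ≠ 0 := by exact_mod_cast (hu0 t).ne'
  have hlogy : 0 ≤ Real.log (y t) := by
    apply Real.log_nonneg
    exact_mod_cast hy0 t
  -- the odd places
  have hd2 : ∑ v ∈ Finset.univ.erase v0, lg b (some v) (mo (x t) d) ≤
      ∑ v ∈ Finset.univ.erase v0, (lg b (some v) (u0 t : ℚ) + lg b (some v) (mo (x t) K0) -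
        lg b (some v) (mo (x t) e)) + s * (4 * (ε1 * N t)) := by
    have h1 : ∑ v ∈ Finset.univ.erase v0, lg b (some v) (mo (x t) d) ≤
        ∑ v ∈ Finset.univ.erase v0, ((lg b (some v) (u0 t : ℚ) + lg b (some v) (mo (x t) K0) -
        lg b (some v) (mo (x t) e)) + 4 * (ε1 * N t)) := by
      refine Finset.sum_le_sum fun v hv => ?_
      have hv1 : v ≠ v0 := Finset.ne_of_mem_erase hv
      have h3 : lg b (some v) (((h t * u0 t : ℤ) : ℚ) * MvPolynomial.eval (x t) E) =
          lg b (some v) (2 ^ (N t) * mo (x t) e * MvPolynomial.eval (x t) D) := by rw [tE1]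
      rw [lg_mul hb _ (hH0 t) tE, lg_mul hb _ h2N tD, lg_mul hb _ (by positivity) (hme t e),
        lg_pow hb, lg_two_ne hb hbi hv0 hv1, Int.cast_mul, lg_mul hb _ hhq huq] at h3
      have h4 := lg_int_le hb v (h t)
      have h5 := (tsD (some v)).1 d hd
      have h6 := hEup (some v)
      linarith
    rw [Finset.sum_add_distrib] at h1
    have h2 := hconst (4 * (ε1 * N t)) (by linarith)
    linarith
  have hkey : ∑ v ∈ Finset.univ.erase v0, lg b (some v) (mo (x t) K0) - Real.log (y t) -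
      (2 * s + 8) * (ε1 * N t) ≤
      ∑ v ∈ Finset.univ.erase v0, lg b (some v) (mo (x t) (a + d)) := by
    by_cases hmem : a + d ∈ C.support
    · have h1 := (tsC none).1 _ hmem
      have h2 := (tsC (some v0)).1 _ hmem
      have h3 : lg b none ((y t : ℚ) * MvPolynomial.eval (x t) E) =
          lg b none (-((2 : ℚ) ^ (N t) * MvPolynomial.eval (x t) C)) := by rw [tE2]
      rw [lg_neg hb, lg_mul hb none (hyq t) tE, lg_mul hb none (by positivity) tC,
        lg_pow hb, lg_none_int] at h3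
      have h4 : lg b none (2 : ℚ) = Real.log 2 := by
        have := lg_none_int (b := b) 2
        push_cast at this
        rw [this, abs_of_pos (by norm_num)]
      have h5 : |((y t : ℤ) : ℝ)| = y t := abs_of_pos (by exact_mod_cast hy0 t)
      rw [h4, h5] at h3
      have h6 : lg b (some v0) ((y t : ℚ) * MvPolynomial.eval (x t) E) =
          lg b (some v0) (-((2 : ℚ) ^ (N t) * MvPolynomial.eval (x t) C)) := by rw [tE2]
      rw [lg_neg hb, lg_mul hb _ (hyq t) tE, lg_mul hb _ (by positivity) tC,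
        lg_pow hb] at h6
      have h7 : lg b (some v0) (2 : ℚ) = -Real.log 2 := by
        have h8 := sum_lg_su hb hbi (su_two hv0)
        rw [Fintype.sum_option, ← Finset.add_sum_erase _ _ (Finset.mem_univ v0), h4,
          Finset.sum_eq_zero fun v hv => lg_two_ne hb hbi hv0 (Finset.ne_of_mem_erase hv)] at h8
        linarith
      rw [h7] at h6
      have h9 := lg_int_le hb v0 (y t)
      have h10 := hEup none
      have h11 := hEup (some v0)
      rw [hsum0, hsum0]
      have h12 : 0 ≤ (s : ℝ) * (ε1 * N t) := by positivity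
      nlinarith
    · have hinE : a + d ∈ E.support := by
        rw [MvPolynomial.mem_support_iff, hE, MvPolynomial.coeff_sub,
          MvPolynomial.notMem_support_iff.1 hmem, sub_zero]
        exact hco
      have h1 : ∑ v ∈ Finset.univ.erase v0, lg b (some v) (mo (x t) K0) ≤
          ∑ v ∈ Finset.univ.erase v0, (lg b (some v) (mo (x t) (a + d)) + 2 * (ε1 * N t)) := by
        refine Finset.sum_le_sum fun v _ => ?_
        have := hprop (some v) K0 hK0 _ hinE
        linarith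
      rw [Finset.sum_add_distrib] at h1
      have h2 := hconst (2 * (ε1 * N t)) (by linarith)
      nlinarith
  intro a' ha'
  have h1 := hamax a' ha'
  rw [Finset.sum_add_distrib, Finset.sum_sub_distrib]
  rw [Finset.sum_sub_distrib, Finset.sum_add_distrib] at hd2
  have h2 : ε * N t = (6 * s + 8) * (ε1 * N t) := by
    rw [hε1]
    field_simp
  rw [h2]
  nlinarith

end Pool.Agent.H118_IntCx
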