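import Mathlib

namespace Pool.Agent.H118_IntCx

/-- The finite check: the residue of `2 ^ n` modulo `3 ^ ⌊371 n / 1000⌋` is not small. -/
def chk (n : ℕ) : Bool := Nat.ble (2 ^ (567 * n / 10000 + 2)) (2 ^ n % 3 ^ (371 * n / 1000))

def chkRange : ℕ → ℕ → Bool
  | 0, s => chk s
  | d + 1, s => chkRange d s && chkRange d (s + 2 ^ d)

theorem chkRange_spec (d s : ℕ) (h : chkRange d s = true) (n : ℕ) (h1 : s ≤ n)
    (h2 : n < s + 2 ^ d) : chk n = true := by
  induction d generalizing s with
  | zero =>
    have : n = s := by simp at h2; omega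
    subst this
    exact h
  | succ d ih =>
    rw [chkRange, Bool.and_eq_true] at h
    by_cases h3 : n < s + 2 ^ d
    · exact ih s h.1 h1 h3
    · exact ih (s + 2 ^ d) h.2 (by omega) (by rw [pow_succ] at h2; omega)

set_option maxRecDepth 100000 in
theorem chk_all : chkRange 12 10 = true := by decide +kernel

theorem chk_small (n : ℕ) (h1 : 10 ≤ n) (h2 : n < 4000) :
    2 ^ (567 * n / 10000 + 2) ≤ 2 ^ n % 3 ^ (371 * n / 1000) := by
  have h := chkRange_spec 12 10 chk_all n h1 (by norm_num; omega)
  exact Nat.le_of_ble_eq_true h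

end Pool.Agent.H118_IntCx
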