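import Mathlib

/-!
# The codimension of the ideal generated by two polynomials without common factor
-/

set_option autoImplicit false

namespace Pool.Agent.H118_IntCx

open Filter Topology

/-- binomial coefficients, shifted by two -/
def PP : ℕ → ℕ → ℝ
  | 0, _ => 0
  | 1, _ => 0
  | (r + 2), m => (Nat.choose (m + r) r : ℝ)

lemma PP_nonneg (k m : ℕ) : 0 ≤ PP k m := by
  rcases k with _ | _ | k
  · exact le_rfl
  · exact le_rfl
  · exact Nat.cast_nonneg _

lemma PP_succ (k m : ℕ) : PP (k + 1) (m + 1) = PP (k + 1) m + PP k (m + 1) := by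
  rcases k with _ | _ | k
  · simp [PP]
  · simp [PP]
  · show ((Nat.choose (m + 1 + (k + 1)) (k + 1) : ℕ) : ℝ) = ((Nat.choose (m + (k + 1)) (k + 1) : ℕ) : ℝ)
      + ((Nat.choose (m + 1 + k) k : ℕ) : ℝ)
    have h : m + 1 + (k + 1) = (m + k + 1) + 1 := by ring
    rw [h, Nat.choose_succ_succ]
    have h2 : m + (k + 1) = m + k + 1 := by ring
    have h3 : m + 1 + k = m + k + 1 := by ring
    rw [h2, h3]
    push_cast
    ring

lemma PP_mono (k : ℕ) : Monotone (PP k) := by
  rcases k with _ | k
  · intro a c _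
    exact le_rfl
  · apply monotone_nat_of_le_succ
    intro m
    rw [PP_succ]
    linarith [PP_nonneg k (m + 1)]

lemma PP_diff_le (k m d : ℕ) (hd : d ≤ m) : PP (k + 1) m - PP (k + 1) (m - d) ≤ d * PP k m := by
  induction d with
  | zero => simp
  | succ d ih =>
    have h1 := ih (by omega)
    obtain ⟨e, he⟩ : ∃ e, m - d = e + 1 := ⟨m - d - 1, by omega⟩
    have h2 : m - (d + 1) = e := by omega
    have h3 := PP_succ k e
    have h4 : PP k (e + 1) ≤ PP k m := PP_mono k (by omega)
    rw [he] at h1
    rw [h2]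
    push_cast
    linarith

lemma PP_second (k m c d : ℕ) (h : c + d ≤ m) :
    PP (k + 2) m - PP (k + 2) (m - d) - PP (k + 2) (m - c) + PP (k + 2) (m - c - d) ≤
      c * (d * PP k m) := by
  induction c with
  | zero => simp
  | succ c ih =>
    have h1 := ih (by omega)
    obtain ⟨e, he⟩ : ∃ e, m - c = e + 1 := ⟨m - c - 1, by omega⟩
    have h2 : m - (c + 1) = e := by omega
    have h3 := PP_succ (k + 1) e
    obtain ⟨e', he'⟩ : ∃ e', m - c - d = e' + 1 := ⟨m - c - d - 1, by omega⟩
    have h2' : e - d = e' := by omega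
    have h3' := PP_succ (k + 1) e'
    have h5 := PP_diff_le k (e + 1) d (by omega)
    have h6 : e + 1 - d = e' + 1 := by omega
    rw [h6] at h5
    have h7 : PP k (e + 1) ≤ PP k m := PP_mono k (by omega)
    have h8 : (d : ℝ) * PP k (e + 1) ≤ d * PP k m := mul_le_mul_of_nonneg_left h7 (Nat.cast_nonneg _)
    rw [he, show e + 1 - d = e' + 1 from h6] at h1
    rw [h2, h2']
    push_cast
    linarith

lemma PP_ratio (k m : ℕ) : PP k m * (m : ℝ) ^ 2 ≤ (k : ℝ) ^ 2 * PP (k + 2) m := by
  rcases k with _ | _ | k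
  · simp [PP]
  · simp only [PP]
    norm_num
    positivity
  · show ((Nat.choose (m + k) k : ℕ) : ℝ) * (m : ℝ) ^ 2 ≤ ((k + 2 : ℕ) : ℝ) ^ 2 *
      ((Nat.choose (m + (k + 2)) (k + 2) : ℕ) : ℝ)
    have h1 : (m + k + 1) * Nat.choose (m + k) k = Nat.choose (m + k + 1) (k + 1) * (k + 1) :=
      Nat.add_one_mul_choose_eq _ _
    have h2 : (m + k + 2) * Nat.choose (m + k + 1) (k + 1) =
        Nat.choose (m + k + 2) (k + 2) * (k + 2) := Nat.add_one_mul_choose_eq _ _
    have h3 : Nat.choose (m + k) k * m ^ 2 ≤ (k + 2) ^ 2 * Nat.choose (m + (k + 2)) (k + 2) := by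
      have h4 : m + (k + 2) = m + k + 2 := by ring
      rw [h4]
      calc Nat.choose (m + k) k * m ^ 2 ≤ Nat.choose (m + k) k * ((m + k + 1) * (m + k + 2)) := by
            gcongr
            nlinarith
        _ = (m + k + 2) * ((m + k + 1) * Nat.choose (m + k) k) := by ring
        _ = (k + 1) * ((m + k + 2) * Nat.choose (m + k + 1) (k + 1)) := by rw [h1]; ring
        _ = (k + 1) * (k + 2) * Nat.choose (m + k + 2) (k + 2) := by rw [h2]; ring
        _ ≤ (k + 2) ^ 2 * Nat.choose (m + k + 2) (k + 2) := by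
            gcongr
            nlinarith
    exact_mod_cast h3

/-! ## exponents of bounded degree -/

/-- exponents of degree at most `m` -/
noncomputable def eL (r m : ℕ) : Finset (Fin r →₀ ℕ) :=
  (Finset.range (m + 1)).biUnion fun j => Finset.finsuppAntidiag Finset.univ j

lemma mem_eL {r m : ℕ} {J : Fin r →₀ ℕ} : J ∈ eL r m ↔ J.degree ≤ m := by
  unfold eL
  simp only [Finset.mem_biUnion, Finset.mem_range, Finset.mem_finsuppAntidiag,
    Finset.subset_univ, and_true]
  rw [Finsupp.degree_eq_sum]
  constructor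
  · rintro ⟨j, hj, h⟩
    have h' : ∑ i, J i = j := h
    omega
  · intro h
    exact ⟨∑ i, J i, by omega, rfl⟩

lemma card_eL (r m : ℕ) : (eL r m).card = Nat.choose (m + r) r := by
  unfold eL
  rw [Finset.card_biUnion]
  · simp only [Finset.card_finsuppAntidiag_nat_eq_choose, Finset.card_univ, Fintype.card_fin]
    induction m with
    | zero =>
      simp
    | succ m ih =>
      rw [Finset.sum_range_succ, ih]
      rcases r with _ | r
      · simp
      · have h1 : r + 1 + (m + 1) - 1 = m + (r + 1) := by omega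
        have h2 : m + 1 + (r + 1) = (m + r + 1) + 1 := by ring
        rw [h1, h2, Nat.choose_succ_succ, show m + (r + 1) = m + r + 1 by ring,
          add_comm ((m + r + 1).choose r)]
        congr 1
        rw [← Nat.choose_symm (by omega)]
        congr 1
        omega
  · intro i _ j _ hij
    rw [Function.onFun, Finset.disjoint_left]
    intro J h1 h2
    rw [Finset.mem_finsuppAntidiag] at h1 h2
    exact hij (h1.1.symm.trans h2.1)

end Pool.Agent.H118_IntCx
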