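import Pool.Agent.H118_IntCx.Gp

/-!
# Polynomials at sequences of S-units in general position: no cancellation at any place
-/

set_option autoImplicit false

namespace Pool.Agent.H118_IntCx

open Filter Topology Pool.Agent.TH461.SST Pool.Agent.TH932.Germs Pool.Agent.TH551.SU

variable {s : ℕ} {b : Fin s → ℕ}

lemma int_mul' {p q : ℚ} (hp : ∃ z : ℤ, p = z) (hq : ∃ z : ℤ, q = z) : ∃ z : ℤ, p * q = z := by
  obtain ⟨z, rfl⟩ := hp
  obtain ⟨w, rfl⟩ := hq
  exact ⟨z * w, by push_cast; ring⟩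

lemma int_pow' {p : ℚ} (hp : ∃ z : ℤ, p = z) (k : ℕ) : ∃ z : ℤ, p ^ k = z := by
  obtain ⟨z, rfl⟩ := hp
  exact ⟨z ^ k, by push_cast; ring⟩

lemma int_prod' {ι : Type} (A : Finset ι) {f : ι → ℚ} (hf : ∀ i ∈ A, ∃ z : ℤ, f i = z) :
    ∃ z : ℤ, ∏ i ∈ A, f i = z := by
  classical
  induction A using Finset.induction_on with
  | empty => exact ⟨1, by simp⟩
  | insert a A ha ih =>
    rw [Finset.prod_insert ha]
    exact int_mul' (hf a (Finset.mem_insert_self _ _))
      (ih fun i hi => hf i (Finset.mem_insert_of_mem hi))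

lemma exists_scale (hb : ∀ v, (b v).Prime) (hbi : Function.Injective b) {n : ℕ → ℝ} {r : ℕ}
    {x : ℕ → Fin r → ℚ} (gp : GP b n x) :
    ∃ Q : ℕ → ℕ, (∀ t, 0 < Q t) ∧ (∀ t, IsSU b (Q t)) ∧
      (∀ t i, ∃ z : ℤ, (Q t : ℚ) * x t i = z) ∧
      ∃ c : ℝ, 0 ≤ c ∧ ∀ᶠ t in (UU : Filter ℕ), Real.log (Q t) ≤ c * n t := by
  classical
  choose q hq0 hqs hqi hql using fun t i => exists_den_su hb hbi (gp.su t i)
  refine ⟨fun t => ∏ i, q t i, fun t => Finset.prod_pos fun i _ => hq0 t i, ?_, ?_, ?_⟩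
  · intro t
    push_cast
    exact su_prod hb _ _ fun i _ => hqs t i
  · intro t i
    push_cast
    rw [← Finset.mul_prod_erase _ _ (Finset.mem_univ i), mul_assoc, mul_comm _ (x t i), ← mul_assoc]
    exact int_mul' (hqi t i) (int_prod' _ fun j _ => ⟨q t j, by push_cast; rfl⟩)
  · obtain ⟨c, hc0, hc⟩ := gp.bd
    refine ⟨r * ((s + 1) * c), by positivity, ?_⟩
    filter_upwards [hc] with t ht
    push_cast
    rw [Real.log_prod (fun i _ => by have := hq0 t i; positivity)]
    calc ∑ i, Real.log (q t i) ≤ ∑ i : Fin r, ((s + 1) * c) * n t := by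
          refine Finset.sum_le_sum fun i _ => (hql t i).trans ?_
          calc ∑ v, |lg b v (x t i)| ≤ ∑ v : Option (Fin s), c * n t :=
                Finset.sum_le_sum fun v _ => ht v i
            _ = ((s + 1) * c) * n t := by
                rw [Finset.sum_const, Finset.card_univ, Fintype.card_option, Fintype.card_fin,
                  nsmul_eq_mul]
                push_cast
                ring
      _ = r * ((s + 1) * c) * n t := by
          rw [Finset.sum_const, Finset.card_univ, Fintype.card_fin, nsmul_eq_mul]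
          ring

lemma scale_int {r : ℕ} {x : Fin r → ℚ} {Q : ℚ} (hQ : ∃ z : ℤ, Q = z)
    (h : ∀ i, ∃ z : ℤ, Q * x i = z) {m : ℕ} {J : Fin r →₀ ℕ} (hJ : J.degree ≤ m) :
    ∃ z : ℤ, Q ^ m * mo x J = z := by
  have h1 : Q ^ m * mo x J = Q ^ (m - J.degree) * ∏ i, (Q * x i) ^ J i := by
    unfold mo
    have h2 : ∏ i, (Q * x i) ^ J i = Q ^ J.degree * ∏ i, x i ^ J i := by
      rw [← sum_eq_degree, ← Finset.prod_pow_eq_pow_sum, ← Finset.prod_mul_distrib]
      exact Finset.prod_congr rfl fun i _ => mul_pow _ _ _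
    rw [h2, ← mul_assoc, ← pow_add, Nat.sub_add_cancel hJ]
  rw [h1]
  exact int_mul' (int_pow' hQ _) (int_prod' _ fun i _ => int_pow' (h i) _)

/-- the subspace theorem for a finite dimensional space of polynomials -/
theorem sub_poly (hb : ∀ v, (b v).Prime) (hbi : Function.Injective b) {n : ℕ → ℝ}
    (hn : Tendsto n atTop atTop) {r : ℕ} {x : ℕ → Fin r → ℚ} (gp : GP b n x)
    (W : Submodule ℚ (MvPolynomial (Fin r) ℚ)) [Module.Finite ℚ W] (ρ : ℕ → ℚ)
    (hρ : ∀ᶠ t in (UU : Filter ℕ), ρ t ≠ 0) (T : Set (MvPolynomial (Fin r) ℚ))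
    (hT : Submodule.span ℚ T = W)
    (hTi : ∀ f ∈ T, ∀ᶠ t in (UU : Filter ℕ), ∃ z : ℤ, ρ t * MvPolynomial.eval (x t) f = z)
    (hTb : ∀ f ∈ T, ∃ c : ℝ, ∀ᶠ t in (UU : Filter ℕ),
      |((ρ t * MvPolynomial.eval (x t) f : ℚ) : ℝ)| ≤ Real.exp (c * n t))
    {ι : Type} [Fintype ι] (hι : Fintype.card ι = Module.finrank ℚ W)
    (G : Option (Fin s) → ι → MvPolynomial (Fin r) ℚ) (hGW : ∀ v l, G v l ∈ W)
    (hG : ∀ v, LinearIndependent ℚ (G v)) (γ : ℝ) (hγ : 0 < γ) :
    ∀ᶠ t in (UU : Filter ℕ),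
      -(γ * n t) ≤ ∑ v, ∑ l, lg b v (ρ t * MvPolynomial.eval (x t) (G v l)) := by
  classical
  let Λ : ℕ → W →ₗ[ℚ] ℚ := fun t =>
    { toFun := fun f => ρ t * MvPolynomial.eval (x t) f.1
      map_add' := by
        intro f g
        rw [Submodule.coe_add, map_add, mul_add]
      map_smul' := by
        intro a f
        rw [Submodule.coe_smul, MvPolynomial.smul_eval, RingHom.id_apply, smul_eq_mul]
        ring }
  have hΛ : ∀ t (f : W), Λ t f = ρ t * MvPolynomial.eval (x t) f.1 := fun _ _ => rfl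
  let e : ι ≃ Fin (Fintype.card ι) := Fintype.equivFin ι
  let G' : Option (Fin s) → Fin (Fintype.card ι) → W := fun v l => ⟨G v (e.symm l), hGW _ _⟩
  have h := sub_uu hb hbi n hn Λ (T := {f : W | f.1 ∈ T}) ?_ ?_ ?_ ?_ hι.symm G' ?_ γ hγ
  · filter_upwards [h] with t ht
    refine ht.trans (le_of_eq ?_)
    refine Finset.sum_congr rfl fun v _ => ?_
    rw [← Equiv.sum_comp e]
    refine Finset.sum_congr rfl fun l _ => ?_
    rw [hΛ]
    simp only [G', Equiv.symm_apply_apply]
  · apply Submodule.map_injective_of_injective (f := W.subtype) W.injective_subtype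
    rw [Submodule.map_span, Submodule.map_top, Submodule.range_subtype, ← hT]
    congr 1
    ext f
    simp only [Submodule.subtype_apply, Set.mem_image, Set.mem_setOf_eq, Subtype.exists,
      exists_and_left, exists_prop, exists_eq_right_right]
    constructor
    · rintro ⟨h1, _⟩
      exact h1
    · intro h1
      exact ⟨h1, hT ▸ Submodule.subset_span h1⟩
  · intro w hw
    exact hTi _ hw
  · intro w hw
    exact hTb _ hw
  · intro w hw
    have hw' : w.1 ≠ 0 := fun h0 => hw (Subtype.ext h0)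
    filter_upwards [hρ, gp.gen _ hw'] with t h1 h2
    exact mul_ne_zero h1 h2
  · intro v
    have h1 : LinearIndependent ℚ (fun l => (G' v l).1) :=
      (hG v).comp e.symm e.symm.injective
    exact LinearIndependent.of_comp W.subtype h1

lemma scale_bd (hb : ∀ v, (b v).Prime) {n : ℕ → ℝ} (hn : Tendsto n atTop atTop) {r : ℕ}
    {x : ℕ → Fin r → ℚ} (gp : GP b n x) (Q : ℕ → ℕ) (hQ0 : ∀ t, 0 < Q t)
    (hQ : ∃ c : ℝ, 0 ≤ c ∧ ∀ᶠ t in (UU : Filter ℕ), Real.log (Q t) ≤ c * n t) (m : ℕ) :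
    ∃ c : ℝ, 0 ≤ c ∧ ∀ᶠ t in (UU : Filter ℕ), ∀ J : Fin r →₀ ℕ, J.degree ≤ m →
      |(((Q t : ℚ) ^ m * mo (x t) J : ℚ) : ℝ)| ≤ Real.exp (c * n t) := by
  obtain ⟨c, hc0, hc⟩ := gp.bd
  obtain ⟨c', hc0', hc'⟩ := hQ
  refine ⟨m * c' + m * c, by positivity, ?_⟩
  filter_upwards [hc, hc', ev_top hn 0] with t h1 h2 h3 J hJ
  have hQ1 : (0 : ℚ) < (Q t : ℚ) ^ m := pow_pos (by exact_mod_cast hQ0 t) _
  have h4 : (0 : ℚ) < (Q t : ℚ) ^ m * mo (x t) J := mul_pos hQ1 (mo_pos (gp.pos t) J)
  have h5 : (0 : ℝ) < |(((Q t : ℚ) ^ m * mo (x t) J : ℚ) : ℝ)| :=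
    abs_pos.2 (by exact_mod_cast h4.ne')
  have h6 : Real.log |(((Q t : ℚ) ^ m * mo (x t) J : ℚ) : ℝ)| =
      lg b none ((Q t : ℚ) ^ m * mo (x t) J) := rfl
  rw [← Real.exp_log h5, h6, lg_mul hb none hQ1.ne' (mo_pos (gp.pos t) J).ne', lg_pow hb]
  apply Real.exp_le_exp.2
  have h7 : lg b none (Q t : ℚ) = Real.log (Q t) := by
    unfold lg
    simp [Pool.Agent.TH551.HA.av]
  have h8 := abs_lg_mo hb none (gp.pos t) (h1 none) J
  have h9 : (J.degree : ℝ) * (c * n t) ≤ m * (c * n t) :=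
    mul_le_mul_of_nonneg_right (by exact_mod_cast hJ) (mul_nonneg hc0 h3)
  have h10 : (m : ℝ) * lg b none (Q t : ℚ) ≤ m * (c' * n t) := by
    rw [h7]
    exact mul_le_mul_of_nonneg_left h2 (Nat.cast_nonneg _)
  have h11 := le_abs_self (lg b none (mo (x t) J))
  have : (m * c' + m * c) * n t = m * (c' * n t) + m * (c * n t) := by ring
  linarith

lemma monomials_li {r : ℕ} :
    LinearIndependent ℚ (fun J : Fin r →₀ ℕ => MvPolynomial.monomial J (1 : ℚ)) := by
  have h1 := (MvPolynomial.basisMonomials (Fin r) ℚ).linearIndependent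
  rw [MvPolynomial.coe_basisMonomials] at h1
  exact h1

/-- no cancellation at any place -/
theorem sumA (hb : ∀ v, (b v).Prime) (hbi : Function.Injective b) {n : ℕ → ℝ}
    (hn : Tendsto n atTop atTop) {r : ℕ} {x : ℕ → Fin r → ℚ} (gp : GP b n x)
    (F : MvPolynomial (Fin r) ℚ) (hF : F ≠ 0) (ε : ℝ) (hε : 0 < ε) :
    ∀ᶠ t in (UU : Filter ℕ), ∀ J : Option (Fin s) → (Fin r →₀ ℕ), (∀ v, J v ∈ F.support) →
      -(ε * n t) ≤ ∑ v, (lg b v (MvPolynomial.eval (x t) F) - lg b v (mo (x t) (J v))) := by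
  classical
  -- for functions with values in the support
  suffices h : ∀ᶠ t in (UU : Filter ℕ), ∀ J : Option (Fin s) → F.support,
      -(ε * n t) ≤ ∑ v, (lg b v (MvPolynomial.eval (x t) F) - lg b v (mo (x t) (J v).1)) by
    filter_upwards [h] with t ht J hJ
    exact ht fun v => ⟨J v, hJ v⟩
  rw [eventually_all]
  intro J
  obtain ⟨Q, hQ0, hQs, hQi, hQb⟩ := exists_scale hb hbi gp
  obtain ⟨m, hm⟩ : ∃ m : ℕ, ∀ J ∈ F.support, J.degree ≤ m :=
    ⟨F.support.sup Finsupp.degree, fun J hJ => Finset.le_sup (f := Finsupp.degree) hJ⟩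
  obtain ⟨c, hc0, hc⟩ := scale_bd hb hn gp Q hQ0 hQb m
  let mn : F.support → MvPolynomial (Fin r) ℚ := fun J => MvPolynomial.monomial J.1 1
  have hli : LinearIndependent ℚ mn :=
    monomials_li.comp (fun J : F.support => J.1) Subtype.val_injective
  have hfin : Module.Finite ℚ (Submodule.span ℚ (Set.range mn)) :=
    Module.Finite.span_of_finite ℚ (Set.finite_range _)
  have hcf : ∀ J K : Fin r →₀ ℕ, MvPolynomial.coeff K (MvPolynomial.monomial J (1 : ℚ)) =
      if J = K then 1 else 0 := fun J K => MvPolynomial.coeff_monomial K J 1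
  have h := sub_poly hb hbi hn gp (Submodule.span ℚ (Set.range mn)) (fun t => (Q t : ℚ) ^ m)
    (Eventually.of_forall fun t => pow_ne_zero _ (by exact_mod_cast (hQ0 t).ne'))
    (Set.range mn) rfl ?_ ?_ (ι := F.support) (finrank_span_eq_card hli).symm
    (fun v l => if l = J v then F else mn l) ?_ ?_ ε hε
  · filter_upwards [h, gp.gen F hF] with t ht hFt
    refine ht.trans (le_of_eq ?_)
    have hQt : ((Q t : ℚ) ^ m) ≠ 0 := pow_ne_zero _ (by exact_mod_cast (hQ0 t).ne')
    have h1 : ∀ v (l : F.support), lg b v ((Q t : ℚ) ^ m * MvPolynomial.eval (x t)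
        (if l = J v then F else mn l)) = lg b v ((Q t : ℚ) ^ m * mo (x t) l.1) +
        (if l = J v then lg b v (MvPolynomial.eval (x t) F) - lg b v (mo (x t) l.1) else 0) := by
      intro v l
      have hm0 := (mo_pos (gp.pos t) l.1).ne'
      split_ifs with hl
      · rw [lg_mul hb v hQt hFt, lg_mul hb v hQt hm0]
        ring
      · simp only [mn]
        rw [eval_monomial', one_mul, add_zero]
    simp only [h1, Finset.sum_add_distrib, Finset.sum_ite_eq', Finset.mem_univ, if_true]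
    rw [Finset.sum_comm]
    have h2 : ∀ l : F.support, ∑ v, lg b v ((Q t : ℚ) ^ m * mo (x t) l.1) = 0 := fun l =>
      sum_lg_su hb hbi (su_mul hb (su_pow hb (hQs t) _) (mo_su hb (gp.su t) _))
    simp only [h2, Finset.sum_const_zero, zero_add]
  · rintro f ⟨J, rfl⟩
    refine Eventually.of_forall fun t => ?_
    simp only [mn]
    rw [eval_monomial', one_mul]
    exact scale_int ⟨Q t, by push_cast; rfl⟩ (hQi t) (hm _ J.2)
  · rintro f ⟨J, rfl⟩
    refine ⟨c, ?_⟩
    filter_upwards [hc] with t ht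
    simp only [mn]
    rw [eval_monomial', one_mul]
    exact ht _ (hm _ J.2)
  · intro v l
    have hmem : ∀ l, mn l ∈ Submodule.span ℚ (Set.range mn) :=
      fun l => Submodule.subset_span ⟨l, rfl⟩
    show (if l = J v then F else mn l) ∈ _
    split_ifs with hl
    · refine (congrArg (fun f => f ∈ Submodule.span ℚ (Set.range mn)) F.as_sum).mpr ?_
      refine Submodule.sum_mem _ fun K hK => ?_
      have h1 : MvPolynomial.monomial K (MvPolynomial.coeff K F) =
          MvPolynomial.coeff K F • mn ⟨K, hK⟩ := by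
        simp only [mn]
        rw [MvPolynomial.smul_monomial, smul_eq_mul, mul_one]
      rw [h1]
      exact Submodule.smul_mem _ _ (hmem _)
    · exact hmem l
  · intro v
    rw [Fintype.linearIndependent_iff]
    intro g hg
    have hco : ∀ K : F.support, (∑ l, g l * MvPolynomial.coeff K.1
        (if l = J v then F else mn l)) = 0 := by
      intro K
      have := congrArg (MvPolynomial.coeff K.1) hg
      rw [MvPolynomial.coeff_sum, MvPolynomial.coeff_zero] at this
      rw [← this]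
      exact Finset.sum_congr rfl fun l _ => by rw [MvPolynomial.coeff_smul, smul_eq_mul]
    have h0 : g (J v) = 0 := by
      have h1 := hco (J v)
      rw [Finset.sum_eq_single (J v)] at h1
      · rw [if_pos rfl] at h1
        rcases mul_eq_zero.1 h1 with h2 | h2
        · exact h2
        · exact absurd h2 (MvPolynomial.mem_support_iff.1 (J v).2)
      · intro l _ hl
        rw [if_neg hl]
        simp only [mn]
        rw [hcf, if_neg (fun h => hl (Subtype.ext h)), mul_zero]
      · intro h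
        exact absurd (Finset.mem_univ _) h
    intro K
    have h1 := hco K
    by_cases hK : K = J v
    · rw [hK, h0]
    rw [Finset.sum_eq_single K] at h1
    · rw [if_neg hK] at h1
      simp only [mn] at h1
      rw [hcf, if_pos rfl, mul_one] at h1
      exact h1
    · intro l _ hl
      by_cases hlJ : l = J v
      · rw [hlJ, h0, zero_mul]
      · rw [if_neg hlJ]
        simp only [mn]
        rw [hcf, if_neg (fun h => hl (Subtype.ext h)), mul_zero]
    · intro h
      exact absurd (Finset.mem_univ _) h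

end Pool.Agent.H118_IntCx
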