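import Pool.Agent.H118_IntCx.Codim
import Pool.Agent.H118_IntCx.SumA

/-!
# The codimension of the ideal generated by two polynomials without common factor
-/

set_option autoImplicit false

namespace Pool.Agent.H118_IntCx

open Filter Topology MvPolynomial

variable {r : ℕ}

/-- polynomials of degree at most `m` -/
noncomputable abbrev Pol (r m : ℕ) : Submodule ℚ (MvPolynomial (Fin r) ℚ) :=
  MvPolynomial.restrictTotalDegree (Fin r) ℚ m

lemma mem_Pol {m : ℕ} {f : MvPolynomial (Fin r) ℚ} : f ∈ Pol r m ↔ f.totalDegree ≤ m :=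
  MvPolynomial.mem_restrictTotalDegree _ _ _

lemma degree_le_of_mem {m : ℕ} {f : MvPolynomial (Fin r) ℚ} (hf : f.totalDegree ≤ m)
    {J : Fin r →₀ ℕ} (hJ : J ∈ f.support) : J.degree ≤ m := by
  have h1 := MvPolynomial.le_totalDegree hJ
  have h2 : (J.sum fun _ e => e) = J.degree := by
    rw [Finsupp.sum_fintype _ _ (fun _ => rfl), ← sum_eq_degree]
  omega

lemma totalDegree_mono_le {m : ℕ} {J : Fin r →₀ ℕ} (hJ : J.degree ≤ m) (a : ℚ) :
    (MvPolynomial.monomial J a).totalDegree ≤ m := by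
  refine (MvPolynomial.totalDegree_monomial_le J a).trans ?_
  have h2 : (J.sum fun _ => id) = J.degree := by
    rw [Finsupp.sum_fintype _ _ (fun _ => rfl), ← sum_eq_degree]
    rfl
  omega

lemma support_of_Pol {m : ℕ} {f : MvPolynomial (Fin r) ℚ} (hf : f ∈ Pol r m) :
    f.support ⊆ eL r m := by
  intro J hJ
  exact mem_eL.2 (degree_le_of_mem (mem_Pol.1 hf) hJ)

/-- the set of monomials -/
noncomputable def MS (r m : ℕ) : Set (MvPolynomial (Fin r) ℚ) :=
  Set.range fun J : eL r m => MvPolynomial.monomial J.1 (1 : ℚ)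

lemma span_MS (m : ℕ) : Submodule.span ℚ (MS r m) = Pol r m := by
  apply le_antisymm
  · rw [Submodule.span_le]
    rintro f ⟨J, rfl⟩
    exact mem_Pol.2 (totalDegree_mono_le (mem_eL.1 J.2) 1)
  · intro f hf
    rw [f.as_sum]
    refine Submodule.sum_mem _ fun K hK => ?_
    have h1 : MvPolynomial.monomial K (MvPolynomial.coeff K f) =
        MvPolynomial.coeff K f • MvPolynomial.monomial K (1 : ℚ) := by
      rw [MvPolynomial.smul_monomial, smul_eq_mul, mul_one]
    rw [h1]
    exact Submodule.smul_mem _ _ (Submodule.subset_span ⟨⟨K, support_of_Pol hf hK⟩, rfl⟩)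

lemma finrank_Pol (m : ℕ) : Module.finrank ℚ (Pol r m) = Nat.choose (m + r) r := by
  have hli : LinearIndependent ℚ (fun J : eL r m => MvPolynomial.monomial J.1 (1 : ℚ)) :=
    monomials_li.comp (fun J : eL r m => J.1) Subtype.val_injective
  have h1 := finrank_span_eq_card hli
  have h2 : Submodule.span ℚ (Set.range fun J : eL r m => MvPolynomial.monomial J.1 (1 : ℚ)) =
      Pol r m := span_MS m
  rw [h2, Fintype.card_coe, card_eL] at h1
  exact h1

/-- multiplication -/
noncomputable def mulP (D : MvPolynomial (Fin r) ℚ) :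
    MvPolynomial (Fin r) ℚ →ₗ[ℚ] MvPolynomial (Fin r) ℚ := LinearMap.mulLeft ℚ D

lemma mulP_apply (D f : MvPolynomial (Fin r) ℚ) : mulP D f = D * f := rfl

lemma mulP_inj {D : MvPolynomial (Fin r) ℚ} (hD : D ≠ 0) : Function.Injective (mulP D) :=
  fun _ _ h => mul_left_cancel₀ hD h

lemma finrank_map_mulP {D : MvPolynomial (Fin r) ℚ} (hD : D ≠ 0) (m : ℕ) :
    Module.finrank ℚ ((Pol r m).map (mulP D)) = Nat.choose (m + r) r := by
  rw [← finrank_Pol]
  exact (LinearEquiv.finrank_eq (Submodule.equivMapOfInjective _ (mulP_inj hD) _)).symm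

/-- the ideal of `D` and `C` in degree `m` -/
noncomputable def WW (D C : MvPolynomial (Fin r) ℚ) (m : ℕ) :
    Submodule ℚ (MvPolynomial (Fin r) ℚ) :=
  (Pol r (m - D.totalDegree)).map (mulP D) ⊔ (Pol r (m - C.totalDegree)).map (mulP C)

/-- generators -/
noncomputable def TT (D C : MvPolynomial (Fin r) ℚ) (m : ℕ) : Set (MvPolynomial (Fin r) ℚ) :=
  (mulP D) '' MS r (m - D.totalDegree) ∪ (mulP C) '' MS r (m - C.totalDegree)

lemma span_TT (D C : MvPolynomial (Fin r) ℚ) (m : ℕ) :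
    Submodule.span ℚ (TT D C m) = WW D C m := by
  unfold TT WW
  rw [Submodule.span_union, ← Submodule.map_span, ← Submodule.map_span, span_MS, span_MS]

lemma WW_le {D C : MvPolynomial (Fin r) ℚ} {m : ℕ} (hD : D.totalDegree ≤ m)
    (hC : C.totalDegree ≤ m) : WW D C m ≤ Pol r m := by
  unfold WW
  apply sup_le
  · rw [Submodule.map_le_iff_le_comap]
    intro f hf
    rw [Submodule.mem_comap, mulP_apply, mem_Pol]
    refine (MvPolynomial.totalDegree_mul _ _).trans ?_
    have := mem_Pol.1 hf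
    omega
  · rw [Submodule.map_le_iff_le_comap]
    intro f hf
    rw [Submodule.mem_comap, mulP_apply, mem_Pol]
    refine (MvPolynomial.totalDegree_mul _ _).trans ?_
    have := mem_Pol.1 hf
    omega

instance (D C : MvPolynomial (Fin r) ℚ) (m : ℕ) : Module.Finite ℚ (WW D C m) := by
  unfold WW
  infer_instance

lemma inf_le {D C : MvPolynomial (Fin r) ℚ} (hD0 : D ≠ 0) (hC0 : C ≠ 0) (hrel : IsRelPrime D C)
    {m : ℕ} (hm : D.totalDegree + C.totalDegree ≤ m) :
    (Pol r (m - D.totalDegree)).map (mulP D) ⊓ (Pol r (m - C.totalDegree)).map (mulP C) ≤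
      (Pol r (m - D.totalDegree - C.totalDegree)).map (mulP (D * C)) := by
  intro f hf
  obtain ⟨⟨F, hF, hFf⟩, ⟨G, hG, hGf⟩⟩ := hf
  rw [mulP_apply] at hFf hGf
  have h1 : C ∣ D * F := ⟨G, by rw [hFf, hGf]⟩
  obtain ⟨K, hK⟩ := hrel.symm.dvd_of_dvd_mul_left h1
  refine ⟨K, ?_, ?_⟩
  · by_cases hK0 : K = 0
    · rw [hK0]
      exact Submodule.zero_mem _
    · have h2 := mem_Pol.1 hF
      rw [hK, MvPolynomial.totalDegree_mul_of_isDomain hC0 hK0] at h2
      show K ∈ Pol r _
      rw [mem_Pol]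
      omega
  · rw [mulP_apply, ← hFf, hK]
    ring

theorem codimW {D C : MvPolynomial (Fin r) ℚ} (hD0 : D ≠ 0) (hC0 : C ≠ 0)
    (hrel : IsRelPrime D C) {m : ℕ} (hm : D.totalDegree + C.totalDegree ≤ m) :
    ((eL r m).card : ℝ) - Module.finrank ℚ (WW D C m) ≤
      C.totalDegree * (D.totalDegree * PP r m) := by
  have h1 := Submodule.finrank_sup_add_finrank_inf_eq
    ((Pol r (m - D.totalDegree)).map (mulP D)) ((Pol r (m - C.totalDegree)).map (mulP C))
  have h2 := Submodule.finrank_mono (inf_le hD0 hC0 hrel hm)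
  rw [finrank_map_mulP (mul_ne_zero hD0 hC0)] at h2
  rw [finrank_map_mulP hD0, finrank_map_mulP hC0] at h1
  have h3 : Module.finrank ℚ (WW D C m) + Nat.choose (m - D.totalDegree - C.totalDegree + r) r ≥
      Nat.choose (m - D.totalDegree + r) r + Nat.choose (m - C.totalDegree + r) r := by
    unfold WW
    omega
  have h4 := PP_second r m C.totalDegree D.totalDegree (by omega)
  have h5 : ∀ k, PP (r + 2) k = (Nat.choose (k + r) r : ℝ) := fun k => rfl
  rw [h5, h5, h5, h5] at h4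
  rw [card_eL]
  have h6 : m - C.totalDegree - D.totalDegree = m - D.totalDegree - C.totalDegree := by omega
  rw [h6] at h4
  have h7 : ((Nat.choose (m - D.totalDegree + r) r : ℕ) : ℝ) + (Nat.choose (m - C.totalDegree + r) r : ℕ)
      ≤ (Module.finrank ℚ (WW D C m) : ℝ) + (Nat.choose (m - D.totalDegree - C.totalDegree + r) r : ℕ) := by
    exact_mod_cast h3
  linarith

/-- the codimension is small -/
theorem exists_deg {D C : MvPolynomial (Fin r) ℚ} (hD0 : D ≠ 0) (hC0 : C ≠ 0)
    (hrel : IsRelPrime D C) (η : ℝ) (hη : 0 < η) :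
    ∃ m : ℕ, D.totalDegree + C.totalDegree ≤ m ∧ 0 < Module.finrank ℚ (WW D C m) ∧
      ((eL r m).card - Module.finrank ℚ (WW D C m) : ℝ) * m ≤
        η * Module.finrank ℚ (WW D C m) := by
  obtain ⟨K, hK⟩ : ∃ K : ℝ, K = C.totalDegree * D.totalDegree * (r : ℝ) ^ 2 := ⟨_, rfl⟩
  have hK0 : 0 ≤ K := by rw [hK]; positivity
  obtain ⟨m1, hm1⟩ := exists_nat_gt (2 * K / η)
  obtain ⟨m2, hm2⟩ := exists_nat_gt (2 * K)
  obtain ⟨m, hm⟩ : ∃ m : ℕ, m = D.totalDegree + C.totalDegree + m1 + m2 + 1 := ⟨_, rfl⟩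
  have hmge : D.totalDegree + C.totalDegree ≤ m := by omega
  have hmr : (1 : ℝ) ≤ m := by
    have : 1 ≤ m := by omega
    exact_mod_cast this
  have hmr1 : 2 * K / η ≤ m := hm1.le.trans (by exact_mod_cast (by omega : m1 ≤ m))
  have hmr2 : 2 * K ≤ m := hm2.le.trans (by exact_mod_cast (by omega : m2 ≤ m))
  have hc := codimW hD0 hC0 hrel hmge
  have hr := PP_ratio r m
  have hcard : PP (r + 2) m = ((eL r m).card : ℝ) := by
    rw [card_eL]
    rfl
  have hcard1 : (1 : ℝ) ≤ (eL r m).card := by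
    rw [card_eL]
    exact_mod_cast Nat.choose_pos (by omega)
  rw [hcard] at hr
  set H : ℝ := ((eL r m).card : ℝ) with hH
  set w : ℝ := (Module.finrank ℚ (WW D C m) : ℝ) with hw
  have h1 : (H - w) * (m : ℝ) ^ 2 ≤ K * H := by
    calc (H - w) * (m : ℝ) ^ 2 ≤ (C.totalDegree * (D.totalDegree * PP r m)) * (m : ℝ) ^ 2 :=
          mul_le_mul_of_nonneg_right hc (by positivity)
      _ = C.totalDegree * D.totalDegree * (PP r m * (m : ℝ) ^ 2) := by ring
      _ ≤ C.totalDegree * D.totalDegree * ((r : ℝ) ^ 2 * H) :=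
          mul_le_mul_of_nonneg_left hr (by positivity)
      _ = K * H := by rw [hK]; ring
  have hm2' : (m : ℝ) ≤ (m : ℝ) ^ 2 := by nlinarith
  have h2 : H ≤ 2 * w := by
    by_contra hcon
    push Not at hcon
    have h3 : H / 2 ≤ H - w := by linarith
    have h4 : H / 2 * (m : ℝ) ^ 2 ≤ K * H := by
      refine le_trans ?_ h1
      exact mul_le_mul_of_nonneg_right h3 (by positivity)
    have h5 : 2 * K < (m : ℝ) ^ 2 ∨ (m : ℝ) ^ 2 ≤ 2 * K := lt_or_ge _ _
    rcases h5 with h5 | h5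
    · nlinarith
    · -- then m = m ^ 2 = 2 K, so m = 1 and K = 1/2
      have h6 : (m : ℝ) ≥ m1 + m2 + 1 := by
        have : m1 + m2 + 1 ≤ m := by omega
        exact_mod_cast this
      have h7 : (0 : ℝ) ≤ m1 := Nat.cast_nonneg _
      nlinarith
  refine ⟨m, hmge, ?_, ?_⟩
  · have h3 : 0 < w := by linarith
    rw [hw] at h3
    exact_mod_cast h3
  · have h3 : (H - w) * m * m ≤ η * w * m := by
      have h4 : (H - w) * m * m = (H - w) * (m : ℝ) ^ 2 := by ring
      rw [h4]
      have h5 : 2 * K ≤ η * m := by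
        rw [div_le_iff₀ hη] at hmr1
        linarith
      have h6 : K * H ≤ 2 * K * w := by nlinarith
      have hw0 : 0 ≤ w := by linarith
      nlinarith
    exact le_of_mul_le_mul_right h3 (by linarith)

end Pool.Agent.H118_IntCx
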