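import Pool.Agent.H118_IntCx.SumA

/-!
# Families of S-units as monomials in S-units in general position
-/

set_option autoImplicit false

namespace Pool.Agent.H118_IntCx

open Filter Topology Pool.Agent.TH461.SST Pool.Agent.TH932.Germs Pool.Agent.TH551.SU

variable {s : ℕ} {b : Fin s → ℕ}

/-- Laurent monomials -/
def chi {N : ℕ} (u : Fin N → ℚ) (m : Fin N → ℤ) : ℚ := ∏ i, u i ^ m i

section chi

variable {N : ℕ} {u : Fin N → ℚ} (hu : ∀ i, 0 < u i)
include hu

lemma chi_pos (m : Fin N → ℤ) : 0 < chi u m := Finset.prod_pos fun i _ => zpow_pos (hu i) _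

lemma chi_add (m m' : Fin N → ℤ) : chi u (m + m') = chi u m * chi u m' := by
  unfold chi
  rw [← Finset.prod_mul_distrib]
  exact Finset.prod_congr rfl fun i _ => by rw [Pi.add_apply, zpow_add₀ (hu i).ne']

omit hu in
lemma chi_zero : chi u 0 = 1 := by simp [chi]

omit hu in
lemma chi_smul (k : ℤ) (m : Fin N → ℤ) : chi u (k • m) = chi u m ^ k := by
  unfold chi
  rw [← Finset.prod_zpow]
  exact Finset.prod_congr rfl fun i _ => by
    rw [Pi.smul_apply, smul_eq_mul, mul_comm, zpow_mul]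

lemma chi_neg (m : Fin N → ℤ) : chi u (-m) = (chi u m)⁻¹ := by
  have h := chi_add hu m (-m)
  rw [add_neg_cancel, chi_zero] at h
  exact eq_inv_of_mul_eq_one_right h.symm

lemma chi_sub (m m' : Fin N → ℤ) : chi u (m - m') = chi u m / chi u m' := by
  rw [sub_eq_add_neg, chi_add hu, chi_neg hu, div_eq_mul_inv]

lemma chi_sum {ι : Type} (A : Finset ι) (a : ι → ℤ) (m : ι → Fin N → ℤ) :
    chi u (∑ j ∈ A, a j • m j) = ∏ j ∈ A, chi u (m j) ^ a j := by
  classical
  induction A using Finset.induction_on with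
  | empty => simp [chi_zero]
  | insert j A hj ih =>
    rw [Finset.sum_insert hj, Finset.prod_insert hj, chi_add hu, ih, chi_smul]

omit hu in
lemma chi_single (i : Fin N) : chi u (Pi.single i 1) = u i := by
  classical
  unfold chi
  rw [Finset.prod_eq_single i]
  · simp
  · intro j _ hj
    rw [Pi.single_eq_of_ne hj, zpow_zero]
  · intro h
    exact absurd (Finset.mem_univ _) h

lemma lg_chi (hb : ∀ v, (b v).Prime) (v : Option (Fin s)) (m : Fin N → ℤ) :
    lg b v (chi u m) = ∑ i, (m i : ℝ) * lg b v (u i) := by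
  unfold chi
  rw [lg_prod hb v _ _ fun i _ => (zpow_pos (hu i) _).ne']
  exact Finset.sum_congr rfl fun i _ => lg_zpow hb v _ _

end chi

theorem param (hb : ∀ v, (b v).Prime) (hbi : Function.Injective b) {n : ℕ → ℝ}
    (hn : Tendsto n atTop atTop) {N : ℕ} (U : ℕ → Fin N → ℚ) (hU0 : ∀ t i, 0 < U t i)
    (hUs : ∀ t i, IsSU b (U t i))
    (hUb : ∃ c : ℝ, 0 ≤ c ∧ ∀ᶠ t in (UU : Filter ℕ), ∀ v i, |lg b v (U t i)| ≤ c * n t) :
    ∃ (r : ℕ) (x : ℕ → Fin r → ℚ), GP b n x ∧ ∃ (e : Fin N → Fin r → ℤ) (κ : Fin N → ℚ),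
      (∀ i, 0 < κ i) ∧ ∀ᶠ t in (UU : Filter ℕ), ∀ i, U t i = κ i * ∏ j, x t j ^ (e i j) := by
  classical
  let K : Submodule ℤ (Fin N → ℤ) :=
    { carrier := {m | ∃ c : ℚ, ∀ᶠ t in (UU : Filter ℕ), chi (U t) m = c}
      add_mem' := by
        rintro m m' ⟨c, hc⟩ ⟨c', hc'⟩
        refine ⟨c * c', ?_⟩
        filter_upwards [hc, hc'] with t h1 h2
        rw [chi_add (hU0 t), h1, h2]
      zero_mem' := ⟨1, Eventually.of_forall fun t => chi_zero⟩
      smul_mem' := by
        rintro k m ⟨c, hc⟩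
        refine ⟨c ^ k, ?_⟩
        filter_upwards [hc] with t h1
        rw [chi_smul, h1] }
  have hK : ∀ m, m ∈ K ↔ ∃ c : ℚ, ∀ᶠ t in (UU : Filter ℕ), chi (U t) m = c := fun _ => Iff.rfl
  -- the quotient is torsion free
  have htf : Module.IsTorsionFree ℤ ((Fin N → ℤ) ⧸ K) := by
    rw [Module.isTorsionFree_iff_smul_eq_zero]
    intro k q hq
    obtain ⟨m, rfl⟩ := Submodule.Quotient.mk_surjective K q
    by_cases hk : k = 0
    · exact Or.inl hk
    right
    rw [← Submodule.Quotient.mk_smul, Submodule.Quotient.mk_eq_zero, hK] at hq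
    rw [Submodule.Quotient.mk_eq_zero, hK]
    obtain ⟨c, hc⟩ := hq
    obtain ⟨t0, ht0⟩ := hc.exists
    refine ⟨chi (U t0) m, ?_⟩
    filter_upwards [hc] with t ht
    rw [chi_smul] at ht ht0
    have h1 : chi (U t) m ^ k = chi (U t0) m ^ k := by rw [ht, ht0]
    exact (zpow_left_inj₀ (chi_pos (hU0 t) m).le (chi_pos (hU0 t0) m).le hk).1 h1
  have hfree : Module.Free ℤ ((Fin N → ℤ) ⧸ K) := Module.free_of_finite_type_torsion_free'
  obtain ⟨r, hr⟩ : ∃ r, Module.finrank ℤ ((Fin N → ℤ) ⧸ K) = r := ⟨_, rfl⟩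
  let B : Module.Basis (Fin r) ℤ ((Fin N → ℤ) ⧸ K) :=
    (Module.finBasis ℤ ((Fin N → ℤ) ⧸ K)).reindex (finCongr hr)
  choose m hm using fun j => Submodule.Quotient.mk_surjective K (B j)
  have hmq : ∀ a : Fin r → ℤ, Submodule.Quotient.mk (p := K) (∑ j, a j • m j) = ∑ j, a j • B j := by
    intro a
    rw [← Submodule.mkQ_apply, map_sum]
    refine Finset.sum_congr rfl fun j _ => ?_
    rw [map_smul, Submodule.mkQ_apply, hm]
  let x : ℕ → Fin r → ℚ := fun t j => chi (U t) (m j)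
  have hx0 : ∀ t j, 0 < x t j := fun t j => chi_pos (hU0 t) _
  have hmo : ∀ t (J : Fin r →₀ ℕ), mo (x t) J = chi (U t) (∑ j, (J j : ℤ) • m j) := by
    intro t J
    rw [chi_sum (hU0 t)]
    unfold mo
    exact Finset.prod_congr rfl fun j _ => by rw [zpow_natCast]
  refine ⟨r, x, ⟨hx0, ?_, ?_, ?_⟩, ?_⟩
  · intro t j
    exact su_prod hb _ _ fun i _ => su_zpow hb (hUs t i) _
  · obtain ⟨c, hc0, hc⟩ := hUb
    refine ⟨∑ j, ∑ i, |(m j i : ℝ)| * c, by positivity, ?_⟩
    filter_upwards [hc, ev_top hn 0] with t ht htn v j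
    simp only [x]
    rw [lg_chi (hU0 t) hb]
    calc |∑ i, (m j i : ℝ) * lg b v (U t i)| ≤ ∑ i, |(m j i : ℝ)| * c * n t := by
          refine (Finset.abs_sum_le_sum_abs _ _).trans (Finset.sum_le_sum fun i _ => ?_)
          rw [abs_mul, mul_assoc]
          exact mul_le_mul_of_nonneg_left (ht v i) (abs_nonneg _)
      _ = (∑ i, |(m j i : ℝ)| * c) * n t := by rw [Finset.sum_mul]
      _ ≤ (∑ j, ∑ i, |(m j i : ℝ)| * c) * n t := by
          refine mul_le_mul_of_nonneg_right ?_ htn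
          exact Finset.single_le_sum (f := fun j => ∑ i, |(m j i : ℝ)| * c)
            (fun _ _ => by positivity) (Finset.mem_univ j)
  · -- general position
    intro F hF
    by_contra hcon
    have hcon' : ∀ᶠ t in (UU : Filter ℕ), MvPolynomial.eval (x t) F = 0 := by
      have := Ultrafilter.eventually_not.2 hcon
      filter_upwards [this] with t ht
      simpa using ht
    obtain ⟨k, hk⟩ : ∃ k, F.support.card = k := ⟨_, rfl⟩
    have hk1 : 0 < k := by
      rw [← hk, Finset.card_pos]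
      exact MvPolynomial.support_nonempty.2 hF
    let E : F.support ≃ Fin k := F.support.equivFin.trans (finCongr hk)
    obtain ⟨Ht, hHt⟩ := Pool.Agent.TH526.ZL.sunit b hb hbi
      (fun l : Fin k => MvPolynomial.coeff (E.symm l).1 F)
      (fun l => MvPolynomial.mem_support_iff.1 (E.symm l).2) ⟨0, hk1⟩
    -- pigeonhole
    have h1 : ∀ᶠ t in (UU : Filter ℕ), ∃ q : Fin k × (Finset.Icc (-(Ht : ℤ)) Ht) × Fin (Ht + 1),
        q.1 ≠ ⟨0, hk1⟩ ∧ mo (x t) (E.symm ⟨0, hk1⟩).1 / mo (x t) (E.symm q.1).1 =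
          ((q.2.1.1 : ℤ) : ℚ) / ((q.2.2 : ℕ) : ℚ) := by
      filter_upwards [hcon'] with t ht
      have h2 : ∑ l : Fin k, MvPolynomial.coeff (E.symm l).1 F * mo (x t) (E.symm l).1 = 0 := by
        rw [eval_mo, ← Finset.sum_coe_sort F.support
          (fun J => MvPolynomial.coeff J F * mo (x t) J)] at ht
        rw [← ht]
        exact Equiv.sum_comp E.symm (fun J : F.support => MvPolynomial.coeff J.1 F * mo (x t) J.1)
      obtain ⟨j, hj, hj1, hj2⟩ := hHt (fun l => mo (x t) (E.symm l).1)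
        (fun l => su_prod hb _ _ fun i _ => su_pow hb
          (su_prod hb _ _ fun i _ => su_zpow hb (hUs t i) _) _) h2
      refine ⟨⟨j, ⟨(mo (x t) (E.symm ⟨0, hk1⟩).1 / mo (x t) (E.symm j).1).num, ?_⟩,
        ⟨(mo (x t) (E.symm ⟨0, hk1⟩).1 / mo (x t) (E.symm j).1).den, by omega⟩⟩, hj, ?_⟩
      · rw [Finset.mem_Icc]
        constructor
        · omega
        · omega
      · exact (Rat.num_div_den _).symm
    obtain ⟨⟨j, a, d⟩, hq⟩ := SUI.const_of_ev h1
    simp only at hq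
    have hne : (E.symm ⟨0, hk1⟩).1 ≠ (E.symm j).1 := by
      obtain ⟨t, ht⟩ := hq.exists
      intro h
      exact ht.1 (E.symm.injective (Subtype.ext h)).symm
    apply hne
    have h2 : (∑ l, (((E.symm ⟨0, hk1⟩).1 l : ℤ) - ((E.symm j).1 l : ℤ)) • m l) ∈ K := by
      rw [hK]
      refine ⟨((a.1 : ℤ) : ℚ) / ((d : ℕ) : ℚ), ?_⟩
      filter_upwards [hq] with t ht
      rw [← ht.2, hmo, hmo, ← chi_sub (hU0 t)]
      congr 1
      rw [← Finset.sum_sub_distrib]
      exact Finset.sum_congr rfl fun l _ => sub_smul _ _ _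
    rw [← Submodule.Quotient.mk_eq_zero, hmq] at h2
    have h3 := Fintype.linearIndependent_iff.1 B.linearIndependent _ h2
    ext l
    have := h3 l
    omega
  · -- representation
    let e : Fin N → Fin r → ℤ := fun i j => B.repr (Submodule.Quotient.mk (Pi.single i 1)) j
    have hmem : ∀ i, (Pi.single i 1 - ∑ j, e i j • m j : Fin N → ℤ) ∈ K := by
      intro i
      rw [← Submodule.Quotient.mk_eq_zero, Submodule.Quotient.mk_sub, hmq, sub_eq_zero]
      exact (B.sum_repr _).symm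
    choose κ hκ using fun i => (hK _).1 (hmem i)
    have hall : ∀ᶠ t in (UU : Filter ℕ), ∀ i,
        chi (U t) (Pi.single i 1 - ∑ j, e i j • m j) = κ i := by
      rw [eventually_all]
      exact hκ
    refine ⟨e, κ, ?_, ?_⟩
    · intro i
      obtain ⟨t, ht⟩ := hall.exists
      rw [← ht i]
      exact chi_pos (hU0 t) _
    · filter_upwards [hall] with t ht i
      rw [← ht i, chi_sub (hU0 t), chi_single, chi_sum (hU0 t)]
      have : (∏ j, chi (U t) (m j) ^ e i j) ≠ 0 :=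
        (Finset.prod_pos fun j _ => zpow_pos (chi_pos (hU0 t) _) _).ne'
      exact (div_mul_cancel₀ _ this).symm

end Pool.Agent.H118_IntCx
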