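import Pool.Agent.H118_IntCx.CaseA
import Pool.Agent.H118_IntCx.CaseD
import Pool.Agent.H118_IntCx.Param

/-!
# Short sums of S-units which divide `2 ^ n - y`
-/

set_option autoImplicit false

namespace Pool.Agent.H118_IntCx

open Filter Topology Pool.Agent.TH461.SST Pool.Agent.TH932.Germs Pool.Agent.TH551.SU

variable {s : ℕ} {b : Fin s → ℕ}

lemma PP_ratio1 (k m : ℕ) : PP (k + 1) m * (m : ℝ) ≤ (k : ℝ) * PP (k + 2) m := by
  rcases k with _ | k
  · simp [PP]
  · show ((Nat.choose (m + k) k : ℕ) : ℝ) * (m : ℝ) ≤ ((k + 1 : ℕ) : ℝ) *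
      ((Nat.choose (m + (k + 1)) (k + 1) : ℕ) : ℝ)
    have h1 : (m + k + 1) * Nat.choose (m + k) k = Nat.choose (m + k + 1) (k + 1) * (k + 1) :=
      Nat.add_one_mul_choose_eq _ _
    have h3 : Nat.choose (m + k) k * m ≤ (k + 1) * Nat.choose (m + (k + 1)) (k + 1) := by
      have h4 : m + (k + 1) = m + k + 1 := by ring
      rw [h4]
      calc Nat.choose (m + k) k * m ≤ Nat.choose (m + k) k * (m + k + 1) := by
            gcongr
            omega
        _ = (k + 1) * Nat.choose (m + k + 1) (k + 1) := by rw [mul_comm, h1]; ring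
    exact_mod_cast h3

lemma exists_ratio (r k : ℕ) (η : ℝ) (hη : 0 < η) : ∃ m : ℕ,
    (Nat.choose (m + k + r) r : ℝ) ≤ (1 + η) * (Nat.choose (m + r) r : ℝ) := by
  obtain ⟨m, hm⟩ := exists_nat_gt ((k * r : ℝ) * (1 + η) / η)
  refine ⟨m, ?_⟩
  have h1 := PP_diff_le (r + 1) (m + k) k (by omega)
  have h2 := PP_ratio1 r (m + k)
  rw [Nat.add_sub_cancel] at h1
  have h3 : PP (r + 2) (m + k) = (Nat.choose (m + k + r) r : ℝ) := rfl
  have h4 : PP (r + 2) m = (Nat.choose (m + r) r : ℝ) := rfl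
  have h5 : PP (r + 1 + 1) (m + k) = PP (r + 2) (m + k) := rfl
  have h6 : PP (r + 1 + 1) m = PP (r + 2) m := rfl
  rw [h5, h6] at h1
  rw [← h3, ← h4]
  have hP1 := PP_nonneg (r + 2) (m + k)
  have hP3 := PP_nonneg (r + 1) (m + k)
  rw [div_lt_iff₀ hη] at hm
  push_cast at h2
  set A := PP (r + 2) (m + k) with hA
  set B := PP (r + 2) m with hB
  set D := PP (r + 1) (m + k) with hD
  have hk0 : (0 : ℝ) ≤ k := Nat.cast_nonneg _
  have hr0 : (0 : ℝ) ≤ r := Nat.cast_nonneg _
  have hm0 : (0 : ℝ) ≤ m := Nat.cast_nonneg _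
  -- (A - B) * (m + k) ≤ k * r * A
  have h7 : (A - B) * (m + k) ≤ k * r * A := by
    calc (A - B) * (m + k) ≤ (k * D) * (m + k) := mul_le_mul_of_nonneg_right h1 (by positivity)
      _ = k * (D * (m + k)) := by ring
      _ ≤ k * (r * A) := mul_le_mul_of_nonneg_left h2 hk0
      _ = k * r * A := by ring
  rcases Nat.eq_zero_or_pos k with hk | hk
  · subst hk
    have : A = B := rfl
    rw [this]
    have hB0 := PP_nonneg (r + 2) m
    nlinarith
  have hk1 : (1 : ℝ) ≤ k := by exact_mod_cast hk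
  have hM : (0 : ℝ) < m + k := by linarith
  have h8 : (k : ℝ) * r * (1 + η) ≤ η * (m + k) := by nlinarith
  have h9 : (1 + η) * ((A - B) * (m + k)) ≤ η * (m + k) * A := by
    calc (1 + η) * ((A - B) * (m + k)) ≤ (1 + η) * (k * r * A) :=
          mul_le_mul_of_nonneg_left h7 (by linarith)
      _ = (k * r * (1 + η)) * A := by ring
      _ ≤ η * (m + k) * A := mul_le_mul_of_nonneg_right h8 hP1
  have h10 : ((1 + η) * (A - B)) * (m + k) ≤ (η * A) * (m + k) := by
    linarith
  have h11 := le_of_mul_le_mul_right h10 hM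
  linarith

lemma abs_lg_nat (hb : ∀ v, (b v).Prime) (hbi : Function.Injective b) (v : Option (Fin s))
    {z : ℕ} (hz : 0 < z) : |lg b v (z : ℚ)| ≤ Real.log z := by
  have hz' : (z : ℤ) ≠ 0 := by exact_mod_cast hz.ne'
  have h0 : (0 : ℝ) ≤ Real.log z := Real.log_natCast_nonneg z
  cases v with
  | none =>
    have h1 := lg_none_int (b := b) (z : ℤ)
    have h2 : ((z : ℤ) : ℚ) = (z : ℚ) := by push_cast; rfl
    rw [h2] at h1
    rw [h1]
    have h3 : |((z : ℤ) : ℝ)| = (z : ℝ) := by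
      rw [Int.cast_natCast, Nat.abs_cast]
    rw [h3, abs_of_nonneg h0]
  | some v =>
    have h1 := neg_lg_le hb hbi v hz'
    have h2 : ((z : ℤ) : ℚ) = (z : ℚ) := by push_cast; rfl
    have h3 : |((z : ℤ) : ℝ)| = (z : ℝ) := by
      rw [Int.cast_natCast, Nat.abs_cast]
    have h4 := lg_int_le hb v (z : ℤ)
    rw [h2] at h1 h4
    rw [h3] at h1
    rw [abs_of_nonpos h4]
    exact h1

theorem cof (hb : ∀ v, (b v).Prime) (hbi : Function.Injective b) (v0 : Fin s) (hv0 : b v0 = 2)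
    (k : ℕ) (ε0 : ℝ) (hε0 : 0 < ε0) :
    ∃ n0 : ℕ, ∀ n, n0 ≤ n → ∀ (h y : ℕ) (u : Fin k → ℕ) (i0 : Fin k) (a w : ℕ),
      0 < h → 0 < y → (∀ i, 0 < u i) → (∀ i, IsSU b (u i : ℚ)) →
      h * ∑ i, u i + y = 2 ^ n → u i0 = 2 ^ a * w → ¬ 2 ∣ w →
      Real.log w ≤ Real.log y + ε0 * n := by
  classical
  by_contra hcon
  push Not at hcon
  choose N hN h y u i0 a w hh hy hu hus heq hw hw2 hlt using hcon
  have hn : Tendsto (fun t => (N t : ℝ)) atTop atTop :=
    tendsto_natCast_atTop_atTop.comp (tendsto_atTop_mono hN tendsto_id)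
  obtain ⟨j0, hj0⟩ := SUI.const_of_ev (p := fun i t => i0 t = i)
    (Eventually.of_forall fun t => ⟨i0 t, rfl⟩)
  have hlog2 : Real.log 2 ≤ 1 := by
    have := Real.log_two_lt_d9
    linarith
  have hlog2' : 0 < Real.log 2 := Real.log_pos (by norm_num)
  -- sizes
  have hub : ∀ t i, h t * u t i ≤ 2 ^ N t := by
    intro t i
    rw [← heq t]
    have : u t i ≤ ∑ i, u t i :=
      Finset.single_le_sum (f := fun i => u t i) (fun _ _ => Nat.zero_le _) (Finset.mem_univ i)
    calc h t * u t i ≤ h t * ∑ i, u t i := Nat.mul_le_mul_left _ this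
      _ ≤ _ := Nat.le_add_right _ _
  have hub1 : ∀ t i, u t i ≤ 2 ^ N t := fun t i =>
    (Nat.le_mul_of_pos_left _ (hh t)).trans (hub t i)
  have hyb1 : ∀ t, y t ≤ 2 ^ N t := fun t => by
    rw [← heq t]
    exact Nat.le_add_left _ _
  have hlogb : ∀ (z n : ℕ), 0 < z → z ≤ 2 ^ n → Real.log z ≤ n * Real.log 2 := by
    intro z n hz hzn
    rw [← Real.log_pow]
    exact Real.log_le_log (by exact_mod_cast hz) (by exact_mod_cast hzn)
  have hq : ∀ t i, (u t i : ℚ) ≠ 0 := fun t i => by exact_mod_cast (hu t i).ne'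
  let U : ℕ → Fin k → ℚ := fun t i => (u t i : ℚ) / u t j0
  have hU0 : ∀ t i, 0 < U t i := fun t i =>
    div_pos (by exact_mod_cast hu t i) (by exact_mod_cast hu t j0)
  have hUs : ∀ t i, IsSU b (U t i) := fun t i => by
    simp only [U]
    rw [div_eq_mul_inv]
    exact su_mul hb (hus t i) (su_inv (hus t j0))
  have hUb : ∀ t v i, |lg b v (U t i)| ≤ 2 * N t := by
    intro t v i
    simp only [U]
    rw [lg_div hb v (hq t i) (hq t j0)]
    have h1 := (abs_lg_nat hb hbi v (hu t i)).trans (hlogb _ _ (hu t i) (hub1 t i))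
    have h2 := (abs_lg_nat hb hbi v (hu t j0)).trans (hlogb _ _ (hu t j0) (hub1 t j0))
    have h3 : (N t : ℝ) * Real.log 2 ≤ N t := by
      have : (0 : ℝ) ≤ N t := Nat.cast_nonneg _
      nlinarith
    have h4 := abs_sub (lg b v (u t i : ℚ)) (lg b v (u t j0 : ℚ))
    linarith
  obtain ⟨r, x, gp, e, κ, hκ, hrep⟩ := param hb hbi hn U hU0 hUs
    ⟨2, by norm_num, Eventually.of_forall fun t v i => hUb t v i⟩
  -- the polynomial
  let es : Fin r →₀ ℕ := Finsupp.equivFunOnFinite.symm fun j => ∑ i, (e i j).natAbs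
  have hes : ∀ j, es j = ∑ i, (e i j).natAbs := fun j => rfl
  let Ei : Fin k → Fin r →₀ ℕ := fun i =>
    Finsupp.equivFunOnFinite.symm fun j => (e i j + es j).toNat
  have hEi : ∀ i j, ((Ei i j : ℕ) : ℤ) = e i j + es j := by
    intro i j
    have h1 : Ei i j = (e i j + es j).toNat := rfl
    rw [h1]
    apply Int.toNat_of_nonneg
    have h2 : (e i j).natAbs ≤ es j := by
      rw [hes]
      exact Finset.single_le_sum (f := fun i => (e i j).natAbs) (fun _ _ => Nat.zero_le _)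
        (Finset.mem_univ i)
    omega
  have hmoEi : ∀ᶠ t in (UU : Filter ℕ), ∀ i, κ i * mo (x t) (Ei i) = U t i * mo (x t) es := by
    filter_upwards [hrep] with t ht i
    rw [ht i, mul_assoc]
    congr 1
    unfold mo
    rw [← Finset.prod_mul_distrib]
    refine Finset.prod_congr rfl fun j _ => ?_
    rw [← zpow_natCast, ← zpow_natCast, ← zpow_add₀ (gp.pos t j).ne', hEi]
  set P : MvPolynomial (Fin r) ℚ := ∑ i, MvPolynomial.monomial (Ei i) (κ i) with hPdef
  have hcoP : ∀ J, MvPolynomial.coeff J P = ∑ i, if Ei i = J then κ i else 0 := by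
    intro J
    rw [hPdef, MvPolynomial.coeff_sum]
    exact Finset.sum_congr rfl fun i _ => MvPolynomial.coeff_monomial _ _ _
  have hPsupp : ∀ J ∈ P.support, ∃ i, J = Ei i := by
    intro J hJ
    rw [MvPolynomial.mem_support_iff, hcoP] at hJ
    obtain ⟨i, _, hi⟩ := Finset.exists_ne_zero_of_sum_ne_zero hJ
    refine ⟨i, ?_⟩
    by_contra hne
    exact hi (if_neg fun h => hne h.symm)
  have hj0P : Ei j0 ∈ P.support := by
    rw [MvPolynomial.mem_support_iff, hcoP]
    apply ne_of_gt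
    refine lt_of_lt_of_le ?_ (Finset.single_le_sum (f := fun i => if Ei i = Ei j0 then κ i else 0)
      (fun i _ => ?_) (Finset.mem_univ j0))
    · rw [if_pos rfl]
      exact hκ j0
    · show 0 ≤ if Ei i = Ei j0 then κ i else 0
      split_ifs
      · exact (hκ i).le
      · exact le_rfl
  have hP0 : P ≠ 0 := by
    intro h0
    rw [h0] at hj0P
    simp at hj0P
  have hevP : ∀ᶠ t in (UU : Filter ℕ), MvPolynomial.eval (x t) P = (∑ i, U t i) * mo (x t) es := by
    filter_upwards [hmoEi] with t ht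
    rw [hPdef, map_sum, Finset.sum_mul]
    exact Finset.sum_congr rfl fun i _ => by rw [eval_monomial', ht i]
  have heqP : ∀ᶠ t in (UU : Filter ℕ), (2 : ℚ) ^ (N t) * mo (x t) es =
      (((h t : ℤ) * (u t j0 : ℤ) : ℤ) : ℚ) * MvPolynomial.eval (x t) P +
        ((y t : ℤ) : ℚ) * mo (x t) es := by
    filter_upwards [hevP] with t ht
    rw [ht]
    have h1 : (2 : ℚ) ^ (N t) = h t * ∑ i, (u t i : ℚ) + y t := by
      exact_mod_cast (heq t).symm
    have h2 : (u t j0 : ℚ) * ∑ i, U t i = ∑ i, (u t i : ℚ) := by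
      rw [Finset.mul_sum]
      refine Finset.sum_congr rfl fun i _ => ?_
      simp only [U]
      exact mul_div_cancel₀ _ (hq t j0)
    rw [h1]
    push_cast
    rw [← h2]
    ring
  have hwpos : ∀ t, 0 < w t := by
    intro t
    rcases Nat.eq_zero_or_pos (w t) with h0 | h0
    · exact absurd (by rw [h0]; exact dvd_zero 2) (hw2 t)
    · exact h0
  have hwu : ∀ t, w t ≤ u t (i0 t) := by
    intro t
    rw [hw t]
    exact Nat.le_mul_of_pos_left _ (by positivity)
  have hlogy0 : ∀ t, 0 ≤ Real.log (y t) := fun t => Real.log_natCast_nonneg _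
  have hHb : ∀ᶠ t in (UU : Filter ℕ), |(((h t : ℤ) * (u t j0 : ℤ) : ℤ) : ℝ)| ≤
      Real.exp (1 * N t) := by
    refine Eventually.of_forall fun t => ?_
    have h1 : (0 : ℝ) < ((h t * u t j0 : ℕ) : ℝ) := by
      exact_mod_cast Nat.mul_pos (hh t) (hu t j0)
    have h2 := hlogb (h t * u t j0) (N t) (Nat.mul_pos (hh t) (hu t j0)) (hub t j0)
    have h3 : |(((h t : ℤ) * (u t j0 : ℤ) : ℤ) : ℝ)| = ((h t * u t j0 : ℕ) : ℝ) := by
      push_cast
      exact abs_of_nonneg (by positivity)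
    rw [h3, ← Real.exp_log h1]
    apply Real.exp_le_exp.2
    have : (0 : ℝ) ≤ N t := Nat.cast_nonneg _
    nlinarith
  have hyb : ∀ᶠ t in (UU : Filter ℕ), |((y t : ℤ) : ℝ)| ≤ Real.exp (1 * N t) := by
    refine Eventually.of_forall fun t => ?_
    have h1 : (0 : ℝ) < (y t : ℝ) := by exact_mod_cast hy t
    have h2 := hlogb (y t) (N t) (hy t) (hyb1 t)
    have h3 : |((y t : ℤ) : ℝ)| = (y t : ℝ) := by
      push_cast
      exact abs_of_nonneg (by positivity)
    rw [h3, ← Real.exp_log h1]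
    apply Real.exp_le_exp.2
    have : (0 : ℝ) ≤ N t := Nat.cast_nonneg _
    nlinarith
  by_cases hg : ∀ F G : MvPolynomial (Fin r) ℚ, F ≠ 0 ∨ G ≠ 0 → ∀ᶠ t in (UU : Filter ℕ),
      (((h t : ℤ) * (u t j0 : ℤ) : ℤ) : ℚ) * MvPolynomial.eval (x t) F +
        ((y t : ℤ) : ℚ) * mo (x t) es * MvPolynomial.eval (x t) G ≠ 0
  · -- the generic case
    obtain ⟨m, hm⟩ := exists_ratio r P.totalDegree (ε0 / 2) (by positivity)
    have hA := caseA hb hbi v0 hv0 hn gp P es (fun t => (h t : ℤ) * (u t j0 : ℤ))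
      (fun t => (y t : ℤ))
      (fun t => mul_ne_zero (by exact_mod_cast (hh t).ne') (by exact_mod_cast (hu t j0).ne'))
      (fun t => by exact_mod_cast (hy t).ne') heqP hg 1 hHb hyb m (ε0 / 4) (by positivity)
    obtain ⟨t, ht, htj, htn⟩ := (hA.and (hj0.and (ev_top hn 1))).exists
    have hhq : ((h t : ℤ) : ℚ) ≠ 0 := by exact_mod_cast (hh t).ne'
    have huq : ((u t j0 : ℤ) : ℚ) ≠ 0 := by exact_mod_cast (hu t j0).ne'
    have h1 : ∑ v, lg b v (((h t : ℤ) * (u t j0 : ℤ) : ℤ) : ℚ) ≤ Real.log (h t) := by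
      have h2 : ∀ v, lg b v (((h t : ℤ) * (u t j0 : ℤ) : ℤ) : ℚ) =
          lg b v ((h t : ℤ) : ℚ) + lg b v ((u t j0 : ℤ) : ℚ) := by
        intro v
        rw [Int.cast_mul]
        exact lg_mul hb v hhq huq
      rw [Finset.sum_congr rfl fun v _ => h2 v, Finset.sum_add_distrib]
      have h3 : ∑ v, lg b v ((u t j0 : ℤ) : ℚ) = 0 := by
        have := hus t j0
        exact sum_lg_su hb hbi (by push_cast; exact this)
      rw [h3, add_zero, Fintype.sum_option]
      have h4 : ∑ v : Fin s, lg b (some v) ((h t : ℤ) : ℚ) ≤ 0 :=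
        Finset.sum_nonpos fun v _ => lg_int_le hb v _
      have h5 : lg b none ((h t : ℤ) : ℚ) = Real.log (h t) := by
        rw [lg_none_int]
        congr 1
        rw [Int.cast_natCast, Nat.abs_cast]
      linarith
    have h2 : Real.log (h t) + Real.log (w t) ≤ N t * Real.log 2 := by
      have hh' : (h t : ℝ) ≠ 0 := by exact_mod_cast (hh t).ne'
      have hw' : (w t : ℝ) ≠ 0 := by exact_mod_cast (hwpos t).ne'
      rw [← Real.log_mul hh' hw', ← Nat.cast_mul]
      apply hlogb _ _ (Nat.mul_pos (hh t) (hwpos t))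
      exact (Nat.mul_le_mul_left _ (hwu t)).trans (by rw [htj]; exact hub t j0)
    have h3 := hlt t
    have h4 : |((y t : ℤ) : ℝ)| = (y t : ℝ) := by
      rw [Int.cast_natCast, Nat.abs_cast]
    rw [h4] at ht
    have h5 : 0 ≤ Real.log (w t) := Real.log_natCast_nonneg _
    set A1 : ℝ := (Nat.choose (m + P.totalDegree + r) r : ℝ) with hA1
    set A2 : ℝ := (Nat.choose (m + r) r : ℝ) with hA2
    have hA20 : 1 ≤ A2 := by
      rw [hA2]
      exact_mod_cast Nat.choose_pos (by omega)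
    have hA10 : 0 ≤ A1 := Nat.cast_nonneg _
    have h6 : A1 * ∑ v, lg b v (((h t : ℤ) * (u t j0 : ℤ) : ℤ) : ℚ) ≤
        (1 + ε0 / 2) * A2 * (N t * Real.log 2 - Real.log (w t)) := by
      calc A1 * ∑ v, lg b v (((h t : ℤ) * (u t j0 : ℤ) : ℤ) : ℚ) ≤
            A1 * (N t * Real.log 2 - Real.log (w t)) :=
            mul_le_mul_of_nonneg_left (by linarith) hA10
        _ ≤ (1 + ε0 / 2) * A2 * (N t * Real.log 2 - Real.log (w t)) := by
            apply mul_le_mul_of_nonneg_right hm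
            have : 0 ≤ Real.log (h t) := Real.log_natCast_nonneg _
            linarith
    have h7 : (N t : ℝ) * Real.log 2 ≤ N t := by
      have : (0 : ℝ) ≤ N t := Nat.cast_nonneg _
      nlinarith
    have h8 : (1 + ε0 / 2) * A2 * (N t * Real.log 2 - Real.log (w t)) +
        A2 * (Real.log (y t) - N t * Real.log 2) ≤ A2 * (-(ε0 / 2) * N t) := by
      have h9 : (1 + ε0 / 2) * A2 * (N t * Real.log 2 - Real.log (w t)) +
        A2 * (Real.log (y t) - N t * Real.log 2) =
        A2 * (ε0 / 2 * (N t * Real.log 2) + (Real.log (y t) - Real.log (w t)) -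
          ε0 / 2 * Real.log (w t)) := by ring
      rw [h9]
      apply mul_le_mul_of_nonneg_left _ (by linarith)
      have h10 : ε0 / 2 * (N t * Real.log 2) ≤ ε0 / 2 * N t :=
        mul_le_mul_of_nonneg_left h7 (by positivity)
      have h11 : 0 ≤ ε0 / 2 * Real.log (w t) := by positivity
      linarith
    have h12 : A2 * (-(ε0 / 2) * N t) ≤ -(ε0 / 2) * N t := by
      have : 0 ≤ ε0 / 2 * N t := by positivity
      nlinarith
    have h13 : 0 < ε0 * N t := by
      have : (0 : ℝ) < N t := by linarith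
      positivity
    linarith
  · -- the degenerate case
    push Not at hg
    obtain ⟨F, G, hFG, hFG2⟩ := hg
    have hrel : ∀ᶠ t in (UU : Filter ℕ),
        (((h t : ℤ) * (u t j0 : ℤ) : ℤ) : ℚ) * MvPolynomial.eval (x t) F +
        ((y t : ℤ) : ℚ) * mo (x t) es * MvPolynomial.eval (x t) G = 0 := hFG2
    have hD := caseD hb hbi v0 hv0 hn gp P hP0 es (fun t => (h t : ℤ))
      (fun t => (y t : ℤ)) (fun t => (u t j0 : ℤ)) (fun t => by exact_mod_cast hh t)
      (fun t => by exact_mod_cast hy t) (fun t => by exact_mod_cast hu t j0) heqP F G hFG hrel 1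
      hHb hyb (ε0 / 2) (by positivity)
    obtain ⟨C2, hC2⟩ : ∃ C2 : ℝ, C2 = ∑ v ∈ Finset.univ.erase v0, |lg b (some v) (κ j0)| :=
      ⟨_, rfl⟩
    obtain ⟨t, ht, hm, hN', htj⟩ :=
      (hD.and (hmoEi.and ((ev_top hn (C2 / (ε0 / 2) + 1)).and hj0))).exists
    have hle := ht _ hj0P
    have hw' := hw t
    rw [htj] at hw'
    have hwq : (w t : ℚ) ≠ 0 := by exact_mod_cast (hwpos t).ne'
    have h2q : ((2 : ℚ) ^ (a t)) ≠ 0 := by positivity
    have huw : (u t j0 : ℚ) = 2 ^ (a t) * w t := by exact_mod_cast hw'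
    have hwsu : IsSU b (w t : ℚ) := by
      have h1 : (w t : ℚ) = (u t j0 : ℚ) * ((2 : ℚ) ^ (a t))⁻¹ := by
        rw [huw]
        field_simp
      rw [h1]
      exact su_mul hb (hus t j0) (su_inv (su_pow hb (su_two hv0) _))
    have h1 := sum_lg_su hb hbi hwsu
    rw [Fintype.sum_option, ← Finset.add_sum_erase _ _ (Finset.mem_univ v0)] at h1
    have h2 : lg b none (w t : ℚ) = Real.log (w t) := by
      have h3 := lg_none_int (b := b) (w t : ℤ)
      have h4 : ((w t : ℤ) : ℚ) = (w t : ℚ) := by push_cast; rfl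
      rw [h4] at h3
      rw [h3, Int.cast_natCast, Nat.abs_cast]
    have h4 : lg b (some v0) (w t : ℚ) = 0 := by
      have h5 := lg_some_int hb v0 (z := (w t : ℤ)) (by exact_mod_cast (hwpos t).ne')
      have h6 : padicValInt (b v0) (w t : ℤ) = 0 := by
        rw [hv0]
        exact padicValNat.eq_zero_of_not_dvd (hw2 t)
      have h7 : ((w t : ℤ) : ℚ) = (w t : ℚ) := by push_cast; rfl
      rw [h6, h7] at h5
      rw [h5]
      push_cast
      ring
    have h5 : ∀ v ∈ Finset.univ.erase v0,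
        lg b (some v) (mo (x t) (Ei j0)) - lg b (some v) (mo (x t) es) +
          lg b (some v) (((u t j0 : ℤ)) : ℚ) ≤ |lg b (some v) (κ j0)| + lg b (some v) (w t : ℚ) := by
      intro v hv
      have hv1 : v ≠ v0 := Finset.ne_of_mem_erase hv
      have h6 : lg b (some v) (κ j0 * mo (x t) (Ei j0)) = lg b (some v) (U t j0 * mo (x t) es) := by
        rw [hm j0]
      have h7 : U t j0 = 1 := div_self (hq t j0)
      rw [h7, one_mul, lg_mul hb _ (hκ j0).ne' (mo_pos (gp.pos t) _).ne'] at h6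
      have h8 : lg b (some v) (((u t j0 : ℤ)) : ℚ) = lg b (some v) (w t : ℚ) := by
        have h9 : (((u t j0 : ℤ)) : ℚ) = 2 ^ (a t) * w t := by
          rw [← huw]
          push_cast
          rfl
        rw [h9, lg_mul hb _ h2q hwq, lg_pow hb, lg_two_ne hb hbi hv0 hv1]
        ring
      have h9 := neg_abs_le (lg b (some v) (κ j0))
      rw [h8]
      linarith
    have h6 : _ ≤ _ := hle.trans (Finset.sum_le_sum h5)
    rw [Finset.sum_add_distrib, ← hC2] at h6
    have h7 : C2 + ε0 / 2 ≤ ε0 / 2 * N t := by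
      have h8 : C2 / (ε0 / 2) ≤ N t - 1 := by linarith
      rw [div_le_iff₀ (by positivity)] at h8
      linarith
    have h8 := hlt t
    have h9 : ((y t : ℤ) : ℝ) = (y t : ℝ) := by push_cast; rfl
    rw [h9] at h6
    have h10 : 0 < ε0 * N t := by
      have h11 : 0 ≤ C2 := by
        rw [hC2]
        exact Finset.sum_nonneg fun v _ => abs_nonneg _
      linarith
    linarith

end Pool.Agent.H118_IntCx
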