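import Pool.Agent.H118_IntCx.SumBound

set_option autoImplicit false

namespace Pool.Agent.H118_IntCx

open Finset Filter Topology Pool.Agent.TH461.SST

/-- A power of two which is the sum of `N` positive integers `T i`, where `T i` is a product of
powers of the primes `b v` and of a factor `z i`: the product of the `z i` is large, unless all
`T i` are divisible by a high power of two. -/
theorem sum_bound {s : ℕ} (b : Fin s → ℕ) (hb : ∀ v, (b v).Prime) (hinj : Function.Injective b)
    (v0 : Fin s) (h2 : b v0 = 2) (N : ℕ) (γ : ℝ) (hγ : 0 < γ) :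
    ∃ n0 : ℕ, ∀ n, n0 ≤ n → ∀ (T : Fin N → ℕ) (e : Fin s → Fin N → ℕ) (z : Fin N → ℕ),
      (∀ i, 0 < T i) → (∀ i, T i = (∏ v, b v ^ e v i) * z i) → ∑ i, T i = 2 ^ n →
      ∀ (j : Fin N) (c : ℕ), ¬ 2 ^ (c + 1) ∣ T j →
      (2 : ℝ) ^ n ≤ 2 ^ c * (∏ i, (z i : ℝ)) * Real.exp (γ * n) := by
  classical
  by_contra hcon
  push Not at hcon
  choose n hn T e z hT hTe hsum j c hc hlt using hcon
  obtain ⟨j0, hj0⟩ : ∃ j0, ∃ᶠ t in atTop, j t = j0 := by
    by_contra h
    push Not at h
    have h' : ∀ᶠ t in (atTop : Filter ℕ), ∀ j0, ¬ j t = j0 := by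
      rw [eventually_all]
      intro j0
      exact h j0
    obtain ⟨t, ht⟩ := h'.exists
    exact ht (j t) rfl
  obtain ⟨φ0, hφ0, hjφ⟩ := extraction_of_frequently_atTop hj0
  set X : ℕ → Option (Fin N) → ℚ :=
    fun t o => o.elim ((2 : ℚ) ^ (n (φ0 t))) (fun i => (T (φ0 t) i : ℚ)) with hX
  have hXpos : ∀ t o, 0 < X t o := by
    intro t o
    cases o with
    | none => simp only [hX, Option.elim_none]; positivity
    | some i =>
      simp only [hX, Option.elim_some]
      exact_mod_cast hT (φ0 t) i
  have hXsum : ∀ t, X t none = ∑ i, X t (some i) := by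
    intro t
    simp only [hX, Option.elim_none, Option.elim_some]
    have := hsum (φ0 t)
    exact_mod_cast this.symm
  obtain ⟨φ, hφ, hstab⟩ := exists_stable X
  obtain ⟨r, hr, hrj, hr0, hrmin⟩ := exists_elementary X hXpos φ hXsum j0
  -- the support
  set C : Finset (Fin N) := univ.filter (fun i => r (some i) ≠ 0) with hC
  have hj0C : j0 ∈ C := by simp [hC, hrj]
  set d := C.card with hd
  have hd1 : 1 ≤ d := Finset.card_pos.2 ⟨j0, hj0C⟩
  let E : Fin d ≃ C := C.equivFin.symm
  have hιmem : ∀ l, ((E l : C) : Fin N) ∈ C := fun l => (E l).2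
  set l0 : Fin d := E.symm ⟨j0, hj0C⟩ with hl0
  have hEl0 : ((E l0 : C) : Fin N) = j0 := by rw [hl0, Equiv.apply_symm_apply]
  have hEinj : ∀ l, ((E l : C) : Fin N) = j0 → l = l0 := by
    intro l hl
    apply E.injective
    apply Subtype.ext
    rw [hl, hEl0]
  -- integral multiples of the relation
  set D : ℕ := ∏ o, (r o).den with hD
  have hD0 : (D : ℚ) ≠ 0 := by
    rw [hD]
    exact_mod_cast Finset.prod_ne_zero_iff.2 (fun o _ => (r o).den_ne_zero)
  have hex : ∀ o, ∃ a : ℤ, (a : ℚ) = D * r o := by
    intro o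
    obtain ⟨m, hm⟩ : (r o).den ∣ D := Finset.dvd_prod_of_mem _ (mem_univ o)
    refine ⟨(r o).num * m, ?_⟩
    rw [hm]
    push_cast
    have h3 : (r o) * ((r o).den : ℚ) = (r o).num := Rat.mul_den_eq_num (r o)
    calc ((r o).num : ℚ) * m = ((r o) * (r o).den) * m := by rw [h3]
      _ = (r o).den * m * r o := by ring
  choose a ha using hex
  have hrE : ∀ᶠ k in atTop, ∑ o, r o * X (φ k) o = 0 := hr
  obtain ⟨k0, hk0⟩ := eventually_atTop.1 hrE
  set τ : ℕ → ℕ := fun k => φ0 (φ (k + k0)) with hτ
  have hτk : ∀ k, k ≤ τ k := by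
    intro k
    calc k ≤ k + k0 := Nat.le_add_right _ _
      _ ≤ φ (k + k0) := hφ.id_le _
      _ ≤ φ0 (φ (k + k0)) := hφ0.id_le _
  have hNt : Tendsto (fun k => (n (τ k) : ℝ)) atTop atTop := by
    apply tendsto_natCast_atTop_atTop.comp
    apply tendsto_atTop_mono (f := fun k => k) _ tendsto_id
    intro k
    exact (hτk k).trans (hn _)
  -- integral relation
  have hrel : ∀ k, (∑ l : Fin d, a (some (E l)) * (T (τ k) (E l) : ℤ)) = -(a none * 2 ^ (n (τ k))) := by
    intro k
    have h1 := hk0 (k + k0) (by omega)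
    have h3 : (∑ l : Fin d, (a (some (E l)) : ℚ) * (T (τ k) (E l) : ℚ))
        = ∑ i ∈ C, (a (some i) : ℚ) * (T (τ k) i : ℚ) := by
      rw [Equiv.sum_comp E (fun i : C => (a (some (i : Fin N)) : ℚ) * (T (τ k) i : ℚ)),
        Finset.sum_coe_sort C (fun i => (a (some i) : ℚ) * (T (τ k) i : ℚ))]
    have h4 : ∑ i ∈ C, (a (some i) : ℚ) * (T (τ k) i : ℚ)
        = ∑ i, (a (some i) : ℚ) * (T (τ k) i : ℚ) := by
      apply Finset.sum_subset (subset_univ _)
      intro i _ hi
      have : r (some i) = 0 := by
        by_contra hne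
        exact hi (by simp [hC, hne])
      rw [ha, this]
      ring
    have h5 : (a none : ℚ) * 2 ^ (n (τ k)) + ∑ i, (a (some i) : ℚ) * (T (τ k) i : ℚ) = 0 := by
      rw [Fintype.sum_option] at h1
      simp only [hX, Option.elim_none, Option.elim_some] at h1
      have h6 : (D : ℚ) * (r none * 2 ^ (n (φ0 (φ (k + k0))))
          + ∑ i, r (some i) * (T (φ0 (φ (k + k0))) i : ℚ)) = 0 := by rw [h1, mul_zero]
      rw [mul_add, Finset.mul_sum] at h6
      simp only [ha, hτ]
      rw [← h6]
      congr 1
      · ring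
      · apply Finset.sum_congr rfl
        intro i _
        ring
    have h7 : (∑ l : Fin d, (a (some (E l)) : ℚ) * (T (τ k) (E l) : ℚ))
        = -((a none : ℚ) * 2 ^ (n (τ k))) := by
      rw [h3, h4]
      linarith
    exact_mod_cast h7
  -- the matrices
  set M : Fin s → Matrix (Fin d) (Fin d) ℤ := fun v =>
    if v = v0 then Matrix.updateRow 1 l0 (fun l => a (some (E l))) else 1 with hM
  have hMdet : ∀ v, (M v).det ≠ 0 := by
    intro v
    simp only [hM]
    split_ifs with hv
    · rw [← Matrix.cramer_transpose_apply, Matrix.transpose_one, Matrix.cramer_one]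
      simp only [Module.End.one_apply]
      rw [hEl0]
      intro h0
      have h1 := ha (some j0)
      rw [h0] at h1
      rcases mul_eq_zero.1 h1.symm with h | h
      · exact hD0 h
      · exact hrj h
    · simp
  have hPl : Places (1 : Matrix (Fin d) (Fin d) ℤ) M b := by
    refine ⟨by simp, hMdet, fun v => (hb v).two_le, ?_⟩
    intro v v' hvv
    exact (Nat.coprime_primes (hb v) (hb v')).2 (fun h => hvv (hinj h))
  set e' : ℕ → Fin s → Fin d → ℕ := fun k v l =>
    if v = v0 ∧ l = l0 then n (τ k) else e (τ k) v (E l) with he'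
  have hTle : ∀ k i, T (τ k) i ≤ 2 ^ (n (τ k)) := by
    intro k i
    rw [← hsum (τ k)]
    exact Finset.single_le_sum (f := fun i => T (τ k) i) (fun _ _ => Nat.zero_le _) (mem_univ i)
  have hdvd : ∀ k v i, b v ^ e (τ k) v i ∣ T (τ k) i := by
    intro k v i
    rw [hTe (τ k) i]
    exact Dvd.dvd.mul_right (Finset.dvd_prod_of_mem (fun v => b v ^ e (τ k) v i) (mem_univ v)) _
  have hlog2 : Real.log 2 ≤ 1 := by
    have := Real.log_two_lt_d9
    linarith
  have hlog2' : 0 < Real.log 2 := Real.log_pos (by norm_num)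
  have hlogT : ∀ k i, Real.log (T (τ k) i) ≤ n (τ k) := by
    intro k i
    have h1 : (0 : ℝ) < T (τ k) i := by exact_mod_cast hT (τ k) i
    have h3 : ((T (τ k) i : ℕ) : ℝ) ≤ 2 ^ (n (τ k)) := by exact_mod_cast hTle k i
    have h4 := Real.log_le_log h1 h3
    rw [Real.log_pow] at h4
    have h5 : (0 : ℝ) ≤ n (τ k) := Nat.cast_nonneg _
    nlinarith
  have hzpos : ∀ t i, 1 ≤ z t i := by
    intro t i
    rcases Nat.eq_zero_or_pos (z t i) with h | h
    · have := hTe t i
      rw [h, mul_zero] at this
      have := hT t i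
      omega
    · exact h
  have hSize : ∀ k, Size b 1 γ (n (τ k)) (e' k) (fun l => (T (τ k) (E l) : ℝ)) := by
    intro k
    refine ⟨?_, ?_, ?_, ?_⟩
    · intro v l
      simp only [he']
      rw [one_mul]
      split_ifs with hvl
      · rw [hvl.1, h2]
        have h5 : (0 : ℝ) ≤ n (τ k) := Nat.cast_nonneg _
        push_cast
        nlinarith
      · have h1 : (b v ^ e (τ k) v (E l) : ℕ) ≤ T (τ k) (E l) :=
          Nat.le_of_dvd (hT _ _) (hdvd k v _)
        have h3 : (0 : ℝ) < (b v : ℝ) ^ e (τ k) v (E l) := by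
          have := (hb v).pos
          positivity
        have h4 : Real.log ((b v : ℝ) ^ e (τ k) v (E l)) ≤ Real.log (T (τ k) (E l)) := by
          apply Real.log_le_log h3
          exact_mod_cast h1
        rw [Real.log_pow] at h4
        exact h4.trans (hlogT k _)
    · intro l
      show (0 : ℝ) < (T (τ k) (E l) : ℝ)
      exact_mod_cast hT (τ k) _
    · intro l
      show |Real.log ((T (τ k) (E l) : ℕ) : ℝ)| ≤ 1 * (n (τ k) : ℝ)
      have h1 : (1 : ℝ) ≤ T (τ k) (E l) := by exact_mod_cast hT (τ k) _
      rw [abs_of_nonneg (Real.log_nonneg h1), one_mul]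
      exact hlogT k _
    · -- the double product
      have hjt : j (τ k) = j0 := hjφ _
      have hcle : e (τ k) v0 j0 ≤ c (τ k) := by
        by_contra hlt'
        push Not at hlt'
        apply hc (τ k)
        rw [hjt]
        refine dvd_trans ?_ (hdvd k v0 j0)
        rw [h2]
        exact pow_dvd_pow 2 (by omega)
      have hlogTi : ∀ i, Real.log (T (τ k) i)
          = ∑ v, (e (τ k) v i : ℝ) * Real.log (b v) + Real.log (z (τ k) i) := by
        intro i
        have hz1 : (z (τ k) i : ℝ) ≠ 0 := by
          have := hzpos (τ k) i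
          positivity
        have hp1 : ∀ v ∈ (univ : Finset (Fin s)), ((b v : ℝ) ^ e (τ k) v i) ≠ 0 := by
          intro v _
          have := (hb v).pos
          positivity
        conv_lhs => rw [hTe (τ k) i]
        push_cast
        rw [Real.log_mul (Finset.prod_ne_zero_iff.2 hp1) hz1, Real.log_prod hp1]
        congr 1
        apply Finset.sum_congr rfl
        intro v _
        rw [Real.log_pow]
      have hS1 : ∑ l : Fin d, Real.log (T (τ k) (E l))
          = ∑ l : Fin d, ∑ v, (e (τ k) v (E l) : ℝ) * Real.log (b v)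
            + ∑ l : Fin d, Real.log (z (τ k) (E l)) := by
        rw [← Finset.sum_add_distrib]
        exact Finset.sum_congr rfl (fun l _ => hlogTi _)
      have hS2 : ∑ l : Fin d, Real.log (z (τ k) (E l)) ≤ Real.log (∏ i, (z (τ k) i : ℝ)) := by
        rw [Real.log_prod (fun i _ => by
          have := hzpos (τ k) i
          positivity)]
        rw [Equiv.sum_comp E (fun i : C => Real.log (z (τ k) i)),
          Finset.sum_coe_sort C (fun i => Real.log (z (τ k) i : ℝ))]
        apply Finset.sum_le_sum_of_subset_of_nonneg (subset_univ _)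
        intro i _ _
        apply Real.log_nonneg
        exact_mod_cast hzpos (τ k) i
      have hzp : (0 : ℝ) < ∏ i, (z (τ k) i : ℝ) :=
        Finset.prod_pos (fun i _ => by
          have := hzpos (τ k) i
          positivity)
      have hS3 : (c (τ k) : ℝ) * Real.log 2 + Real.log (∏ i, (z (τ k) i : ℝ)) + γ * n (τ k)
          ≤ n (τ k) * Real.log 2 := by
        have h1 := Real.log_le_log (by positivity) (hlt (τ k)).le
        rw [Real.log_mul (by positivity) (by positivity), Real.log_mul (by positivity) hzp.ne',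
          Real.log_exp, Real.log_pow, Real.log_pow] at h1
        exact h1
      have hS4 : ∑ v, ∑ l, (e' k v l : ℝ) * Real.log (b v)
          = ∑ l : Fin d, ∑ v, (e (τ k) v (E l) : ℝ) * Real.log (b v)
            + ((n (τ k) : ℝ) - e (τ k) v0 j0) * Real.log 2 := by
        have h1 : ∀ v l, (e' k v l : ℝ) * Real.log (b v)
            = (e (τ k) v (E l) : ℝ) * Real.log (b v)
              + (if v = v0 ∧ l = l0 then ((n (τ k) : ℝ) - e (τ k) v0 j0) * Real.log 2 else 0) := by
          intro v l
          simp only [he']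
          split_ifs with hvl
          · rw [hvl.1, hvl.2, hEl0, h2]
            push_cast
            ring
          · ring
        simp only [h1, Finset.sum_add_distrib]
        rw [Finset.sum_comm]
        congr 1
        have h3 : ∀ v, (∑ l : Fin d, (if v = v0 ∧ l = l0 then
            ((n (τ k) : ℝ) - e (τ k) v0 j0) * Real.log 2 else 0))
            = if v = v0 then ((n (τ k) : ℝ) - e (τ k) v0 j0) * Real.log 2 else 0 := by
          intro v
          by_cases hv : v = v0
          · simp [hv]
          · simp [hv]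
        simp only [h3]
        simp
      rw [hS1, hS4]
      have h9 : (e (τ k) v0 j0 : ℝ) * Real.log 2 ≤ c (τ k) * Real.log 2 := by
        apply mul_le_mul_of_nonneg_right _ hlog2'.le
        exact_mod_cast hcle
      nlinarith
  -- apply the subspace theorem
  obtain ⟨y, hy0, hyf⟩ := Pool.Agent.TH461.SST.Main.subspace d s hd1 1 M b hPl 1 γ le_rfl hγ
    (fun k => (n (τ k) : ℝ)) hNt e' (fun k l => (T (τ k) (E l) : ℝ)) hSize
    (fun k l => (T (τ k) (E l) : ℤ))
    (by
      intro k h0
      have h1 := congrFun h0 l0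
      have h3 := hT (τ k) (E l0)
      simp only [Pi.zero_apply] at h1
      have h4 : T (τ k) (E l0) = 0 := by exact_mod_cast h1
      omega)
    (by
      intro k
      refine ⟨?_, ?_⟩
      · intro l
        have h1 : (∑ j : Fin d, (1 : Matrix (Fin d) (Fin d) ℤ) l j * (T (τ k) (E j) : ℤ))
            = T (τ k) (E l) := by
          simp [Matrix.one_apply]
        rw [h1]
        push_cast
        rw [abs_of_nonneg (Nat.cast_nonneg _)]
      · intro v l
        by_cases hvl : v = v0 ∧ l = l0
        · obtain ⟨hv, hl⟩ := hvl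
          rw [hl]
          have h1 : (∑ j : Fin d, M v l0 j * (T (τ k) (E j) : ℤ))
              = -(a none * 2 ^ (n (τ k))) := by
            rw [← hrel k]
            apply Finset.sum_congr rfl
            intro j _
            simp [hM, hv, Matrix.updateRow_self]
          rw [h1]
          simp only [he', hv, true_and, if_true, h2]
          push_cast
          exact Dvd.dvd.neg_right (Dvd.intro_left _ rfl)
        · have h1 : (∑ j : Fin d, M v l j * (T (τ k) (E j) : ℤ)) = T (τ k) (E l) := by
            have h3 : ∀ j, M v l j = (1 : Matrix (Fin d) (Fin d) ℤ) l j := by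
              intro j
              simp only [hM]
              split_ifs with hv
              · have hl : l ≠ l0 := fun h => hvl ⟨hv, h⟩
                rw [Matrix.updateRow_ne hl]
              · rfl
            simp only [h3]
            simp [Matrix.one_apply]
          rw [h1]
          have h3 : e' k v l = e (τ k) v (E l) := by
            simp only [he']
            rw [if_neg hvl]
          rw [h3]
          exact_mod_cast hdvd k v (E l))
  -- extend the relation
  set sv : Option (Fin N) → ℚ := fun o => o.elim 0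
    (fun i => if h : i ∈ C then (y (E.symm ⟨i, h⟩) : ℚ) else 0) with hsv
  have hsvsum : ∀ k, (∑ l, y l * (T (τ k) (E l) : ℤ)) = 0 →
      ∑ o, sv o * X (φ (k + k0)) o = 0 := by
    intro k hk
    rw [Fintype.sum_option]
    simp only [hsv, hX, Option.elim_none, Option.elim_some, zero_mul, zero_add]
    have h1 : (∑ i, (if h : i ∈ C then (y (E.symm ⟨i, h⟩) : ℚ) else 0) * (T (φ0 (φ (k + k0))) i : ℚ))
        = ∑ i ∈ C, (if h : i ∈ C then (y (E.symm ⟨i, h⟩) : ℚ) else 0)
            * (T (φ0 (φ (k + k0))) i : ℚ) := by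
      symm
      apply Finset.sum_subset (subset_univ _)
      intro i _ hi
      rw [dif_neg hi, zero_mul]
    rw [h1, ← Finset.sum_coe_sort C (fun i => (if h : i ∈ C then (y (E.symm ⟨i, h⟩) : ℚ) else 0)
            * (T (φ0 (φ (k + k0))) i : ℚ)), ← Equiv.sum_comp E]
    have h3 : ∀ l : Fin d, (if h : ((E l : C) : Fin N) ∈ C then (y (E.symm ⟨(E l : C), h⟩) : ℚ) else 0)
        * (T (φ0 (φ (k + k0))) (E l) : ℚ) = (y l : ℚ) * (T (τ k) (E l) : ℚ) := by
      intro l
      rw [dif_pos (hιmem l)]
      congr 2
      have : (⟨((E l : C) : Fin N), hιmem l⟩ : C) = E l := Subtype.ext rfl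
      rw [this, Equiv.symm_apply_apply]
    simp only [h3]
    exact_mod_cast hk
  have hfreq : ∃ᶠ k in atTop, ∑ o, sv o * X (φ k) o = 0 := by
    have h1 : ∃ᶠ k in atTop, ∑ o, sv o * X (φ (k + k0)) o = 0 := hyf.mono hsvsum
    exact (tendsto_add_atTop_nat k0).frequently h1
  have hmem := hstab sv hfreq
  have hz := hrmin sv hmem (by
    intro o ho
    cases o with
    | none => exact absurd ho hr0
    | some i =>
      simp only [hsv, Option.elim_some]
      rw [dif_neg]
      simp [hC, ho]) ⟨none, hr0, by simp [hsv]⟩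
  apply hy0
  funext l
  have h1 := congrFun hz (some (E l))
  simp only [hsv, Option.elim_some, Pi.zero_apply] at h1
  rw [dif_pos (hιmem l)] at h1
  have : (⟨((E l : C) : Fin N), hιmem l⟩ : C) = E l := Subtype.ext rfl
  rw [this, Equiv.symm_apply_apply] at h1
  exact_mod_cast h1

end Pool.Agent.H118_IntCx
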