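import Pool.Agent.H118_IntCx.Mix
import Pool.Agent.H118_IntCx.SumBound2

set_option autoImplicit false

namespace Pool.Agent.H118_IntCx

open Finset

/-- the primes up to `max P 2` -/
noncomputable def prs (P : ℕ) : Finset ℕ := (Finset.range (max P 2 + 1)).filter Nat.Prime

noncomputable def prb (P : ℕ) : Fin (prs P).card → ℕ := fun v => ((prs P).equivFin.symm v : ℕ)

theorem prb_prime (P : ℕ) (v : Fin (prs P).card) : (prb P v).Prime :=
  (Finset.mem_filter.1 ((prs P).equivFin.symm v).2).2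

theorem prb_inj (P : ℕ) : Function.Injective (prb P) := by
  intro v w h
  exact (prs P).equivFin.symm.injective (Subtype.ext h)

theorem two_mem_prs (P : ℕ) : 2 ∈ prs P := by
  rw [prs, Finset.mem_filter, Finset.mem_range]
  exact ⟨by have := le_max_right P 2; omega, Nat.prime_two⟩

theorem exists_two (P : ℕ) : ∃ v, prb P v = 2 :=
  ⟨(prs P).equivFin ⟨2, two_mem_prs P⟩, by simp [prb]⟩

theorem smooth_prod (P m : ℕ) (hm : 1 ≤ m) (hsm : ∀ p, p.Prime → p ∣ m → p ≤ P) :
    ∃ e : Fin (prs P).card → ℕ, m = ∏ v, prb P v ^ e v := by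
  refine ⟨fun v => m.factorization (prb P v), ?_⟩
  have h1 : ∏ v, prb P v ^ m.factorization (prb P v) = ∏ p ∈ prs P, p ^ m.factorization p := by
    simp only [prb]
    rw [Equiv.prod_comp (prs P).equivFin.symm (fun p : prs P => (p : ℕ) ^ m.factorization (p : ℕ)),
      Finset.prod_coe_sort (prs P) (fun p => p ^ m.factorization p)]
  rw [h1]
  have hsub : m.factorization.support ⊆ prs P := by
    intro p hp
    rw [Nat.support_factorization, Nat.mem_primeFactors] at hp
    rw [prs, Finset.mem_filter, Finset.mem_range]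
    refine ⟨?_, hp.1⟩
    have := hsm p hp.1 hp.2.1
    have := le_max_left P 2
    omega
  rw [← Finsupp.prod_of_support_subset m.factorization hsub (fun p e => p ^ e) (by simp)]
  exact (Nat.prod_factorization_pow_eq_self (by omega)).symm

/-- the common power of two -/
theorem exists_common {ι : Type} [Fintype ι] [Nonempty ι] (T : ι → ℕ) (hT : ∀ i, 0 < T i) :
    ∃ c, (∀ i, 2 ^ c ∣ T i) ∧ ∃ j, ¬ 2 ^ (c + 1) ∣ T j := by
  classical
  by_contra hcon
  push Not at hcon
  have hall : ∀ c, ∀ i, 2 ^ c ∣ T i := by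
    intro c
    induction c with
    | zero => intro i; simp
    | succ c ih => exact hcon c ih
  obtain ⟨i⟩ := ‹Nonempty ι›
  have h1 := Nat.le_of_dvd (hT i) (hall (T i) i)
  have h2 : T i < 2 ^ (T i) := Nat.lt_two_pow_self
  omega

/-- `sum_bound` for arbitrary index types -/
theorem sum_bound' (P N : ℕ) (γ : ℝ) (hγ : 0 < γ) :
    ∃ n0 : ℕ, ∀ n, n0 ≤ n → ∀ (ι : Type) [Fintype ι], Fintype.card ι ≤ N →
      ∀ (T z : ι → ℕ), (∀ i, 0 < T i) →
      (∀ i, ∃ e : Fin (prs P).card → ℕ, T i = (∏ v, prb P v ^ e v) * z i) → ∑ i, T i = 2 ^ n →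
      ∃ c, (∀ i, 2 ^ c ∣ T i) ∧ (2 : ℝ) ^ n ≤ 2 ^ c * (∏ i, (z i : ℝ)) * Real.exp (γ * n) := by
  classical
  obtain ⟨v0, hv0⟩ := exists_two P
  have hall : ∀ a : ℕ, ∃ n0 : ℕ, ∀ n, n0 ≤ n → ∀ (T : Fin a → ℕ)
      (e : Fin (prs P).card → Fin a → ℕ) (z : Fin a → ℕ),
      (∀ i, 0 < T i) → (∀ i, T i = (∏ v, prb P v ^ e v i) * z i) → ∑ i, T i = 2 ^ n →
      ∀ (j : Fin a) (c : ℕ), ¬ 2 ^ (c + 1) ∣ T j →
      (2 : ℝ) ^ n ≤ 2 ^ c * (∏ i, (z i : ℝ)) * Real.exp (γ * n) := fun a =>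
    sum_bound (prb P) (prb_prime P) (prb_inj P) v0 hv0 a γ hγ
  choose f hf using hall
  refine ⟨∑ a ∈ range (N + 1), f a, ?_⟩
  intro n hn ι _ hcard T z hT he hsum
  have hne : Nonempty ι := by
    by_contra h
    rw [not_nonempty_iff] at h
    rw [Fintype.sum_empty] at hsum
    have : 0 < 2 ^ n := by positivity
    omega
  obtain ⟨c, hc, j, hj⟩ := exists_common T hT
  refine ⟨c, hc, ?_⟩
  choose e he using he
  have hfn : f (Fintype.card ι) ≤ n := by
    refine le_trans ?_ hn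
    exact Finset.single_le_sum (f := f) (fun _ _ => Nat.zero_le _)
      (Finset.mem_range.2 (by omega))
  let E := Fintype.equivFin ι
  have h := hf (Fintype.card ι) n hfn (fun i => T (E.symm i)) (fun v i => e (E.symm i) v)
    (fun i => z (E.symm i)) (fun i => hT _) (fun i => he _)
    (by rw [← hsum]; exact Equiv.sum_comp E.symm T) (E j) c (by simpa using hj)
  have h3 : ∏ i, ((z (E.symm i) : ℕ) : ℝ) = ∏ i, (z i : ℝ) :=
    Equiv.prod_comp E.symm (fun i => (z i : ℝ))
  rw [h3] at h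
  exact h

theorem log_three_le : 41 * Real.log 3 ≤ 65 * Real.log 2 := by
  have h : Real.log ((3 : ℝ) ^ 41) ≤ Real.log ((2 : ℝ) ^ 65) := by
    apply Real.log_le_log (by positivity)
    norm_num
  rw [Real.log_pow, Real.log_pow] at h
  exact_mod_cast h

/-- the final estimate -/
theorem final_est (n K Nt W : ℕ) (hW : 1 ≤ W)
    (h1 : (2 : ℝ) ^ n ≤ (W : ℝ) ^ 17 * Real.exp ((1 / 1000) * n))
    (h2 : (2 ^ n * W) ^ 3 ≤ 3 ^ K * 8 ^ Nt) (hn : 800 * Nt ≤ n) : 2001 * n ≤ 1000 * K := by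
  have hWR : (0 : ℝ) < W := by exact_mod_cast hW
  have hl2 := Real.log_two_gt_d9
  have e1 := Real.log_le_log (by positivity) h1
  rw [Real.log_mul (by positivity) (by positivity), Real.log_exp, Real.log_pow, Real.log_pow] at e1
  have h2R : ((2 : ℝ) ^ n * W) ^ 3 ≤ 3 ^ K * 8 ^ Nt := by exact_mod_cast h2
  have e2 := Real.log_le_log (by positivity) h2R
  rw [Real.log_mul (by positivity) (by positivity), Real.log_pow, Real.log_pow, Real.log_pow,
    Real.log_mul (by positivity) (by positivity), Real.log_pow,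
    show (8 : ℝ) = 2 ^ 3 by norm_num, Real.log_pow] at e2
  have e3 := log_three_le
  push_cast at e1 e2
  have hnR : (0 : ℝ) ≤ n := Nat.cast_nonneg _
  have hKR : (0 : ℝ) ≤ K := Nat.cast_nonneg _
  have hNR : (0 : ℝ) ≤ Nt := Nat.cast_nonneg _
  have hnN : (800 : ℝ) * Nt ≤ n := by exact_mod_cast hn
  have e4 : (K : ℝ) * Real.log 3 * 41 ≤ K * 65 * Real.log 2 := by nlinarith
  have e5 : (1 / 1000 : ℝ) * n ≤ (1 / 600) * (n * Real.log 2) := by nlinarith
  have key : (2001 * n : ℝ) * Real.log 2 ≤ (1000 * K) * Real.log 2 := by nlinarith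
  have hlog : 0 < Real.log 2 := by linarith
  have := le_of_mul_le_mul_right key hlog
  exact_mod_cast this

end Pool.Agent.H118_IntCx
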