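import Pool.Agent.H118_IntCx.Cof
import Pool.Agent.H118_IntCx.MixMain

/-!
# Short sums of smooth numbers dividing a summand of `2 ^ n`
-/

set_option autoImplicit false

namespace Pool.Agent.H118_IntCx

open Pool.Agent.TH551.SU

/-- if `d` is a sum of `N` smooth numbers and `h * d + y = 2 ^ n`, then the odd parts of the terms
of `d` are not much larger than `y` -/
theorem cof_smooth (P N : ℕ) (ε : ℝ) (hε : 0 < ε) :
    ∃ n0 : ℕ, ∀ n, n0 ≤ n → ∀ (x y : ℕ), x + y = 2 ^ n → 0 < x → 0 < y →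
      ∀ (u : Fin N → ℕ) (i : Fin N) (a w : ℕ),
      (∀ j, 0 < u j ∧ ∀ p, p.Prime → p ∣ u j → p ≤ P) → (∑ j, u j) ∣ x →
      u i = 2 ^ a * w → ¬ 2 ∣ w → Real.log w ≤ Real.log y + ε * n := by
  obtain ⟨v0, hv0⟩ := exists_two P
  obtain ⟨n0, h0⟩ := cof (prb_prime P) (prb_inj P) v0 hv0 N ε hε
  refine ⟨n0, fun n hn x y hxy hx hy u i a w hu hdvd huw hw => ?_⟩
  obtain ⟨h, rfl⟩ := hdvd
  have hh : 0 < h := by
    rcases Nat.eq_zero_or_pos h with h1 | h1
    · rw [h1, mul_zero] at hx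
      exact absurd hx (lt_irrefl _)
    · exact h1
  refine h0 n hn h y u i a w hh hy (fun j => (hu j).1) (fun j => ?_) (by rw [mul_comm]; exact hxy)
    huw hw
  obtain ⟨e, he⟩ := smooth_prod P (u j) (hu j).1 (hu j).2
  refine ⟨1, fun v => (e v : ℤ), Or.inl rfl, ?_⟩
  rw [he]
  push_cast
  rw [one_mul]
  exact Finset.prod_congr rfl fun v _ => by rw [zpow_natCast]

theorem cost_log {m k : ℕ} (h : Reach m k) : 3 * Real.log m ≤ k * Real.log 3 := by
  have h1 := selfridge h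
  have h2 := (reach_pos h).1
  have h3 : ((m : ℝ)) ^ 3 ≤ 3 ^ k := by exact_mod_cast h1
  have h4 : (0 : ℝ) < (m : ℝ) ^ 3 := by positivity
  have h5 := Real.log_le_log h4 h3
  rw [Real.log_pow, Real.log_pow] at h5
  exact_mod_cast h5

theorem log3_pos : 0 < Real.log 3 := Real.log_pos (by norm_num)

theorem cof_cost (P N : ℕ) (ε : ℝ) (hε : 0 < ε) :
    ∃ n0 : ℕ, ∀ n, n0 ≤ n → ∀ (x y k l : ℕ), x + y = 2 ^ n → Reach x k → Reach y l →
      ∀ (u : Fin N → ℕ) (i : Fin N) (a w : ℕ),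
      (∀ j, 0 < u j ∧ ∀ p, p.Prime → p ∣ u j → p ≤ P) → (∑ j, u j) ∣ x →
      u i = 2 ^ a * w → ¬ 2 ∣ w →
      3 * (n * Real.log 2 + Real.log w) ≤ (k + l + ε * n) * Real.log 3 := by
  have h3 := log3_pos
  have h2 : 0 < Real.log 2 := Real.log_pos (by norm_num)
  obtain ⟨δ, hδ⟩ : ∃ δ : ℝ, δ = ε * Real.log 3 / 6 := ⟨_, rfl⟩
  have hδ0 : 0 < δ := by rw [hδ]; positivity
  obtain ⟨n1, h1⟩ := cof_smooth P N δ hδ0
  obtain ⟨n2, hn2⟩ := exists_nat_ge (Real.log 2 / δ)
  refine ⟨max n1 n2, fun n hn x y k l hxy hx hy u i a w hu hdvd huw hw => ?_⟩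
  have hx0 := (reach_pos hx).1
  have hy0 := (reach_pos hy).1
  have hcof := h1 n ((le_max_left _ _).trans hn) x y hxy hx0 hy0 u i a w hu hdvd huw hw
  have hkx := cost_log hx
  have hly := cost_log hy
  have hn' : Real.log 2 ≤ δ * n := by
    have h4 : (n2 : ℝ) ≤ n := by exact_mod_cast (le_max_right _ _).trans hn
    have h5 : Real.log 2 / δ ≤ n := hn2.trans h4
    rw [div_le_iff₀ hδ0] at h5
    linarith
  have hw0 : 0 < w := by
    rcases Nat.eq_zero_or_pos w with h | h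
    · exact absurd (by rw [h]; exact dvd_zero 2) hw
    · exact h
  have hwx : w ≤ x := by
    have h4 : w ≤ u i := by
      rw [huw]
      exact Nat.le_mul_of_pos_left _ (by positivity)
    have h5 : u i ≤ ∑ j, u j :=
      Finset.single_le_sum (f := u) (fun _ _ => Nat.zero_le _) (Finset.mem_univ i)
    exact h4.trans (h5.trans (Nat.le_of_dvd hx0 hdvd))
  have hlwx : Real.log w ≤ Real.log x :=
    Real.log_le_log (by exact_mod_cast hw0) (by exact_mod_cast hwx)
  have hbig : ∀ z : ℕ, 0 < z → 2 ^ n ≤ 2 * z → n * Real.log 2 ≤ Real.log 2 + Real.log z := by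
    intro z hz h4
    have h5 : ((2 : ℝ)) ^ n ≤ 2 * z := by exact_mod_cast h4
    have h6 := Real.log_le_log (by positivity) h5
    rw [Real.log_pow, Real.log_mul (by norm_num) (by exact_mod_cast hz.ne')] at h6
    exact h6
  have hε6 : ε * n * Real.log 3 = 6 * (δ * n) := by
    rw [hδ]
    ring
  have hδn : 0 ≤ δ * n := by positivity
  rcases le_total y x with hle | hle
  · have h4 := hbig x hx0 (by omega)
    nlinarith
  · have h4 := hbig y hy0 (by omega)
    nlinarith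

theorem log23 : 65 * Real.log 2 ≥ 41 * Real.log 3 := by
  have h1 : ((3 : ℝ)) ^ 41 ≤ 2 ^ 65 := by norm_num
  have h2 := Real.log_le_log (by positivity) h1
  rw [Real.log_pow, Real.log_pow] at h2
  exact_mod_cast h2

theorem cof_final (P N : ℕ) (ε : ℝ) (hε : 0 < ε) :
    ∃ n0 : ℕ, ∀ n, n0 ≤ n → ∀ (x y k l : ℕ), x + y = 2 ^ n → Reach x k → Reach y l →
      ∀ (u : Fin N → ℕ) (i : Fin N) (a w : ℕ),
      (∀ j, 0 < u j ∧ ∀ p, p.Prime → p ∣ u j → p ≤ P) → (∑ j, u j) ∣ x →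
      u i = 2 ^ a * w → ¬ 2 ∣ w →
      3 * (n * Real.log 2 + Real.log w) ≤ (k + l + ε * n) * Real.log 3 ∧
      (2 ^ n ≤ w ^ 17 → 2001 * n ≤ 1000 * (k + l)) := by
  obtain ⟨n0, h0⟩ := cof_cost P N (min ε (1 / 1000)) (by positivity)
  refine ⟨n0, fun n hn x y k l hxy hx hy u i a w hu hdvd huw hw => ?_⟩
  have h1 := h0 n hn x y k l hxy hx hy u i a w hu hdvd huw hw
  have h3 := log3_pos
  have hn0 : (0 : ℝ) ≤ n := Nat.cast_nonneg n
  have hw0 : 0 < w := by
    rcases Nat.eq_zero_or_pos w with h | h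
    · exact absurd (by rw [h]; exact dvd_zero 2) hw
    · exact h
  constructor
  · refine h1.trans (mul_le_mul_of_nonneg_right ?_ h3.le)
    have := mul_le_mul_of_nonneg_right (min_le_left ε (1 / 1000)) hn0
    linarith
  · intro hw17
    have h4 : ((2 : ℝ)) ^ n ≤ (w : ℝ) ^ 17 := by exact_mod_cast hw17
    have h5 := Real.log_le_log (by positivity) h4
    rw [Real.log_pow, Real.log_pow] at h5
    push_cast at h5
    have h6 := mul_le_mul_of_nonneg_right (min_le_right ε (1 / 1000)) hn0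
    have h7 : (k + l + min ε (1 / 1000) * n) * Real.log 3 ≤
        ((k : ℝ) + l + 1 / 1000 * n) * Real.log 3 :=
      mul_le_mul_of_nonneg_right (by linarith) h3.le
    have h8 := mul_le_mul_of_nonneg_left log23 hn0
    have h9 : (2001 : ℝ) * n * Real.log 3 ≤ 1000 * (k + l) * Real.log 3 := by
      nlinarith
    have h10 : (2001 : ℝ) * n ≤ 1000 * (k + l) := le_of_mul_le_mul_right h9 h3
    exact_mod_cast h10

end Pool.Agent.H118_IntCx
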