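import Pool.Agent.H118_IntCx.Defs

namespace Pool.Agent.H118_IntCx

/-- Structure of a number with an expression having `A` additions other than those producing `3`. -/
def Data (m A : ℕ) : Prop :=
  ∃ (b q : ℕ) (Ls : List ℕ), m = 3 ^ b * q ∧ Ls.length = A ∧
    ∀ T1 T2 : ℕ, 1 ≤ T1 → T1 ≤ T2 → (∀ t ∈ Ls, t < T1 ∨ T2 ≤ t) →
      ∃ r : ℕ, 1 ≤ r ∧ r ≤ 2 ^ A * 3 ^ (A * T1) ∧ (3 : ℤ) ^ T2 ∣ (q : ℤ) - r

theorem data_one : Data 1 0 := by
  refine ⟨0, 1, [], by norm_num, by simp, ?_⟩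
  intro T1 T2 _ _ _
  exact ⟨1, le_rfl, by norm_num, by simp⟩

theorem data_three : Data 3 0 := by
  refine ⟨1, 1, [], by norm_num, by simp, ?_⟩
  intro T1 T2 _ _ _
  exact ⟨1, le_rfl, by norm_num, by simp⟩

theorem data_mul {m1 m2 A1 A2 : ℕ} (h1 : Data m1 A1) (h2 : Data m2 A2) :
    Data (m1 * m2) (A1 + A2) := by
  obtain ⟨b1, q1, L1, hm1, hl1, hr1⟩ := h1
  obtain ⟨b2, q2, L2, hm2, hl2, hr2⟩ := h2
  refine ⟨b1 + b2, q1 * q2, L1 ++ L2, ?_, ?_, ?_⟩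
  · rw [hm1, hm2, pow_add]; ring
  · rw [List.length_append, hl1, hl2]
  · intro T1 T2 hT1 hT hgap
    obtain ⟨r1, hr1a, hr1b, hr1c⟩ := hr1 T1 T2 hT1 hT (fun t ht => hgap t (by simp [ht]))
    obtain ⟨r2, hr2a, hr2b, hr2c⟩ := hr2 T1 T2 hT1 hT (fun t ht => hgap t (by simp [ht]))
    refine ⟨r1 * r2, Nat.mul_pos hr1a hr2a, ?_, ?_⟩
    · calc r1 * r2 ≤ (2 ^ A1 * 3 ^ (A1 * T1)) * (2 ^ A2 * 3 ^ (A2 * T1)) :=
            Nat.mul_le_mul hr1b hr2b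
        _ = 2 ^ (A1 + A2) * 3 ^ ((A1 + A2) * T1) := by
            rw [pow_add, show (A1 + A2) * T1 = A1 * T1 + A2 * T1 by ring, pow_add]
            ring
    · push_cast
      have e : (q1 : ℤ) * q2 - r1 * r2 = ((q1 : ℤ) - r1) * q2 + r1 * ((q2 : ℤ) - r2) := by ring
      rw [e]
      exact dvd_add (Dvd.dvd.mul_right hr1c _) (Dvd.dvd.mul_left hr2c _)

theorem data_add_aux {m1 m2 A1 A2 : ℕ} (b1 q1 : ℕ) (L1 : List ℕ) (b2 q2 : ℕ) (L2 : List ℕ)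
    (hb : b1 ≤ b2) (hm1 : m1 = 3 ^ b1 * q1) (hl1 : L1.length = A1)
    (hr1 : ∀ T1 T2 : ℕ, 1 ≤ T1 → T1 ≤ T2 → (∀ t ∈ L1, t < T1 ∨ T2 ≤ t) →
      ∃ r : ℕ, 1 ≤ r ∧ r ≤ 2 ^ A1 * 3 ^ (A1 * T1) ∧ (3 : ℤ) ^ T2 ∣ (q1 : ℤ) - r)
    (hm2 : m2 = 3 ^ b2 * q2) (hl2 : L2.length = A2)
    (hr2 : ∀ T1 T2 : ℕ, 1 ≤ T1 → T1 ≤ T2 → (∀ t ∈ L2, t < T1 ∨ T2 ≤ t) →
      ∃ r : ℕ, 1 ≤ r ∧ r ≤ 2 ^ A2 * 3 ^ (A2 * T1) ∧ (3 : ℤ) ^ T2 ∣ (q2 : ℤ) - r) :
    Data (m1 + m2) (A1 + A2 + 1) := by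
  refine ⟨b1, q1 + 3 ^ (b2 - b1) * q2, (b2 - b1) :: (L1 ++ L2), ?_, ?_, ?_⟩
  · rw [hm1, hm2]
    have e2 : 3 ^ b2 = 3 ^ b1 * 3 ^ (b2 - b1) := by rw [← pow_add]; congr 1; omega
    rw [e2]
    ring
  · rw [List.length_cons, List.length_append, hl1, hl2]
  · intro T1 T2 hT1 hT hgap
    obtain ⟨r1, hr1a, hr1b, hr1c⟩ := hr1 T1 T2 hT1 hT (fun t ht => hgap t (by simp [ht]))
    obtain ⟨r2, hr2a, hr2b, hr2c⟩ := hr2 T1 T2 hT1 hT (fun t ht => hgap t (by simp [ht]))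
    set d := b2 - b1 with hd
    -- truncated summand
    have key : ∃ s : ℕ, s ≤ 3 ^ T1 * r2 ∧ (3 : ℤ) ^ T2 ∣ ((3 ^ d * q2 : ℕ) : ℤ) - s := by
      rcases hgap d (by simp) with hd | hd
      · refine ⟨3 ^ d * r2, ?_, ?_⟩
        · exact Nat.mul_le_mul_right _ (Nat.pow_le_pow_right (by norm_num) hd.le)
        · push_cast
          rw [← mul_sub]
          exact Dvd.dvd.mul_left hr2c _
      · refine ⟨0, Nat.zero_le _, ?_⟩
        push_cast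
        rw [sub_zero]
        exact Dvd.dvd.mul_right (pow_dvd_pow 3 hd) _
    obtain ⟨s2, hs2a, hs2c⟩ := key
    refine ⟨r1 + s2, by omega, ?_, ?_⟩
    · have p1 : 1 ≤ 2 ^ A1 * 3 ^ (A1 * T1) := Nat.mul_pos (by positivity) (by positivity)
      have p2 : 1 ≤ 2 ^ A2 * 3 ^ (A2 * T1) := Nat.mul_pos (by positivity) (by positivity)
      have p3 : 1 ≤ 3 ^ T1 := Nat.one_le_pow _ _ (by norm_num)
      set u1 := 2 ^ A1 * 3 ^ (A1 * T1) with hu1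
      set u2 := 2 ^ A2 * 3 ^ (A2 * T1) with hu2
      have e1 : r1 ≤ u1 * u2 := hr1b.trans (Nat.le_mul_of_pos_right _ p2)
      have e1' : r1 ≤ 3 ^ T1 * (u1 * u2) := e1.trans (Nat.le_mul_of_pos_left _ p3)
      have e2 : r2 ≤ u1 * u2 := hr2b.trans (Nat.le_mul_of_pos_left _ p1)
      calc r1 + s2 ≤ 3 ^ T1 * (u1 * u2) + 3 ^ T1 * (u1 * u2) :=
            Nat.add_le_add e1' (hs2a.trans (Nat.mul_le_mul_left _ e2))
        _ = 2 ^ (A1 + A2 + 1) * 3 ^ ((A1 + A2 + 1) * T1) := by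
            rw [hu1, hu2, pow_add, pow_add, show (A1 + A2 + 1) * T1
              = A1 * T1 + A2 * T1 + T1 by ring, pow_add, pow_add]
            ring
    · have e : ((q1 + 3 ^ d * q2 : ℕ) : ℤ) - ((r1 + s2 : ℕ) : ℤ)
          = ((q1 : ℤ) - r1) + (((3 ^ d * q2 : ℕ) : ℤ) - s2) := by
        push_cast
        ring
      rw [e]
      exact dvd_add hr1c hs2c

theorem data_add {m1 m2 A1 A2 : ℕ} (h1 : Data m1 A1) (h2 : Data m2 A2) :
    Data (m1 + m2) (A1 + A2 + 1) := by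
  obtain ⟨b1, q1, L1, hm1, hl1, hr1⟩ := h1
  obtain ⟨b2, q2, L2, hm2, hl2, hr2⟩ := h2
  rcases le_total b1 b2 with hb | hb
  · exact data_add_aux b1 q1 L1 b2 q2 L2 hb hm1 hl1 hr1 hm2 hl2 hr2
  · have := data_add_aux b2 q2 L2 b1 q1 L1 hb hm2 hl2 hr2 hm1 hl1 hr1
    rw [Nat.add_comm m2 m1, Nat.add_comm A2 A1] at this
    exact this

/-- auxiliary weight -/
noncomputable def cw (m : ℕ) : ℝ := if m = 1 then 3 else if m = 2 then 26 / 25 else 1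

theorem cw_ge_one (m : ℕ) : 1 ≤ cw m := by
  unfold cw
  split_ifs <;> norm_num

theorem cw_one : cw 1 = 3 := by unfold cw; simp
theorem cw_two : cw 2 = 26 / 25 := by unfold cw; simp
theorem cw_big (m : ℕ) (h : 3 ≤ m) : cw m = 1 := by
  unfold cw
  rw [if_neg (by omega), if_neg (by omega)]

theorem num_add (m1 m2 : ℕ) (h1 : 1 ≤ m1) (h2 : 1 ≤ m2) (h3 : m1 + m2 ≠ 3) :
    (676 / 625 : ℝ) * (((m1 + m2 : ℕ) : ℝ) ^ 3 * cw (m1 + m2))
      ≤ ((m1 : ℝ) ^ 3 * cw m1) * ((m2 : ℝ) ^ 3 * cw m2) := by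
  -- symmetric reduction
  have main : ∀ a b : ℕ, 1 ≤ a → a ≤ b → a + b ≠ 3 →
      (676 / 625 : ℝ) * (((a + b : ℕ) : ℝ) ^ 3 * cw (a + b))
        ≤ ((a : ℝ) ^ 3 * cw a) * ((b : ℝ) ^ 3 * cw b) := by
    intro a b ha hab hne
    rcases Nat.lt_or_ge a 2 with ha2 | ha2
    · have : a = 1 := by omega
      subst this
      rcases Nat.lt_or_ge b 2 with hb2 | hb2
      · have : b = 1 := by omega
        subst this
        rw [show 1 + 1 = 2 by norm_num, cw_one, cw_two]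
        norm_num
      · have hb3 : 3 ≤ b := by omega
        rw [cw_one, cw_big (1 + b) (by omega), cw_big b hb3]
        have hbR : (3 : ℝ) ≤ b := by exact_mod_cast hb3
        push_cast
        nlinarith [mul_nonneg (by linarith : (0 : ℝ) ≤ b - 3) (by positivity : (0 : ℝ) ≤ (b : ℝ) ^ 2),
          mul_nonneg (by linarith : (0 : ℝ) ≤ b - 3) (by positivity : (0 : ℝ) ≤ (b : ℝ))]
    · rcases Nat.lt_or_ge a 3 with ha3 | ha3
      · have : a = 2 := by omega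
        subst this
        rcases Nat.lt_or_ge b 3 with hb3 | hb3
        · have : b = 2 := by omega
          subst this
          rw [cw_two, cw_big (2 + 2) (by omega)]
          norm_num
        · rw [cw_two, cw_big (2 + b) (by omega), cw_big b hb3]
          have hbR : (3 : ℝ) ≤ b := by exact_mod_cast hb3
          push_cast
          nlinarith [mul_nonneg (by linarith : (0 : ℝ) ≤ b - 3) (by positivity : (0 : ℝ) ≤ (b : ℝ) ^ 2),
            mul_nonneg (by linarith : (0 : ℝ) ≤ b - 3) (by positivity : (0 : ℝ) ≤ (b : ℝ))]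
      · rw [cw_big a ha3, cw_big b (by omega), cw_big (a + b) (by omega)]
        have haR : (3 : ℝ) ≤ a := by exact_mod_cast ha3
        have habR : (a : ℝ) ≤ b := by exact_mod_cast hab
        have e1 : ((a + b : ℕ) : ℝ) ≤ 2 * b := by push_cast; linarith
        have e2 : ((a + b : ℕ) : ℝ) ^ 3 ≤ (2 * (b : ℝ)) ^ 3 :=
          pow_le_pow_left₀ (by positivity) e1 3
        have e3 : (27 : ℝ) ≤ (a : ℝ) ^ 3 := by
          calc (27 : ℝ) = 3 ^ 3 := by norm_num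
            _ ≤ (a : ℝ) ^ 3 := pow_le_pow_left₀ (by norm_num) haR 3
        have e4 : (0 : ℝ) ≤ (b : ℝ) ^ 3 := by positivity
        nlinarith [mul_le_mul_of_nonneg_right e3 e4]
  rcases le_total m1 m2 with h | h
  · exact main m1 m2 h1 h h3
  · have := main m2 m1 h2 h (by omega)
    rw [Nat.add_comm m2 m1] at this
    linarith

theorem cw_mul (m1 m2 : ℕ) (h1 : 1 ≤ m1) (h2 : 1 ≤ m2) : cw (m1 * m2) ≤ cw m1 * cw m2 := by
  have g1 := cw_ge_one m1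
  have g2 := cw_ge_one m2
  rcases Nat.lt_or_ge m1 2 with h | h
  · have : m1 = 1 := by omega
    subst this
    rw [Nat.one_mul, cw_one]
    linarith
  · rcases Nat.lt_or_ge m2 2 with h' | h'
    · have : m2 = 1 := by omega
      subst this
      rw [Nat.mul_one, cw_one]
      linarith
    · have : 3 ≤ m1 * m2 := by nlinarith
      rw [cw_big _ this]
      nlinarith

theorem reach_data {m k : ℕ} (h : Reach m k) :
    ∃ A, Data m A ∧ (676 / 625 : ℝ) ^ A * ((m : ℝ) ^ 3 * cw m) ≤ 3 ^ k := by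
  induction h with
  | one =>
    refine ⟨0, data_one, ?_⟩
    rw [cw_one]
    norm_num
  | @add m1 m2 k1 k2 h1 h2 ih1 ih2 =>
    by_cases h3 : m1 + m2 = 3
    · refine ⟨0, h3 ▸ data_three, ?_⟩
      have hs := selfridge (Reach.add h1 h2)
      rw [h3] at hs ⊢
      rw [cw_big 3 le_rfl]
      have hsR : ((3 ^ 3 : ℕ) : ℝ) ≤ ((3 ^ (k1 + k2) : ℕ) : ℝ) := by exact_mod_cast hs
      push_cast at hsR ⊢
      linarith
    · obtain ⟨A1, hd1, hi1⟩ := ih1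
      obtain ⟨A2, hd2, hi2⟩ := ih2
      refine ⟨A1 + A2 + 1, data_add hd1 hd2, ?_⟩
      have hn := num_add m1 m2 (reach_pos h1).1 (reach_pos h2).1 h3
      have c1 := cw_ge_one m1
      have c2 := cw_ge_one m2
      calc (676 / 625 : ℝ) ^ (A1 + A2 + 1) * (((m1 + m2 : ℕ) : ℝ) ^ 3 * cw (m1 + m2))
          = ((676 / 625 : ℝ) ^ A1 * (676 / 625 : ℝ) ^ A2)
            * ((676 / 625 : ℝ) * (((m1 + m2 : ℕ) : ℝ) ^ 3 * cw (m1 + m2))) := by
            rw [pow_succ, pow_add]; ring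
        _ ≤ ((676 / 625 : ℝ) ^ A1 * (676 / 625 : ℝ) ^ A2)
            * (((m1 : ℝ) ^ 3 * cw m1) * ((m2 : ℝ) ^ 3 * cw m2)) :=
            mul_le_mul_of_nonneg_left hn (by positivity)
        _ = ((676 / 625 : ℝ) ^ A1 * ((m1 : ℝ) ^ 3 * cw m1))
            * ((676 / 625 : ℝ) ^ A2 * ((m2 : ℝ) ^ 3 * cw m2)) := by ring
        _ ≤ 3 ^ k1 * 3 ^ k2 := mul_le_mul hi1 hi2 (by positivity) (by positivity)
        _ = 3 ^ (k1 + k2) := by rw [pow_add]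
  | @mul m1 m2 k1 k2 h1 h2 ih1 ih2 =>
    obtain ⟨A1, hd1, hi1⟩ := ih1
    obtain ⟨A2, hd2, hi2⟩ := ih2
    refine ⟨A1 + A2, data_mul hd1 hd2, ?_⟩
    have hn := cw_mul m1 m2 (reach_pos h1).1 (reach_pos h2).1
    have c1 := cw_ge_one m1
    have c2 := cw_ge_one m2
    calc (676 / 625 : ℝ) ^ (A1 + A2) * (((m1 * m2 : ℕ) : ℝ) ^ 3 * cw (m1 * m2))
        ≤ (676 / 625 : ℝ) ^ (A1 + A2) * (((m1 * m2 : ℕ) : ℝ) ^ 3 * (cw m1 * cw m2)) := by
          apply mul_le_mul_of_nonneg_left _ (by positivity)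
          exact mul_le_mul_of_nonneg_left hn (by positivity)
      _ = ((676 / 625 : ℝ) ^ A1 * ((m1 : ℝ) ^ 3 * cw m1))
            * ((676 / 625 : ℝ) ^ A2 * ((m2 : ℝ) ^ 3 * cw m2)) := by
          rw [pow_add]; push_cast; ring
      _ ≤ 3 ^ k1 * 3 ^ k2 := mul_le_mul hi1 hi2 (by positivity) (by positivity)
      _ = 3 ^ (k1 + k2) := by rw [pow_add]

end Pool.Agent.H118_IntCx
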