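import Pool.Agent.H118_IntCx.Padic
import Pool.Agent.H118_IntCx.Struct

namespace Pool.Agent.H118_IntCx

theorem exists_gap (Ls : List ℕ) (N W : ℕ) (hW : 1 ≤ W) (hl : Ls.length = N) :
    ∃ s, s ≤ N ∧ ∀ t ∈ Ls, t < W ^ s ∨ W ^ (s + 1) ≤ t := by
  by_contra hcon
  push Not at hcon
  have hch : ∀ s : ℕ, ∃ t, s ≤ N → (t ∈ Ls ∧ W ^ s ≤ t ∧ t < W ^ (s + 1)) := by
    intro s
    by_cases hs : s ≤ N
    · obtain ⟨t, ht1, ht2, ht3⟩ := hcon s hs
      exact ⟨t, fun _ => ⟨ht1, ht2, ht3⟩⟩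
    · exact ⟨0, fun h => absurd h hs⟩
  choose f hf using hch
  have hinj : Set.InjOn f (Finset.range (N + 1) : Set ℕ) := by
    intro x hx y hy hxy
    rw [Finset.mem_coe, Finset.mem_range] at hx hy
    obtain ⟨_, h2, h3⟩ := hf x (by omega)
    obtain ⟨_, h5, h6⟩ := hf y (by omega)
    by_contra hne
    rcases Nat.lt_or_gt_of_ne hne with h | h
    · have : W ^ (x + 1) ≤ W ^ y := Nat.pow_le_pow_right hW (by omega)
      omega
    · have : W ^ (y + 1) ≤ W ^ x := Nat.pow_le_pow_right hW (by omega)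
      omega
  have hmaps : ∀ x ∈ Finset.range (N + 1), f x ∈ Ls.toFinset := by
    intro x hx
    rw [Finset.mem_range] at hx
    rw [List.mem_toFinset]
    exact (hf x (by omega)).1
  have h1 := Finset.card_le_card_of_injOn f hmaps hinj
  have h2 := List.toFinset_card_le Ls
  rw [Finset.card_range] at h1
  omega

theorem no_data (n m₀ A A' L M : ℕ) (hA : A ≤ A') (hA' : 1 ≤ A') (hL : L = 4 * (M + 4))
    (hX : 9 * L * n ≤ 3 ^ M) (hW : (65 * L ^ 2 * A') ^ (A' + 1) ≤ n) :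
    ¬ Data (2 ^ n * 3 ^ m₀) A := by
  rintro ⟨b, q, Ls, hm, hl, hr⟩
  have hL16 : 16 ≤ L := by omega
  have hL2 : 256 ≤ L ^ 2 := by nlinarith
  have hWpos : 1 ≤ 65 * L ^ 2 * A' := by
    have : 1 * 1 ≤ (65 * L ^ 2) * A' := Nat.mul_le_mul (by omega) hA'
    simpa using this
  obtain ⟨s, hs, hgap⟩ := exists_gap Ls A (65 * L ^ 2 * A') hWpos hl
  set W := 65 * L ^ 2 * A' with hWdef
  set T1 := W ^ s with hT1
  have hT2 : W ^ (s + 1) = W * T1 := by rw [pow_succ, hT1, Nat.mul_comm]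
  rw [hT2] at hgap
  have hT1pos : 1 ≤ T1 := Nat.one_le_pow _ _ hWpos
  obtain ⟨r, hr1, hr2, hr3⟩ := hr T1 (W * T1) hT1pos (Nat.le_mul_of_pos_left _ hWpos) hgap
  -- size of r
  have hAT : A * T1 ≤ A' * T1 := Nat.mul_le_mul_right _ hA
  have hA1 : A ≤ A * T1 := Nat.le_mul_of_pos_right _ hT1pos
  have hr4 : r ≤ 3 ^ (2 * (A' * T1)) := by
    refine hr2.trans ?_
    calc 2 ^ A * 3 ^ (A * T1) ≤ 3 ^ A * 3 ^ (A * T1) :=
          Nat.mul_le_mul_right _ (Nat.pow_le_pow_left (by norm_num) A)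
      _ = 3 ^ (A + A * T1) := by rw [pow_add]
      _ ≤ 3 ^ (2 * (A' * T1)) := by
          apply Nat.pow_le_pow_right (by norm_num)
          omega
  -- q = 2^n * 3^c
  have hbm : b ≤ m₀ := by
    have h1 : 3 ^ b ∣ 2 ^ n * 3 ^ m₀ := hm ▸ Dvd.intro _ rfl
    have hc : Nat.Coprime (3 ^ b) (2 ^ n) := Nat.Coprime.pow _ _ (by norm_num)
    have h2 : 3 ^ b ∣ 3 ^ m₀ := hc.dvd_of_dvd_mul_left h1
    exact (Nat.pow_dvd_pow_iff_le_right (by norm_num)).1 h2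
  obtain ⟨c, hc⟩ : ∃ c, m₀ = b + c := ⟨m₀ - b, by omega⟩
  have hq : q = 2 ^ n * 3 ^ c := by
    have h3 : 3 ^ b * q = 3 ^ b * (2 ^ n * 3 ^ c) := by
      rw [← hm, hc, pow_add]; ring
    exact Nat.eq_of_mul_eq_mul_left (by positivity) h3
  have h65 : 65 * 256 ≤ 65 * L ^ 2 := by omega
  have hWT : 65 * L ^ 2 * (A' * T1) = W * T1 := by rw [hWdef]; ring
  have hX1 : 65 * 256 * (A' * T1) ≤ 65 * L ^ 2 * (A' * T1) := Nat.mul_le_mul_right _ h65
  have hX1b : 256 * (A' * T1) ≤ L ^ 2 * (A' * T1) := Nat.mul_le_mul_right _ hL2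
  have hAT1 : 1 ≤ A' * T1 := Nat.mul_pos hA' hT1pos
  have hcT : c < W * T1 := by
    by_contra hge
    push Not at hge
    have h4 : (3 : ℤ) ^ (W * T1) ∣ (q : ℤ) := by
      rw [hq]
      push_cast
      exact Dvd.dvd.mul_left (pow_dvd_pow 3 hge) _
    have h5 : (3 : ℤ) ^ (W * T1) ∣ (r : ℤ) := by
      have := dvd_sub h4 hr3
      simpa using this
    have h6 : 3 ^ (W * T1) ∣ r := by exact_mod_cast h5
    have h7 := Nat.le_of_dvd hr1 h6
    have h8 : 3 ^ (W * T1) ≤ 3 ^ (2 * (A' * T1)) := h7.trans hr4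
    have h9 := (Nat.pow_le_pow_iff_right (by norm_num : 1 < 3)).1 h8
    omega
  have h3c : 3 ^ c ∣ r := by
    have h4 : (3 : ℤ) ^ c ∣ (q : ℤ) := by
      rw [hq]; push_cast; exact Dvd.intro_left _ rfl
    have h5 : (3 : ℤ) ^ c ∣ (q : ℤ) - r := (pow_dvd_pow 3 hcT.le).trans hr3
    have h6 : (3 : ℤ) ^ c ∣ (r : ℤ) := by
      have := dvd_sub h4 h5
      simpa using this
    exact_mod_cast h6
  obtain ⟨r', hr'⟩ := h3c
  have hr'1 : 1 ≤ r' := by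
    rcases Nat.eq_zero_or_pos r' with h | h
    · subst h; omega
    · exact h
  have hc3 : c ≤ 2 * (A' * T1) := by
    have h4 : 3 ^ c ≤ 3 ^ (2 * (A' * T1)) := by
      refine le_trans ?_ hr4
      rw [hr']
      exact Nat.le_mul_of_pos_right _ hr'1
    exact (Nat.pow_le_pow_iff_right (by norm_num : 1 < 3)).1 h4
  have hr'le : r' ≤ 3 ^ (2 * (A' * T1)) := by
    refine le_trans ?_ hr4
    rw [hr']
    exact Nat.le_mul_of_pos_left _ (by positivity)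
  have hdiv : (3 : ℤ) ^ (W * T1 - c) ∣ (2 : ℤ) ^ n - r' := by
    have h4 : (3 : ℤ) ^ c * (3 : ℤ) ^ (W * T1 - c) ∣ (3 : ℤ) ^ c * ((2 : ℤ) ^ n - r') := by
      rw [← pow_add, show c + (W * T1 - c) = W * T1 by omega]
      have e : (3 : ℤ) ^ c * ((2 : ℤ) ^ n - r') = (q : ℤ) - r := by
        rw [hq, hr']; push_cast; ring
      rw [e]
      exact hr3
    exact (mul_dvd_mul_iff_left (by positivity)).1 h4
  have hdiv2 : (3 : ℤ) ^ (W * T1 - c) ∣ ((r' ^ 2 : ℕ) : ℤ) - 4 ^ n := by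
    have e : ((r' ^ 2 : ℕ) : ℤ) - 4 ^ n = -(((2 : ℤ) ^ n - r') * (2 ^ n + r')) := by
      push_cast
      rw [show (4 : ℤ) = 2 ^ 2 by norm_num, ← pow_mul]
      ring
    rw [e]
    exact (Dvd.dvd.mul_right hdiv _).neg_right
  have hn2 : W * T1 ≤ n := by
    refine le_trans ?_ hW
    rw [← hT2]
    exact Nat.pow_le_pow_right hWpos (by omega)
  refine padic n (4 * (A' * T1)) M (r' ^ 2) L (by omega) (Nat.one_le_pow _ _ hr'1) ?_ hL ?_ hX ?_
  · calc r' ^ 2 ≤ (3 ^ (2 * (A' * T1))) ^ 2 := Nat.pow_le_pow_left hr'le 2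
      _ = (3 ^ 4) ^ (A' * T1) := by rw [← pow_mul, ← pow_mul]; congr 1; ring
      _ ≤ (4 ^ 4) ^ (A' * T1) := Nat.pow_le_pow_left (by norm_num) _
      _ = 4 ^ (4 * (A' * T1)) := by rw [← pow_mul]
  · refine le_trans ?_ hn2
    rw [← hWT]
    have e1 : 4 * L * (4 * (A' * T1)) = 16 * L * (A' * T1) := by ring
    rw [e1]
    apply Nat.mul_le_mul_right
    nlinarith
  · refine dvd_trans (pow_dvd_pow 3 ?_) hdiv2
    have e1 : 16 * L * (4 * (A' * T1)) * L = 64 * (L ^ 2 * (A' * T1)) := by ring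
    have e2 : W * T1 = 65 * (L ^ 2 * (A' * T1)) := by rw [← hWT]; ring
    rw [e1, e2]
    omega

end Pool.Agent.H118_IntCx
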