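import Pool.Agent.H118_IntCx.Bounds

namespace Pool.Agent.H118_IntCx

open Real

theorem G_pos (s t : ℤ) (hs : 0 < s) (ht : 0 ≤ t) (N p q : ℕ) : 0 < G s t N (p + 1) q := by
  induction N with
  | zero => rw [G_zero]; norm_num
  | succ N ih =>
    rw [G_R1]
    have h1 := G_nonneg s t hs.le ht (N + 1) p q
    have h2 := mul_pos hs ih
    linarith

/-- If `s ^ (N+k+1)` divides `2 ^ n - y`, then `y` cannot be very small. -/
theorem gap (p : ℕ) (t s : ℤ) (h : 2 ^ p + t = s) (m k N rr n y : ℕ)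
    (sgn : (-1 : ℤ) ^ m * t ^ (m + N + 1) = 1) (hA : 0 ≤ G s t N (m + 1) (k + 1))
    (hC : 0 < G s (2 ^ p) k (m + 1) (N + 1)) (hn : n = p * (m + k + 1) + rr)
    (hdvd : s ^ (N + k + 1) ∣ (2 : ℤ) ^ n - y) :
    s ^ (N + k + 1) ≤ G s t N (m + 1) (k + 1) * y
      + 2 ^ rr * G s (2 ^ p) k (m + 1) (N + 1) := by
  have id := three_term (2 ^ p) t s h m k N
  rw [sgn] at id
  obtain ⟨u, hu⟩ := hdvd
  have h2n : (2 : ℤ) ^ n = 2 ^ rr * (2 ^ p) ^ (m + k + 1) := by
    rw [hn, pow_add, pow_mul]; ring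
  have hd : s ^ (N + k + 1) ∣ G s t N (m + 1) (k + 1) * y
      + 2 ^ rr * G s (2 ^ p) k (m + 1) (N + 1) := by
    refine ⟨2 ^ rr * G (2 ^ p) (-t) m (N + 1) (k + 1) - G s t N (m + 1) (k + 1) * u, ?_⟩
    have hy : (y : ℤ) = 2 ^ rr * (2 ^ p) ^ (m + k + 1) - s ^ (N + k + 1) * u := by
      rw [← h2n]; linarith
    rw [hy]
    have hCe : G s (2 ^ p) k (m + 1) (N + 1) = s ^ (N + k + 1) * G (2 ^ p) (-t) m (N + 1) (k + 1)
        - (2 ^ p) ^ (m + k + 1) * G s t N (m + 1) (k + 1) := by linarith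
    rw [hCe]
    ring
  apply Int.le_of_dvd _ hd
  have h1 : 0 ≤ G s t N (m + 1) (k + 1) * y := mul_nonneg hA (by positivity)
  have h2 : 0 < 2 ^ rr * G s (2 ^ p) k (m + 1) (N + 1) := by positivity
  linarith

/-- From `A * (σ^N * ((1-sσ)^p * (1-tσ)^q)) ≤ 1` to logarithms. -/
theorem log_bound (A : ℝ) (hA : 0 < A) (a u v : ℝ) (ha : 0 < a) (hu : 0 < u) (hv : 0 < v)
    (N p q : ℕ) (h : A * ((1 / a) ^ N * ((1 / u) ^ p * (1 / v) ^ q)) ≤ 1) :
    logb 2 A ≤ N * logb 2 a + (p * logb 2 u + q * logb 2 v) := by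
  have h1 : A ≤ a ^ N * (u ^ p * v ^ q) := by
    have hpos : 0 < a ^ N * (u ^ p * v ^ q) := by positivity
    have e : (1 / a) ^ N * ((1 / u) ^ p * (1 / v) ^ q) = 1 / (a ^ N * (u ^ p * v ^ q)) := by
      rw [div_pow, div_pow, div_pow]
      field_simp
      simp
    rw [e, mul_one_div, div_le_one hpos] at h
    exact h
  have h2 : logb 2 A ≤ logb 2 (a ^ N * (u ^ p * v ^ q)) :=
    logb_le_logb_of_le (by norm_num) hA h1
  have h3 : logb 2 (a ^ N * (u ^ p * v ^ q)) = N * logb 2 a + (p * logb 2 u + q * logb 2 v) := by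
    rw [logb_mul (by positivity) (by positivity), logb_mul (by positivity) (by positivity),
      logb_pow, logb_pow, logb_pow]
  linarith

/-- Final logarithmic form of the gap inequality. -/
theorem final_log (S A C y : ℝ) (hS : 0 < S) (hA : 0 ≤ A) (hC : 0 < C) (hy : 0 < y)
    (rr : ℕ) (h : S ≤ A * y + 2 ^ rr * C) (hc : (rr : ℝ) + logb 2 C + 1 ≤ logb 2 S) :
    0 < A ∧ logb 2 S ≤ 1 + logb 2 A + logb 2 y := by
  have h1 : 2 ^ rr * C ≤ S / 2 := by
    have e1 : logb 2 (2 ^ rr * C) ≤ logb 2 (S / 2) := by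
      rw [logb_mul (by positivity) (by positivity), logb_pow, logb_self_eq_one (by norm_num),
        logb_div (by positivity) (by norm_num), logb_self_eq_one (by norm_num)]
      linarith
    exact (logb_le_logb (by norm_num) (by positivity) (by positivity)).mp e1
  have h2 : S / 2 ≤ A * y := by linarith
  have hA' : 0 < A := by
    rcases hA.lt_or_eq with h3 | h3
    · exact h3
    · rw [← h3] at h2
      linarith
  refine ⟨hA', ?_⟩
  have e2 : logb 2 (S / 2) ≤ logb 2 (A * y) := logb_le_logb_of_le (by norm_num) (by positivity) h2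
  rw [logb_div (by positivity) (by norm_num), logb_self_eq_one (by norm_num),
    logb_mul (by positivity) (by positivity)] at e2
  linarith

theorem core98 (n k N y : ℕ) (a b : ℝ) (ha : 9 < a) (hb : 9 < b) (hy : 1 ≤ y)
    (hk : 3 * (k + 2) ≤ n) (hdvd : (9 : ℤ) ^ (N + k + 1) ∣ (2 : ℤ) ^ n - y)
    (hC : 6 + k * logb 2 b + ((n : ℝ) / 3 - k) * logb 2 (b / (b - 9))
      + (N + 1) * logb 2 (b / (b - 8)) ≤ (N + k + 1) * logb 2 9) :
    (N + k + 1) * logb 2 9 ≤ 1 + logb 2 y + N * logb 2 a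
      + ((n : ℝ) / 3 - k) * logb 2 (a / (a - 9)) + (k + 1) * logb 2 (a / (a - 1)) := by
  -- choose X with X - k - 1 even
  obtain ⟨m, rr, hm, hrr, hnn⟩ : ∃ m rr : ℕ, Even m ∧ rr ≤ 5 ∧ n = 3 * (m + k + 1) + rr := by
    rcases Nat.even_or_odd (n / 3 - k - 1) with he | ho
    · exact ⟨n / 3 - k - 1, n % 3, he, by omega, by omega⟩
    · refine ⟨n / 3 - k - 2, n % 3 + 3, ?_, by omega, by omega⟩
      have h3 : n / 3 - k - 1 = (n / 3 - k - 2) + 1 := by omega
      rw [h3] at ho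
      exact (Nat.not_odd_iff_even.mp (fun h => by
        have := Nat.even_add_one.mp (ho.add_one)
        exact absurd ((Nat.odd_add_one.mp ho)) (not_not.mpr h)))
  have hCpos : 0 < G 9 (2 ^ 3) k (m + 1) (N + 1) := G_pos 9 (2 ^ 3) (by norm_num) (by norm_num) k m _
  have hAnn : 0 ≤ G 9 1 N (m + 1) (k + 1) := G_nonneg 9 1 (by norm_num) (by norm_num) _ _ _
  have hgap := gap 3 1 9 (by norm_num) m k N rr n y (by simp [hm.neg_one_pow]) hAnn hCpos hnn hdvd
  set A : ℤ := G 9 1 N (m + 1) (k + 1) with hAdef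
  set C : ℤ := G 9 (2 ^ 3) k (m + 1) (N + 1) with hCdef
  have hgapR : (9 : ℝ) ^ (N + k + 1) ≤ (A : ℝ) * (y : ℝ) + 2 ^ rr * (C : ℝ) := by
    exact_mod_cast hgap
  have hyR : (0 : ℝ) < y := by exact_mod_cast hy
  have ha0 : 0 < a := by linarith
  have hb0 : 0 < b := by linarith
  have ha9 : 0 < a - 9 := by linarith
  have hb9 : 0 < b - 9 := by linarith
  have ha1 : 0 < a - 1 := by linarith
  have hb8 : 0 < b - 8 := by linarith
  have hmk : ((m : ℝ) + 1) ≤ (n : ℝ) / 3 - k := by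
    have : (n : ℝ) = 3 * ((m : ℝ) + k + 1) + rr := by rw [hnn]; push_cast; ring
    have hrr0 : (0 : ℝ) ≤ rr := by positivity
    linarith
  -- bound on C
  have hCb := G_bound 9 (2 ^ 3) (by norm_num) (by norm_num) (1 / b) (by positivity)
    (by push_cast; rw [mul_one_div, div_le_one hb0]; linarith)
    (by push_cast; rw [mul_one_div, div_le_one hb0]; linarith) k (m + 1) (N + 1)
  have hCl : logb 2 (C : ℝ) ≤ k * logb 2 b + (((m + 1 : ℕ) : ℝ) * logb 2 (b / (b - 9))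
      + ((N + 1 : ℕ) : ℝ) * logb 2 (b / (b - 8))) := by
    apply log_bound (C : ℝ) (by exact_mod_cast hCpos) b (b / (b - 9)) (b / (b - 8)) hb0
      (by positivity) (by positivity)
    have e1 : 1 / (b / (b - 9)) = 1 - ((9 : ℤ) : ℝ) * (1 / b) := by
      push_cast; field_simp
    have e2 : 1 / (b / (b - 8)) = 1 - (((2 : ℤ) ^ 3 : ℤ) : ℝ) * (1 / b) := by
      push_cast; field_simp
    rw [e1, e2]
    exact hCb
  have hlog9 : logb 2 ((9 : ℝ) ^ (N + k + 1)) = (N + k + 1) * logb 2 9 := by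
    rw [logb_pow]; push_cast; ring
  have hlb9 : 0 ≤ logb 2 (b / (b - 9)) := by
    apply logb_nonneg (by norm_num)
    rw [le_div_iff₀ hb9]; linarith
  have hla9 : 0 ≤ logb 2 (a / (a - 9)) := by
    apply logb_nonneg (by norm_num)
    rw [le_div_iff₀ ha9]; linarith
  have hrrR : (rr : ℝ) ≤ 5 := by exact_mod_cast hrr
  have hcc : (rr : ℝ) + logb 2 (C : ℝ) + 1 ≤ logb 2 ((9 : ℝ) ^ (N + k + 1)) := by
    rw [hlog9]
    push_cast at hCl
    have := mul_le_mul_of_nonneg_right hmk hlb9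
    linarith
  obtain ⟨hApos, hfin⟩ := final_log ((9 : ℝ) ^ (N + k + 1)) A C y (by positivity)
    (by exact_mod_cast hAnn) (by exact_mod_cast hCpos) hyR rr hgapR hcc
  have hAb := G_bound 9 1 (by norm_num) (by norm_num) (1 / a) (by positivity)
    (by push_cast; rw [mul_one_div, div_le_one ha0]; linarith)
    (by push_cast; rw [mul_one_div, div_le_one ha0]; linarith) N (m + 1) (k + 1)
  have hAl : logb 2 (A : ℝ) ≤ N * logb 2 a + (((m + 1 : ℕ) : ℝ) * logb 2 (a / (a - 9))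
      + ((k + 1 : ℕ) : ℝ) * logb 2 (a / (a - 1))) := by
    apply log_bound (A : ℝ) hApos a (a / (a - 9)) (a / (a - 1)) ha0
      (by positivity) (by positivity)
    have e1 : 1 / (a / (a - 9)) = 1 - ((9 : ℤ) : ℝ) * (1 / a) := by
      push_cast; field_simp
    have e2 : 1 / (a / (a - 1)) = 1 - ((1 : ℤ) : ℝ) * (1 / a) := by
      push_cast; field_simp
    rw [e1, e2]
    exact hAb
  rw [hlog9] at hfin
  push_cast at hAl
  have := mul_le_mul_of_nonneg_right hmk hla9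
  linarith

theorem core15 (n k N y : ℕ) (a b : ℝ) (ha : 15 < a) (hb : 16 < b) (hy : 1 ≤ y)
    (hk : 4 * (2 * k + 1) ≤ n) (hN : Odd N) (hdvd : (15 : ℤ) ^ (N + k + 1) ∣ (2 : ℤ) ^ n - y)
    (hC : 4 + k * logb 2 b + ((n : ℝ) / 4 - k) * logb 2 (b / (b - 15))
      + (N + 1) * logb 2 (b / (b - 16)) ≤ (N + k + 1) * logb 2 15) :
    (N + k + 1) * logb 2 15 ≤ 1 + logb 2 y + N * logb 2 a
      + ((n : ℝ) / 4 - k) * logb 2 (a / (a - 15)) + (k + 1) * logb 2 (a / (a + 1)) := by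
  obtain ⟨m, rr, hm, hrr, hnn⟩ : ∃ m rr : ℕ, k ≤ m ∧ rr ≤ 3 ∧ n = 4 * (m + k + 1) + rr :=
    ⟨n / 4 - k - 1, n % 4, by omega, by omega, by omega⟩
  have hCpos : 0 < G 15 (2 ^ 4) k (m + 1) (N + 1) :=
    G_pos 15 (2 ^ 4) (by norm_num) (by norm_num) k m _
  have ha0 : 0 < a := by linarith
  have hb0 : 0 < b := by linarith
  have ha9 : 0 < a - 15 := by linarith
  have hb9 : 0 < b - 15 := by linarith
  have ha1 : 0 < a + 1 := by linarith
  have hb8 : 0 < b - 16 := by linarith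
  have hneg := G_neg 15 (-1) (by norm_num) (by norm_num) (by norm_num) (1 / a) (by positivity)
    (by push_cast; rw [mul_one_div, div_le_one ha0]; linarith) N (m + 1) (k + 1) (by omega)
  have hAnn : 0 ≤ G 15 (-1) N (m + 1) (k + 1) := hneg.1
  have hsgn : (-1 : ℤ) ^ m * (-1) ^ (m + N + 1) = 1 := by
    rw [← pow_add]
    apply Even.neg_one_pow
    obtain ⟨j, hj⟩ := hN
    exact ⟨m + j + 1, by omega⟩
  have hgap := gap 4 (-1) 15 (by norm_num) m k N rr n y hsgn hAnn hCpos hnn hdvd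
  set A : ℤ := G 15 (-1) N (m + 1) (k + 1) with hAdef
  set C : ℤ := G 15 (2 ^ 4) k (m + 1) (N + 1) with hCdef
  have hgapR : (15 : ℝ) ^ (N + k + 1) ≤ (A : ℝ) * (y : ℝ) + 2 ^ rr * (C : ℝ) := by
    exact_mod_cast hgap
  have hyR : (0 : ℝ) < y := by exact_mod_cast hy
  have hmk : ((m : ℝ) + 1) ≤ (n : ℝ) / 4 - k := by
    have : (n : ℝ) = 4 * ((m : ℝ) + k + 1) + rr := by rw [hnn]; push_cast; ring
    have hrr0 : (0 : ℝ) ≤ rr := by positivity
    linarith
  have hCb := G_bound 15 (2 ^ 4) (by norm_num) (by norm_num) (1 / b) (by positivity)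
    (by push_cast; rw [mul_one_div, div_le_one hb0]; linarith)
    (by push_cast; rw [mul_one_div, div_le_one hb0]; linarith) k (m + 1) (N + 1)
  have hCl : logb 2 (C : ℝ) ≤ k * logb 2 b + (((m + 1 : ℕ) : ℝ) * logb 2 (b / (b - 15))
      + ((N + 1 : ℕ) : ℝ) * logb 2 (b / (b - 16))) := by
    apply log_bound (C : ℝ) (by exact_mod_cast hCpos) b (b / (b - 15)) (b / (b - 16)) hb0
      (by positivity) (by positivity)
    have e1 : 1 / (b / (b - 15)) = 1 - ((15 : ℤ) : ℝ) * (1 / b) := by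
      push_cast; field_simp
    have e2 : 1 / (b / (b - 16)) = 1 - (((2 : ℤ) ^ 4 : ℤ) : ℝ) * (1 / b) := by
      push_cast; field_simp
    rw [e1, e2]
    exact hCb
  have hlog9 : logb 2 ((15 : ℝ) ^ (N + k + 1)) = (N + k + 1) * logb 2 15 := by
    rw [logb_pow]; push_cast; ring
  have hlb9 : 0 ≤ logb 2 (b / (b - 15)) := by
    apply logb_nonneg (by norm_num)
    rw [le_div_iff₀ hb9]; linarith
  have hla9 : 0 ≤ logb 2 (a / (a - 15)) := by
    apply logb_nonneg (by norm_num)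
    rw [le_div_iff₀ ha9]; linarith
  have hrrR : (rr : ℝ) ≤ 3 := by exact_mod_cast hrr
  have hcc : (rr : ℝ) + logb 2 (C : ℝ) + 1 ≤ logb 2 ((15 : ℝ) ^ (N + k + 1)) := by
    rw [hlog9]
    push_cast at hCl
    have := mul_le_mul_of_nonneg_right hmk hlb9
    linarith
  obtain ⟨hApos, hfin⟩ := final_log ((15 : ℝ) ^ (N + k + 1)) A C y (by positivity)
    (by exact_mod_cast hAnn) (by exact_mod_cast hCpos) hyR rr hgapR hcc
  have hAl : logb 2 (A : ℝ) ≤ N * logb 2 a + (((m + 1 : ℕ) : ℝ) * logb 2 (a / (a - 15))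
      + ((k + 1 : ℕ) : ℝ) * logb 2 (a / (a + 1))) := by
    apply log_bound (A : ℝ) hApos a (a / (a - 15)) (a / (a + 1)) ha0
      (by positivity) (by positivity)
    have e1 : 1 / (a / (a - 15)) = 1 - ((15 : ℤ) : ℝ) * (1 / a) := by
      push_cast; field_simp
    have e2 : 1 / (a / (a + 1)) = 1 - ((-1 : ℤ) : ℝ) * (1 / a) := by
      push_cast; field_simp; ring
    rw [e1, e2]
    exact hneg.2
  rw [hlog9] at hfin
  push_cast at hAl
  have := mul_le_mul_of_nonneg_right hmk hla9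
  linarith

end Pool.Agent.H118_IntCx
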