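import Mathlib

namespace Pool.Agent.H118_IntCx

/-- `Reach m k`: the number `m` is the value of an expression built from exactly `k` ones
with additions and multiplications. -/
inductive Reach : ℕ → ℕ → Prop
  | one : Reach 1 1
  | add {m m' a b : ℕ} : Reach m a → Reach m' b → Reach (m + m') (a + b)
  | mul {m m' a b : ℕ} : Reach m a → Reach m' b → Reach (m * m') (a + b)

/-- A nonempty list of positive integers.  It stands for a product of sums of ones; its value is
`l.prod` and it uses `l.sum` ones. -/
def IsPS (l : List ℕ) : Prop := l ≠ [] ∧ ∀ a ∈ l, 1 ≤ a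

/-- Restricted expressions.
* `sum`: a sum of products of sums of ones;
* `sumAdd`: such a sum plus an arbitrary expression whose value is at most that of one of the
  products;
* `mul`: products of restricted expressions. -/
inductive Shallow : ℕ → ℕ → Prop
  | sum (L : List (List ℕ)) (hne : L ≠ []) (hL : ∀ l ∈ L, IsPS l) :
      Shallow (L.map List.prod).sum (L.map List.sum).sum
  | sumAdd (L : List (List ℕ)) (hL : ∀ l ∈ L, IsPS l) (y k : ℕ) (hy : Reach y k)
      (hle : ∃ l ∈ L, y ≤ l.prod) :
      Shallow ((L.map List.prod).sum + y) ((L.map List.sum).sum + k)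
  | mul {m m' a b : ℕ} : Shallow m a → Shallow m' b → Shallow (m * m') (a + b)

theorem reach_pos {m k : ℕ} (h : Reach m k) : 1 ≤ m ∧ 1 ≤ k := by
  induction h with
  | one => exact ⟨le_rfl, le_rfl⟩
  | add _ _ ih1 ih2 => exact ⟨by omega, by omega⟩
  | mul _ _ ih1 ih2 => exact ⟨Nat.mul_pos ih1.1 ih2.1, by omega⟩

theorem reach_self (a : ℕ) (ha : 1 ≤ a) : Reach a a := by
  induction a, ha using Nat.le_induction with
  | base => exact Reach.one
  | succ n hn ih => exact Reach.add ih Reach.one

/-- Selfridge's bound. -/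
theorem selfridge {m k : ℕ} (h : Reach m k) : m ^ 3 ≤ 3 ^ k := by
  induction h with
  | one => norm_num
  | @add m m' a b h1 h2 ih1 ih2 =>
    have p1 := reach_pos h1
    have p2 := reach_pos h2
    -- auxiliary: the case `m' = 1`
    have aux : ∀ m a b : ℕ, 1 ≤ m → 1 ≤ a → 1 ≤ b → m ^ 3 ≤ 3 ^ a → (m + 1) ^ 3 ≤ 3 ^ (a + b) := by
      intro m a b hm ha hb hma
      have hb3 : 3 ≤ 3 ^ b := by
        calc 3 = 3 ^ 1 := by norm_num
          _ ≤ 3 ^ b := Nat.pow_le_pow_right (by norm_num) hb
      rcases Nat.lt_or_ge m 3 with h3 | h3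
      · interval_cases m
        · have : (3 : ℕ) ^ 2 ≤ 3 ^ (a + b) := Nat.pow_le_pow_right (by norm_num) (by omega)
          omega
        · have ha2 : 2 ≤ a := by
            by_contra hlt
            have : a = 1 := by omega
            rw [this] at hma
            norm_num at hma
          have : (3 : ℕ) ^ 3 ≤ 3 ^ (a + b) := Nat.pow_le_pow_right (by norm_num) (by omega)
          omega
      · have e1 : (m + 1) ^ 3 ≤ 3 * m ^ 3 := by
          have : (m + 1) * (m + 1) * (m + 1) ≤ 3 * (m * m * m) := by nlinarith [mul_self_nonneg m, Nat.mul_le_mul h3 h3]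
          calc (m + 1) ^ 3 = (m + 1) * (m + 1) * (m + 1) := by ring
            _ ≤ 3 * (m * m * m) := this
            _ = 3 * m ^ 3 := by ring
        calc (m + 1) ^ 3 ≤ 3 * m ^ 3 := e1
          _ ≤ 3 ^ b * 3 ^ a := Nat.mul_le_mul hb3 hma
          _ = 3 ^ (a + b) := by rw [pow_add]; ring
    rcases Nat.lt_or_ge m' 2 with hm' | hm'
    · have : m' = 1 := by omega
      subst this
      exact aux m a b p1.1 p1.2 p2.2 ih1
    · rcases Nat.lt_or_ge m 2 with hm | hm
      · have : m = 1 := by omega
        subst this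
        rw [Nat.add_comm 1 m', Nat.add_comm a b]
        exact aux m' b a p2.1 p2.2 p1.2 ih2
      · have e1 : m + m' ≤ m * m' := by nlinarith
        calc (m + m') ^ 3 ≤ (m * m') ^ 3 := Nat.pow_le_pow_left e1 3
          _ = m ^ 3 * m' ^ 3 := by ring
          _ ≤ 3 ^ a * 3 ^ b := Nat.mul_le_mul ih1 ih2
          _ = 3 ^ (a + b) := by rw [pow_add]
  | @mul m m' a b h1 h2 ih1 ih2 =>
    calc (m * m') ^ 3 = m ^ 3 * m' ^ 3 := by ring
      _ ≤ 3 ^ a * 3 ^ b := Nat.mul_le_mul ih1 ih2
      _ = 3 ^ (a + b) := by rw [pow_add]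

theorem isPS_prod_pos {l : List ℕ} (h : ∀ a ∈ l, 1 ≤ a) : 1 ≤ l.prod := by
  have : 0 < l.prod := List.prod_pos (fun a ha => h a ha)
  omega

theorem reach_isPS {l : List ℕ} (h : IsPS l) : Reach l.prod l.sum := by
  obtain ⟨hne, hpos⟩ := h
  induction l with
  | nil => exact absurd rfl hne
  | cons a l ih =>
    by_cases hl : l = []
    · subst hl
      simpa using reach_self a (hpos a (by simp))
    · have h1 := reach_self a (hpos a (by simp))
      have h2 := ih hl (fun b hb => hpos b (by simp [hb]))
      rw [List.prod_cons, List.sum_cons]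
      exact Reach.mul h1 h2

theorem reach_sum {L : List (List ℕ)} (hne : L ≠ []) (hL : ∀ l ∈ L, IsPS l) :
    Reach (L.map List.prod).sum (L.map List.sum).sum := by
  induction L with
  | nil => exact absurd rfl hne
  | cons l L ih =>
    by_cases hl : L = []
    · subst hl
      simpa using reach_isPS (hL l (by simp))
    · rw [List.map_cons, List.map_cons, List.sum_cons, List.sum_cons]
      exact Reach.add (reach_isPS (hL l (by simp))) (ih hl (fun b hb => hL b (by simp [hb])))

/-- Restricted expressions are expressions. -/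
theorem shallow_reach {m k : ℕ} (h : Shallow m k) : Reach m k := by
  induction h with
  | sum L hne hL => exact reach_sum hne hL
  | sumAdd L hL y k hy hle =>
    obtain ⟨l, hl, _⟩ := hle
    exact Reach.add (reach_sum (by rintro rfl; simp at hl) hL) hy
  | mul _ _ ih1 ih2 => exact Reach.mul ih1 ih2

end Pool.Agent.H118_IntCx
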