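import Mathlib

namespace Pool.Agent.H118_IntCx

open Finset

theorem sum_lower {ι S : Type} [Fintype ι] [Fintype S] [DecidableEq S] (e : S → ℕ) (f : ι → S)
    (hf : Function.Injective f)
    (hcount : ∀ t < Fintype.card ι, (univ.filter (fun s => e s ≤ t)).card ≤ t + 1) :
    ∑ t ∈ range (Fintype.card ι), t ≤ ∑ b, e (f b) := by
  classical
  set N := Fintype.card ι with hN
  have h1 : ∀ b, (∑ t ∈ range N, if t < e (f b) then 1 else 0) ≤ e (f b) := by
    intro b
    rw [← Finset.card_filter]
    calc ((range N).filter (fun t => t < e (f b))).card ≤ (range (e (f b))).card := by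
          apply Finset.card_le_card
          intro t ht
          rw [Finset.mem_filter] at ht
          exact Finset.mem_range.mpr ht.2
      _ = e (f b) := Finset.card_range _
  calc ∑ t ∈ range N, t = ∑ t ∈ range N, (N - 1 - t) := (Finset.sum_range_reflect _ _).symm
    _ ≤ ∑ t ∈ range N, ∑ b, (if t < e (f b) then 1 else 0) := by
        apply Finset.sum_le_sum
        intro t ht
        have htN := Finset.mem_range.mp ht
        rw [← Finset.card_filter]
        have h2 : (univ.filter (fun b => t < e (f b))).card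
            + (univ.filter (fun b => ¬ t < e (f b))).card = N := by
          rw [Finset.card_filter_add_card_filter_not, Finset.card_univ]
        have h3 : (univ.filter (fun b => ¬ t < e (f b))).card ≤ t + 1 := by
          calc (univ.filter (fun b => ¬ t < e (f b))).card
              = ((univ.filter (fun b => ¬ t < e (f b))).image f).card :=
                (Finset.card_image_of_injective _ hf).symm
            _ ≤ (univ.filter (fun s => e s ≤ t)).card := by
                apply Finset.card_le_card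
                intro s hs
                obtain ⟨b, hb, rfl⟩ := Finset.mem_image.mp hs
                rw [Finset.mem_filter] at hb ⊢
                exact ⟨mem_univ _, not_lt.mp hb.2⟩
            _ ≤ t + 1 := hcount t htN
        omega
    _ = ∑ b, ∑ t ∈ range N, (if t < e (f b) then 1 else 0) := Finset.sum_comm
    _ ≤ ∑ b, e (f b) := Finset.sum_le_sum (fun b _ => h1 b)

theorem det_mul_div {ι S : Type} [Fintype ι] [DecidableEq ι] [Fintype S] [DecidableEq S]
    (A : Matrix ι S ℤ) (B : Matrix S ι ℤ) (e : S → ℕ) (hB : ∀ s b, (3 : ℤ) ^ e s ∣ B s b)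
    (hcount : ∀ t < Fintype.card ι, (univ.filter (fun s => e s ≤ t)).card ≤ t + 1) :
    (3 : ℤ) ^ (∑ t ∈ range (Fintype.card ι), t) ∣ (A * B).det := by
  classical
  have hexp : (A * B).det = ∑ f : ι → S, (∏ b, B (f b) b) * (A.submatrix id f).det := by
    rw [Matrix.det_apply']
    simp only [Matrix.mul_apply, Finset.prod_univ_sum, Finset.mul_sum, Fintype.piFinset_univ]
    rw [Finset.sum_comm]
    apply Finset.sum_congr rfl
    intro f _
    rw [Matrix.det_apply', Finset.mul_sum]
    apply Finset.sum_congr rfl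
    intro σ _
    simp only [Finset.prod_mul_distrib, Matrix.submatrix_apply, id_eq]
    ring
  rw [hexp]
  apply Finset.dvd_sum
  intro f _
  by_cases hf : Function.Injective f
  · apply Dvd.dvd.mul_right
    have h1 : (3 : ℤ) ^ (∑ b, e (f b)) ∣ ∏ b, B (f b) b := by
      rw [← Finset.prod_pow_eq_pow_sum]
      exact Finset.prod_dvd_prod_of_dvd _ _ (fun b _ => hB (f b) b)
    exact (pow_dvd_pow 3 (sum_lower e f hf hcount)).trans h1
  · rw [Function.Injective] at hf
    push Not at hf
    obtain ⟨a, b, hab, hne⟩ := hf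
    have : (A.submatrix id f).det = 0 := by
      apply Matrix.det_zero_of_column_eq hne
      intro k
      simp [hab]
    rw [this, mul_zero]
    exact dvd_zero _

theorem det_div {ι : Type} [Fintype ι] [DecidableEq ι] (G : Matrix ι ι ℤ) (U : ι → ℕ → ℤ)
    (V : ℕ → ι → ℤ) (W : ι → ι → ℤ)
    (hG : ∀ a b, G a b = ∑ i ∈ range (Fintype.card ι), (3 : ℤ) ^ i * U a i * V i b
      + 3 ^ (Fintype.card ι) * W a b) :
    (3 : ℤ) ^ (∑ t ∈ range (Fintype.card ι), t) ∣ G.det := by
  classical
  set N := Fintype.card ι with hN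
  set A : Matrix ι (Fin N ⊕ ι) ℤ := Matrix.of fun a s => Sum.elim (fun i : Fin N => U a i) (fun b => W a b) s
    with hA
  set B : Matrix (Fin N ⊕ ι) ι ℤ := Matrix.of fun s b =>
    Sum.elim (fun i : Fin N => (3 : ℤ) ^ (i : ℕ) * V i b) (fun b' => if b' = b then 3 ^ N else 0) s
    with hBdef
  set e : Fin N ⊕ ι → ℕ := Sum.elim (fun i : Fin N => (i : ℕ)) (fun _ => N) with he
  have hGAB : G = A * B := by
    ext a b
    rw [Matrix.mul_apply, Fintype.sum_sum_type, hG a b]
    simp only [hA, hBdef, Matrix.of_apply, Sum.elim_inl, Sum.elim_inr, mul_ite, mul_zero,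
      Finset.sum_ite_eq', Finset.mem_univ, if_true]
    rw [Finset.sum_range]
    congr 1
    · apply Finset.sum_congr rfl
      intro i _
      ring
    · ring
  rw [hGAB]
  apply det_mul_div A B e
  · intro s b
    rcases s with i | b'
    · simp only [he, hBdef, Matrix.of_apply, Sum.elim_inl]
      exact Dvd.intro _ rfl
    · simp only [he, hBdef, Matrix.of_apply, Sum.elim_inr]
      split_ifs
      · exact dvd_rfl
      · exact dvd_zero _
  · intro t ht
    calc (univ.filter (fun s => e s ≤ t)).card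
        ≤ ((range (t + 1)).image (fun i => (if h : i < N then
            (Sum.inl ⟨i, h⟩ : Fin N ⊕ ι) else Sum.inl ⟨0, by omega⟩))).card := by
          apply Finset.card_le_card
          intro s hs
          rw [Finset.mem_filter] at hs
          rcases s with i | b'
          · simp only [he, Sum.elim_inl] at hs
            rw [Finset.mem_image]
            refine ⟨i, Finset.mem_range.mpr (by omega), ?_⟩
            rw [dif_pos i.2]
          · simp only [he, Sum.elim_inr] at hs
            omega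
      _ ≤ (range (t + 1)).card := Finset.card_image_le
      _ = t + 1 := Finset.card_range _

/-- Coefficients of `x ^ k * z ^ x` in the binomial basis. -/
def cf (z : ℤ) : ℕ → ℕ → ℤ
  | 0, i => (z - 1) ^ i
  | _ + 1, 0 => 0
  | k + 1, i + 1 => (i + 1) * (cf z k (i + 1) + cf z k i)

theorem cf_zero (z : ℤ) (i : ℕ) : cf z 0 i = (z - 1) ^ i := by rw [cf]
theorem cf_succ_zero (z : ℤ) (k : ℕ) : cf z (k + 1) 0 = 0 := by rw [cf]
theorem cf_succ_succ (z : ℤ) (k i : ℕ) :
    cf z (k + 1) (i + 1) = (i + 1) * (cf z k (i + 1) + cf z k i) := by rw [cf]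

theorem cf_spec (z : ℤ) (X : ℕ) (k : ℕ) (x : ℕ) (hx : x ≤ X) :
    (x : ℤ) ^ k * z ^ x = ∑ i ∈ range (X + 1), cf z k i * (x.choose i : ℤ) := by
  induction k with
  | zero =>
    have h1 : z ^ x = ∑ i ∈ range (x + 1), (z - 1) ^ i * (x.choose i : ℤ) := by
      conv_lhs => rw [show z = (z - 1) + 1 by ring, add_pow]
      apply Finset.sum_congr rfl
      intro i _
      rw [one_pow, mul_one]
    rw [pow_zero, one_mul, h1]
    simp only [cf_zero]
    apply Finset.sum_subset
    · exact Finset.range_subset_range.mpr (by omega)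
    · intro i _ hi
      rw [Finset.mem_range, not_lt] at hi
      rw [Nat.choose_eq_zero_of_lt (by omega)]
      simp
  | succ k ih =>
    have h1 : ∀ i, (x : ℤ) * (x.choose i : ℤ)
        = i * (x.choose i : ℤ) + (i + 1) * (x.choose (i + 1) : ℤ) := by
      intro i
      rcases le_or_gt i x with hi | hi
      · have h2 := Nat.choose_succ_right_eq x i
        have h3 : ((x.choose (i + 1) : ℤ)) * ((i : ℤ) + 1) = (x.choose i : ℤ) * ((x : ℤ) - i) := by
          have : ((x.choose (i + 1) * (i + 1) : ℕ) : ℤ) = ((x.choose i * (x - i) : ℕ) : ℤ) := by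
            rw [h2]
          rw [Nat.cast_mul, Nat.cast_mul, Nat.cast_sub hi] at this
          push_cast at this
          exact this
        linarith
      · rw [Nat.choose_eq_zero_of_lt hi, Nat.choose_eq_zero_of_lt (by omega)]
        simp
    calc (x : ℤ) ^ (k + 1) * z ^ x = x * ((x : ℤ) ^ k * z ^ x) := by ring
      _ = ∑ i ∈ range (X + 1), cf z k i * ((x : ℤ) * (x.choose i : ℤ)) := by
          rw [ih, Finset.mul_sum]
          apply Finset.sum_congr rfl
          intro i _
          ring
      _ = ∑ i ∈ range (X + 1), cf z k i * (i * (x.choose i : ℤ))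
          + ∑ i ∈ range (X + 1), cf z k i * ((i + 1) * (x.choose (i + 1) : ℤ)) := by
          rw [← Finset.sum_add_distrib]
          apply Finset.sum_congr rfl
          intro i _
          rw [h1 i]
          ring
      _ = ∑ i ∈ range (X + 1), cf z (k + 1) i * (x.choose i : ℤ) := by
          have e1 : ∑ i ∈ range (X + 1), cf z k i * ((i : ℤ) * (x.choose i : ℤ))
              = ∑ i ∈ range X, cf z k (i + 1) * (((i + 1 : ℕ) : ℤ) * (x.choose (i + 1) : ℤ)) := by
            rw [Finset.sum_range_succ']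
            simp
          have e2 : ∑ i ∈ range (X + 1), cf z k i * (((i : ℤ) + 1) * (x.choose (i + 1) : ℤ))
              = ∑ i ∈ range X, cf z k i * (((i : ℤ) + 1) * (x.choose (i + 1) : ℤ)) := by
            rw [Finset.sum_range_succ, Nat.choose_eq_zero_of_lt (by omega : x < X + 1)]
            simp
          have e3 : ∑ i ∈ range (X + 1), cf z (k + 1) i * (x.choose i : ℤ)
              = ∑ i ∈ range X, cf z (k + 1) (i + 1) * (x.choose (i + 1) : ℤ) := by
            rw [Finset.sum_range_succ', cf_succ_zero]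
            simp
          rw [e1, e2, e3, ← Finset.sum_add_distrib]
          apply Finset.sum_congr rfl
          intro i _
          rw [cf_succ_succ]
          push_cast
          ring

theorem cf_div (z : ℤ) (hz : 3 ∣ z - 1) (k i : ℕ) : (3 : ℤ) ^ i ∣ 3 ^ k * cf z k i := by
  induction k generalizing i with
  | zero =>
    rw [cf_zero, pow_zero, one_mul]
    exact pow_dvd_pow_of_dvd hz i
  | succ k ih =>
    rcases i with _ | i
    · rw [cf_succ_zero]; simp
    · rw [cf_succ_succ]
      have h1 := ih (i + 1)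
      have h2 := ih i
      have e : (3 : ℤ) ^ (k + 1) * ((i + 1) * (cf z k (i + 1) + cf z k i))
          = (3 * ((i : ℤ) + 1)) * (3 ^ k * cf z k (i + 1))
            + ((i : ℤ) + 1) * (3 * (3 ^ k * cf z k i)) := by ring
      rw [e]
      apply dvd_add
      · exact Dvd.dvd.mul_left h1 _
      · apply Dvd.dvd.mul_left
        rw [pow_succ, mul_comm ((3 : ℤ) ^ i) 3]
        exact mul_dvd_mul_left 3 h2

/-- For given `k, l` the function `3 ^ k x ^ k Y ^ l` with `Y ≡ 4 ^ x (mod 3 ^ N)` is, modulo `3 ^ N`,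
a combination of `3 ^ i C(x, i)`, `i < N`. -/
theorem expand (N k l : ℕ) : ∃ U : ℕ → ℤ, ∀ (x : ℕ) (Y : ℤ), (3 : ℤ) ^ N ∣ Y - 4 ^ x →
    ∃ w : ℤ, (3 : ℤ) ^ k * ((x : ℤ) ^ k * Y ^ l)
      = ∑ i ∈ range N, (3 : ℤ) ^ i * U i * (x.choose i : ℤ) + 3 ^ N * w := by
  have hz : (3 : ℤ) ∣ (4 : ℤ) ^ l - 1 := by
    have : ((4 : ℤ) - 1) ∣ (4 : ℤ) ^ l - 1 ^ l := sub_dvd_pow_sub_pow 4 1 l
    simpa using this
  choose U hU using fun i => cf_div ((4 : ℤ) ^ l) hz k i
  refine ⟨U, fun x Y hY => ?_⟩
  have h1 : (3 : ℤ) ^ N ∣ Y ^ l - ((4 : ℤ) ^ l) ^ x := by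
    rw [← pow_mul, mul_comm l x, pow_mul]
    exact hY.trans (sub_dvd_pow_sub_pow Y (4 ^ x) l)
  obtain ⟨v, hv⟩ := h1
  have h2 := cf_spec ((4 : ℤ) ^ l) (x + N) k x (by omega)
  have h3 : (3 : ℤ) ^ k * ((x : ℤ) ^ k * ((4 : ℤ) ^ l) ^ x)
      = ∑ i ∈ range (x + N + 1), (3 : ℤ) ^ i * U i * (x.choose i : ℤ) := by
    rw [h2, Finset.mul_sum]
    apply Finset.sum_congr rfl
    intro i _
    rw [← mul_assoc, hU i]
  have h4 : ∑ i ∈ range (x + N + 1), (3 : ℤ) ^ i * U i * (x.choose i : ℤ)
      = ∑ i ∈ range N, (3 : ℤ) ^ i * U i * (x.choose i : ℤ)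
        + 3 ^ N * ∑ i ∈ range (x + 1), (3 : ℤ) ^ i * U (N + i) * (x.choose (N + i) : ℤ) := by
    rw [show x + N + 1 = N + (x + 1) by ring, Finset.sum_range_add, Finset.mul_sum]
    congr 1
    apply Finset.sum_congr rfl
    intro i _
    rw [pow_add]
    ring
  refine ⟨∑ i ∈ range (x + 1), (3 : ℤ) ^ i * U (N + i) * (x.choose (N + i) : ℤ)
    + 3 ^ k * (x : ℤ) ^ k * v, ?_⟩
  have h5 : Y ^ l = ((4 : ℤ) ^ l) ^ x + 3 ^ N * v := by linarith
  rw [h5, mul_add, mul_add, h3, h4]
  ring

end Pool.Agent.H118_IntCx
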