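import Pool.Agent.H118_IntCx.SumA

/-!
# Bases of spaces of polynomials adapted to an order of the monomials
-/

set_option autoImplicit false

namespace Pool.Agent.H118_IntCx

open Filter Topology Pool.Agent.TH461.SST Pool.Agent.TH932.Germs Pool.Agent.TH551.SU

/-- echelon form -/
lemma ech {k d : ℕ} (W : Submodule ℚ (Fin k → ℚ)) (hd : Module.finrank ℚ W = d) :
    ∃ (p : Fin d → Fin k) (g : Fin d → Fin k → ℚ),
      Function.Injective p ∧ (∀ l, g l ∈ W) ∧ LinearIndependent ℚ g ∧
      ∀ l x, p l < x → g l x = 0 := by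
  classical
  let B : Finset (Fin k) := Finset.univ.filter
    fun b => ∃ w ∈ W, w b ≠ 0 ∧ ∀ x, b < x → w x = 0
  have hB : ∀ b : B, ∃ w ∈ W, w b.1 ≠ 0 ∧ ∀ x, b.1 < x → w x = 0 := fun b => by
    have := b.2
    simp only [B, Finset.mem_filter, Finset.mem_univ, true_and] at this
    exact this
  choose g0 hg0W hg0b hg0x using hB
  have hli : LinearIndependent ℚ g0 := by
    rw [Fintype.linearIndependent_iff]
    intro c hc
    by_contra hcon
    push Not at hcon
    obtain ⟨i0, hi0⟩ := hcon
    obtain ⟨i1, hi1, hmax⟩ := Finset.exists_max_image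
      (Finset.univ.filter fun i : B => c i ≠ 0) (fun i => i.1) ⟨i0, by simp [hi0]⟩
    simp only [Finset.mem_filter, Finset.mem_univ, true_and] at hi1 hmax
    have h1 := congrFun hc i1.1
    rw [Finset.sum_apply, Finset.sum_eq_single i1] at h1
    · simp only [Pi.smul_apply, smul_eq_mul, Pi.zero_apply] at h1
      rcases mul_eq_zero.1 h1 with h | h
      · exact hi1 h
      · exact hg0b i1 h
    · intro j _ hj
      simp only [Pi.smul_apply, smul_eq_mul]
      by_cases hcj : c j = 0
      · rw [hcj, zero_mul]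
      · have h2 := hmax j hcj
        have h3 : j.1 < i1.1 := lt_of_le_of_ne h2 fun h => hj (Subtype.ext h)
        rw [hg0x j _ h3, mul_zero]
    · intro h
      exact absurd (Finset.mem_univ _) h
  have hle1 : B.card ≤ Module.finrank ℚ W := by
    have h1 : LinearIndependent ℚ (fun i : B => (⟨g0 i, hg0W i⟩ : W)) :=
      LinearIndependent.of_comp W.subtype hli
    have := h1.fintype_card_le_finrank
    rwa [Fintype.card_coe] at this
  have hle2 : Module.finrank ℚ W ≤ B.card := by
    let φ : W →ₗ[ℚ] (B → ℚ) :=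
      { toFun := fun w i => w.1 i.1
        map_add' := fun _ _ => rfl
        map_smul' := fun _ _ => rfl }
    have hφ : Function.Injective φ := by
      rw [← LinearMap.ker_eq_bot, LinearMap.ker_eq_bot']
      intro w hw
      by_contra hw0
      have hw0' : ∃ i, w.1 i ≠ 0 := by
        by_contra h
        push Not at h
        exact hw0 (Subtype.ext (funext h))
      obtain ⟨i0, hi0⟩ := hw0'
      obtain ⟨i1, hi1, hmax⟩ := Finset.exists_max_image
        (Finset.univ.filter fun i : Fin k => w.1 i ≠ 0) (fun i => i) ⟨i0, by simp [hi0]⟩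
      simp only [Finset.mem_filter, Finset.mem_univ, true_and] at hi1 hmax
      have hmem : i1 ∈ B := by
        simp only [B, Finset.mem_filter, Finset.mem_univ, true_and]
        refine ⟨w.1, w.2, hi1, fun x hx => ?_⟩
        by_contra hne
        exact absurd (hmax x hne) (not_le.2 hx)
      exact hi1 (congrFun hw ⟨i1, hmem⟩)
    have := LinearMap.finrank_le_finrank_of_injective hφ
    rwa [Module.finrank_fintype_fun_eq_card, Fintype.card_coe] at this
  have hcard : Fintype.card B = d := by
    rw [Fintype.card_coe]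
    omega
  let e : B ≃ Fin d := Fintype.equivFinOfCardEq hcard
  refine ⟨fun l => (e.symm l).1, fun l => g0 (e.symm l), ?_, fun l => hg0W _, ?_, ?_⟩
  · exact Subtype.val_injective.comp e.symm.injective
  · exact hli.comp _ e.symm.injective
  · intro l x hx
    exact hg0x _ x hx

/-- echelon form for polynomials with support in `S`, for an enumeration of `S` -/
lemma ech_poly {r k d : ℕ} (S : Finset (Fin r →₀ ℕ)) (σ : S ≃ Fin k)
    (W : Submodule ℚ (MvPolynomial (Fin r) ℚ)) (hW : ∀ f ∈ W, f.support ⊆ S)
    (hd : Module.finrank ℚ W = d) :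
    ∃ (p : Fin d → S) (g : Fin d → MvPolynomial (Fin r) ℚ),
      Function.Injective p ∧ (∀ l, g l ∈ W) ∧ LinearIndependent ℚ g ∧
      ∀ l, ∀ J ∈ (g l).support, ∃ h : J ∈ S, σ ⟨J, h⟩ ≤ σ (p l) := by
  classical
  let φ : MvPolynomial (Fin r) ℚ →ₗ[ℚ] (Fin k → ℚ) :=
    { toFun := fun f i => MvPolynomial.coeff (σ.symm i).1 f
      map_add' := fun f g => by
        funext i
        simp
      map_smul' := fun a f => by
        funext i
        simp }
  have hφ : ∀ f i, φ f i = MvPolynomial.coeff (σ.symm i).1 f := fun _ _ => rfl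
  have hinj : ∀ f ∈ W, φ f = 0 → f = 0 := by
    intro f hf h0
    ext J
    rw [MvPolynomial.coeff_zero]
    by_contra hne
    have hJ : J ∈ S := hW f hf (MvPolynomial.mem_support_iff.2 hne)
    have := congrFun h0 (σ ⟨J, hJ⟩)
    rw [hφ, Equiv.symm_apply_apply] at this
    exact hne this
  have hinj' : Function.Injective (φ.domRestrict W) := by
    rw [← LinearMap.ker_eq_bot, LinearMap.ker_eq_bot']
    intro f hf
    exact Subtype.ext (hinj f.1 f.2 hf)
  have hrk : Module.finrank ℚ (W.map φ) = Module.finrank ℚ W := by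
    have h1 : W.map φ = LinearMap.range (φ.domRestrict W) := by
      rw [LinearMap.range_domRestrict]
    rw [h1, LinearMap.finrank_range_of_inj hinj']
  obtain ⟨p, g, hp, hgW, hli, hgx⟩ := ech (W.map φ) (hrk.trans hd)
  have hpre : ∀ l, ∃ f ∈ W, φ f = g l := fun l => by
    have := hgW l
    rwa [Submodule.mem_map] at this
  choose f hfW hfg using hpre
  refine ⟨fun l => σ.symm (p l), f, σ.symm.injective.comp hp, hfW, ?_, ?_⟩
  · have h1 : LinearIndependent ℚ (fun l => φ (f l)) := by
      simp only [hfg]
      exact hli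
    exact LinearIndependent.of_comp φ h1
  · intro l J hJ
    have hJS := hW _ (hfW l) hJ
    refine ⟨hJS, ?_⟩
    rw [Equiv.apply_symm_apply]
    by_contra hlt
    have h2 := hgx l _ (not_le.1 hlt)
    rw [← hfg, hφ, Equiv.symm_apply_apply] at h2
    exact MvPolynomial.mem_support_iff.1 hJ h2

end Pool.Agent.H118_IntCx
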