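import Pool.Agent.H118_IntCx.Main

namespace Pool.Agent.H118_IntCx

theorem sq_le_two_pow (n : ℕ) (hn : 10 ≤ n) : (2 * n) ^ 2 ≤ 2 ^ n := by
  induction n, hn using Nat.le_induction with
  | base => norm_num
  | succ n hn ih =>
    have h1 : (2 * (n + 1)) ^ 2 ≤ 2 * (2 * n) ^ 2 := by nlinarith
    calc (2 * (n + 1)) ^ 2 ≤ 2 * (2 * n) ^ 2 := h1
      _ ≤ 2 * 2 ^ n := Nat.mul_le_mul_left 2 ih
      _ = 2 ^ (n + 1) := by rw [pow_succ]; ring

theorem bigrest (n x R S K : ℕ) (hx : Reach x S) (hR : Reach R K) (hsum : x + R = 2 ^ n)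
    (hlt : x < R) (hbig : 2 ^ n ≤ x * (S + K + 1)) : 2 * n ≤ S + K := by
  rcases Nat.lt_or_ge n 10 with hn | hn
  · exact small_n n _ (by omega) (hsum ▸ Reach.add hx hR)
  by_contra hcon
  have h1 : 2 ^ n ≤ x * (2 * n) := hbig.trans (Nat.mul_le_mul_left x (by omega))
  have h2 := sq_le_two_pow n hn
  have hpos : 0 < 2 ^ n := by positivity
  have h3 : 2 ^ n ≤ x ^ 2 := by
    have e1 : 2 ^ n * 2 ^ n ≤ x ^ 2 * 2 ^ n := by
      calc 2 ^ n * 2 ^ n ≤ (x * (2 * n)) * (x * (2 * n)) := Nat.mul_le_mul h1 h1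
        _ = x ^ 2 * (2 * n) ^ 2 := by ring
        _ ≤ x ^ 2 * 2 ^ n := Nat.mul_le_mul_left _ h2
    exact Nat.le_of_mul_le_mul_right e1 hpos
  have h4 := selfridge (Reach.mul hx hR)
  have h5 : 2 ^ n ≤ 2 * R := by omega
  have h6 : (x * R) ^ 3 * (x * R) ^ 3 ≤ 3 ^ (S + K) * 3 ^ (S + K) := Nat.mul_le_mul h4 h4
  have h7 : (3 : ℕ) ^ (S + K) ≤ 3 ^ (2 * n - 1) := Nat.pow_le_pow_right (by norm_num) (by omega)
  have h8 : (2 ^ n) ^ 3 * (2 ^ n) ^ 6 ≤ (x ^ 2) ^ 3 * (2 * R) ^ 6 :=
    Nat.mul_le_mul (Nat.pow_le_pow_left h3 3) (Nat.pow_le_pow_left h5 6)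
  have h9 : (x ^ 2) ^ 3 * (2 * R) ^ 6 = 64 * ((x * R) ^ 3 * (x * R) ^ 3) := by ring
  have h10 : (3 : ℕ) ^ (2 * n - 1) * 3 = 9 ^ n := by
    rw [← pow_succ, show 2 * n - 1 + 1 = 2 * n by omega, pow_mul]
    norm_num
  have h11 : (2 ^ n) ^ 3 * (2 ^ n) ^ 6 * 9 ≤ 64 * (9 ^ n * 9 ^ n) := by
    calc (2 ^ n) ^ 3 * (2 ^ n) ^ 6 * 9 ≤ (64 * ((x * R) ^ 3 * (x * R) ^ 3)) * 9 := by
          rw [← h9]; exact Nat.mul_le_mul_right 9 h8
      _ ≤ (64 * (3 ^ (S + K) * 3 ^ (S + K))) * 9 :=
          Nat.mul_le_mul_right 9 (Nat.mul_le_mul_left 64 h6)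
      _ ≤ (64 * (3 ^ (2 * n - 1) * 3 ^ (2 * n - 1))) * 9 :=
          Nat.mul_le_mul_right 9 (Nat.mul_le_mul_left 64 (Nat.mul_le_mul h7 h7))
      _ = 64 * ((3 ^ (2 * n - 1) * 3) * (3 ^ (2 * n - 1) * 3)) := by ring
      _ = 64 * (9 ^ n * 9 ^ n) := by rw [h10]
  have h12 : (2 ^ n) ^ 3 * (2 ^ n) ^ 6 = 512 ^ n := by
    rw [← pow_mul, ← pow_mul, ← pow_add, show n * 3 + n * 6 = 9 * n by ring, pow_mul]
    norm_num
  have h13 : (9 : ℕ) ^ n * 9 ^ n = 81 ^ n := by rw [← mul_pow]; norm_num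
  rw [h12, h13] at h11
  have h14 : (6 : ℕ) ^ n * 81 ^ n ≤ 512 ^ n := by
    rw [← mul_pow]; exact Nat.pow_le_pow_left (by norm_num) n
  have h15 : (6 : ℕ) ^ 10 ≤ 6 ^ n := Nat.pow_le_pow_right (by norm_num) hn
  have h16 : 0 < (81 : ℕ) ^ n := by positivity
  have h17 : (6 : ℕ) ^ 10 * 81 ^ n ≤ 512 ^ n := (Nat.mul_le_mul_right _ h15).trans h14
  norm_num at h17
  omega

theorem length_le_sum (L : List (List ℕ)) (hL : ∀ l ∈ L, IsPS l) :
    L.length ≤ (L.map List.sum).sum := by
  induction L with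
  | nil => simp
  | cons l L ih =>
    rw [List.map_cons, List.sum_cons, List.length_cons]
    have h1 := (reach_pos (reach_isPS (hL l (by simp)))).2
    have h2 := ih (fun b hb => hL b (by simp [hb]))
    omega

theorem sum_le_length (L : List (List ℕ)) (M : ℕ) (hM : ∀ l ∈ L, l.prod ≤ M) :
    (L.map List.prod).sum ≤ L.length * M := by
  induction L with
  | nil => simp
  | cons l L ih =>
    rw [List.map_cons, List.sum_cons, List.length_cons]
    have h1 := hM l (by simp)
    have h2 := ih (fun b hb => hM b (by simp [hb]))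
    nlinarith

theorem exists_max (L : List (List ℕ)) (hne : L ≠ []) :
    ∃ l ∈ L, ∀ l' ∈ L, l'.prod ≤ l.prod := by
  induction L with
  | nil => exact absurd rfl hne
  | cons l L ih =>
    by_cases hl : L = []
    · subst hl
      exact ⟨l, by simp, fun l' hl' => by simp at hl'; rw [hl']⟩
    · obtain ⟨l0, h0, hmax⟩ := ih hl
      rcases le_total l.prod l0.prod with h | h
      · refine ⟨l0, by simp [h0], fun l' hl' => ?_⟩
        rcases List.mem_cons.mp hl' with rfl | h'
        · exact h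
        · exact hmax l' h'
      · refine ⟨l, by simp, fun l' hl' => ?_⟩
        rcases List.mem_cons.mp hl' with rfl | h'
        · exact le_rfl
        · exact (hmax l' h').trans h

theorem case_sum (L : List (List ℕ)) (hne : L ≠ []) (hL : ∀ l ∈ L, IsPS l) (n : ℕ)
    (h : (L.map List.prod).sum = 2 ^ n) : 2 * n ≤ (L.map List.sum).sum := by
  obtain ⟨l0, h0, hmax⟩ := exists_max L hne
  have hperm := List.perm_cons_erase h0
  have hs1 : (L.map List.prod).sum = l0.prod + ((L.erase l0).map List.prod).sum := by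
    rw [(hperm.map List.prod).sum_eq, List.map_cons, List.sum_cons]
  have hs2 : (L.map List.sum).sum = l0.sum + ((L.erase l0).map List.sum).sum := by
    rw [(hperm.map List.sum).sum_eq, List.map_cons, List.sum_cons]
  have hPS0 := hL l0 h0
  have hL' : ∀ l ∈ L.erase l0, IsPS l := fun l hl => hL l (List.mem_of_mem_erase hl)
  by_cases hE : L.erase l0 = []
  · rw [hE] at hs1 hs2
    simp only [List.map_nil, List.sum_nil, add_zero] at hs1 hs2
    rw [hs2]
    have h1 := g_list l0 hPS0.2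
    rw [← hs1, h, g_two_pow] at h1
    exact_mod_cast h1
  · have hR := reach_sum hE hL'
    have hsum : l0.prod + ((L.erase l0).map List.prod).sum = 2 ^ n := by rw [← hs1, h]
    rw [hs2]
    rcases le_or_gt ((L.erase l0).map List.prod).sum l0.prod with hle | hgt
    · exact core_T1 n l0 _ _ hPS0 hR hle hsum
    · refine bigrest n _ _ _ _ (reach_isPS hPS0) hR hsum hgt ?_
      rw [← hs2, ← h]
      calc (L.map List.prod).sum ≤ L.length * l0.prod := sum_le_length L _ hmax
        _ ≤ ((L.map List.sum).sum + 1) * l0.prod :=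
            Nat.mul_le_mul_right _ ((length_le_sum L hL).trans (Nat.le_succ _))
        _ = l0.prod * ((L.map List.sum).sum + 1) := by ring

theorem case_sumAdd (L : List (List ℕ)) (hL : ∀ l ∈ L, IsPS l) (y k : ℕ) (hy : Reach y k)
    (hle : ∃ l ∈ L, y ≤ l.prod) (n : ℕ)
    (h : (L.map List.prod).sum + y = 2 ^ n) : 2 * n ≤ (L.map List.sum).sum + k := by
  have hne : L ≠ [] := by rintro rfl; simp at hle
  obtain ⟨l0, h0, hmax⟩ := exists_max L hne
  obtain ⟨l1, hl1, hyl1⟩ := hle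
  have hyl0 : y ≤ l0.prod := hyl1.trans (hmax l1 hl1)
  have hperm := List.perm_cons_erase h0
  have hs1 : (L.map List.prod).sum = l0.prod + ((L.erase l0).map List.prod).sum := by
    rw [(hperm.map List.prod).sum_eq, List.map_cons, List.sum_cons]
  have hs2 : (L.map List.sum).sum = l0.sum + ((L.erase l0).map List.sum).sum := by
    rw [(hperm.map List.sum).sum_eq, List.map_cons, List.sum_cons]
  have hPS0 := hL l0 h0
  have hL' : ∀ l ∈ L.erase l0, IsPS l := fun l hl => hL l (List.mem_of_mem_erase hl)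
  have hR : Reach (((L.erase l0).map List.prod).sum + y)
      (((L.erase l0).map List.sum).sum + k) := by
    by_cases hE : L.erase l0 = []
    · rw [hE]; simpa using hy
    · exact Reach.add (reach_sum hE hL') hy
  have hsum : l0.prod + (((L.erase l0).map List.prod).sum + y) = 2 ^ n := by
    rw [← add_assoc, ← hs1, h]
  rw [hs2, add_assoc]
  rcases le_or_gt (((L.erase l0).map List.prod).sum + y) l0.prod with hle' | hgt
  · exact core_T1 n l0 _ _ hPS0 hR hle' hsum
  · refine bigrest n _ _ _ _ (reach_isPS hPS0) hR hsum hgt ?_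
    rw [← add_assoc, ← hs2, ← h]
    calc (L.map List.prod).sum + y ≤ L.length * l0.prod + l0.prod :=
          Nat.add_le_add (sum_le_length L _ hmax) hyl0
      _ = (L.length + 1) * l0.prod := by ring
      _ ≤ ((L.map List.sum).sum + k + 1) * l0.prod := by
          apply Nat.mul_le_mul_right
          have := length_le_sum L hL
          omega
      _ = l0.prod * ((L.map List.sum).sum + k + 1) := by ring

theorem shallow_lower {m k : ℕ} (h : Shallow m k) : ∀ n : ℕ, m = 2 ^ n → 2 * n ≤ k := by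
  induction h with
  | sum L hne hL => exact fun n hn => case_sum L hne hL n hn
  | sumAdd L hL y k hy hle => exact fun n hn => case_sumAdd L hL y k hy hle n hn
  | @mul m m' a b h1 h2 ih1 ih2 =>
    intro n hn
    obtain ⟨i, hi, hmi⟩ := (Nat.dvd_prime_pow Nat.prime_two).mp (Dvd.intro m' hn)
    obtain ⟨j, hj, hmj⟩ := (Nat.dvd_prime_pow Nat.prime_two).mp (Dvd.intro_left m hn)
    have h3 := ih1 i hmi
    have h4 := ih2 j hmj
    have h5 : i + j = n := by
      rw [hmi, hmj, ← pow_add] at hn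
      exact Nat.pow_right_injective le_rfl hn
    omega

theorem shallow_upper (n : ℕ) (hn : 1 ≤ n) : Shallow (2 ^ n) (2 * n) := by
  have h := Shallow.sum [List.replicate n 2] (by simp) (by
    intro l hl
    rw [List.mem_singleton] at hl
    subst hl
    refine ⟨by simp; omega, fun a ha => ?_⟩
    rw [List.eq_of_mem_replicate ha]
    norm_num)
  simpa [mul_comm] using h

end Pool.Agent.H118_IntCx
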