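import Pool.Agent.H118_IntCx.SubUu

/-!
# Polynomials at sequences of S-units in general position
-/

set_option autoImplicit false

namespace Pool.Agent.H118_IntCx

open Filter Topology Pool.Agent.TH461.SST Pool.Agent.TH932.Germs Pool.Agent.TH551.SU

variable {s : ℕ} {b : Fin s → ℕ}

lemma su_ne (hb : ∀ v, (b v).Prime) {x : ℚ} (hx : IsSU b x) : x ≠ 0 := by
  obtain ⟨σ, e, hσ, rfl⟩ := hx
  refine mul_ne_zero ?_ (Finset.prod_ne_zero_iff.2 fun v _ => zpow_ne_zero _ ?_)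
  · rcases hσ with h | h <;> simp [h]
  · exact_mod_cast (hb v).ne_zero

lemma su_one : IsSU b 1 := ⟨1, 0, Or.inl rfl, by simp⟩

lemma su_mul (hb : ∀ v, (b v).Prime) {x y : ℚ} (hx : IsSU b x) (hy : IsSU b y) :
    IsSU b (x * y) := by
  obtain ⟨σ, e, hσ, rfl⟩ := hx
  obtain ⟨τ, f, hτ, rfl⟩ := hy
  refine ⟨σ * τ, fun v => e v + f v, ?_, ?_⟩
  · rcases hσ with h | h <;> rcases hτ with h' | h' <;> simp [h, h']
  · have : ∀ v, (b v : ℚ) ^ (e v + f v) = (b v : ℚ) ^ (e v) * (b v : ℚ) ^ (f v) := by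
      intro v
      rw [zpow_add₀]
      exact_mod_cast (hb v).ne_zero
    simp only [this, Finset.prod_mul_distrib]
    push_cast
    ring

lemma su_inv {x : ℚ} (hx : IsSU b x) : IsSU b x⁻¹ := by
  obtain ⟨σ, e, hσ, rfl⟩ := hx
  refine ⟨σ, fun v => -e v, hσ, ?_⟩
  rw [mul_inv]
  congr 1
  · rcases hσ with h | h <;> simp [h]
  · rw [← Finset.prod_inv_distrib]
    exact Finset.prod_congr rfl fun v _ => by rw [zpow_neg]

lemma su_pow (hb : ∀ v, (b v).Prime) {x : ℚ} (hx : IsSU b x) (k : ℕ) : IsSU b (x ^ k) := by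
  induction k with
  | zero => simpa using su_one
  | succ k ih => rw [pow_succ]; exact su_mul hb ih hx

lemma su_zpow (hb : ∀ v, (b v).Prime) {x : ℚ} (hx : IsSU b x) (k : ℤ) : IsSU b (x ^ k) := by
  obtain ⟨k, rfl | rfl⟩ := k.eq_nat_or_neg
  · rw [zpow_natCast]; exact su_pow hb hx k
  · rw [zpow_neg, zpow_natCast]; exact su_inv (su_pow hb hx k)

lemma su_prod (hb : ∀ v, (b v).Prime) {ι : Type} (A : Finset ι) (x : ι → ℚ)
    (h : ∀ i ∈ A, IsSU b (x i)) : IsSU b (∏ i ∈ A, x i) := by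
  classical
  induction A using Finset.induction_on with
  | empty => simpa using su_one
  | insert a A ha ih =>
    rw [Finset.prod_insert ha]
    exact su_mul hb (h a (Finset.mem_insert_self _ _))
      (ih fun i hi => h i (Finset.mem_insert_of_mem hi))

/-- a denominator of an S-unit -/
lemma exists_den_su (hb : ∀ v, (b v).Prime) (hbi : Function.Injective b) {x : ℚ}
    (hx : IsSU b x) : ∃ q : ℕ, 0 < q ∧ IsSU b q ∧ (∃ z : ℤ, (q : ℚ) * x = z) ∧
      Real.log q ≤ ∑ v, |lg b v x| := by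
  classical
  obtain ⟨σ, e, hσ, hxe⟩ := hx
  have hb0 : ∀ v, (b v : ℚ) ≠ 0 := fun v => by exact_mod_cast (hb v).ne_zero
  have hxn : x ≠ 0 := su_ne hb ⟨σ, e, hσ, hxe⟩
  refine ⟨∏ v, b v ^ (-e v).toNat, Finset.prod_pos fun v _ => pow_pos (hb v).pos _, ?_, ?_, ?_⟩
  · refine ⟨1, fun v => (-e v).toNat, Or.inl rfl, ?_⟩
    push_cast
    rw [one_mul]
    exact Finset.prod_congr rfl fun v _ => by rw [← zpow_natCast]
  · refine ⟨σ * ∏ v, (b v : ℤ) ^ (e v).toNat, ?_⟩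
    rw [hxe]
    push_cast
    rw [mul_left_comm, ← Finset.prod_mul_distrib]
    congr 1
    refine Finset.prod_congr rfl fun v _ => ?_
    rw [← zpow_natCast, ← zpow_natCast, ← zpow_add₀ (hb0 v)]
    congr 1
    omega
  · have h1 : ∀ v : Fin s, |lg b (some v) x| = |(e v : ℝ)| * Real.log (b v) := by
      intro v
      have hv := Fact.mk (hb v)
      unfold lg
      simp only [Pool.Agent.TH551.HA.av]
      rw [padicNorm.eq_zpow_of_nonzero hxn, hxe, Pool.Agent.TH551.ZP.AR.val_SU_in hb hbi hσ e v]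
      push_cast
      rw [Real.log_zpow, abs_mul, abs_of_nonneg (Real.log_nonneg (by exact_mod_cast (hb v).one_lt.le))]
      push_cast
      rw [abs_neg]
    push_cast
    rw [Real.log_prod (fun v _ => by
      have := (hb v).pos
      positivity), Fintype.sum_option]
    have h2 : ∑ v, Real.log ((b v : ℝ) ^ (-e v).toNat) ≤ ∑ v : Fin s, |lg b (some v) x| := by
      refine Finset.sum_le_sum fun v _ => ?_
      rw [h1, Real.log_pow]
      refine mul_le_mul_of_nonneg_right ?_ (Real.log_nonneg (by exact_mod_cast (hb v).one_lt.le))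
      have h3 : (((-e v).toNat : ℤ)) ≤ |e v| := by
        rcases abs_cases (e v) with h | h <;> omega
      exact_mod_cast h3
    have h4 : 0 ≤ |lg b none x| := abs_nonneg _
    linarith

/-- the value of a monomial -/
def mo {r : ℕ} (x : Fin r → ℚ) (J : Fin r →₀ ℕ) : ℚ := ∏ i, x i ^ J i

/-- sequences of positive S-units in general position -/
structure GP (b : Fin s → ℕ) (n : ℕ → ℝ) {r : ℕ} (x : ℕ → Fin r → ℚ) : Prop where
  pos : ∀ t i, 0 < x t i
  su : ∀ t i, IsSU b (x t i)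
  bd : ∃ c : ℝ, 0 ≤ c ∧ ∀ᶠ t in (UU : Filter ℕ), ∀ v i, |lg b v (x t i)| ≤ c * n t
  gen : ∀ F : MvPolynomial (Fin r) ℚ, F ≠ 0 → ∀ᶠ t in (UU : Filter ℕ),
    MvPolynomial.eval (x t) F ≠ 0

section mo

variable {r : ℕ}

lemma mo_pos {x : Fin r → ℚ} (hx : ∀ i, 0 < x i) (J : Fin r →₀ ℕ) : 0 < mo x J :=
  Finset.prod_pos fun i _ => pow_pos (hx i) _

lemma mo_su (hb : ∀ v, (b v).Prime) {x : Fin r → ℚ} (hx : ∀ i, IsSU b (x i)) (J : Fin r →₀ ℕ) :
    IsSU b (mo x J) := su_prod hb _ _ fun i _ => su_pow hb (hx i) _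

lemma lg_mo (hb : ∀ v, (b v).Prime) (v : Option (Fin s)) {x : Fin r → ℚ} (hx : ∀ i, 0 < x i)
    (J : Fin r →₀ ℕ) : lg b v (mo x J) = ∑ i, (J i : ℝ) * lg b v (x i) := by
  unfold mo
  rw [lg_prod hb v _ _ fun i _ => (pow_pos (hx i) _).ne']
  exact Finset.sum_congr rfl fun i _ => lg_pow hb v _ _

lemma lg_mo_add (hb : ∀ v, (b v).Prime) (v : Option (Fin s)) {x : Fin r → ℚ}
    (hx : ∀ i, 0 < x i) (J K : Fin r →₀ ℕ) :
    lg b v (mo x (J + K)) = lg b v (mo x J) + lg b v (mo x K) := by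
  rw [lg_mo hb v hx, lg_mo hb v hx, lg_mo hb v hx, ← Finset.sum_add_distrib]
  refine Finset.sum_congr rfl fun i _ => ?_
  rw [Finsupp.add_apply]
  push_cast
  ring

lemma mo_add (x : Fin r → ℚ) (J K : Fin r →₀ ℕ) : mo x (J + K) = mo x J * mo x K := by
  unfold mo
  rw [← Finset.prod_mul_distrib]
  exact Finset.prod_congr rfl fun i _ => by rw [Finsupp.add_apply, pow_add]

lemma eval_mo (x : Fin r → ℚ) (F : MvPolynomial (Fin r) ℚ) :
    MvPolynomial.eval x F = ∑ J ∈ F.support, F.coeff J * mo x J := MvPolynomial.eval_eq' x F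

lemma eval_monomial' (x : Fin r → ℚ) (J : Fin r →₀ ℕ) (a : ℚ) :
    MvPolynomial.eval x (MvPolynomial.monomial J a) = a * mo x J := by
  rw [MvPolynomial.eval_monomial]
  congr 1
  unfold mo
  rw [Finsupp.prod_fintype]
  intro i
  exact pow_zero _

lemma sum_eq_degree (J : Fin r →₀ ℕ) : ∑ i, J i = J.degree := by
  rw [Finsupp.degree_eq_sum]

lemma abs_lg_mo (hb : ∀ v, (b v).Prime) (v : Option (Fin s)) {x : Fin r → ℚ}
    (hx : ∀ i, 0 < x i) {M : ℝ} (hM : ∀ i, |lg b v (x i)| ≤ M) (J : Fin r →₀ ℕ) :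
    |lg b v (mo x J)| ≤ J.degree * M := by
  rw [lg_mo hb v hx]
  refine (Finset.abs_sum_le_sum_abs _ _).trans ?_
  rw [← sum_eq_degree]
  push_cast
  rw [Finset.sum_mul]
  refine Finset.sum_le_sum fun i _ => ?_
  rw [abs_mul, Nat.abs_cast]
  exact mul_le_mul_of_nonneg_left (hM i) (Nat.cast_nonneg _)

end mo

end Pool.Agent.H118_IntCx
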