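import Pool.Agent.H118_IntCx.Sets
import Pool.Agent.H118_IntCx.Check

namespace Pool.Agent.H118_IntCx

open Real

/-- The weight function: `2.49 log₂ x - (2.49 log₂ 3 - 3) b - (2.49 log₂ 5 - 5) c`. -/
noncomputable def F (x b c : ℕ) : ℝ :=
  249 / 100 * logb 2 x - (249 / 100 * logb 2 3 - 3) * b - (249 / 100 * logb 2 5 - 5) * c

theorem F_lower (x b c : ℕ) : 249 / 100 * logb 2 x - 5973 / 10000 * (b * logb 2 3)
    - 3367 / 10000 * (c * logb 2 5) ≤ F x b c := by
  have h1 := mul_le_mul_of_nonneg_left l3_hi (Nat.cast_nonneg (α := ℝ) b)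
  have h2 := mul_le_mul_of_nonneg_left l5_hi (Nat.cast_nonneg (α := ℝ) c)
  unfold F
  have e1 : (249 / 100 * logb 2 3 - 3) * (b : ℝ) = 249 / 100 * (b * logb 2 3) - 3 * b := by ring
  have e2 : (249 / 100 * logb 2 5 - 5) * (c : ℝ) = 249 / 100 * (c * logb 2 5) - 5 * c := by ring
  rw [e1, e2]
  have hb0 : (0 : ℝ) ≤ b := Nat.cast_nonneg b
  have hc0 : (0 : ℝ) ≤ c := Nat.cast_nonneg c
  have h3 : (0 : ℝ) ≤ b * logb 2 3 := mul_nonneg hb0 (by have := l3_lo; linarith)
  have h4 : (0 : ℝ) ≤ c * logb 2 5 := mul_nonneg hc0 (by have := l5_lo; linarith)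
  linarith

theorem PQ_le (x b c : ℕ) (hx : 0 < x) (hd : 3 ^ b * 5 ^ c ∣ x) :
    b * logb 2 3 + c * logb 2 5 ≤ logb 2 x := by
  have h1 : 3 ^ b * 5 ^ c ≤ x := Nat.le_of_dvd hx hd
  have h2 : ((3 : ℝ) ^ b * 5 ^ c) ≤ x := by exact_mod_cast h1
  have h3 : logb 2 ((3 : ℝ) ^ b * 5 ^ c) ≤ logb 2 x :=
    logb_le_logb_of_le (by norm_num) (by positivity) h2
  rw [logb_mul (by positivity) (by positivity), logb_pow, logb_pow] at h3
  exact h3

theorem logb_two_pow (n : ℕ) : logb 2 ((2 : ℝ) ^ n) = n := by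
  rw [logb_pow, logb_self_eq_one (by norm_num)]; ring

theorem keyK (n x y b c : ℕ) (hn : 10 ≤ n) (hxy : x + y = 2 ^ n) (hy : 1 ≤ y) (hyx : y ≤ x)
    (hd : 3 ^ b * 5 ^ c ∣ x) (h1 : F x b c + 1 < 2 * n)
    (h2 : F x b c + 3 / logb 2 3 * logb 2 y < 2 * n) : False := by
  have hx : 0 < x := by omega
  have hxR : (0 : ℝ) < x := by exact_mod_cast hx
  have hyR : (1 : ℝ) ≤ y := by exact_mod_cast hy
  have hnR : (10 : ℝ) ≤ n := by exact_mod_cast hn
  have hPQ := PQ_le x b c hx hd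
  have hF := F_lower x b c
  have hlam1 := l3_lo
  have hlam2 := l3_hi
  have hly0 : 0 ≤ logb 2 y := logb_nonneg (by norm_num) hyR
  have hb0 : (0 : ℝ) ≤ b := Nat.cast_nonneg b
  have hc0 : (0 : ℝ) ≤ c := Nat.cast_nonneg c
  have hP0 : (0 : ℝ) ≤ b * logb 2 3 := mul_nonneg hb0 (by linarith)
  have hQ0 : (0 : ℝ) ≤ c * logb 2 5 := mul_nonneg hc0 (by have := l5_lo; linarith)
  have hbP : (306 : ℝ) / 485 * (b * logb 2 3) ≤ b := by
    have := mul_le_mul_of_nonneg_left l3_hi hb0
    linarith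
  have hcQ : (351 : ℝ) / 815 * (c * logb 2 5) ≤ c := by
    have := mul_le_mul_of_nonneg_left l5_hi hc0
    linarith
  -- `3 / log₂ 3 ≥ 918/485`
  have h3l : (918 : ℝ) / 485 ≤ 3 / logb 2 3 := by
    rw [le_div_iff₀ (by linarith)]
    linarith
  have hL : (918 : ℝ) / 485 * logb 2 y ≤ 3 / logb 2 3 * logb 2 y :=
    mul_le_mul_of_nonneg_right h3l hly0
  -- first bound on y
  have hlx1 : (n : ℝ) - 1 ≤ logb 2 x := by
    have e : (2 : ℝ) ^ n ≤ 2 * x := by
      have : 2 ^ n ≤ 2 * x := by omega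
      exact_mod_cast this
    have e2 := logb_le_logb_of_le (by norm_num : (1 : ℝ) < 2) (by positivity) e
    rw [logb_two_pow, logb_mul (by norm_num) (by positivity), logb_self_eq_one (by norm_num)] at e2
    linarith
  have hlxn : logb 2 x ≤ n := by
    have e : (x : ℝ) ≤ 2 ^ n := by
      have : x ≤ 2 ^ n := by omega
      exact_mod_cast this
    have e2 := logb_le_logb_of_le (by norm_num : (1 : ℝ) < 2) hxR e
    rwa [logb_two_pow] at e2
  have hly1 : logb 2 y < 567 / 10000 * n + 1 := by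
    linarith
  -- refined bound on x
  have hy256 : (256 : ℝ) * y ≤ 2 ^ n := by
    have e : logb 2 ((256 : ℝ) * y) ≤ logb 2 ((2 : ℝ) ^ n) := by
      rw [logb_two_pow, logb_mul (by norm_num) (by positivity),
        show (256 : ℝ) = 2 ^ 8 by norm_num, logb_pow, logb_self_eq_one (by norm_num)]
      push_cast
      linarith
    exact (logb_le_logb (by norm_num) (by positivity) (by positivity)).mp e
  have hlx2 : (n : ℝ) - 1 / 100 ≤ logb 2 x := by
    have e : (255 / 256 : ℝ) * 2 ^ n ≤ x := by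
      have e1 : (x : ℝ) + y = 2 ^ n := by exact_mod_cast hxy
      linarith
    have e2 := logb_le_logb_of_le (by norm_num : (1 : ℝ) < 2) (by positivity) e
    rw [logb_mul (by norm_num) (by positivity), logb_two_pow] at e2
    have := l255
    linarith
  -- lower bound on b
  have hPn : (5882 : ℝ) / 10000 * n + 3 ≤ b * logb 2 3 := by
    linarith
  have hbn : (371 : ℝ) / 1000 * n ≤ b := by
    linarith
  have hdvdZ : (3 : ℤ) ^ b * 5 ^ c ∣ (2 : ℤ) ^ n - y := by
    have e : (2 : ℤ) ^ n - y = ((x : ℕ) : ℤ) := by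
      have : ((x + y : ℕ) : ℤ) = ((2 ^ n : ℕ) : ℤ) := by rw [hxy]
      push_cast at this
      linarith
    rw [e]
    exact_mod_cast hd
  rcases lt_or_ge n 3000 with hsm | hlg
  · -- finite check
    have hchk := chk_small n hn (by omega)
    set B : ℕ := 371 * n / 1000 with hB
    have hBb : B ≤ b := by
      have e : (B : ℝ) ≤ b := by
        have e1 : 1000 * B ≤ 371 * n := by omega
        have e2 : (1000 : ℝ) * B ≤ 371 * n := by exact_mod_cast e1
        linarith
      exact_mod_cast e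
    have hylt : y < 2 ^ (567 * n / 10000 + 2) := by
      have e : logb 2 y < logb 2 ((2 : ℝ) ^ (567 * n / 10000 + 2)) := by
        rw [logb_two_pow]
        push_cast
        have e1 : 567 * n ≤ 10000 * (567 * n / 10000) + 10000 := by omega
        have e2 : (567 : ℝ) * n ≤ 10000 * ((567 * n / 10000 : ℕ) : ℝ) + 10000 := by
          exact_mod_cast e1
        linarith
      have e3 := (logb_lt_logb_iff (by norm_num) (by linarith) (by positivity)).mp e
      exact_mod_cast e3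
    have hdvdN : 3 ^ B ∣ x := ((pow_dvd_pow 3 hBb).trans (Dvd.intro _ rfl)).trans hd
    have hmod : 2 ^ n % 3 ^ B = y := by
      obtain ⟨w, hw⟩ := hdvdN
      have hpos : 0 < 3 ^ B := by positivity
      have hlt : y < 3 ^ B := by
        have e1 : 2 ^ n % 3 ^ B < 3 ^ B := Nat.mod_lt _ hpos
        omega
      rw [← hxy, hw, Nat.mul_add_mod, Nat.mod_eq_of_lt hlt]
    omega
  · have hnR' : (3000 : ℝ) ≤ n := by exact_mod_cast hlg
    have hdvd3 : (3 : ℤ) ^ b ∣ (2 : ℤ) ^ n - y := (Dvd.intro _ rfl).trans hdvdZ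
    rcases le_or_gt ((77 : ℝ) / 100 * n) (b * logb 2 3) with hA3 | hA3
    · have := setA3 n y b hlg hy hdvd3 (by linarith)
      linarith
    rcases le_or_gt ((70 : ℝ) / 100 * n) (b * logb 2 3) with hA2 | hA2
    · have := setA2 n y b hlg hy hdvd3 (by linarith)
      linarith
    rcases le_or_gt ((68 : ℝ) / 100 * n) (b * logb 2 3) with hA1 | hA1
    · have := setA1 n y b hlg hy hdvd3 (by linarith)
      linarith
    · have := setB n y b c hlg hy hdvdZ (by linarith) (by linarith)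
      linarith

end Pool.Agent.H118_IntCx
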