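import Pool.Agent.TH551.HA.Basic
import Pool.Agent.TH526.ZL.N
import Pool.Agent.TH461.SST.Main

/-!
# Logarithmic sizes at finitely many places, and the subspace theorem along an ultrafilter
-/

set_option autoImplicit false

namespace Pool.Agent.H118_IntCx

open Filter Topology Pool.Agent.TH461.SST Pool.Agent.TH932.Germs Pool.Agent.TH551.SU
open Pool.Agent.TH551.HA (av av_mul av_add av_pos av_zero av_one av_nonneg av_inv av_pow av_prod
  av_neg prod_av_unit one_le_prod_int)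

variable {s : ℕ} {b : Fin s → ℕ}

/-- the logarithmic size of `x` at the place `v` -/
noncomputable def lg (b : Fin s → ℕ) (v : Option (Fin s)) (x : ℚ) : ℝ := Real.log (av b v x)

section basic

variable (hb : ∀ v, (b v).Prime)
include hb

lemma lg_mul (v : Option (Fin s)) {x y : ℚ} (hx : x ≠ 0) (hy : y ≠ 0) :
    lg b v (x * y) = lg b v x + lg b v y := by
  unfold lg
  rw [av_mul hb, Real.log_mul (av_pos hb v hx).ne' (av_pos hb v hy).ne']

lemma lg_inv (v : Option (Fin s)) (x : ℚ) : lg b v x⁻¹ = - lg b v x := by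
  unfold lg
  rw [av_inv hb, Real.log_inv]

lemma lg_div (v : Option (Fin s)) {x y : ℚ} (hx : x ≠ 0) (hy : y ≠ 0) :
    lg b v (x / y) = lg b v x - lg b v y := by
  rw [div_eq_mul_inv, lg_mul hb v hx (inv_ne_zero hy), lg_inv hb]
  ring

lemma lg_one (v : Option (Fin s)) : lg b v 1 = 0 := by
  unfold lg
  rw [av_one hb, Real.log_one]

lemma lg_neg (v : Option (Fin s)) (x : ℚ) : lg b v (-x) = lg b v x := by
  unfold lg
  rw [av_neg hb]

lemma lg_pow (v : Option (Fin s)) (x : ℚ) (k : ℕ) : lg b v (x ^ k) = k * lg b v x := by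
  unfold lg
  rw [av_pow hb, Real.log_pow]

lemma lg_zpow (v : Option (Fin s)) (x : ℚ) (k : ℤ) : lg b v (x ^ k) = k * lg b v x := by
  obtain ⟨k, rfl | rfl⟩ := k.eq_nat_or_neg
  · rw [zpow_natCast, lg_pow hb]
    push_cast
    ring
  · rw [zpow_neg, zpow_natCast, lg_inv hb, lg_pow hb]
    push_cast
    ring

lemma lg_prod {ι : Type} (v : Option (Fin s)) (A : Finset ι) (f : ι → ℚ)
    (hf : ∀ i ∈ A, f i ≠ 0) : lg b v (∏ i ∈ A, f i) = ∑ i ∈ A, lg b v (f i) := by
  unfold lg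
  rw [av_prod hb, Real.log_prod]
  exact fun i hi => (av_pos hb v (hf i hi)).ne'

lemma sum_lg_su (hbi : Function.Injective b) {x : ℚ} (hx : IsSU b x) :
    ∑ v, lg b v x = 0 := by
  unfold lg
  have hx0 : x ≠ 0 := by
    obtain ⟨σ, e, hσ, rfl⟩ := hx
    refine mul_ne_zero ?_ (Finset.prod_ne_zero_iff.2 fun v _ => zpow_ne_zero _ ?_)
    · rcases hσ with h | h <;> simp [h]
    · exact_mod_cast (hb v).ne_zero
  rw [← Real.log_prod (fun v _ => (av_pos hb v hx0).ne'), prod_av_unit hb hbi hx, Real.log_one]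

lemma lg_some_int (v : Fin s) {z : ℤ} (hz : z ≠ 0) :
    lg b (some v) (z : ℚ) = -((padicValInt (b v) z : ℝ) * Real.log (b v)) := by
  have := Fact.mk (hb v)
  have hz' : (z : ℚ) ≠ 0 := by exact_mod_cast hz
  unfold lg
  simp only [av]
  rw [padicNorm.eq_zpow_of_nonzero hz', padicValRat.of_int]
  push_cast
  rw [zpow_neg, zpow_natCast, Real.log_inv, Real.log_pow]

omit hb in
lemma lg_none_int (z : ℤ) : lg b none (z : ℚ) = Real.log |(z : ℝ)| := by
  unfold lg
  simp [av]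

lemma lg_int_le (v : Fin s) (z : ℤ) : lg b (some v) (z : ℚ) ≤ 0 := by
  by_cases hz : z = 0
  · subst hz
    unfold lg
    rw [Int.cast_zero, av_zero hb, Real.log_zero]
  · rw [lg_some_int hb v hz]
    have h1 : 0 ≤ Real.log (b v) := Real.log_nonneg (by exact_mod_cast (hb v).one_lt.le)
    have := mul_nonneg (Nat.cast_nonneg (α := ℝ) (padicValInt (b v) z)) h1
    linarith

lemma sum_lg_int_nonneg (hbi : Function.Injective b) {z : ℤ} (hz : z ≠ 0) :
    0 ≤ ∑ v, lg b v (z : ℚ) := by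
  unfold lg
  have hz' : (z : ℚ) ≠ 0 := by exact_mod_cast hz
  rw [← Real.log_prod (fun v _ => (av_pos hb v hz').ne')]
  exact Real.log_nonneg (one_le_prod_int hb hbi z hz)

lemma av_sum_le {ι : Type} (v : Option (Fin s)) (A : Finset ι) (f : ι → ℚ) :
    av b v (∑ i ∈ A, f i) ≤ ∑ i ∈ A, av b v (f i) := by
  classical
  induction A using Finset.induction_on with
  | empty => simp [av_zero hb]
  | insert a A ha ih =>
    rw [Finset.sum_insert ha, Finset.sum_insert ha]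
    exact (av_add hb v _ _).trans (by linarith)

/-- the size of a sum is at most the maximal size of the terms, up to a constant -/
lemma lg_sum_le {ι : Type} (v : Option (Fin s)) (A : Finset ι) (c : ι → ℚ) :
    ∃ C : ℝ, 0 ≤ C ∧ ∀ (z : ι → ℚ) (M : ℝ), (∀ i ∈ A, c i ≠ 0 → z i ≠ 0 ∧ lg b v (z i) ≤ M) →
      ∑ i ∈ A, c i * z i ≠ 0 → lg b v (∑ i ∈ A, c i * z i) ≤ M + C := by
  classical
  refine ⟨Real.log (1 + ∑ i ∈ A, av b v (c i)), Real.log_nonneg ?_, ?_⟩
  · have : 0 ≤ ∑ i ∈ A, av b v (c i) := Finset.sum_nonneg fun i _ => av_nonneg hb _ _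
    linarith
  intro z M hM hne
  have h0 : 0 ≤ ∑ i ∈ A, av b v (c i) := Finset.sum_nonneg fun i _ => av_nonneg hb _ _
  have h1 : av b v (∑ i ∈ A, c i * z i) ≤ (∑ i ∈ A, av b v (c i)) * Real.exp M := by
    refine (av_sum_le hb v A _).trans ?_
    rw [Finset.sum_mul]
    refine Finset.sum_le_sum fun i hi => ?_
    rw [av_mul hb]
    by_cases hc : c i = 0
    · rw [hc, av_zero hb]
      simp
    · obtain ⟨h2, h3⟩ := hM i hi hc
      refine mul_le_mul_of_nonneg_left ?_ (av_nonneg hb _ _)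
      unfold lg at h3
      rw [← Real.exp_log (av_pos hb v h2)]
      exact Real.exp_le_exp.2 h3
  unfold lg
  have h4 : av b v (∑ i ∈ A, c i * z i) ≤ (1 + ∑ i ∈ A, av b v (c i)) * Real.exp M := by
    have := Real.exp_pos M
    nlinarith
  have h5 := Real.log_le_log (av_pos hb v hne) h4
  rw [Real.log_mul (by linarith) (Real.exp_pos M).ne', Real.log_exp] at h5
  linarith

end basic

/-! ## the subspace theorem along the ultrafilter -/

lemma rel_uu {d s : ℕ} (hd : 1 ≤ d) (M0 : Matrix (Fin d) (Fin d) ℤ)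
    (M : Fin s → Matrix (Fin d) (Fin d) ℤ) (b : Fin s → ℕ) (hP : Places M0 M b) (c γ : ℝ)
    (hc : 1 ≤ c) (hγ : 0 < γ) (N : ℕ → ℝ) (hN : Tendsto N atTop atTop)
    (e : ℕ → Fin s → Fin d → ℕ) (A : ℕ → Fin d → ℝ) (x : ℕ → Fin d → ℤ)
    (h : ∀ᶠ t in (UU : Filter ℕ), Size b c γ (N t) (e t) (A t) ∧ x t ≠ 0 ∧
      Sol M0 M b (e t) (A t) (x t)) :
    ∃ y : Fin d → ℤ, y ≠ 0 ∧ ∀ᶠ t in (UU : Filter ℕ), ∑ l, y l * x t l = 0 := by
  classical
  by_contra hcon
  push Not at hcon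
  have hcon' : ∀ y : Fin d → ℤ, y ≠ 0 → ∀ᶠ t in (UU : Filter ℕ), ¬ ∑ l, y l * x t l = 0 := by
    intro y hy
    exact hcon y hy
  -- enumerate the relations
  have : Nonempty {y : Fin d → ℤ // y ≠ 0} := by
    refine ⟨⟨fun _ => 1, ?_⟩⟩
    intro h0
    have := congrFun h0 ⟨0, hd⟩
    simp at this
  obtain ⟨f, hf⟩ := exists_surjective_nat {y : Fin d → ℤ // y ≠ 0}
  have hk : ∀ k : ℕ, ∃ᶠ t in atTop, (Size b c γ (N t) (e t) (A t) ∧ x t ≠ 0 ∧
      Sol M0 M b (e t) (A t) (x t)) ∧ ∀ i ∈ Finset.range (k + 1),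
        ¬ ∑ l, (f i).1 l * x t l = 0 := by
    intro k
    have h1 : ∀ᶠ t in (UU : Filter ℕ), ∀ i ∈ Finset.range (k + 1),
        ¬ ∑ l, (f i).1 l * x t l = 0 :=
      (Filter.eventually_all_finset _).2 fun i _ => hcon' _ (f i).2
    have h2 := (h.and h1).frequently
    exact h2.filter_mono Nat.hyperfilter_le_atTop
  obtain ⟨φ, hφ, hφ2⟩ := extraction_forall_of_frequently hk
  obtain ⟨y, hy0, hyf⟩ := Pool.Agent.TH461.SST.Main.subspace d s hd M0 M b hP c γ hc hγ
    (fun k => N (φ k)) (hN.comp hφ.tendsto_atTop) (fun k => e (φ k)) (fun k => A (φ k))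
    (fun k => (hφ2 k).1.1) (fun k => x (φ k)) (fun k => (hφ2 k).1.2.1)
    (fun k => (hφ2 k).1.2.2)
  obtain ⟨i, hi⟩ := hf ⟨y, hy0⟩
  obtain ⟨k, hk1, hk2⟩ := (hyf.and_eventually (eventually_ge_atTop i)).exists
  have h3 := (hφ2 k).2 i (Finset.mem_range.2 (by omega))
  rw [hi] at h3
  exact h3 hk1

end Pool.Agent.H118_IntCx
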