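import Mathlib

namespace Pool.Agent.H118_IntCx

open Real

theorem logb_le_div (x : ℝ) (p q : ℕ) (hq : 0 < q) (hx : 0 < x) (h : x ^ q ≤ 2 ^ p) :
    logb 2 x ≤ (p : ℝ) / q := by
  have h1 : logb 2 (x ^ q) ≤ logb 2 ((2 : ℝ) ^ p) :=
    logb_le_logb_of_le (by norm_num) (by positivity) h
  rw [logb_pow, logb_pow, logb_self_eq_one (by norm_num)] at h1
  rw [le_div_iff₀ (by exact_mod_cast hq)]
  linarith

theorem div_le_logb (x : ℝ) (p q : ℕ) (hq : 0 < q) (h : (2 : ℝ) ^ p ≤ x ^ q) :
    (p : ℝ) / q ≤ logb 2 x := by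
  have h1 : logb 2 ((2 : ℝ) ^ p) ≤ logb 2 (x ^ q) :=
    logb_le_logb_of_le (by norm_num) (by positivity) h
  rw [logb_pow, logb_pow, logb_self_eq_one (by norm_num)] at h1
  rw [div_le_iff₀ (by exact_mod_cast hq)]
  linarith

/-- upper bound for the logarithm of a quotient of natural numbers, checked in `ℕ` -/
theorem logb_le_nat (u v p q : ℕ) (hq : 0 < q) (hu : 0 < u) (hv : 0 < v)
    (h : u ^ q ≤ 2 ^ p * v ^ q) : logb 2 ((u : ℝ) / v) ≤ (p : ℝ) / q := by
  apply logb_le_div _ p q hq (by positivity)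
  rw [div_pow, div_le_iff₀ (by positivity)]
  exact_mod_cast h

theorem nat_le_logb (u v p q : ℕ) (hq : 0 < q) (hv : 0 < v)
    (h : 2 ^ p * v ^ q ≤ u ^ q) : (p : ℝ) / q ≤ logb 2 ((u : ℝ) / v) := by
  apply div_le_logb _ p q hq
  rw [div_pow, le_div_iff₀ (by positivity)]
  exact_mod_cast h

theorem l3_lo : (1054 : ℝ) / 665 ≤ logb 2 3 := by
  have := nat_le_logb 3 1 1054 665 (by norm_num) (by norm_num) (by decide +kernel)
  simpa using this

theorem l3_hi : logb 2 3 ≤ (485 : ℝ) / 306 := by
  have := logb_le_nat 3 1 485 306 (by norm_num) (by norm_num) (by norm_num) (by decide +kernel)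
  simpa using this

theorem l5_lo : (339 : ℝ) / 146 ≤ logb 2 5 := by
  have := nat_le_logb 5 1 339 146 (by norm_num) (by norm_num) (by decide +kernel)
  simpa using this

theorem l5_hi : logb 2 5 ≤ (815 : ℝ) / 351 := by
  have := logb_le_nat 5 1 815 351 (by norm_num) (by norm_num) (by norm_num) (by decide +kernel)
  simpa using this

theorem l9 : logb 2 9 = 2 * logb 2 3 := by
  rw [show (9 : ℝ) = 3 ^ 2 by norm_num, logb_pow]; norm_num

theorem l15 : logb 2 15 = logb 2 3 + logb 2 5 := by
  rw [show (15 : ℝ) = 3 * 5 by norm_num, logb_mul (by norm_num) (by norm_num)]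

theorem u28 : logb 2 28 ≤ (1697 : ℝ) / 353 := by
  have := logb_le_nat 28 1 1697 353 (by norm_num) (by norm_num) (by norm_num) (by decide +kernel)
  simpa using this

theorem u28_19 : logb 2 (28 / 19) ≤ (80 : ℝ) / 143 := by
  have := logb_le_nat 28 19 80 143 (by norm_num) (by norm_num) (by norm_num) (by decide +kernel)
  simpa using this

theorem u28_27 : logb 2 (28 / 27) ≤ (17 : ℝ) / 324 := by
  have := logb_le_nat 28 27 17 324 (by norm_num) (by norm_num) (by norm_num) (by decide +kernel)
  simpa using this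

theorem u35 : logb 2 35 ≤ (1944 : ℝ) / 379 := by
  have := logb_le_nat 35 1 1944 379 (by norm_num) (by norm_num) (by norm_num) (by decide +kernel)
  simpa using this

theorem u35_26 : logb 2 (35 / 26) ≤ (169 : ℝ) / 394 := by
  have := logb_le_nat 35 26 169 394 (by norm_num) (by norm_num) (by norm_num) (by decide +kernel)
  simpa using this

theorem u35_27 : logb 2 (35 / 27) ≤ (79 : ℝ) / 211 := by
  have := logb_le_nat 35 27 79 211 (by norm_num) (by norm_num) (by norm_num) (by decide +kernel)
  simpa using this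

theorem u26 : logb 2 26 ≤ (1067 : ℝ) / 227 := by
  have := logb_le_nat 26 1 1067 227 (by norm_num) (by norm_num) (by norm_num) (by decide +kernel)
  simpa using this

theorem u26_17 : logb 2 (26 / 17) ≤ (217 : ℝ) / 354 := by
  have := logb_le_nat 26 17 217 354 (by norm_num) (by norm_num) (by norm_num) (by decide +kernel)
  simpa using this

theorem u26_25 : logb 2 (26 / 25) ≤ (3 : ℝ) / 53 := by
  have := logb_le_nat 26 25 3 53 (by norm_num) (by norm_num) (by norm_num) (by decide +kernel)
  simpa using this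

theorem u31 : logb 2 31 ≤ (649 : ℝ) / 131 := by
  have := logb_le_nat 31 1 649 131 (by norm_num) (by norm_num) (by norm_num) (by decide +kernel)
  simpa using this

theorem u31_22 : logb 2 (31 / 22) ≤ (142 : ℝ) / 287 := by
  have := logb_le_nat 31 22 142 287 (by norm_num) (by norm_num) (by norm_num) (by decide +kernel)
  simpa using this

theorem u31_23 : logb 2 (31 / 23) ≤ (149 : ℝ) / 346 := by
  have := logb_le_nat 31 23 149 346 (by norm_num) (by norm_num) (by norm_num) (by decide +kernel)
  simpa using this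

theorem u70 : logb 2 70 ≤ (2323 : ℝ) / 379 := by
  have := logb_le_nat 70 1 2323 379 (by norm_num) (by norm_num) (by norm_num) (by decide +kernel)
  simpa using this

theorem u70_55 : logb 2 (70 / 55) ≤ (135 : ℝ) / 388 := by
  have := logb_le_nat 70 55 135 388 (by norm_num) (by norm_num) (by norm_num) (by decide +kernel)
  simpa using this

theorem u70_71 : logb 2 (70 / 71) ≤ -(8 : ℝ) / 391 := by
  have h := nat_le_logb 71 70 8 391 (by norm_num) (by norm_num) (by decide +kernel)
  have e : logb 2 ((70 : ℝ) / 71) = -logb 2 ((71 : ℝ) / 70) := by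
    rw [← logb_inv]; norm_num
  rw [e]
  have h' : (8 : ℝ) / 391 ≤ logb 2 (71 / 70) := by simpa using h
  linarith

theorem u80 : logb 2 80 ≤ (2219 : ℝ) / 351 := by
  have := logb_le_nat 80 1 2219 351 (by norm_num) (by norm_num) (by norm_num) (by decide +kernel)
  simpa using this

theorem u80_65 : logb 2 (80 / 65) ≤ (71 : ℝ) / 237 := by
  have := logb_le_nat 80 65 71 237 (by norm_num) (by norm_num) (by norm_num) (by decide +kernel)
  simpa using this

theorem u80_64 : logb 2 (80 / 64) ≤ (113 : ℝ) / 351 := by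
  have := logb_le_nat 80 64 113 351 (by norm_num) (by norm_num) (by norm_num) (by decide +kernel)
  simpa using this

/-- `log₂ (255/256) ≥ -1/100` -/
theorem l255 : -(1 : ℝ) / 100 ≤ logb 2 (255 / 256) := by
  have h := logb_le_nat 256 255 1 100 (by norm_num) (by norm_num) (by norm_num) (by decide +kernel)
  have e : logb 2 ((255 : ℝ) / 256) = -logb 2 ((256 : ℝ) / 255) := by
    rw [← logb_inv]; norm_num
  rw [e]
  have h' : logb 2 ((256 : ℝ) / 255) ≤ (1 : ℝ) / 100 := by simpa using h
  linarith

end Pool.Agent.H118_IntCx
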