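import Pool.Agent.H118_IntCx.KeyK
import Pool.Agent.H118_IntCx.Defs

namespace Pool.Agent.H118_IntCx

open Real

/-- completely additive weight -/
noncomputable def g (q : ℕ) : ℝ :=
  249 / 100 * logb 2 q - 49 / 100 * (q.factorization 2 : ℝ)
    - (249 / 100 * logb 2 3 - 3) * (q.factorization 3 : ℝ)
    - (249 / 100 * logb 2 5 - 5) * (q.factorization 5 : ℝ)

theorem g_mul (a b : ℕ) (ha : 1 ≤ a) (hb : 1 ≤ b) : g (a * b) = g a + g b := by
  have ha' : (a : ℝ) ≠ 0 := by positivity
  have hb' : (b : ℝ) ≠ 0 := by positivity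
  unfold g
  rw [Nat.factorization_mul (by omega) (by omega)]
  simp only [Finsupp.add_apply]
  push_cast
  rw [logb_mul ha' hb']
  ring

theorem g_one : g 1 = 0 := by
  unfold g
  simp

theorem g_prime (p : ℕ) (hp : p.Prime) : g p ≤ p := by
  have hfac : ∀ r : ℕ, r ≠ p → p.factorization r = 0 := by
    intro r hr
    rw [hp.factorization, Finsupp.single_apply, if_neg (Ne.symm hr)]
  have hself : p.factorization p = 1 := hp.factorization_self
  rcases Nat.lt_or_ge p 7 with h7 | h7
  · interval_cases p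
    · exact absurd hp (by norm_num)
    · exact absurd hp (by norm_num)
    · unfold g
      rw [hself, hfac 3 (by norm_num), hfac 5 (by norm_num)]
      push_cast
      rw [logb_self_eq_one (by norm_num)]
      norm_num
    · unfold g
      rw [hself, hfac 2 (by norm_num), hfac 5 (by norm_num)]
      push_cast
      linarith
    · exact absurd hp (by norm_num)
    · unfold g
      rw [hself, hfac 2 (by norm_num), hfac 3 (by norm_num)]
      push_cast
      linarith
    · exact absurd hp (by norm_num)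
  · have e : g p = 249 / 100 * logb 2 p := by
      unfold g
      rw [hfac 2 (by omega), hfac 3 (by omega), hfac 5 (by omega)]
      simp
    rw [e]
    have h7R : (7 : ℝ) ≤ p := by exact_mod_cast h7
    have hlog7 : logb 2 7 ≤ (281 : ℝ) / 100 := by
      have := logb_le_nat_aux
      exact this
    have hlog2 : (0.6931471803 : ℝ) < Real.log 2 := Real.log_two_gt_d9
    have h2pos : 0 < Real.log 2 := by linarith
    have h1 : Real.log ((p : ℝ) / 7) ≤ (p : ℝ) / 7 - 1 :=
      Real.log_le_sub_one_of_pos (by positivity)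
    have h2 : logb 2 (p : ℝ) = logb 2 7 + Real.log ((p : ℝ) / 7) / Real.log 2 := by
      have : (p : ℝ) = 7 * ((p : ℝ) / 7) := by field_simp
      conv_lhs => rw [this]
      rw [logb_mul (by norm_num) (by positivity)]
      rfl
    have h3 : Real.log ((p : ℝ) / 7) / Real.log 2 ≤ ((p : ℝ) / 7 - 1) * (3 / 2) := by
      rw [div_le_iff₀ h2pos]
      have h4 : 0 ≤ (p : ℝ) / 7 - 1 := by linarith
      nlinarith
    rw [h2]
    linarith
where
  logb_le_nat_aux : logb 2 7 ≤ (281 : ℝ) / 100 := by
    have := logb_le_nat 7 1 281 100 (by norm_num) (by norm_num) (by norm_num) (by decide +kernel)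
    simpa using this

theorem g_le (q : ℕ) (hq : 1 ≤ q) : g q ≤ q := by
  induction q using Nat.strong_induction_on with
  | _ q ih =>
    rcases Nat.lt_or_ge q 2 with h2 | h2
    · have : q = 1 := by omega
      subst this
      rw [g_one]; norm_num
    · by_cases hp : q.Prime
      · exact g_prime q hp
      · obtain ⟨a, ha2, haq, b, hb⟩ : ∃ a, 2 ≤ a ∧ a < q ∧ ∃ b, q = a * b := by
          refine ⟨q.minFac, (Nat.minFac_prime (by omega)).two_le, ?_, ?_⟩
          · exact lt_of_le_of_ne (Nat.minFac_le (by omega))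
              (fun h => hp (h ▸ Nat.minFac_prime (by omega)))
          · obtain ⟨b, hb⟩ := Nat.minFac_dvd q
            exact ⟨b, hb⟩
        have hb1 : 2 ≤ b := by
          rcases Nat.lt_or_ge b 2 with h | h
          · interval_cases b
            · omega
            · omega
          · exact h
        have hbq : b < q := by nlinarith
        have e1 := ih a haq (by omega)
        have e2 := ih b hbq (by omega)
        rw [hb, g_mul a b (by omega) (by omega)]
        have e3 : ((a + b : ℕ) : ℝ) ≤ ((a * b : ℕ) : ℝ) := by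
          exact_mod_cast (by nlinarith : a + b ≤ a * b)
        push_cast at e3 ⊢
        linarith

theorem g_list (l : List ℕ) (h : ∀ a ∈ l, 1 ≤ a) : g l.prod ≤ (l.sum : ℕ) := by
  induction l with
  | nil => simp [g_one]
  | cons a l ih =>
    rw [List.prod_cons, List.sum_cons,
      g_mul a l.prod (h a (by simp)) (isPS_prod_pos (fun b hb => h b (by simp [hb])))]
    have h1 := g_le a (h a (by simp))
    have h2 := ih (fun b hb => h b (by simp [hb]))
    rw [Nat.cast_add]
    linarith

theorem g_two_pow (a : ℕ) : g (2 ^ a) = 2 * a := by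
  induction a with
  | zero => simp [g_one]
  | succ a ih =>
    have e : g 2 = 2 := by
      unfold g
      have hp : Nat.Prime 2 := by norm_num
      rw [hp.factorization_self, hp.factorization]
      simp
      norm_num
    rw [pow_succ, g_mul _ _ (Nat.one_le_two_pow) (by norm_num), ih, e]
    push_cast
    ring

theorem reach_log {y k : ℕ} (h : Reach y k) : 3 / logb 2 3 * logb 2 y ≤ k := by
  have h1 := selfridge h
  have hy := (reach_pos h).1
  have h2 : ((y : ℝ)) ^ 3 ≤ 3 ^ k := by exact_mod_cast h1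
  have h3 := logb_le_logb_of_le (by norm_num : (1 : ℝ) < 2) (by positivity) h2
  rw [logb_pow, logb_pow] at h3
  have h4 := l3_lo
  have h5 : 0 < logb 2 3 := by linarith
  rw [div_mul_eq_mul_div, div_le_iff₀ h5]
  push_cast at h3
  linarith

/-- For `n ≤ 9` the conjecture follows from Selfridge's bound. -/
theorem small_n (n k : ℕ) (hn : n ≤ 9) (h : Reach (2 ^ n) k) : 2 * n ≤ k := by
  have h1 := selfridge h
  by_contra hlt
  have h2 : (3 : ℕ) ^ k ≤ 3 ^ (2 * n - 1) := Nat.pow_le_pow_right (by norm_num) (by omega)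
  have h3 : (2 ^ n) ^ 3 ≤ 3 ^ (2 * n - 1) := h1.trans h2
  have h4 : 1 ≤ n := by omega
  interval_cases n <;> norm_num at h3

theorem core_T1 (n : ℕ) (l : List ℕ) (y k : ℕ) (hl : IsPS l) (hy : Reach y k)
    (hle : y ≤ l.prod) (hsum : l.prod + y = 2 ^ n) : 2 * n ≤ l.sum + k := by
  rcases Nat.lt_or_ge n 10 with hn | hn
  · exact small_n n _ (by omega) (hsum ▸ Reach.add (reach_isPS hl) hy)
  have hy1 := (reach_pos hy).1
  have hk1 := (reach_pos hy).2
  obtain ⟨a, y', hy'odd, hya⟩ := Nat.exists_eq_two_pow_mul_odd (n := y) (by omega)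
  have hy'1 : 1 ≤ y' := hy'odd.pos
  have han : a < n := by
    have h1 : 2 ^ a ≤ y := by rw [hya]; exact Nat.le_mul_of_pos_right _ hy'1
    have h2 : y < 2 ^ n := by
      have := isPS_prod_pos hl.2
      omega
    exact (Nat.pow_lt_pow_iff_right (by norm_num)).mp (lt_of_le_of_lt h1 h2)
  obtain ⟨n', hn'⟩ : ∃ n', n = n' + a := ⟨n - a, by omega⟩
  have hn'1 : 1 ≤ n' := by omega
  have hyle : y' < 2 ^ n' := by
    have h2 : y < 2 ^ n := by
      have := isPS_prod_pos hl.2
      omega
    rw [hya, hn', pow_add, mul_comm (2 ^ n') (2 ^ a)] at h2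
    exact lt_of_mul_lt_mul_left h2 (by positivity)
  set x' : ℕ := 2 ^ n' - y' with hx'
  have hxy' : x' + y' = 2 ^ n' := by omega
  have hx'1 : 1 ≤ x' := by omega
  have hprod : l.prod = 2 ^ a * x' := by
    have h3 : l.prod + y = 2 ^ a * x' + y := by
      rw [hsum, hya, ← mul_add, hxy', hn', pow_add]; ring
    omega
  have hyx' : y' ≤ x' := by
    rw [hya, hprod] at hle
    exact le_of_mul_le_mul_left hle (by positivity)
  have hx'odd : ¬ 2 ∣ x' := by
    intro h2
    have h3 : 2 ∣ 2 ^ n' := dvd_pow_self 2 (by omega)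
    have h4 : 2 ∣ y' := by
      have := (Nat.dvd_add_right h2).mp (hxy'.symm ▸ h3)
      exact this
    exact (Nat.not_even_iff_odd.mpr hy'odd) (even_iff_two_dvd.mpr h4)
  have hf2 : x'.factorization 2 = 0 := Nat.factorization_eq_zero_of_not_dvd hx'odd
  set b := x'.factorization 3 with hb
  set c := x'.factorization 5 with hc
  have hgx' : g x' = F x' b c := by
    unfold g F
    rw [hf2]
    simp
    rfl
  have hd : 3 ^ b * 5 ^ c ∣ x' := by
    apply Nat.Coprime.mul_dvd_of_dvd_of_dvd
    · exact Nat.Coprime.pow _ _ (by norm_num)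
    · exact Nat.ordProj_dvd x' 3
    · exact Nat.ordProj_dvd x' 5
  have hS : 2 * (a : ℝ) + F x' b c ≤ (l.sum : ℕ) := by
    have h1 := g_list l hl.2
    rw [hprod, g_mul _ _ Nat.one_le_two_pow hx'1, g_two_pow, hgx'] at h1
    exact h1
  have hK : 3 / logb 2 3 * (a + logb 2 y') ≤ k := by
    have h1 := reach_log hy
    rw [hya] at h1
    push_cast at h1
    rw [logb_mul (by positivity) (by positivity), logb_two_pow] at h1
    exact h1
  have hlam1 := l3_lo
  have hlam2 := l3_hi
  have h3l : (918 : ℝ) / 485 ≤ 3 / logb 2 3 := by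
    rw [le_div_iff₀ (by linarith)]
    linarith
  have hly0 : 0 ≤ logb 2 y' := logb_nonneg (by norm_num) (by exact_mod_cast hy'1)
  have ha0 : (0 : ℝ) ≤ a := Nat.cast_nonneg a
  have hK2 : 3 / logb 2 3 * (a : ℝ) + 3 / logb 2 3 * logb 2 y' ≤ k := by
    rw [← mul_add]; exact hK
  have hKa : (918 : ℝ) / 485 * a ≤ 3 / logb 2 3 * (a : ℝ) := mul_le_mul_of_nonneg_right h3l ha0
  have hKy : 0 ≤ 3 / logb 2 3 * logb 2 y' := mul_nonneg (by linarith) hly0
  have hkR : (1 : ℝ) ≤ k := by exact_mod_cast hk1
  have hnn' : (n : ℝ) = n' + a := by rw [hn']; push_cast; ring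
  -- it suffices to show `S + k > 2n - 1`
  suffices hgoal : (2 : ℝ) * n - 1 < (l.sum : ℕ) + (k : ℝ) by
    have : ((2 * n : ℕ) : ℝ) < ((l.sum + k + 1 : ℕ) : ℝ) := by
      rw [Nat.cast_add, Nat.cast_add, Nat.cast_mul, Nat.cast_one, Nat.cast_ofNat]
      linarith
    have h2 : 2 * n < l.sum + k + 1 := by exact_mod_cast this
    omega
  rcases Nat.lt_or_ge n' 10 with hn10 | hn10
  · have hF := F_lower x' b c
    have hPQ := PQ_le x' b c hx'1 hd
    have hlx : (n' : ℝ) - 1 ≤ logb 2 x' := by
      have e : (2 : ℝ) ^ n' ≤ 2 * x' := by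
        have : 2 ^ n' ≤ 2 * x' := by omega
        exact_mod_cast this
      have e2 := logb_le_logb_of_le (by norm_num : (1 : ℝ) < 2) (by positivity) e
      rw [logb_two_pow, logb_mul (by norm_num) (by positivity),
        logb_self_eq_one (by norm_num)] at e2
      linarith
    have hn10R : (n' : ℝ) ≤ 9 := by exact_mod_cast (by omega : n' ≤ 9)
    have hnR : (10 : ℝ) ≤ n := by exact_mod_cast hn
    have hP0 : (0 : ℝ) ≤ b * logb 2 3 := mul_nonneg (Nat.cast_nonneg b) (by linarith)
    have hQ0 : (0 : ℝ) ≤ c * logb 2 5 :=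
      mul_nonneg (Nat.cast_nonneg c) (by have := l5_lo; linarith)
    linarith
  · have hnot : ¬ (F x' b c + 1 < 2 * n' ∧ F x' b c + 3 / logb 2 3 * logb 2 y' < 2 * n') :=
      fun h => keyK n' x' y' b c hn10 hxy' hy'1 hyx' hd h.1 h.2
    rw [not_and_or, not_lt, not_lt] at hnot
    rcases Nat.eq_zero_or_pos a with ha | ha
    · have haR : (a : ℝ) = 0 := by exact_mod_cast ha
      rw [haR] at hK2 hnn' hS
      rcases hnot with h | h <;> linarith
    · have haR : (1 : ℝ) ≤ a := by exact_mod_cast ha
      rcases hnot with h | h <;> linarith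

end Pool.Agent.H118_IntCx
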