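import Mathlib

namespace Pool.Agent.H118_IntCx

open Matrix

/-- If no nontrivial combination of the rows vanishes, then some square minor on all rows is
nonzero. -/
theorem exists_minor {R P : Type} [Fintype R] [DecidableEq R] [Fintype P] (M : Matrix R P ℝ)
    (h : ∀ c : R → ℝ, (∀ p, ∑ a, c a * M a p = 0) → c = 0) :
    ∃ φ : R → P, (M.submatrix id φ).det ≠ 0 := by
  classical
  set v : P → (R → ℝ) := fun p a => M a p with hv
  have htop : Submodule.span ℝ (Set.range v) = ⊤ := by
    by_contra hne
    obtain ⟨f, hf0, hfmap⟩ := Submodule.exists_dual_map_eq_bot_of_lt_top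
      (lt_top_iff_ne_top.mpr hne) inferInstance
    -- f corresponds to a vector
    set c : R → ℝ := fun a => f (Pi.single a 1) with hc
    have hfc : ∀ w : R → ℝ, f w = ∑ a, c a * w a := by
      intro w
      have hw : w = ∑ a, w a • (Pi.single a (1 : ℝ) : R → ℝ) := by
        funext b
        simp [Finset.sum_apply, Pi.single_apply]
      conv_lhs => rw [hw]
      rw [map_sum]
      apply Finset.sum_congr rfl
      intro a _
      rw [map_smul, smul_eq_mul, mul_comm]
    have hc0 : c = 0 := by
      apply h
      intro p
      have hmem : v p ∈ Submodule.span ℝ (Set.range v) := Submodule.subset_span ⟨p, rfl⟩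
      have : f (v p) ∈ Submodule.map f (Submodule.span ℝ (Set.range v)) :=
        Submodule.mem_map_of_mem hmem
      rw [hfmap, Submodule.mem_bot] at this
      rw [← hfc (v p)]
      exact this
    apply hf0
    apply LinearMap.ext
    intro w
    rw [hfc w, hc0]
    simp
  obtain ⟨f, hfmem, hfspan, hfind⟩ := Submodule.exists_fun_fin_finrank_span_eq ℝ (Set.range v)
  have hfin : Module.finrank ℝ (Submodule.span ℝ (Set.range v)) = Fintype.card R := by
    rw [htop, finrank_top, Module.finrank_fintype_fun_eq_card]
  set e : R ≃ Fin (Module.finrank ℝ (Submodule.span ℝ (Set.range v))) :=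
    (Fintype.equivFin R).trans (finCongr hfin.symm) with he
  choose ψ hψ using hfmem
  refine ⟨fun a => ψ (e a), ?_⟩
  intro hdet
  have hli : LinearIndependent ℝ (fun a => f (e a)) := hfind.comp e e.injective
  -- columns of the submatrix are linearly independent
  have hcols : LinearIndependent ℝ (M.submatrix id (fun a => ψ (e a))).col := by
    have : (M.submatrix id (fun a => ψ (e a))).col = fun a => f (e a) := by
      funext a b
      have := congrFun (hψ (e a)) b
      simpa [hv, Matrix.col, Matrix.submatrix] using this
    rw [this]
    exact hli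
  rw [Matrix.linearIndependent_cols_iff_isUnit, Matrix.isUnit_iff_isUnit_det] at hcols
  rw [hdet] at hcols
  exact not_isUnit_zero hcols

end Pool.Agent.H118_IntCx
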