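import Pool.Agent.H118_IntCx.Defs

set_option autoImplicit false

namespace Pool.Agent.H118_IntCx

open Finset

/-- Leaves: a number `m` with an arbitrary expression with `k` ones such that
* a power `2 ^ j` is written with at least `2 * j` ones, and
* `m = u * w` where all prime factors of `u` are at most `P` and `w ^ D ≤ m`,
  or `k` is at least `3 * D * log_3 m`. -/
def Leaf (P D m k : ℕ) : Prop :=
  Reach m k ∧ (∀ j, m = 2 ^ j → 2 * j ≤ k) ∧
    ((∃ u w, m = u * w ∧ (∀ p, p.Prime → p ∣ u → p ≤ P) ∧ w ^ D ≤ m) ∨ m ^ (3 * D) ≤ 3 ^ k)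

/-- Expressions with few terms after expansion.  `Mix P D m k N μ`: the number `m` has an
expression with `k` ones which is built from leaves
* by products,
* by sums, and
* by adding side terms, that is, numbers `y ≤ m` with an arbitrary expression.
`N` is the number of terms when everything is multiplied out, with leaves and side terms kept as
they are, and every side term that is not tiny (`y ^ D ≤ m`) occurs in at most `μ` terms. -/
inductive Mix (P D : ℕ) : ℕ → ℕ → ℕ → ℕ → Prop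
  | leaf {m k : ℕ} : Leaf P D m k → Mix P D m k 1 0
  | mul {m m' k k' N N' μ μ' : ℕ} : Mix P D m k N μ → Mix P D m' k' N' μ' →
      Mix P D (m * m') (k + k') (N * N') (max (μ * N') (μ' * N))
  | add {m m' k k' N N' μ μ' : ℕ} : Mix P D m k N μ → Mix P D m' k' N' μ' →
      Mix P D (m + m') (k + k') (N + N') (max μ μ')
  | side {m k N μ y l : ℕ} : Mix P D m k N μ → Reach y l → y ≤ m →
      Mix P D (m + y) (k + l) (N + 1) (max μ 1)
  | tiny {m k N μ y l : ℕ} : Mix P D m k N μ → Reach y l → y ≤ m → y ^ D ≤ m →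
      Mix P D (m + y) (k + l) (N + 1) μ

theorem mix_reach {P D m k N μ : ℕ} (h : Mix P D m k N μ) : Reach m k := by
  induction h with
  | leaf hl => exact hl.1
  | mul _ _ ih1 ih2 => exact Reach.mul ih1 ih2
  | add _ _ ih1 ih2 => exact Reach.add ih1 ih2
  | side _ hy _ ih => exact Reach.add ih hy
  | tiny _ hy _ _ ih => exact Reach.add ih hy

theorem mix_pos {P D m k N μ : ℕ} (h : Mix P D m k N μ) : 1 ≤ N := by
  induction h with
  | leaf _ => exact le_rfl
  | mul _ _ ih1 ih2 => exact Nat.mul_pos ih1 ih2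
  | add _ _ ih1 ih2 => omega
  | side _ _ _ ih => omega
  | tiny _ _ _ _ ih => omega

/-- the expansion of an expression -/
def HasExp {s : ℕ} (b : Fin s → ℕ) (D m k N μ : ℕ) : Prop :=
  ∃ (ι : Type) (_ : Fintype ι) (T z : ι → ℕ) (Y R V : ℕ), Fintype.card ι = N ∧ (∀ i, 0 < T i) ∧
    (∀ i, ∃ e : Fin s → ℕ, T i = (∏ v, b v ^ e v) * z i) ∧ ∑ i, T i = m ∧ 1 ≤ Y ∧ 1 ≤ R ∧ 1 ≤ V ∧
    ∏ i, z i ≤ Y ^ μ * R * V ^ N ∧ R ^ D ≤ m ^ (N ^ 2) ∧
    (m * Y * V ^ (D - 1)) ^ 3 ≤ 3 ^ k * 8 ^ (N - 1)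

theorem expand_mix {P D s : ℕ} (hD : 1 ≤ D) (b : Fin s → ℕ)
    (hb : ∀ m, 1 ≤ m → (∀ p, p.Prime → p ∣ m → p ≤ P) → ∃ e : Fin s → ℕ, m = ∏ v, b v ^ e v)
    {m k N μ : ℕ} (h : Mix P D m k N μ) : HasExp b D m k N μ := by
  induction h with
  | @leaf m k hl =>
    obtain ⟨hr, _, hcase⟩ := hl
    have hm := (reach_pos hr).1
    rcases hcase with ⟨u, w, huw, hsm, hw⟩ | hcost
    · have hu : 1 ≤ u := by
        rcases Nat.eq_zero_or_pos u with h | h
        · rw [h, Nat.zero_mul] at huw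
          omega
        · exact h
      have hw1 : 1 ≤ w := by
        rcases Nat.eq_zero_or_pos w with h | h
        · rw [h, Nat.mul_zero] at huw
          omega
        · exact h
      obtain ⟨e, he⟩ := hb u hu hsm
      refine ⟨Unit, inferInstance, fun _ => m, fun _ => w, 1, w, 1, by simp, fun _ => hm, ?_,
        by simp, le_rfl, hw1, le_rfl, by simp, by simpa using hw, ?_⟩
      · intro _
        exact ⟨e, by rw [← he]; exact huw⟩
      · simpa using selfridge hr
    · refine ⟨Unit, inferInstance, fun _ => m, fun _ => m, 1, 1, m, by simp, fun _ => hm, ?_,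
        by simp, le_rfl, le_rfl, hm, by simp, ?_, ?_⟩
      · intro _
        exact ⟨0, by simp⟩
      · rw [one_pow]
        exact Nat.one_le_pow _ _ hm
      · have e1 : (m * 1 * m ^ (D - 1)) ^ 3 = m ^ (3 * D) := by
          obtain ⟨d, rfl⟩ := Nat.exists_eq_add_of_le hD
          rw [Nat.add_sub_cancel_left]
          ring
        rw [e1]
        simpa using hcost
  | @mul m m' k k' N N' μ μ' h1 h2 ih1 ih2 =>
    obtain ⟨ι, _, T, z, Y, R, V, hc, hT, he, hs, hY, hR, hV, hz, hRD, hk⟩ := ih1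
    obtain ⟨ι', _, T', z', Y', R', V', hc', hT', he', hs', hY', hR', hV', hz', hRD', hk'⟩ := ih2
    have hN := mix_pos h1
    have hN' := mix_pos h2
    have hm := (reach_pos (mix_reach h1)).1
    have hm' := (reach_pos (mix_reach h2)).1
    refine ⟨ι × ι', inferInstance, fun p => T p.1 * T' p.2, fun p => z p.1 * z' p.2, Y * Y',
      R ^ N' * R' ^ N, V * V', ?_, ?_, ?_, ?_, Nat.mul_pos hY hY',
      Nat.mul_pos (Nat.one_le_pow _ _ hR) (Nat.one_le_pow _ _ hR'), Nat.mul_pos hV hV', ?_, ?_, ?_⟩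
    · rw [Fintype.card_prod, hc, hc']
    · exact fun p => Nat.mul_pos (hT _) (hT' _)
    · intro p
      obtain ⟨e, he1⟩ := he p.1
      obtain ⟨e', he1'⟩ := he' p.2
      refine ⟨e + e', ?_⟩
      simp only [he1, he1', Pi.add_apply, pow_add, Finset.prod_mul_distrib]
      ring
    · rw [Fintype.sum_prod_type, ← hs, ← hs', Finset.sum_mul_sum]
    · have e1 : ∏ p : ι × ι', z p.1 * z' p.2 = (∏ i, z i) ^ N' * (∏ i, z' i) ^ N := by
        rw [Fintype.prod_prod_type]
        simp only [Finset.prod_mul_distrib, Finset.prod_const, Finset.card_univ, hc']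
        rw [Finset.prod_pow, hc]
      rw [e1]
      calc (∏ i, z i) ^ N' * (∏ i, z' i) ^ N
          ≤ (Y ^ μ * R * V ^ N) ^ N' * (Y' ^ μ' * R' * V' ^ N') ^ N :=
            Nat.mul_le_mul (Nat.pow_le_pow_left hz _) (Nat.pow_le_pow_left hz' _)
        _ = (Y ^ (μ * N') * Y' ^ (μ' * N)) * (R ^ N' * R' ^ N) * (V * V') ^ (N * N') := by
            simp only [mul_pow, ← pow_mul]
            rw [Nat.mul_comm N' N]
            ring
        _ ≤ (Y ^ (max (μ * N') (μ' * N)) * Y' ^ (max (μ * N') (μ' * N))) * (R ^ N' * R' ^ N)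
            * (V * V') ^ (N * N') := by
            apply Nat.mul_le_mul_right
            apply Nat.mul_le_mul_right
            exact Nat.mul_le_mul (Nat.pow_le_pow_right hY (le_max_left _ _))
              (Nat.pow_le_pow_right hY' (le_max_right _ _))
        _ = (Y * Y') ^ (max (μ * N') (μ' * N)) * (R ^ N' * R' ^ N) * (V * V') ^ (N * N') := by
            rw [mul_pow Y Y']
    · calc (R ^ N' * R' ^ N) ^ D = (R ^ D) ^ N' * (R' ^ D) ^ N := by ring
        _ ≤ (m ^ (N ^ 2)) ^ N' * (m' ^ (N' ^ 2)) ^ N :=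
            Nat.mul_le_mul (Nat.pow_le_pow_left hRD _) (Nat.pow_le_pow_left hRD' _)
        _ = m ^ (N ^ 2 * N') * m' ^ (N' ^ 2 * N) := by rw [← pow_mul, ← pow_mul]
        _ ≤ m ^ ((N * N') ^ 2) * m' ^ ((N * N') ^ 2) := by
            apply Nat.mul_le_mul
            · apply Nat.pow_le_pow_right hm
              calc N ^ 2 * N' = N ^ 2 * N' * 1 := by ring
                _ ≤ N ^ 2 * N' * N' := Nat.mul_le_mul_left _ hN'
                _ = (N * N') ^ 2 := by ring
            · apply Nat.pow_le_pow_right hm'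
              calc N' ^ 2 * N = N' ^ 2 * N * 1 := by ring
                _ ≤ N' ^ 2 * N * N := Nat.mul_le_mul_left _ hN
                _ = (N * N') ^ 2 := by ring
        _ = (m * m') ^ ((N * N') ^ 2) := (mul_pow m m' _).symm
    · have e1 : (m * m' * (Y * Y') * (V * V') ^ (D - 1)) ^ 3
          = (m * Y * V ^ (D - 1)) ^ 3 * (m' * Y' * V' ^ (D - 1)) ^ 3 := by ring
      rw [e1]
      calc (m * Y * V ^ (D - 1)) ^ 3 * (m' * Y' * V' ^ (D - 1)) ^ 3
          ≤ (3 ^ k * 8 ^ (N - 1)) * (3 ^ k' * 8 ^ (N' - 1)) := Nat.mul_le_mul hk hk'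
        _ = 3 ^ (k + k') * 8 ^ ((N - 1) + (N' - 1)) := by rw [pow_add, pow_add]; ring
        _ ≤ 3 ^ (k + k') * 8 ^ (N * N' - 1) := by
            apply Nat.mul_le_mul_left
            apply Nat.pow_le_pow_right (by norm_num)
            obtain ⟨a, rfl⟩ := Nat.exists_eq_add_of_le hN
            obtain ⟨c, rfl⟩ := Nat.exists_eq_add_of_le hN'
            have : (1 + a) * (1 + c) = 1 + a + c + a * c := by ring
            rw [this]
            have := Nat.zero_le (a * c)
            omega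
  | @add m m' k k' N N' μ μ' h1 h2 ih1 ih2 =>
    obtain ⟨ι, _, T, z, Y, R, V, hc, hT, he, hs, hY, hR, hV, hz, hRD, hk⟩ := ih1
    obtain ⟨ι', _, T', z', Y', R', V', hc', hT', he', hs', hY', hR', hV', hz', hRD', hk'⟩ := ih2
    have hN := mix_pos h1
    have hN' := mix_pos h2
    have hm := (reach_pos (mix_reach h1)).1
    have hm' := (reach_pos (mix_reach h2)).1
    refine ⟨ι ⊕ ι', inferInstance, Sum.elim T T', Sum.elim z z', Y * Y', R * R', V * V', ?_,
      ?_, ?_, ?_, Nat.mul_pos hY hY', Nat.mul_pos hR hR', Nat.mul_pos hV hV', ?_, ?_, ?_⟩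
    · rw [Fintype.card_sum, hc, hc']
    · rintro (i | i)
      · exact hT i
      · exact hT' i
    · rintro (i | i)
      · exact he i
      · exact he' i
    · rw [Fintype.sum_sum_type]
      simp only [Sum.elim_inl, Sum.elim_inr]
      rw [hs, hs']
    · rw [Fintype.prod_sum_type]
      simp only [Sum.elim_inl, Sum.elim_inr]
      calc (∏ i, z i) * (∏ i, z' i) ≤ (Y ^ μ * R * V ^ N) * (Y' ^ μ' * R' * V' ^ N') :=
            Nat.mul_le_mul hz hz'
        _ = (Y ^ μ * Y' ^ μ') * (R * R') * (V ^ N * V' ^ N') := by ring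
        _ ≤ (Y ^ (max μ μ') * Y' ^ (max μ μ')) * (R * R') * (V ^ (N + N') * V' ^ (N + N')) := by
            apply Nat.mul_le_mul
            · apply Nat.mul_le_mul_right
              exact Nat.mul_le_mul (Nat.pow_le_pow_right hY (le_max_left _ _))
                (Nat.pow_le_pow_right hY' (le_max_right _ _))
            · exact Nat.mul_le_mul (Nat.pow_le_pow_right hV (by omega))
                (Nat.pow_le_pow_right hV' (by omega))
        _ = (Y * Y') ^ (max μ μ') * (R * R') * (V * V') ^ (N + N') := by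
            rw [mul_pow Y Y', mul_pow V V']
    · calc (R * R') ^ D = R ^ D * R' ^ D := mul_pow _ _ _
        _ ≤ m ^ (N ^ 2) * m' ^ (N' ^ 2) := Nat.mul_le_mul hRD hRD'
        _ ≤ (m + m') ^ (N ^ 2) * (m + m') ^ (N' ^ 2) :=
            Nat.mul_le_mul (Nat.pow_le_pow_left (by omega) _) (Nat.pow_le_pow_left (by omega) _)
        _ = (m + m') ^ (N ^ 2 + N' ^ 2) := by rw [pow_add]
        _ ≤ (m + m') ^ ((N + N') ^ 2) := by
            apply Nat.pow_le_pow_right (by omega)
            nlinarith [Nat.zero_le (N * N')]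
    · have e0 : m + m' ≤ 2 * (m * m') := by nlinarith
      calc ((m + m') * (Y * Y') * (V * V') ^ (D - 1)) ^ 3
          ≤ (2 * (m * m') * (Y * Y') * (V * V') ^ (D - 1)) ^ 3 :=
            Nat.pow_le_pow_left (Nat.mul_le_mul_right _ (Nat.mul_le_mul_right _ e0)) 3
        _ = 8 * ((m * Y * V ^ (D - 1)) ^ 3 * (m' * Y' * V' ^ (D - 1)) ^ 3) := by ring
        _ ≤ 8 * ((3 ^ k * 8 ^ (N - 1)) * (3 ^ k' * 8 ^ (N' - 1))) :=
            Nat.mul_le_mul_left _ (Nat.mul_le_mul hk hk')
        _ = 3 ^ (k + k') * 8 ^ ((N - 1) + (N' - 1) + 1) := by rw [pow_add, pow_add, pow_add]; ring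
        _ = 3 ^ (k + k') * 8 ^ (N + N' - 1) := by congr 2; omega
  | @side m k N μ y l h1 hy hym ih1 =>
    obtain ⟨ι, _, T, z, Y, R, V, hc, hT, he, hs, hY, hR, hV, hz, hRD, hk⟩ := ih1
    have hN := mix_pos h1
    have hm := (reach_pos (mix_reach h1)).1
    have hy1 := (reach_pos hy).1
    refine ⟨ι ⊕ Unit, inferInstance, Sum.elim T (fun _ => y), Sum.elim z (fun _ => y), Y * y, R, V,
      ?_, ?_, ?_, ?_, Nat.mul_pos hY hy1, hR, hV, ?_, ?_, ?_⟩
    · rw [Fintype.card_sum, hc]; rfl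
    · rintro (i | i)
      · exact hT i
      · exact hy1
    · rintro (i | i)
      · exact he i
      · refine ⟨0, ?_⟩
        simp
    · rw [Fintype.sum_sum_type]
      simp only [Sum.elim_inl, Sum.elim_inr]
      rw [hs]
      simp
    · rw [Fintype.prod_sum_type]
      simp only [Sum.elim_inl, Sum.elim_inr]
      calc (∏ i, z i) * (∏ _i : Unit, y) ≤ (Y ^ μ * R * V ^ N) * y ^ 1 :=
            Nat.mul_le_mul hz (by simp)
        _ = (Y ^ μ * y ^ 1) * R * V ^ N := by ring
        _ ≤ (Y ^ (max μ 1) * y ^ (max μ 1)) * R * V ^ (N + 1) := by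
            apply Nat.mul_le_mul
            · apply Nat.mul_le_mul_right
              exact Nat.mul_le_mul (Nat.pow_le_pow_right hY (le_max_left _ _))
                (Nat.pow_le_pow_right hy1 (le_max_right _ _))
            · exact Nat.pow_le_pow_right hV (by omega)
        _ = (Y * y) ^ (max μ 1) * R * V ^ (N + 1) := by rw [mul_pow Y y]
    · calc R ^ D ≤ m ^ (N ^ 2) := hRD
        _ ≤ (m + y) ^ (N ^ 2) := Nat.pow_le_pow_left (by omega) _
        _ ≤ (m + y) ^ ((N + 1) ^ 2) :=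
            Nat.pow_le_pow_right (by omega) (Nat.pow_le_pow_left (by omega) 2)
    · have e0 : m + y ≤ 2 * m := by omega
      calc ((m + y) * (Y * y) * V ^ (D - 1)) ^ 3 ≤ (2 * m * (Y * y) * V ^ (D - 1)) ^ 3 :=
            Nat.pow_le_pow_left (Nat.mul_le_mul_right _ (Nat.mul_le_mul_right _ e0)) 3
        _ = 8 * ((m * Y * V ^ (D - 1)) ^ 3 * y ^ 3) := by ring
        _ ≤ 8 * ((3 ^ k * 8 ^ (N - 1)) * 3 ^ l) :=
            Nat.mul_le_mul_left _ (Nat.mul_le_mul hk (selfridge hy))
        _ = 3 ^ (k + l) * 8 ^ ((N - 1) + 1) := by rw [pow_add, pow_add]; ring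
        _ = 3 ^ (k + l) * 8 ^ (N + 1 - 1) := by congr 2; omega
  | @tiny m k N μ y l h1 hy hym hyD ih1 =>
    obtain ⟨ι, _, T, z, Y, R, V, hc, hT, he, hs, hY, hR, hV, hz, hRD, hk⟩ := ih1
    have hN := mix_pos h1
    have hm := (reach_pos (mix_reach h1)).1
    have hy1 := (reach_pos hy).1
    refine ⟨ι ⊕ Unit, inferInstance, Sum.elim T (fun _ => y), Sum.elim z (fun _ => y), Y, R * y, V,
      ?_, ?_, ?_, ?_, hY, Nat.mul_pos hR hy1, hV, ?_, ?_, ?_⟩
    · rw [Fintype.card_sum, hc]; rfl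
    · rintro (i | i)
      · exact hT i
      · exact hy1
    · rintro (i | i)
      · exact he i
      · refine ⟨0, ?_⟩
        simp
    · rw [Fintype.sum_sum_type]
      simp only [Sum.elim_inl, Sum.elim_inr]
      rw [hs]
      simp
    · rw [Fintype.prod_sum_type]
      simp only [Sum.elim_inl, Sum.elim_inr]
      calc (∏ i, z i) * (∏ _i : Unit, y) ≤ (Y ^ μ * R * V ^ N) * y :=
            Nat.mul_le_mul hz (by simp)
        _ = Y ^ μ * (R * y) * V ^ N := by ring
        _ ≤ Y ^ μ * (R * y) * V ^ (N + 1) :=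
            Nat.mul_le_mul_left _ (Nat.pow_le_pow_right hV (by omega))
    · calc (R * y) ^ D = R ^ D * y ^ D := mul_pow _ _ _
        _ ≤ m ^ (N ^ 2) * m := Nat.mul_le_mul hRD hyD
        _ = m ^ (N ^ 2 + 1) := (pow_succ _ _).symm
        _ ≤ (m + y) ^ (N ^ 2 + 1) := Nat.pow_le_pow_left (by omega) _
        _ ≤ (m + y) ^ ((N + 1) ^ 2) := by
            apply Nat.pow_le_pow_right (by omega)
            nlinarith
    · have e0 : m + y ≤ 2 * m := by omega
      calc ((m + y) * Y * V ^ (D - 1)) ^ 3 ≤ (2 * m * Y * V ^ (D - 1)) ^ 3 :=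
            Nat.pow_le_pow_left (Nat.mul_le_mul_right _ (Nat.mul_le_mul_right _ e0)) 3
        _ = 8 * ((m * Y * V ^ (D - 1)) ^ 3 * 1) := by ring
        _ ≤ 8 * ((3 ^ k * 8 ^ (N - 1)) * 3 ^ l) :=
            Nat.mul_le_mul_left _ (Nat.mul_le_mul hk (Nat.one_le_pow _ _ (by norm_num)))
        _ = 3 ^ (k + l) * 8 ^ ((N - 1) + 1) := by rw [pow_add, pow_add]; ring
        _ = 3 ^ (k + l) * 8 ^ (N + 1 - 1) := by congr 2; omega

end Pool.Agent.H118_IntCx
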