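import Pool.Agent.H118_IntCx.MixMain

set_option autoImplicit false

namespace Pool.Agent.H118_IntCx

open Finset

/-- the tiny part is negligible -/
theorem tiny_est (n N D R : ℕ) (hN : 1 ≤ N) (hD : 2000 * N ^ 2 ≤ D) (hR : 1 ≤ R)
    (h : R ^ D ≤ (2 ^ n) ^ (N ^ 2)) : (R : ℝ) ≤ Real.exp ((1 / 2000) * n) := by
  have h1 : (R ^ 2000) ^ (N ^ 2) ≤ (2 ^ n) ^ (N ^ 2) := by
    refine le_trans ?_ h
    rw [← pow_mul]
    exact Nat.pow_le_pow_right hR hD
  have h2 : R ^ 2000 ≤ 2 ^ n := by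
    by_contra hlt
    push Not at hlt
    have h3 : (2 ^ n) ^ (N ^ 2) < (R ^ 2000) ^ (N ^ 2) :=
      Nat.pow_lt_pow_left hlt (by have : 0 < N ^ 2 := by positivity
                                  omega)
    omega
  have h3 : (R : ℝ) ^ 2000 ≤ 2 ^ n := by exact_mod_cast h2
  have h4 : (2 : ℝ) ^ n ≤ Real.exp ((1 / 2000) * n) ^ 2000 := by
    rw [← Real.exp_nat_mul]
    have e : ((2000 : ℕ) : ℝ) * ((1 / 2000) * n) = n * 1 := by push_cast; ring
    rw [e, Real.exp_nat_mul]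
    apply pow_le_pow_left₀ (by norm_num)
    have := Real.add_one_le_exp (1 : ℝ)
    linarith
  exact le_of_pow_le_pow_left₀ (by norm_num) (Real.exp_pos _).le (h3.trans h4)

/-- combination of the diophantine estimate with the expansion data -/
theorem comb_est (n c W R Z : ℕ) (hZ : 2 ^ c * Z ≤ W ^ 17 * R)
    (hR : (R : ℝ) ≤ Real.exp ((1 / 2000) * n))
    (h : (2 : ℝ) ^ n ≤ 2 ^ c * (Z : ℝ) * Real.exp ((1 / 2000) * n)) :
    (2 : ℝ) ^ n ≤ (W : ℝ) ^ 17 * Real.exp ((1 / 1000) * n) := by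
  have hZR : (2 : ℝ) ^ c * Z ≤ (W : ℝ) ^ 17 * R := by exact_mod_cast hZ
  calc (2 : ℝ) ^ n ≤ 2 ^ c * (Z : ℝ) * Real.exp ((1 / 2000) * n) := h
    _ ≤ ((W : ℝ) ^ 17 * R) * Real.exp ((1 / 2000) * n) :=
        mul_le_mul_of_nonneg_right hZR (Real.exp_pos _).le
    _ ≤ ((W : ℝ) ^ 17 * Real.exp ((1 / 2000) * n)) * Real.exp ((1 / 2000) * n) := by
        apply mul_le_mul_of_nonneg_right _ (Real.exp_pos _).le
        exact mul_le_mul_of_nonneg_left hR (by positivity)
    _ = (W : ℝ) ^ 17 * Real.exp ((1 / 1000) * n) := by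
        rw [mul_assoc, ← Real.exp_add]
        congr 2
        ring

/-- Sums with few terms cost more than `2 n`. -/
theorem mix_root (P N D : ℕ) (hD : 2000 * N ^ 2 ≤ D) : ∃ n0 : ℕ, ∀ n, n0 ≤ n →
    (∀ m k a μ m' k' a' μ', Mix P D m k a μ → Mix P D m' k' a' μ' → a + a' ≤ N → μ ≤ 17 →
      μ' ≤ 17 → m + m' = 2 ^ n → 2001 * n ≤ 1000 * (k + k')) ∧
    (∀ m k a μ y l, Mix P D m k a μ → Reach y l → y ≤ m → a + 1 ≤ N → μ ≤ 17 →
      m + y = 2 ^ n → 2001 * n ≤ 1000 * (k + l)) := by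
  obtain ⟨n1, hn1⟩ := sum_bound' P N (1 / 2000) (by norm_num)
  refine ⟨max n1 (800 * N), ?_⟩
  intro n hn
  have hnn1 : n1 ≤ n := le_trans (le_max_left _ _) hn
  have hnN : 800 * N ≤ n := le_trans (le_max_right _ _) hn
  constructor
  · intro m k a μ m' k' a' μ' h1 h2 haN hμ hμ' hsum
    have ha := mix_pos h1
    have ha' := mix_pos h2
    have hN1 : 1 ≤ N := by omega
    have hN2 : 1 ≤ N ^ 2 := Nat.one_le_pow _ _ hN1
    have hNN : N ≤ N ^ 2 := Nat.le_self_pow (by norm_num) _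
    have hD1 : 1 ≤ D := by omega
    obtain ⟨ι, _, T, z, Y, R, V, hc, hT, he, hs, hY, hR, hV, hz, hRD, hk⟩ :=
      expand_mix hD1 (prb P) (smooth_prod P) h1
    obtain ⟨ι', _, T', z', Y', R', V', hc', hT', he', hs', hY', hR', hV', hz', hRD', hk'⟩ :=
      expand_mix hD1 (prb P) (smooth_prod P) h2
    have hm := (reach_pos (mix_reach h1)).1
    have hm' := (reach_pos (mix_reach h2)).1
    obtain ⟨c, hc2, hle⟩ := hn1 n hnn1 (ι ⊕ ι') (by rw [Fintype.card_sum, hc, hc']; exact haN)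
      (Sum.elim T T') (Sum.elim z z')
      (by rintro (i | i); exacts [hT i, hT' i])
      (by rintro (i | i); exacts [he i, he' i])
      (by
        rw [Fintype.sum_sum_type]
        simp only [Sum.elim_inl, Sum.elim_inr]
        rw [hs, hs', hsum])
    have hcm : 2 ^ c ≤ m := by
      apply Nat.le_of_dvd hm
      rw [← hs]
      exact Finset.dvd_sum (fun i _ => hc2 (Sum.inl i))
    have hcm' : 2 ^ c ≤ m' := by
      apply Nat.le_of_dvd hm'
      rw [← hs']
      exact Finset.dvd_sum (fun i _ => hc2 (Sum.inr i))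
    set W := 2 ^ c * (Y * Y') * (V * V') ^ (D - 1) with hW
    have hVV : 1 ≤ V * V' := Nat.mul_pos hV hV'
    have hWpos : 1 ≤ W := Nat.mul_pos (Nat.mul_pos (by positivity) (Nat.mul_pos hY hY'))
      (Nat.one_le_pow _ _ hVV)
    have hRR : ((R * R' : ℕ) : ℝ) ≤ Real.exp ((1 / 2000) * n) := by
      apply tiny_est n N D (R * R') hN1 hD (Nat.mul_pos hR hR')
      calc (R * R') ^ D = R ^ D * R' ^ D := mul_pow _ _ _
        _ ≤ m ^ (a ^ 2) * m' ^ (a' ^ 2) := Nat.mul_le_mul hRD hRD'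
        _ ≤ (2 ^ n) ^ (a ^ 2) * (2 ^ n) ^ (a' ^ 2) :=
            Nat.mul_le_mul (Nat.pow_le_pow_left (by omega) _) (Nat.pow_le_pow_left (by omega) _)
        _ = (2 ^ n) ^ (a ^ 2 + a' ^ 2) := by rw [← pow_add (2 ^ n) (a ^ 2)]
        _ ≤ (2 ^ n) ^ (N ^ 2) := by
            apply Nat.pow_le_pow_right (by positivity)
            calc a ^ 2 + a' ^ 2 ≤ (a + a') ^ 2 := by nlinarith [Nat.zero_le (a * a')]
              _ ≤ N ^ 2 := Nat.pow_le_pow_left haN 2
    apply final_est n (k + k') (a + a') W hWpos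
    · apply comb_est n c W (R * R') ((∏ i, z i) * ∏ i, z' i) _ hRR
      · have e1 : (∏ x, ((Sum.elim z z' x : ℕ) : ℝ)) = (((∏ i, z i) * ∏ i, z' i : ℕ) : ℝ) := by
          rw [Fintype.prod_sum_type]
          simp only [Sum.elim_inl, Sum.elim_inr]
          push_cast
          rfl
        rw [← e1]
        exact hle
      · calc 2 ^ c * ((∏ i, z i) * ∏ i, z' i)
            ≤ 2 ^ c * ((Y ^ μ * R * V ^ a) * (Y' ^ μ' * R' * V' ^ a')) :=
              Nat.mul_le_mul_left _ (Nat.mul_le_mul hz hz')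
          _ = (2 ^ c * (Y ^ μ * Y' ^ μ') * (V ^ a * V' ^ a')) * (R * R') := by ring
          _ ≤ ((2 ^ c) ^ 17 * (Y ^ 17 * Y' ^ 17) * (V ^ ((D - 1) * 17) * V' ^ ((D - 1) * 17)))
                * (R * R') := by
              apply Nat.mul_le_mul_right
              apply Nat.mul_le_mul
              · apply Nat.mul_le_mul (Nat.le_self_pow (by norm_num) _)
                exact Nat.mul_le_mul (Nat.pow_le_pow_right hY hμ) (Nat.pow_le_pow_right hY' hμ')
              · exact Nat.mul_le_mul (Nat.pow_le_pow_right hV (by omega))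
                  (Nat.pow_le_pow_right hV' (by omega))
          _ = W ^ 17 * (R * R') := by
              rw [hW, mul_pow, mul_pow, mul_pow Y Y', ← pow_mul (V * V'), mul_pow V V']
    · have h6 : 2 ^ n * 2 ^ c ≤ 2 * (m * m') := by
        rcases le_total m m' with h | h
        · have : 2 ^ n ≤ 2 * m' := by omega
          calc 2 ^ n * 2 ^ c ≤ (2 * m') * m := Nat.mul_le_mul this hcm
            _ = 2 * (m * m') := by ring
        · have : 2 ^ n ≤ 2 * m := by omega
          calc 2 ^ n * 2 ^ c ≤ (2 * m) * m' := Nat.mul_le_mul this hcm'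
            _ = 2 * (m * m') := by ring
      calc (2 ^ n * W) ^ 3 = (2 ^ n * 2 ^ c * ((Y * Y') * (V * V') ^ (D - 1))) ^ 3 := by
            rw [hW]; ring
        _ ≤ (2 * (m * m') * ((Y * Y') * (V * V') ^ (D - 1))) ^ 3 :=
            Nat.pow_le_pow_left (Nat.mul_le_mul_right _ h6) 3
        _ = 8 * ((m * Y * V ^ (D - 1)) ^ 3 * (m' * Y' * V' ^ (D - 1)) ^ 3) := by
            rw [mul_pow V V']; ring
        _ ≤ 8 * ((3 ^ k * 8 ^ (a - 1)) * (3 ^ k' * 8 ^ (a' - 1))) :=
            Nat.mul_le_mul_left _ (Nat.mul_le_mul hk hk')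
        _ = 3 ^ (k + k') * 8 ^ ((a - 1) + (a' - 1) + 1) := by
            rw [pow_add, pow_add, pow_add]; ring
        _ ≤ 3 ^ (k + k') * 8 ^ (a + a') := by
            apply Nat.mul_le_mul_left
            exact Nat.pow_le_pow_right (by norm_num) (by omega)
    · calc 800 * (a + a') ≤ 800 * N := Nat.mul_le_mul_left _ haN
        _ ≤ n := hnN
  · intro m k a μ y l h1 hy hym haN hμ hsum
    have ha := mix_pos h1
    have hN1 : 1 ≤ N := by omega
    have hN2 : 1 ≤ N ^ 2 := Nat.one_le_pow _ _ hN1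
    have hNN : N ≤ N ^ 2 := Nat.le_self_pow (by norm_num) _
    have hD1 : 1 ≤ D := by omega
    obtain ⟨ι, _, T, z, Y, R, V, hc, hT, he, hs, hY, hR, hV, hz, hRD, hk⟩ :=
      expand_mix hD1 (prb P) (smooth_prod P) h1
    have hm := (reach_pos (mix_reach h1)).1
    have hy1 := (reach_pos hy).1
    obtain ⟨c, hc2, hle⟩ := hn1 n hnn1 (ι ⊕ Unit) (by rw [Fintype.card_sum, hc]; exact haN)
      (Sum.elim T (fun _ => y)) (Sum.elim z (fun _ => y))
      (by rintro (i | i); exacts [hT i, hy1])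
      (by
        rintro (i | i)
        · exact he i
        · refine ⟨0, ?_⟩
          simp)
      (by
        rw [Fintype.sum_sum_type]
        simp only [Sum.elim_inl, Sum.elim_inr]
        rw [hs]
        simpa using hsum)
    have hcy : 2 ^ c ≤ y := Nat.le_of_dvd hy1 (hc2 (Sum.inr ()))
    set W := y * Y * V ^ (D - 1) with hW
    have hWpos : 1 ≤ W := Nat.mul_pos (Nat.mul_pos hy1 hY) (Nat.one_le_pow _ _ hV)
    have hRR : ((R : ℕ) : ℝ) ≤ Real.exp ((1 / 2000) * n) := by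
      apply tiny_est n N D R hN1 hD hR
      calc R ^ D ≤ m ^ (a ^ 2) := hRD
        _ ≤ (2 ^ n) ^ (a ^ 2) := Nat.pow_le_pow_left (by omega) _
        _ ≤ (2 ^ n) ^ (N ^ 2) :=
            Nat.pow_le_pow_right (by positivity) (Nat.pow_le_pow_left (by omega) 2)
    apply final_est n (k + l) (a + 1) W hWpos
    · apply comb_est n c W R ((∏ i, z i) * y) _ hRR
      · have e1 : (∏ x, ((Sum.elim z (fun _ : Unit => y) x : ℕ) : ℝ))
            = (((∏ i, z i) * y : ℕ) : ℝ) := by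
          rw [Fintype.prod_sum_type]
          simp only [Sum.elim_inl, Sum.elim_inr]
          push_cast
          simp
        rw [← e1]
        exact hle
      · calc 2 ^ c * ((∏ i, z i) * y) ≤ y * ((Y ^ μ * R * V ^ a) * y) :=
              Nat.mul_le_mul hcy (Nat.mul_le_mul_right _ hz)
          _ = (y ^ 2 * Y ^ μ * V ^ a) * R := by ring
          _ ≤ (y ^ 17 * Y ^ 17 * V ^ ((D - 1) * 17)) * R := by
              apply Nat.mul_le_mul_right
              apply Nat.mul_le_mul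
              · exact Nat.mul_le_mul (Nat.pow_le_pow_right hy1 (by norm_num))
                  (Nat.pow_le_pow_right hY hμ)
              · exact Nat.pow_le_pow_right hV (by omega)
          _ = W ^ 17 * R := by rw [hW, mul_pow, mul_pow, ← pow_mul V]
    · have h6 : 2 ^ n ≤ 2 * m := by omega
      calc (2 ^ n * W) ^ 3 = (2 ^ n * (y * Y * V ^ (D - 1))) ^ 3 := by rw [hW]
        _ ≤ (2 * m * (y * Y * V ^ (D - 1))) ^ 3 :=
            Nat.pow_le_pow_left (Nat.mul_le_mul_right _ h6) 3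
        _ = 8 * ((m * Y * V ^ (D - 1)) ^ 3 * y ^ 3) := by ring
        _ ≤ 8 * ((3 ^ k * 8 ^ (a - 1)) * 3 ^ l) :=
            Nat.mul_le_mul_left _ (Nat.mul_le_mul hk (selfridge hy))
        _ = 3 ^ (k + l) * 8 ^ ((a - 1) + 1) := by rw [pow_add, pow_add]; ring
        _ ≤ 3 ^ (k + l) * 8 ^ (a + 1) := by
            apply Nat.mul_le_mul_left
            exact Nat.pow_le_pow_right (by norm_num) (by omega)
    · calc 800 * (a + 1) ≤ 800 * N := Nat.mul_le_mul_left _ haN
        _ ≤ n := hnN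

theorem mix_all (P D N n0 : ℕ) (hroot : ∀ n, n0 ≤ n →
    (∀ m k a μ m' k' a' μ', Mix P D m k a μ → Mix P D m' k' a' μ' → a + a' ≤ N → μ ≤ 17 →
      μ' ≤ 17 → m + m' = 2 ^ n → 2001 * n ≤ 1000 * (k + k')) ∧
    (∀ m k a μ y l, Mix P D m k a μ → Reach y l → y ≤ m → a + 1 ≤ N → μ ≤ 17 →
      m + y = 2 ^ n → 2001 * n ≤ 1000 * (k + l))) {m k a μ : ℕ} (h : Mix P D m k a μ) :
    ∀ n, m = 2 ^ n → a ≤ N → μ ≤ 17 → 2 * n ≤ k + (a - 1) * (2 * n0) := by
  induction h with
  | @leaf m k hl =>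
    intro n hn _ _
    have := hl.2.1 n hn
    omega
  | @mul m m' k k' a a' μ μ' h1 h2 ih1 ih2 =>
    intro n hn ha hμ
    have p1 := mix_pos h1
    have p2 := mix_pos h2
    have hd1 : m ∣ 2 ^ n := ⟨m', hn.symm⟩
    have hd2 : m' ∣ 2 ^ n := ⟨m, by rw [← hn]; ring⟩
    obtain ⟨x, _, hx⟩ := (Nat.dvd_prime_pow Nat.prime_two).1 hd1
    obtain ⟨y, _, hy⟩ := (Nat.dvd_prime_pow Nat.prime_two).1 hd2
    have hxy : n = x + y := by
      apply Nat.pow_right_injective (le_refl 2)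
      show 2 ^ n = 2 ^ (x + y)
      rw [← hn, hx, hy, pow_add]
    have i1 := ih1 x hx ((Nat.le_mul_of_pos_right _ p2).trans ha)
      ((Nat.le_mul_of_pos_right _ p2).trans ((le_max_left _ _).trans hμ))
    have i2 := ih2 y hy ((Nat.le_mul_of_pos_left _ p1).trans ha)
      ((Nat.le_mul_of_pos_right _ p1).trans ((le_max_right _ _).trans hμ))
    have h3 : (a - 1) + (a' - 1) ≤ a * a' - 1 := by
      obtain ⟨u, rfl⟩ := Nat.exists_eq_add_of_le p1
      obtain ⟨v, rfl⟩ := Nat.exists_eq_add_of_le p2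
      have : (1 + u) * (1 + v) = 1 + u + v + u * v := by ring
      rw [this]
      have := Nat.zero_le (u * v)
      omega
    have h4 := Nat.mul_le_mul_right (2 * n0) h3
    rw [add_mul] at h4
    omega
  | @add m m' k k' a a' μ μ' h1 h2 _ _ =>
    intro n hn ha hμ
    have p1 := mix_pos h1
    have p2 := mix_pos h2
    rcases Nat.lt_or_ge n n0 with hlt | hge
    · have h3 : 1 * (2 * n0) ≤ (a + a' - 1) * (2 * n0) := Nat.mul_le_mul_right _ (by omega)
      omega
    · have := (hroot n hge).1 _ _ _ _ _ _ _ _ h1 h2 ha ((le_max_left _ _).trans hμ)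
        ((le_max_right _ _).trans hμ) hn
      have h4 := Nat.zero_le ((a + a' - 1) * (2 * n0))
      omega
  | @side m k a μ y l h1 hy hym _ =>
    intro n hn ha hμ
    have p1 := mix_pos h1
    rcases Nat.lt_or_ge n n0 with hlt | hge
    · have h3 : 1 * (2 * n0) ≤ (a + 1 - 1) * (2 * n0) := Nat.mul_le_mul_right _ (by omega)
      omega
    · have := (hroot n hge).2 _ _ _ _ _ _ h1 hy hym ha ((le_max_left _ _).trans hμ) hn
      have h4 := Nat.zero_le ((a + 1 - 1) * (2 * n0))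
      omega
  | @tiny m k a μ y l h1 hy hym hyD _ =>
    intro n hn ha hμ
    have p1 := mix_pos h1
    rcases Nat.lt_or_ge n n0 with hlt | hge
    · have h3 : 1 * (2 * n0) ≤ (a + 1 - 1) * (2 * n0) := Nat.mul_le_mul_right _ (by omega)
      omega
    · have := (hroot n hge).2 _ _ _ _ _ _ h1 hy hym ha hμ hn
      have h4 := Nat.zero_le ((a + 1 - 1) * (2 * n0))
      omega

end Pool.Agent.H118_IntCx
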