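import Mathlib

namespace Pool.Agent.H118_IntCx

/-- `G s t N p q` is the coefficient of `w ^ N` in the expansion of
`(1 - s w) ^ (-p) * (1 - t w) ^ (-q)`. -/
def G (s t : ℤ) : ℕ → ℕ → ℕ → ℤ
  | 0, _, _ => 1
  | _ + 1, 0, 0 => 0
  | N + 1, 0, q + 1 => G s t (N + 1) 0 q + t * G s t N 0 (q + 1)
  | N + 1, p + 1, q => G s t (N + 1) p q + s * G s t N (p + 1) q
termination_by N p q => N + p + q

theorem G_zero (s t : ℤ) (p q : ℕ) : G s t 0 p q = 1 := by
  rw [G]

theorem G_succ_zero_zero (s t : ℤ) (N : ℕ) : G s t (N + 1) 0 0 = 0 := by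
  rw [G]

/-- First recurrence. -/
theorem G_R1 (s t : ℤ) (N p q : ℕ) :
    G s t (N + 1) (p + 1) q = G s t (N + 1) p q + s * G s t N (p + 1) q := by
  conv_lhs => rw [G]

theorem G_R2z (s t : ℤ) (N q : ℕ) :
    G s t (N + 1) 0 (q + 1) = G s t (N + 1) 0 q + t * G s t N 0 (q + 1) := by
  conv_lhs => rw [G]

/-- Second recurrence. -/
theorem G_R2 (s t : ℤ) (N p q : ℕ) :
    G s t (N + 1) p (q + 1) = G s t (N + 1) p q + t * G s t N p (q + 1) := by
  induction N generalizing p q with
  | zero =>
    induction p generalizing q with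
    | zero => exact G_R2z s t 0 q
    | succ p ih =>
      rw [G_R1, G_R1, ih]
      simp only [G_zero]
      ring
  | succ N ihN =>
    induction p generalizing q with
    | zero => exact G_R2z s t (N + 1) q
    | succ p ih =>
      rw [G_R1 s t (N + 1) p (q + 1), G_R1 s t (N + 1) p q, ih, ihN (p + 1) q]
      have h := G_R1 s t N p (q + 1)
      have h2 := ihN (p + 1) q
      have h3 : G s t (N + 1) p (q + 1)
          = G s t (N + 1) (p + 1) q + t * G s t N (p + 1) (q + 1)
            - s * G s t N (p + 1) (q + 1) := by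
        linarith
      rw [h3]
      ring

/-- Third recurrence. -/
theorem G_R3 (s t : ℤ) (N p q : ℕ) :
    (s - t) * G s t N (p + 1) (q + 1) = G s t (N + 1) (p + 1) q - G s t (N + 1) p (q + 1) := by
  have h1 := G_R1 s t N p (q + 1)
  have h2 := G_R2 s t N (p + 1) q
  linarith

theorem G_p_zero (s t : ℤ) (N q : ℕ) :
    G s t N 0 (q + 1) = ((N + q).choose N : ℤ) * t ^ N := by
  induction N generalizing q with
  | zero => simp [G_zero]
  | succ N ihN =>
    induction q with
    | zero =>
      rw [G_R2, ihN, G_succ_zero_zero]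
      simp
      ring
    | succ q ih =>
      rw [G_R2, ih, ihN]
      have h : ((N + 1 + (q + 1)).choose (N + 1) : ℤ)
          = ((N + (q + 1)).choose N : ℤ) + ((N + 1 + q).choose (N + 1) : ℤ) := by
        have h3 : (N + 1 + (q + 1)).choose (N + 1)
            = (N + (q + 1)).choose N + (N + 1 + q).choose (N + 1) := by
          rw [show N + 1 + (q + 1) = (N + (q + 1)) + 1 by ring, Nat.choose_succ_succ,
            show N + (q + 1) = N + 1 + q by ring]
        exact_mod_cast h3
      rw [h]
      ring

theorem G_q_zero (s t : ℤ) (N p : ℕ) :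
    G s t N (p + 1) 0 = ((N + p).choose N : ℤ) * s ^ N := by
  induction N generalizing p with
  | zero => simp [G_zero]
  | succ N ihN =>
    induction p with
    | zero =>
      rw [G_R1, ihN, G_succ_zero_zero]
      simp
      ring
    | succ q ih =>
      rw [G_R1, ih, ihN]
      have h : ((N + 1 + (q + 1)).choose (N + 1) : ℤ)
          = ((N + (q + 1)).choose N : ℤ) + ((N + 1 + q).choose (N + 1) : ℤ) := by
        have h3 : (N + 1 + (q + 1)).choose (N + 1)
            = (N + (q + 1)).choose N + (N + 1 + q).choose (N + 1) := by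
          rw [show N + 1 + (q + 1) = (N + (q + 1)) + 1 by ring, Nat.choose_succ_succ,
            show N + (q + 1) = N + 1 + q by ring]
        exact_mod_cast h3
      rw [h]
      ring

/-- The three-term identity (Padé approximation of a binomial power in homogeneous form):
for `r + t = s`. -/
theorem three_term (r t s : ℤ) (hs : r + t = s) (m k N : ℕ) :
    r ^ (m + k + 1) * G s t N (m + 1) (k + 1)
      + (-1) ^ m * t ^ (m + N + 1) * G s r k (m + 1) (N + 1)
      = s ^ (N + k + 1) * G r (-t) m (N + 1) (k + 1) := by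
  have hst : s - t = r := by linarith
  have hsr : s - r = t := by linarith
  have hrt : r - (-t) = s := by linarith
  -- base case m = 0, k = 0
  have base00 : ∀ N : ℕ, r * G s t N 1 1 + t ^ (N + 1) = s ^ (N + 1) := by
    intro N
    have h := G_R3 s t N 0 0
    rw [hst] at h
    have h1 : G s t (N + 1) 1 0 = s ^ (N + 1) := by
      have := G_q_zero s t (N + 1) 0
      simpa using this
    have h2 : G s t (N + 1) 0 1 = t ^ (N + 1) := by
      have := G_p_zero s t (N + 1) 0
      simpa using this
    rw [show (0 : ℕ) + 1 = 1 from rfl] at h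
    rw [h, h1, h2]
    ring
  -- m = 0, all k
  have base0 : ∀ k N : ℕ, r ^ (k + 1) * G s t N 1 (k + 1)
      + t ^ (N + 1) * G s r k 1 (N + 1) = s ^ (N + k + 1) := by
    intro k
    induction k with
    | zero =>
      intro N
      have := base00 N
      rw [G_zero]
      simpa using this
    | succ k ih =>
      intro N
      have h1 := G_R3 s t N 0 (k + 1)
      have h2 := G_R3 s r k 0 (N + 1)
      rw [hst] at h1
      rw [hsr] at h2
      have h3 := ih (N + 1)
      have h4 := G_p_zero s t (N + 1) (k + 1)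
      have h5 := G_p_zero s r (k + 1) (N + 1)
      have h6 : ((N + 1 + (k + 1)).choose (N + 1) : ℤ) = ((k + 1 + (N + 1)).choose (k + 1) : ℤ) := by
        have : (N + 1 + (k + 1)).choose (N + 1) = (k + 1 + (N + 1)).choose (k + 1) := by
          rw [add_comm (k + 1) (N + 1)]
          exact Nat.choose_symm_add
        exact_mod_cast this
      rw [h4] at h1
      rw [h5, ← h6] at h2
      simp only [zero_add] at h1 h2
      have e1 : r ^ (k + 1 + 1) * G s t N 1 (k + 1 + 1)
          = r ^ (k + 1) * (r * G s t N 1 (k + 1 + 1)) := by ring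
      have e2 : t ^ (N + 1) * G s r (k + 1) 1 (N + 1)
          = t ^ (N + 1) * (t * G s r k 1 (N + 1 + 1)
            + ((N + 1 + (k + 1)).choose (N + 1) : ℤ) * r ^ (k + 1)) := by
        rw [h2]; ring
      rw [e1, h1, e2]
      have e3 : N + (k + 1) + 1 = N + 1 + k + 1 := by ring
      rw [e3, ← h3]
      ring
  -- k = 0, all m
  have basek : ∀ m N : ℕ, r ^ (m + 1) * G s t N (m + 1) 1
      + (-1) ^ m * t ^ (m + N + 1) = s ^ (N + 1) * G r (-t) m (N + 1) 1 := by
    intro m
    induction m with
    | zero =>
      intro N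
      have := base00 N
      rw [G_zero]
      simpa using this
    | succ m ih =>
      intro N
      have h1 := G_R3 s t N (m + 1) 0
      rw [hst] at h1
      have h2 := G_R3 r (-t) m (N + 1) 0
      rw [hrt] at h2
      have h3 := ih (N + 1)
      have h4 := G_q_zero s t (N + 1) (m + 1)
      have h5 := G_q_zero r (-t) (m + 1) (N + 1)
      have h6 : ((N + 1 + (m + 1)).choose (N + 1) : ℤ) = ((m + 1 + (N + 1)).choose (m + 1) : ℤ) := by
        have : (N + 1 + (m + 1)).choose (N + 1) = (m + 1 + (N + 1)).choose (m + 1) := by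
          rw [add_comm (m + 1) (N + 1)]
          exact Nat.choose_symm_add
        exact_mod_cast this
      rw [h4] at h1
      rw [h5, ← h6] at h2
      simp only [zero_add] at h1 h2 h3 ⊢
      have e1 : r ^ (m + 1 + 1) * G s t N (m + 1 + 1) 1
          = r ^ (m + 1) * (r * G s t N (m + 1 + 1) 1) := by ring
      have e2 : s ^ (N + 1) * G r (-t) (m + 1) (N + 1) 1
          = s ^ (N + 1) * (((N + 1 + (m + 1)).choose (N + 1) : ℤ) * r ^ (m + 1)
            - s * G r (-t) m (N + 1 + 1) 1) := by
        rw [h2]; ring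
      rw [e1, h1, e2]
      have e3 : s ^ (N + 1) * (((N + 1 + (m + 1)).choose (N + 1) : ℤ) * r ^ (m + 1)
            - s * G r (-t) m (N + 1 + 1) 1)
          = s ^ (N + 1) * (((N + 1 + (m + 1)).choose (N + 1) : ℤ) * r ^ (m + 1))
            - s ^ (N + 1 + 1) * G r (-t) m (N + 1 + 1) 1 := by ring
      rw [e3, ← h3]
      ring
  -- general case by induction on k (for all m), inner induction on m
  induction m generalizing k N with
  | zero =>
    have := base0 k N
    rw [G_zero]
    simpa using this
  | succ m ihm =>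
    induction k generalizing N with
    | zero =>
      have := basek (m + 1) N
      rw [G_zero]
      simpa using this
    | succ k ihk =>
      have h1 := G_R3 s t N (m + 1) (k + 1)
      have h2 := G_R3 s r k (m + 1) (N + 1)
      have h3 := G_R3 r (-t) m (N + 1) (k + 1)
      rw [hst] at h1
      rw [hsr] at h2
      rw [hrt] at h3
      have i1 := ihk (N + 1)
      have i2 := ihm (k + 1) (N + 1)
      have e1 : r ^ (m + 1 + (k + 1) + 1) * G s t N (m + 1 + 1) (k + 1 + 1)
          = r ^ (m + 1 + k + 1) * (r * G s t N (m + 1 + 1) (k + 1 + 1)) := by ring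
      have e2 : G s r (k + 1) (m + 1 + 1) (N + 1)
          = t * G s r k (m + 1 + 1) (N + 1 + 1) + G s r (k + 1) (m + 1) (N + 1 + 1) := by
        linarith
      have e3 : G r (-t) (m + 1) (N + 1) (k + 1 + 1)
          = G r (-t) (m + 1) (N + 1 + 1) (k + 1) - s * G r (-t) m (N + 1 + 1) (k + 1 + 1) := by
        linarith
      rw [e1, h1, e2, e3]
      have i1' : r ^ (m + 1 + k + 1) * G s t (N + 1) (m + 1 + 1) (k + 1)
          = s ^ (N + 1 + k + 1) * G r (-t) (m + 1) (N + 1 + 1) (k + 1)
            - (-1) ^ (m + 1) * t ^ (m + 1 + (N + 1) + 1) * G s r k (m + 1 + 1) (N + 1 + 1) := by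
        linarith
      have i2' : r ^ (m + 1 + k + 1) * G s t (N + 1) (m + 1) (k + 1 + 1)
          = s ^ (N + 1 + (k + 1) + 1) * G r (-t) m (N + 1 + 1) (k + 1 + 1)
            - (-1) ^ m * t ^ (m + (N + 1) + 1) * G s r (k + 1) (m + 1) (N + 1 + 1) := by
        have : m + 1 + k + 1 = m + (k + 1) + 1 := by ring
        rw [this]
        linarith
      rw [mul_sub, i1', i2']
      ring

end Pool.Agent.H118_IntCx
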