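import Mathlib

namespace Pool.Agent.H118_IntCx

open Polynomial Filter Topology

/-- The polynomial matrix used in the zero estimate. -/
noncomputable def zmat (m : ℕ) (Q : Fin m → ℝ[X]) (e : Fin m → ℕ) :
    Matrix (Fin m) (Fin m) ℝ[X] :=
  Matrix.of fun i j => (Q j).comp (X + C (i : ℝ)) * C ((4 : ℝ) ^ ((i : ℕ) * e j))

theorem zmat_det_ne_zero (m : ℕ) (Q : Fin m → ℝ[X]) (hQ : ∀ j, Q j ≠ 0) (e : Fin m → ℕ)
    (he : Function.Injective e) : (zmat m Q e).det ≠ 0 := by
  intro hdet
  -- the rescaled real matrices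
  set B : ℝ → Matrix (Fin m) (Fin m) ℝ := fun x =>
    Matrix.of fun i j => (eval x ((Q j).comp (X + C (i : ℝ))) / eval x (X ^ (Q j).natDegree))
      * (4 : ℝ) ^ ((i : ℕ) * e j) with hB
  set Binf : Matrix (Fin m) (Fin m) ℝ :=
    Matrix.of fun i j => (Q j).leadingCoeff * (4 : ℝ) ^ ((i : ℕ) * e j) with hBinf
  have hlim : Tendsto B atTop (𝓝 Binf) := by
    apply tendsto_pi_nhds.mpr
    intro i
    apply tendsto_pi_nhds.mpr
    intro j
    simp only [hB, hBinf, Matrix.of_apply]
    apply Tendsto.mul_const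
    have hmon : (X + C (i : ℝ) : ℝ[X]).natDegree = 1 := natDegree_X_add_C _
    have hlc : ((Q j).comp (X + C (i : ℝ))).leadingCoeff = (Q j).leadingCoeff := by
      rw [leadingCoeff_comp (by rw [hmon]; exact one_ne_zero), leadingCoeff_X_add_C]
      simp
    have hnd : ((Q j).comp (X + C (i : ℝ))).natDegree = (Q j).natDegree := by
      rw [natDegree_comp, hmon, mul_one]
    have hne : (Q j).comp (X + C (i : ℝ)) ≠ 0 := by
      rw [← leadingCoeff_ne_zero, hlc, leadingCoeff_ne_zero]
      exact hQ j
    have hdeg : ((Q j).comp (X + C (i : ℝ))).degree = (X ^ (Q j).natDegree : ℝ[X]).degree := by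
      rw [degree_eq_natDegree hne, hnd, degree_X_pow]
    have := div_tendsto_atTop_leadingCoeff_div_of_degree_eq _ _ hdeg
    rwa [hlc, leadingCoeff_X_pow, div_one] at this
  have hdetlim : Tendsto (fun x => (B x).det) atTop (𝓝 Binf.det) :=
    (Continuous.matrix_det continuous_id).continuousAt.tendsto.comp hlim
  have hzero : ∀ x : ℝ, (B x).det = 0 := by
    intro x
    have h1 : B x = Matrix.of fun i j =>
        (eval x (X ^ (Q j).natDegree))⁻¹ * ((evalRingHom x).mapMatrix (zmat m Q e)) i j := by
      ext i j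
      simp only [hB, zmat, Matrix.of_apply, RingHom.mapMatrix_apply, Matrix.map_apply,
        coe_evalRingHom, eval_mul, eval_C]
      rw [div_eq_inv_mul, mul_assoc]
    rw [h1, Matrix.det_mul_row, ← RingHom.map_det, hdet, map_zero, mul_zero]
  have hBinf0 : Binf.det = 0 := by
    have h2 : Tendsto (fun x => (B x).det) atTop (𝓝 0) := by
      simp only [hzero]
      exact tendsto_const_nhds
    exact tendsto_nhds_unique hdetlim h2
  -- but the determinant of the limit is a Vandermonde determinant
  have hvand : Binf = Matrix.of fun i j =>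
      (Q j).leadingCoeff * (Matrix.vandermonde (fun j => (4 : ℝ) ^ e j)).transpose i j := by
    ext i j
    simp only [hBinf, Matrix.of_apply, Matrix.transpose_apply, Matrix.vandermonde_apply]
    rw [← pow_mul, mul_comm (e j)]
  rw [hvand, Matrix.det_mul_row, Matrix.det_transpose] at hBinf0
  have hprod : (∏ j, (Q j).leadingCoeff) ≠ 0 :=
    Finset.prod_ne_zero_iff.mpr (fun j _ => leadingCoeff_ne_zero.mpr (hQ j))
  have hvd : (Matrix.vandermonde (fun j => (4 : ℝ) ^ e j)).det ≠ 0 := by
    rw [Matrix.det_vandermonde_ne_zero_iff]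
    intro a b hab
    apply he
    exact pow_right_injective₀ (by norm_num) (by norm_num) hab
  exact (mul_ne_zero hprod hvd) hBinf0

theorem zmat_natDegree (m : ℕ) (Q : Fin m → ℝ[X]) (e : Fin m → ℕ) (D : ℕ)
    (hD : ∀ j, (Q j).natDegree ≤ D) : (zmat m Q e).det.natDegree ≤ m * D := by
  rw [Matrix.det_apply]
  apply natDegree_sum_le_of_forall_le
  intro σ _
  refine (natDegree_smul_le _ _).trans ?_
  refine (natDegree_prod_le _ _).trans ?_
  calc ∑ i, (zmat m Q e (σ i) i).natDegree ≤ ∑ _i : Fin m, D := by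
        apply Finset.sum_le_sum
        intro i _
        simp only [zmat, Matrix.of_apply]
        refine (natDegree_mul_C_le _ _).trans ?_
        rw [natDegree_comp, natDegree_X_add_C, mul_one]
        exact hD i
    _ = m * D := by simp

/-- Zero estimate. -/
theorem zero_estimate (K L I2 J n ρ : ℕ) (hρ : 1 ≤ ρ) (hI : I2 ≤ n)
    (hcard : L * (K - 1) < I2 * J) (c : ℕ → ℕ → ℝ)
    (hvan : ∀ i < I2 + L, ∀ j < J, ∑ l ∈ Finset.range L, (∑ k ∈ Finset.range K,
      c k l * ((i + j * n : ℕ) : ℝ) ^ k) * (((4 : ℝ) ^ i * (ρ : ℝ) ^ j)) ^ l = 0) :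
    ∀ k < K, ∀ l < L, c k l = 0 := by
  classical
  set P : ℕ → ℝ[X] := fun l => ∑ k ∈ Finset.range K, C (c k l) * X ^ k with hP
  have hPeval : ∀ l (x : ℝ), eval x (P l) = ∑ k ∈ Finset.range K, c k l * x ^ k := by
    intro l x
    simp [hP, eval_finsetSum]
  have hPdeg : ∀ l, (P l).natDegree ≤ K - 1 := by
    intro l
    apply natDegree_sum_le_of_forall_le
    intro k hk
    refine (natDegree_C_mul_X_pow_le _ _).trans ?_
    have := Finset.mem_range.mp hk
    omega
  have hPcoeff : ∀ l, ∀ k < K, (P l).coeff k = c k l := by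
    intro l k hk
    simp only [hP, finsetSum_coeff, coeff_C_mul, coeff_X_pow]
    rw [Finset.sum_eq_single k]
    · simp
    · intro b _ hb
      rw [if_neg (Ne.symm hb), mul_zero]
    · intro h
      exact absurd (Finset.mem_range.mpr hk) h
  suffices hall : ∀ l < L, P l = 0 by
    intro k hk l hl
    rw [← hPcoeff l k hk, hall l hl, coeff_zero]
  by_contra hcon
  push Not at hcon
  obtain ⟨l0, hl0, hPl0⟩ := hcon
  set S : Finset ℕ := (Finset.range L).filter (fun l => P l ≠ 0) with hS
  have hSne : l0 ∈ S := Finset.mem_filter.mpr ⟨Finset.mem_range.mpr hl0, hPl0⟩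
  set m : ℕ := S.card with hm
  have hmL : m ≤ L := by
    have := Finset.card_filter_le (Finset.range L) (fun l => P l ≠ 0)
    rwa [Finset.card_range] at this
  have hmpos : 0 < m := Finset.card_pos.mpr ⟨l0, hSne⟩
  set e : Fin m → ℕ := fun j => S.orderEmbOfFin rfl j with he
  have heinj : Function.Injective e := (S.orderEmbOfFin rfl).injective
  have heS : ∀ j, e j ∈ S := fun j => S.orderEmbOfFin_mem rfl j
  have heimage : Finset.univ.image e = S := by
    apply Finset.eq_of_subset_of_card_le
    · intro x hx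
      obtain ⟨j, _, rfl⟩ := Finset.mem_image.mp hx
      exact heS j
    · rw [Finset.card_image_of_injective _ heinj, Finset.card_univ, Fintype.card_fin]
  set Q : Fin m → ℝ[X] := fun j => P (e j) with hQdef
  have hQ0 : ∀ j, Q j ≠ 0 := fun j => (Finset.mem_filter.mp (heS j)).2
  have hne := zmat_det_ne_zero m Q hQ0 e heinj
  apply hne
  -- the points
  set pts : Finset ℝ := ((Finset.range I2) ×ˢ (Finset.range J)).image
    (fun p : ℕ × ℕ => ((p.1 + p.2 * n : ℕ) : ℝ)) with hpts
  have hptscard : pts.card = I2 * J := by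
    rw [hpts, Finset.card_image_of_injOn, Finset.card_product, Finset.card_range,
      Finset.card_range]
    rintro ⟨a, b⟩ hab ⟨a', b'⟩ hab' heq
    simp only [Finset.coe_product, Finset.coe_range, Set.mem_prod, Set.mem_Iio] at hab hab'
    have h1 : a + b * n = a' + b' * n := by
      have : ((a + b * n : ℕ) : ℝ) = ((a' + b' * n : ℕ) : ℝ) := heq
      exact_mod_cast this
    have han : a < n := by omega
    have han' : a' < n := by omega
    have hbb : b = b' := by
      have h2 : (a + b * n) / n = b := by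
        rw [Nat.add_mul_div_right _ _ (by omega), Nat.div_eq_of_lt han, Nat.zero_add]
      have h3 : (a' + b' * n) / n = b' := by
        rw [Nat.add_mul_div_right _ _ (by omega), Nat.div_eq_of_lt han', Nat.zero_add]
      rw [← h2, ← h3, h1]
    subst hbb
    have : a = a' := by omega
    subst this
    rfl
  apply eq_zero_of_natDegree_lt_card_of_eval_eq_zero' _ pts
  · intro x hx
    obtain ⟨⟨i2, j2⟩, hij, rfl⟩ := Finset.mem_image.mp hx
    simp only [Finset.mem_product, Finset.mem_range] at hij
    obtain ⟨hi2, hj2⟩ := hij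
    set x : ℝ := ((i2 + j2 * n : ℕ) : ℝ) with hx
    have hev : eval x (zmat m Q e).det = ((evalRingHom x).mapMatrix (zmat m Q e)).det := by
      rw [← RingHom.map_det]; rfl
    rw [hev, ← Matrix.exists_mulVec_eq_zero_iff]
    set y : ℝ := (4 : ℝ) ^ i2 * (ρ : ℝ) ^ j2 with hy
    have hypos : 0 < y := by
      have : (0 : ℝ) < ρ := by exact_mod_cast hρ
      positivity
    refine ⟨fun j => y ^ e j, ?_, ?_⟩
    · intro h
      have := congrFun h ⟨0, hmpos⟩
      simp only [Pi.zero_apply] at this
      exact (pow_pos hypos _).ne' this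
    · funext i1
      simp only [Matrix.mulVec, dotProduct, Pi.zero_apply, RingHom.mapMatrix_apply,
        Matrix.map_apply, zmat, Matrix.of_apply, coe_evalRingHom, eval_mul, eval_C, eval_comp,
        eval_add, eval_X]
      have hi1 : (i1 : ℕ) < m := i1.2
      have hv := hvan (i1 + i2) (by omega) j2 hj2
      -- restrict the sum to S
      have hsum : ∑ l ∈ Finset.range L, (∑ k ∈ Finset.range K,
          c k l * (((i1 : ℕ) + i2 + j2 * n : ℕ) : ℝ) ^ k)
            * (((4 : ℝ) ^ ((i1 : ℕ) + i2) * (ρ : ℝ) ^ j2)) ^ l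
          = ∑ j : Fin m, eval (x + (i1 : ℕ)) (Q j) * (4 : ℝ) ^ ((i1 : ℕ) * e j) * y ^ e j := by
        have h1 : ∀ l, (∑ k ∈ Finset.range K,
            c k l * (((i1 : ℕ) + i2 + j2 * n : ℕ) : ℝ) ^ k) = eval (x + (i1 : ℕ)) (P l) := by
          intro l
          rw [hPeval]
          apply Finset.sum_congr rfl
          intro k _
          congr 2
          rw [hx]
          push_cast
          ring
        simp only [h1]
        have h2 : ∑ l ∈ Finset.range L, eval (x + (i1 : ℕ)) (P l)
              * (((4 : ℝ) ^ ((i1 : ℕ) + i2) * (ρ : ℝ) ^ j2)) ^ l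
            = ∑ l ∈ S, eval (x + (i1 : ℕ)) (P l)
              * (((4 : ℝ) ^ ((i1 : ℕ) + i2) * (ρ : ℝ) ^ j2)) ^ l := by
          symm
          apply Finset.sum_subset (Finset.filter_subset _ _)
          intro l hl hlS
          have : P l = 0 := by
            by_contra hne'
            exact hlS (Finset.mem_filter.mpr ⟨hl, hne'⟩)
          rw [this, eval_zero, zero_mul]
        rw [h2, ← heimage, Finset.sum_image (fun a _ b _ hab => heinj hab)]
        apply Finset.sum_congr rfl
        intro j _
        rw [hy, hQdef]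
        ring
      rw [← hsum]
      exact hv
  · rw [hptscard]
    calc (zmat m Q e).det.natDegree ≤ m * (K - 1) :=
          zmat_natDegree m Q e (K - 1) (fun j => hPdeg (e j))
      _ ≤ L * (K - 1) := Nat.mul_le_mul_right _ hmL
      _ < I2 * J := hcard

end Pool.Agent.H118_IntCx
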