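import Pool.Agent.H118_IntCx.Minor
import Pool.Agent.H118_IntCx.ZeroEst
import Pool.Agent.H118_IntCx.DetDiv

namespace Pool.Agent.H118_IntCx

open Finset

theorem abs_det_le {ι : Type} [Fintype ι] [DecidableEq ι] (G : Matrix ι ι ℤ) (R : ι → ℤ)
    (hG : ∀ a b, |G a b| ≤ R a) :
    |G.det| ≤ (Fintype.card ι).factorial * ∏ a, R a := by
  rw [Matrix.det_apply]
  calc |∑ σ : Equiv.Perm ι, Equiv.Perm.sign σ • ∏ i, G (σ i) i|
      ≤ ∑ σ : Equiv.Perm ι, |Equiv.Perm.sign σ • ∏ i, G (σ i) i| :=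
        Finset.abs_sum_le_sum_abs _ _
    _ ≤ ∑ _σ : Equiv.Perm ι, ∏ a, R a := by
        apply Finset.sum_le_sum
        intro σ _
        have h1 : |Equiv.Perm.sign σ • ∏ i, G (σ i) i| = ∏ i, |G (σ i) i| := by
          rw [← Finset.abs_prod]
          rcases Int.units_eq_one_or (Equiv.Perm.sign σ) with h | h
          · rw [h, one_smul]
          · rw [h]; simp
        rw [h1]
        calc ∏ i, |G (σ i) i| ≤ ∏ i, R (σ i) :=
              Finset.prod_le_prod (fun i _ => abs_nonneg _) (fun i _ => hG (σ i) i)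
          _ = ∏ a, R a := Equiv.prod_comp σ R
    _ = (Fintype.card ι).factorial * ∏ a, R a := by
        rw [Finset.sum_const, Finset.card_univ, Fintype.card_perm, nsmul_eq_mul]

theorem prod_sq (K L : ℕ) (A B : ℤ) :
    (∏ a : Fin K × Fin L, A ^ (a.1 : ℕ) * B ^ (a.2 : ℕ)) ^ 2
      = (A ^ (K - 1) * B ^ (L - 1)) ^ (K * L) := by
  rw [Fintype.prod_prod_type]
  have h1 : ∀ k : Fin K, ∏ l : Fin L, A ^ (k : ℕ) * B ^ (l : ℕ)
      = (A ^ (k : ℕ)) ^ L * B ^ (∑ l ∈ range L, l) := by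
    intro k
    rw [Finset.prod_mul_distrib, Finset.prod_const, Finset.card_univ, Fintype.card_fin,
      Finset.prod_pow_eq_pow_sum, Finset.sum_range]
  simp only [h1]
  rw [Finset.prod_mul_distrib, Finset.prod_const, Finset.card_univ, Fintype.card_fin,
    Finset.prod_pow, Finset.prod_pow_eq_pow_sum]
  have e1 : (∑ k : Fin K, (k : ℕ)) * 2 = K * (K - 1) := by
    rw [← Finset.sum_range (fun k => k), Finset.sum_range_id_mul_two]
  have e2 : (∑ l ∈ range L, l) * 2 = L * (L - 1) := Finset.sum_range_id_mul_two L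
  have e3 : ((A ^ (∑ k : Fin K, (k : ℕ))) ^ L * (B ^ (∑ l ∈ range L, l)) ^ K) ^ 2
      = A ^ (((∑ k : Fin K, (k : ℕ)) * 2) * L) * B ^ (((∑ l ∈ range L, l) * 2) * K) := by ring
  rw [e3, e1, e2]
  ring

theorem sq_le_three_pow (K : ℕ) : K ^ 2 ≤ 3 ^ K := by
  induction K with
  | zero => norm_num
  | succ K ih =>
    rcases Nat.lt_or_ge K 2 with h | h
    · interval_cases K <;> norm_num
    · have : (K + 1) ^ 2 ≤ 3 * K ^ 2 := by nlinarith
      calc (K + 1) ^ 2 ≤ 3 * K ^ 2 := this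
        _ ≤ 3 * 3 ^ K := Nat.mul_le_mul_left 3 ih
        _ = 3 ^ (K + 1) := by rw [pow_succ]; ring

/-- The final numerical inequality. -/
theorem numeric (M L h : ℕ) (hh : 1 ≤ h) (hL : L = 4 * (M + 4)) :
    ((16 * L * h) * L) ^ 2 * ((3 ^ (M + 1)) ^ (16 * L * h - 1) * (4 ^ (9 * L * h)) ^ (L - 1))
      < 3 ^ ((16 * L * h) * L - 1) := by
  set q : ℕ := 4 * L * h with hq
  have hL16 : 16 ≤ L := by omega
  have hq1 : 64 ≤ q := by
    calc 64 ≤ 4 * L * 1 := by omega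
      _ ≤ 4 * L * h := Nat.mul_le_mul_left _ hh
  have hK : 16 * L * h = 4 * q := by rw [hq]; ring
  have hLK : L ≤ 16 * L * h := by nlinarith
  have h1 : ((16 * L * h) * L) ^ 2 ≤ 3 ^ (8 * q) := by
    calc ((16 * L * h) * L) ^ 2 ≤ ((16 * L * h) * (16 * L * h)) ^ 2 :=
          Nat.pow_le_pow_left (Nat.mul_le_mul_left _ hLK) 2
      _ = ((16 * L * h) ^ 2) ^ 2 := by ring
      _ ≤ (3 ^ (16 * L * h)) ^ 2 := Nat.pow_le_pow_left (sq_le_three_pow _) 2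
      _ = 3 ^ (8 * q) := by rw [← pow_mul, hK]; congr 1; ring
  have h2 : ((3 : ℕ) ^ (M + 1)) ^ (16 * L * h - 1) = 3 ^ ((M + 1) * (4 * q - 1)) := by
    rw [← pow_mul, hK]
  have h3 : ((4 : ℕ) ^ (9 * L * h)) ^ (L - 1) ≤ 3 ^ (3 * q * (L - 1)) := by
    have e1 : (4 : ℕ) ^ (9 * L * h) ≤ 3 ^ (3 * q) := by
      calc (4 : ℕ) ^ (9 * L * h) = (4 ^ 9) ^ (L * h) := by rw [← pow_mul]; congr 1; ring
        _ ≤ (3 ^ 12) ^ (L * h) := Nat.pow_le_pow_left (by norm_num) _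
        _ = 3 ^ (3 * q) := by rw [← pow_mul, hq]; congr 1; ring
    calc ((4 : ℕ) ^ (9 * L * h)) ^ (L - 1) ≤ (3 ^ (3 * q)) ^ (L - 1) :=
          Nat.pow_le_pow_left e1 _
      _ = 3 ^ (3 * q * (L - 1)) := by rw [← pow_mul]
  have hexp : 8 * q + ((M + 1) * (4 * q - 1) + 3 * q * (L - 1)) < (16 * L * h) * L - 1 := by
    rw [hK]
    obtain ⟨L', rfl⟩ : ∃ L', L = L' + 1 := ⟨L - 1, by omega⟩
    obtain ⟨q', hq'⟩ : ∃ q', 4 * q = q' + 1 := ⟨4 * q - 1, by omega⟩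
    have e1 : 4 * q - 1 = q' := by omega
    rw [e1, Nat.add_sub_cancel]
    have e2 : 4 * q * (L' + 1) = 8 * q + (4 * q * (M + 1) + (3 * q * L' + (q * (L' + 4 - 8 - 4 * (M + 1))))) := by
      have e3 : L' = 4 * M + 15 := by omega
      subst e3
      have e4 : 4 * M + 15 + 4 - 8 - 4 * (M + 1) = 7 := by omega
      rw [e4]
      ring
    have e5 : L' + 4 - 8 - 4 * (M + 1) = 7 := by omega
    rw [e5] at e2
    rw [e2]
    have e6 : (M + 1) * q' + (M + 1) = 4 * q * (M + 1) := by rw [hq']; ring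
    omega
  calc ((16 * L * h) * L) ^ 2 * ((3 ^ (M + 1)) ^ (16 * L * h - 1) * (4 ^ (9 * L * h)) ^ (L - 1))
      ≤ 3 ^ (8 * q) * (3 ^ ((M + 1) * (4 * q - 1)) * 3 ^ (3 * q * (L - 1))) := by
        rw [h2]
        exact Nat.mul_le_mul h1 (Nat.mul_le_mul_left _ h3)
    _ = 3 ^ (8 * q + ((M + 1) * (4 * q - 1) + 3 * q * (L - 1))) := by
        rw [pow_add, pow_add]
    _ < 3 ^ ((16 * L * h) * L - 1) := Nat.pow_lt_pow_right (by norm_num) hexp

/-- The 3-adic estimate: `4 ^ n` and `ρ` cannot be 3-adically very close when `ρ` is small. -/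
theorem padic (n h M ρ L : ℕ) (hh : 1 ≤ h) (hρ1 : 1 ≤ ρ) (hρ : ρ ≤ 4 ^ h) (hL : L = 4 * (M + 4))
    (hn : 4 * L * h ≤ n) (hX : 9 * L * n ≤ 3 ^ M) :
    ¬ (3 : ℤ) ^ ((16 * L * h) * L) ∣ (ρ : ℤ) - 4 ^ n := by
  intro hdvd
  set K : ℕ := 16 * L * h with hK
  set I : ℕ := 4 * L * h + L with hI
  set J : ℕ := 4 * L with hJ
  have hL16 : 16 ≤ L := by omega
  have hLh : L ≤ L * h := by nlinarith
  have hKpos : 1 ≤ K := by
    rw [hK]
    nlinarith
  have hn1 : 1 ≤ n := by nlinarith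
  -- real matrix
  set xx : Fin I × Fin J → ℕ := fun p => (p.1 : ℕ) + (p.2 : ℕ) * n with hxx
  set yy : Fin I × Fin J → ℕ := fun p => 4 ^ (p.1 : ℕ) * ρ ^ (p.2 : ℕ) with hyy
  set MR : Matrix (Fin K × Fin L) (Fin I × Fin J) ℝ :=
    Matrix.of fun a p => ((xx p : ℕ) : ℝ) ^ (a.1 : ℕ) * ((yy p : ℕ) : ℝ) ^ (a.2 : ℕ) with hMR
  have hindep : ∀ c : Fin K × Fin L → ℝ, (∀ p, ∑ a, c a * MR a p = 0) → c = 0 := by
    intro c hc
    set c' : ℕ → ℕ → ℝ := fun k l => if h : k < K ∧ l < L then c (⟨k, h.1⟩, ⟨l, h.2⟩) else 0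
      with hc'
    have hz := zero_estimate K L (4 * L * h) J n ρ hρ1 hn (by
      rw [hJ, hK]
      have : L * (16 * L * h - 1) < L * (16 * L * h) :=
        Nat.mul_lt_mul_of_pos_left (by omega) (by omega)
      calc L * (16 * L * h - 1) < L * (16 * L * h) := this
        _ = 4 * L * h * (4 * L) := by ring) c' (by
      intro i hi j hj
      have h1 := hc (⟨i, hi⟩, ⟨j, hj⟩)
      rw [Fintype.sum_prod_type, Finset.sum_comm] at h1
      rw [Finset.sum_range]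
      rw [← h1]
      apply Finset.sum_congr rfl
      intro l _
      rw [Finset.sum_range, Finset.sum_mul]
      apply Finset.sum_congr rfl
      intro k _
      simp only [hc', hMR, hxx, hyy, Matrix.of_apply]
      rw [dif_pos ⟨k.2, l.2⟩]
      push_cast
      ring)
    funext ⟨k, l⟩
    have h2 := hz k k.2 l l.2
    simp only [hc'] at h2
    rw [dif_pos ⟨k.2, l.2⟩] at h2
    simpa using h2
  obtain ⟨φ, hφ⟩ := exists_minor MR hindep
  -- integer matrices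
  set MZ : Matrix (Fin K × Fin L) (Fin K × Fin L) ℤ :=
    Matrix.of fun a b => ((xx (φ b) : ℕ) : ℤ) ^ (a.1 : ℕ) * ((yy (φ b) : ℕ) : ℤ) ^ (a.2 : ℕ)
    with hMZ
  have hMZdet : MZ.det ≠ 0 := by
    intro h0
    apply hφ
    have h1 : MR.submatrix id φ = (Int.castRingHom ℝ).mapMatrix MZ := by
      ext a b
      simp [hMR, hMZ]
    rw [h1, ← RingHom.map_det, h0, map_zero]
  set GZ : Matrix (Fin K × Fin L) (Fin K × Fin L) ℤ :=
    Matrix.of fun a b => (3 : ℤ) ^ (a.1 : ℕ) * MZ a b with hGZ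
  have hGZdet : GZ.det ≠ 0 := by
    rw [hGZ, Matrix.det_mul_column]
    exact mul_ne_zero (Finset.prod_ne_zero_iff.mpr (fun a _ => by positivity)) hMZdet
  have hcard : Fintype.card (Fin K × Fin L) = K * L := by simp
  -- divisibility
  have hdiv : (3 : ℤ) ^ (∑ t ∈ range (K * L), t) ∣ GZ.det := by
    choose U hU using fun a : Fin K × Fin L => expand (K * L) (a.1 : ℕ) (a.2 : ℕ)
    have hYmod : ∀ b, (3 : ℤ) ^ (K * L) ∣ ((yy (φ b) : ℕ) : ℤ) - 4 ^ (xx (φ b)) := by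
      intro b
      simp only [hxx, hyy]
      push_cast
      have e1 : (4 : ℤ) ^ (((φ b).2 : ℕ) * n) = ((4 : ℤ) ^ n) ^ ((φ b).2 : ℕ) := by
        rw [mul_comm, pow_mul]
      rw [pow_add, e1, ← mul_sub]
      apply Dvd.dvd.mul_left
      exact hdvd.trans (sub_dvd_pow_sub_pow _ _ _)
    choose W hW using fun a b => hU a (xx (φ b)) ((yy (φ b) : ℕ) : ℤ) (hYmod b)
    have := det_div GZ U (fun i b => ((xx (φ b)).choose i : ℤ)) W (by
      intro a b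
      rw [hcard]
      rw [← hW a b]
      simp [hGZ, hMZ])
    rwa [hcard] at this
  -- size
  have hxle : ∀ p, xx p ≤ 3 ^ M := by
    intro p
    refine le_trans ?_ hX
    have h1 := p.1.2
    have h2 := p.2.2
    simp only [hxx]
    have h3 : (p.2 : ℕ) * n ≤ (4 * L - 1) * n := Nat.mul_le_mul_right n (by omega)
    have h4 : (4 * L - 1) * n + n = 4 * L * n := by
      have : 4 * L - 1 + 1 = 4 * L := by omega
      calc (4 * L - 1) * n + n = (4 * L - 1 + 1) * n := by ring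
        _ = 4 * L * n := by rw [this]
    have h5 : L ≤ L * n := by nlinarith
    nlinarith
  have hyle : ∀ p, yy p ≤ 4 ^ (9 * L * h) := by
    intro p
    have h1 := p.1.2
    have h2 := p.2.2
    simp only [hyy]
    calc 4 ^ (p.1 : ℕ) * ρ ^ (p.2 : ℕ) ≤ 4 ^ (p.1 : ℕ) * (4 ^ h) ^ (p.2 : ℕ) :=
          Nat.mul_le_mul_left _ (Nat.pow_le_pow_left hρ _)
      _ = 4 ^ ((p.1 : ℕ) + h * (p.2 : ℕ)) := by rw [← pow_mul, pow_add]
      _ ≤ 4 ^ (9 * L * h) := by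
          apply Nat.pow_le_pow_right (by norm_num)
          have h3 : h * (p.2 : ℕ) ≤ h * (4 * L) := Nat.mul_le_mul_left h (by omega)
          have h4 : (p.1 : ℕ) ≤ 4 * L * h + L := by omega
          nlinarith
  have hsize := abs_det_le GZ (fun a => ((3 : ℤ) ^ (M + 1)) ^ (a.1 : ℕ)
    * ((4 : ℤ) ^ (9 * L * h)) ^ (a.2 : ℕ)) (by
    intro a b
    simp only [hGZ, hMZ, Matrix.of_apply]
    rw [← mul_assoc, ← mul_pow, abs_mul, abs_pow, abs_pow]
    have e1 : |(3 : ℤ) * ((xx (φ b) : ℕ) : ℤ)| = ((3 * xx (φ b) : ℕ) : ℤ) := by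
      rw [abs_of_nonneg (by positivity)]; push_cast; ring
    have e2 : |((yy (φ b) : ℕ) : ℤ)| = ((yy (φ b) : ℕ) : ℤ) := abs_of_nonneg (by positivity)
    rw [e1, e2]
    have f1 : 3 * xx (φ b) ≤ 3 ^ (M + 1) := by
      rw [pow_succ]
      have := hxle (φ b)
      omega
    have f2 := hyle (φ b)
    have g1 : (3 * xx (φ b)) ^ (a.1 : ℕ) * (yy (φ b)) ^ (a.2 : ℕ)
        ≤ (3 ^ (M + 1)) ^ (a.1 : ℕ) * (4 ^ (9 * L * h)) ^ (a.2 : ℕ) :=
      Nat.mul_le_mul (Nat.pow_le_pow_left f1 _) (Nat.pow_le_pow_left f2 _)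
    exact_mod_cast g1)
  rw [hcard] at hsize
  set E := ∑ t ∈ range (K * L), t with hE
  have hE2 : E * 2 = (K * L) * (K * L - 1) := Finset.sum_range_id_mul_two _
  have hlow : (3 : ℤ) ^ E ≤ |GZ.det| := Int.le_of_dvd (abs_pos.mpr hGZdet) ((dvd_abs _ _).mpr hdiv)
  set T : ℤ := ∏ a : Fin K × Fin L, ((3 : ℤ) ^ (M + 1)) ^ (a.1 : ℕ)
    * ((4 : ℤ) ^ (9 * L * h)) ^ (a.2 : ℕ) with hT
  have hTpos : 0 ≤ T := Finset.prod_nonneg (fun a _ => by positivity)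
  have hT2 : T ^ 2 = (((3 : ℤ) ^ (M + 1)) ^ (K - 1) * ((4 : ℤ) ^ (9 * L * h)) ^ (L - 1)) ^ (K * L) :=
    prod_sq K L _ _
  have h1 : (3 : ℤ) ^ E ≤ ((K * L).factorial : ℤ) * T := hlow.trans hsize
  have h2 : ((3 : ℤ) ^ E) ^ 2 ≤ (((K * L).factorial : ℤ) * T) ^ 2 :=
    pow_le_pow_left₀ (by positivity) h1 2
  have h3 : ((3 : ℤ) ^ E) ^ 2 = ((3 : ℤ) ^ (K * L - 1)) ^ (K * L) := by
    rw [← pow_mul, hE2, ← pow_mul, mul_comm]
  have h4 : (((K * L).factorial : ℤ) * T) ^ 2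
      ≤ ((((K * L : ℕ) : ℤ) ^ 2)
        * (((3 : ℤ) ^ (M + 1)) ^ (K - 1) * ((4 : ℤ) ^ (9 * L * h)) ^ (L - 1))) ^ (K * L) := by
    rw [mul_pow, hT2, mul_pow (((K * L : ℕ) : ℤ) ^ 2)]
    apply mul_le_mul_of_nonneg_right _ (by positivity)
    have h5 : (K * L).factorial ≤ (K * L) ^ (K * L) := Nat.factorial_le_pow _
    have h6 : ((K * L).factorial : ℤ) ≤ (((K * L : ℕ) : ℤ)) ^ (K * L) := by exact_mod_cast h5
    calc ((K * L).factorial : ℤ) ^ 2 ≤ ((((K * L : ℕ) : ℤ)) ^ (K * L)) ^ 2 :=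
          pow_le_pow_left₀ (by positivity) h6 2
      _ = ((((K * L : ℕ) : ℤ)) ^ 2) ^ (K * L) := by rw [← pow_mul, ← pow_mul, mul_comm _ 2]
  have h7 : ((3 : ℤ) ^ (K * L - 1)) ^ (K * L) ≤ ((((K * L : ℕ) : ℤ) ^ 2)
        * (((3 : ℤ) ^ (M + 1)) ^ (K - 1) * ((4 : ℤ) ^ (9 * L * h)) ^ (L - 1))) ^ (K * L) := by
    rw [← h3]; exact h2.trans h4
  have hKL : K * L ≠ 0 := by
    have : 0 < K * L := Nat.mul_pos (by omega) (by omega)
    omega
  have h8 := (pow_le_pow_iff_left₀ (by positivity) (by positivity) hKL).mp h7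
  have h9 := numeric M L h hh hL
  rw [← hK] at h9
  have h10 : ((((K * L : ℕ) : ℤ) ^ 2)
        * (((3 : ℤ) ^ (M + 1)) ^ (K - 1) * ((4 : ℤ) ^ (9 * L * h)) ^ (L - 1)))
        < (3 : ℤ) ^ (K * L - 1) := by exact_mod_cast h9
  linarith

end Pool.Agent.H118_IntCx
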