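import Pool.Agent.H118_IntCx.Core
import Pool.Agent.H118_IntCx.Logs

namespace Pool.Agent.H118_IntCx

open Real

theorem setA1 (n y b : ℕ) (hn : 3000 ≤ n) (hy : 1 ≤ y) (hdvd : (3 : ℤ) ^ b ∣ (2 : ℤ) ^ n - y)
    (hb : (4282 : ℝ) / 10000 * n + 2 ≤ b) : (198 : ℝ) / 10000 * n - 2 ≤ logb 2 y := by
  set k : ℕ := 1048 * n / 10000 with hk
  set N : ℕ := 1093 * n / 10000 with hN
  have hk1 : (k : ℝ) ≤ 1048 / 10000 * n := by
    have h : 10000 * k ≤ 1048 * n := by omega
    have h' : (10000 : ℝ) * k ≤ 1048 * n := by exact_mod_cast h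
    linarith
  have hk2 : 1048 / 10000 * n - 1 ≤ (k : ℝ) := by
    have h : 1048 * n ≤ 10000 * k + 10000 := by omega
    have h' : (1048 : ℝ) * n ≤ 10000 * k + 10000 := by exact_mod_cast h
    linarith
  have hN1 : (N : ℝ) ≤ 1093 / 10000 * n := by
    have h : 10000 * N ≤ 1093 * n := by omega
    have h' : (10000 : ℝ) * N ≤ 1093 * n := by exact_mod_cast h
    linarith
  have hN2 : 1093 / 10000 * n - 1 ≤ (N : ℝ) := by
    have h : 1093 * n ≤ 10000 * N + 10000 := by omega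
    have h' : (1093 : ℝ) * n ≤ 10000 * N + 10000 := by exact_mod_cast h
    linarith
  have hnR : (3000 : ℝ) ≤ n := by exact_mod_cast hn
  have hk0 : (0 : ℝ) ≤ k := by positivity
  have hN0 : (0 : ℝ) ≤ N := by positivity
  have hnk : (0 : ℝ) ≤ (n : ℝ) / 3 - k := by linarith
  have h2Y : 2 * (N + k + 1) ≤ b := by
    have : ((2 * (N + k + 1) : ℕ) : ℝ) ≤ b := by
      push_cast
      linarith
    exact_mod_cast this
  have hd9 : (9 : ℤ) ^ (N + k + 1) ∣ (2 : ℤ) ^ n - y := by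
    have e : (9 : ℤ) ^ (N + k + 1) = 3 ^ (2 * (N + k + 1)) := by
      rw [pow_mul]; norm_num
    rw [e]
    exact (pow_dvd_pow 3 h2Y).trans hdvd
  have hl9 : (N + k + 1 : ℝ) * (2 * (1054 / 665)) ≤ (N + k + 1) * logb 2 9 := by
    apply mul_le_mul_of_nonneg_left _ (by positivity)
    rw [l9]
    have := l3_lo
    linarith
  have q1 := mul_le_mul_of_nonneg_left u35 hk0
  have q2 := mul_le_mul_of_nonneg_left u35_26 hnk
  have q3 := mul_le_mul_of_nonneg_left u35_27 (by positivity : (0 : ℝ) ≤ N + 1)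
  have hC : 6 + k * logb 2 35 + ((n : ℝ) / 3 - k) * logb 2 (35 / (35 - 9))
      + (N + 1) * logb 2 (35 / (35 - 8)) ≤ (N + k + 1) * logb 2 9 := by
    rw [show (35 : ℝ) - 9 = 26 by norm_num, show (35 : ℝ) - 8 = 27 by norm_num]
    linarith
  have hcore := core98 n k N y 28 35 (by norm_num) (by norm_num) hy (by omega) hd9 hC
  rw [show (28 : ℝ) - 9 = 19 by norm_num, show (28 : ℝ) - 1 = 27 by norm_num] at hcore
  have q4 := mul_le_mul_of_nonneg_left u28 hN0
  have q5 := mul_le_mul_of_nonneg_left u28_19 hnk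
  have q6 := mul_le_mul_of_nonneg_left u28_27 (by positivity : (0 : ℝ) ≤ k + 1)
  linarith

theorem setA2 (n y b : ℕ) (hn : 3000 ≤ n) (hy : 1 ≤ y) (hdvd : (3 : ℤ) ^ b ∣ (2 : ℤ) ^ n - y)
    (hb : (4408 : ℝ) / 10000 * n + 2 ≤ b) : (308 : ℝ) / 10000 * n - 2 ≤ logb 2 y := by
  set k : ℕ := 1088 * n / 10000 with hk
  set N : ℕ := 1116 * n / 10000 with hN
  have hk1 : (k : ℝ) ≤ 1088 / 10000 * n := by
    have h : 10000 * k ≤ 1088 * n := by omega
    have h' : (10000 : ℝ) * k ≤ 1088 * n := by exact_mod_cast h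
    linarith
  have hk2 : 1088 / 10000 * n - 1 ≤ (k : ℝ) := by
    have h : 1088 * n ≤ 10000 * k + 10000 := by omega
    have h' : (1088 : ℝ) * n ≤ 10000 * k + 10000 := by exact_mod_cast h
    linarith
  have hN1 : (N : ℝ) ≤ 1116 / 10000 * n := by
    have h : 10000 * N ≤ 1116 * n := by omega
    have h' : (10000 : ℝ) * N ≤ 1116 * n := by exact_mod_cast h
    linarith
  have hN2 : 1116 / 10000 * n - 1 ≤ (N : ℝ) := by
    have h : 1116 * n ≤ 10000 * N + 10000 := by omega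
    have h' : (1116 : ℝ) * n ≤ 10000 * N + 10000 := by exact_mod_cast h
    linarith
  have hnR : (3000 : ℝ) ≤ n := by exact_mod_cast hn
  have hk0 : (0 : ℝ) ≤ k := by positivity
  have hN0 : (0 : ℝ) ≤ N := by positivity
  have hnk : (0 : ℝ) ≤ (n : ℝ) / 3 - k := by linarith
  have h2Y : 2 * (N + k + 1) ≤ b := by
    have : ((2 * (N + k + 1) : ℕ) : ℝ) ≤ b := by
      push_cast
      linarith
    exact_mod_cast this
  have hd9 : (9 : ℤ) ^ (N + k + 1) ∣ (2 : ℤ) ^ n - y := by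
    have e : (9 : ℤ) ^ (N + k + 1) = 3 ^ (2 * (N + k + 1)) := by
      rw [pow_mul]; norm_num
    rw [e]
    exact (pow_dvd_pow 3 h2Y).trans hdvd
  have hl9 : (N + k + 1 : ℝ) * (2 * (1054 / 665)) ≤ (N + k + 1) * logb 2 9 := by
    apply mul_le_mul_of_nonneg_left _ (by positivity)
    rw [l9]
    have := l3_lo
    linarith
  have q1 := mul_le_mul_of_nonneg_left u35 hk0
  have q2 := mul_le_mul_of_nonneg_left u35_26 hnk
  have q3 := mul_le_mul_of_nonneg_left u35_27 (by positivity : (0 : ℝ) ≤ N + 1)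
  have hC : 6 + k * logb 2 35 + ((n : ℝ) / 3 - k) * logb 2 (35 / (35 - 9))
      + (N + 1) * logb 2 (35 / (35 - 8)) ≤ (N + k + 1) * logb 2 9 := by
    rw [show (35 : ℝ) - 9 = 26 by norm_num, show (35 : ℝ) - 8 = 27 by norm_num]
    linarith
  have hcore := core98 n k N y 28 35 (by norm_num) (by norm_num) hy (by omega) hd9 hC
  rw [show (28 : ℝ) - 9 = 19 by norm_num, show (28 : ℝ) - 1 = 27 by norm_num] at hcore
  have q4 := mul_le_mul_of_nonneg_left u28 hN0
  have q5 := mul_le_mul_of_nonneg_left u28_19 hnk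
  have q6 := mul_le_mul_of_nonneg_left u28_27 (by positivity : (0 : ℝ) ≤ k + 1)
  linarith

theorem setA3 (n y b : ℕ) (hn : 3000 ≤ n) (hy : 1 ≤ y) (hdvd : (3 : ℤ) ^ b ∣ (2 : ℤ) ^ n - y)
    (hb : (4850 : ℝ) / 10000 * n + 2 ≤ b) : (732 : ℝ) / 10000 * n - 2 ≤ logb 2 y := by
  set k : ℕ := 1234 * n / 10000 with hk
  set N : ℕ := 1191 * n / 10000 with hN
  have hk1 : (k : ℝ) ≤ 1234 / 10000 * n := by
    have h : 10000 * k ≤ 1234 * n := by omega
    have h' : (10000 : ℝ) * k ≤ 1234 * n := by exact_mod_cast h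
    linarith
  have hk2 : 1234 / 10000 * n - 1 ≤ (k : ℝ) := by
    have h : 1234 * n ≤ 10000 * k + 10000 := by omega
    have h' : (1234 : ℝ) * n ≤ 10000 * k + 10000 := by exact_mod_cast h
    linarith
  have hN1 : (N : ℝ) ≤ 1191 / 10000 * n := by
    have h : 10000 * N ≤ 1191 * n := by omega
    have h' : (10000 : ℝ) * N ≤ 1191 * n := by exact_mod_cast h
    linarith
  have hN2 : 1191 / 10000 * n - 1 ≤ (N : ℝ) := by
    have h : 1191 * n ≤ 10000 * N + 10000 := by omega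
    have h' : (1191 : ℝ) * n ≤ 10000 * N + 10000 := by exact_mod_cast h
    linarith
  have hnR : (3000 : ℝ) ≤ n := by exact_mod_cast hn
  have hk0 : (0 : ℝ) ≤ k := by positivity
  have hN0 : (0 : ℝ) ≤ N := by positivity
  have hnk : (0 : ℝ) ≤ (n : ℝ) / 3 - k := by linarith
  have h2Y : 2 * (N + k + 1) ≤ b := by
    have : ((2 * (N + k + 1) : ℕ) : ℝ) ≤ b := by
      push_cast
      linarith
    exact_mod_cast this
  have hd9 : (9 : ℤ) ^ (N + k + 1) ∣ (2 : ℤ) ^ n - y := by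
    have e : (9 : ℤ) ^ (N + k + 1) = 3 ^ (2 * (N + k + 1)) := by
      rw [pow_mul]; norm_num
    rw [e]
    exact (pow_dvd_pow 3 h2Y).trans hdvd
  have hl9 : (N + k + 1 : ℝ) * (2 * (1054 / 665)) ≤ (N + k + 1) * logb 2 9 := by
    apply mul_le_mul_of_nonneg_left _ (by positivity)
    rw [l9]
    have := l3_lo
    linarith
  have q1 := mul_le_mul_of_nonneg_left u31 hk0
  have q2 := mul_le_mul_of_nonneg_left u31_22 hnk
  have q3 := mul_le_mul_of_nonneg_left u31_23 (by positivity : (0 : ℝ) ≤ N + 1)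
  have hC : 6 + k * logb 2 31 + ((n : ℝ) / 3 - k) * logb 2 (31 / (31 - 9))
      + (N + 1) * logb 2 (31 / (31 - 8)) ≤ (N + k + 1) * logb 2 9 := by
    rw [show (31 : ℝ) - 9 = 22 by norm_num, show (31 : ℝ) - 8 = 23 by norm_num]
    linarith
  have hcore := core98 n k N y 26 31 (by norm_num) (by norm_num) hy (by omega) hd9 hC
  rw [show (26 : ℝ) - 9 = 17 by norm_num, show (26 : ℝ) - 1 = 25 by norm_num] at hcore
  have q4 := mul_le_mul_of_nonneg_left u26 hN0
  have q5 := mul_le_mul_of_nonneg_left u26_17 hnk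
  have q6 := mul_le_mul_of_nonneg_left u26_25 (by positivity : (0 : ℝ) ≤ k + 1)
  linarith

theorem setB (n y b c : ℕ) (hn : 3000 ≤ n) (hy : 1 ≤ y)
    (hdvd : (3 : ℤ) ^ b * 5 ^ c ∣ (2 : ℤ) ^ n - y)
    (hb : (1066 : ℝ) / 10000 * n + 2 ≤ b) (hc : (1066 : ℝ) / 10000 * n + 2 ≤ c) :
    (237 : ℝ) / 10000 * n - 4 ≤ logb 2 y := by
  set k : ℕ := 535 * n / 10000 with hk
  set N : ℕ := 2 * (531 * n / 20000) + 1 with hN
  have hk1 : (k : ℝ) ≤ 535 / 10000 * n := by
    have h : 10000 * k ≤ 535 * n := by omega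
    have h' : (10000 : ℝ) * k ≤ 535 * n := by exact_mod_cast h
    linarith
  have hk2 : 535 / 10000 * n - 1 ≤ (k : ℝ) := by
    have h : 535 * n ≤ 10000 * k + 10000 := by omega
    have h' : (535 : ℝ) * n ≤ 10000 * k + 10000 := by exact_mod_cast h
    linarith
  have hN1 : (N : ℝ) ≤ 531 / 10000 * n + 1 := by
    have h : 10000 * N ≤ 531 * n + 10000 := by omega
    have h' : (10000 : ℝ) * N ≤ 531 * n + 10000 := by exact_mod_cast h
    linarith
  have hN2 : 531 / 10000 * n - 1 ≤ (N : ℝ) := by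
    have h : 531 * n ≤ 10000 * N + 10000 := by omega
    have h' : (531 : ℝ) * n ≤ 10000 * N + 10000 := by exact_mod_cast h
    linarith
  have hnR : (3000 : ℝ) ≤ n := by exact_mod_cast hn
  have hk0 : (0 : ℝ) ≤ k := by positivity
  have hN0 : (0 : ℝ) ≤ N := by positivity
  have hnk : (0 : ℝ) ≤ (n : ℝ) / 4 - k := by linarith
  have hYb : N + k + 1 ≤ b := by
    have : ((N + k + 1 : ℕ) : ℝ) ≤ b := by
      push_cast
      linarith
    exact_mod_cast this
  have hYc : N + k + 1 ≤ c := by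
    have : ((N + k + 1 : ℕ) : ℝ) ≤ c := by
      push_cast
      linarith
    exact_mod_cast this
  have hd15 : (15 : ℤ) ^ (N + k + 1) ∣ (2 : ℤ) ^ n - y := by
    have e : (15 : ℤ) ^ (N + k + 1) = 3 ^ (N + k + 1) * 5 ^ (N + k + 1) := by
      rw [← mul_pow]; norm_num
    rw [e]
    exact (mul_dvd_mul (pow_dvd_pow 3 hYb) (pow_dvd_pow 5 hYc)).trans hdvd
  have hl15 : (N + k + 1 : ℝ) * (1054 / 665 + 339 / 146) ≤ (N + k + 1) * logb 2 15 := by
    apply mul_le_mul_of_nonneg_left _ (by positivity)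
    rw [l15]
    have := l3_lo
    have := l5_lo
    linarith
  have q1 := mul_le_mul_of_nonneg_left u80 hk0
  have q2 := mul_le_mul_of_nonneg_left u80_65 hnk
  have q3 := mul_le_mul_of_nonneg_left u80_64 (by positivity : (0 : ℝ) ≤ N + 1)
  have hC : 4 + k * logb 2 80 + ((n : ℝ) / 4 - k) * logb 2 (80 / (80 - 15))
      + (N + 1) * logb 2 (80 / (80 - 16)) ≤ (N + k + 1) * logb 2 15 := by
    rw [show (80 : ℝ) - 15 = 65 by norm_num, show (80 : ℝ) - 16 = 64 by norm_num]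
    linarith
  have hNodd : Odd N := ⟨531 * n / 20000, hN⟩
  have hcore := core15 n k N y 70 80 (by norm_num) (by norm_num) hy (by omega) hNodd hd15 hC
  rw [show (70 : ℝ) - 15 = 55 by norm_num, show (70 : ℝ) + 1 = 71 by norm_num] at hcore
  have q4 := mul_le_mul_of_nonneg_left u70 hN0
  have q5 := mul_le_mul_of_nonneg_left u70_55 hnk
  have q6 := mul_le_mul_of_nonneg_left u70_71 (by positivity : (0 : ℝ) ≤ k + 1)
  linarith

end Pool.Agent.H118_IntCx
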