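import Pool.Agent.H118_IntCx.Lg

/-!
# The subspace theorem along an ultrafilter, without coordinates
-/

set_option autoImplicit false

namespace Pool.Agent.H118_IntCx

open Filter Topology Pool.Agent.TH461.SST Pool.Agent.TH932.Germs Pool.Agent.TH551.SU

variable {s : ℕ} {b : Fin s → ℕ}

lemma ev_top {n : ℕ → ℝ} (hn : Tendsto n atTop atTop) (C : ℝ) :
    ∀ᶠ t in (UU : Filter ℕ), C ≤ n t := ev_of_atTop (hn.eventually_ge_atTop C)

/-- for a nonzero integer, minus the size at a prime is at most the logarithm -/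
lemma neg_lg_le (hb : ∀ v, (b v).Prime) (hbi : Function.Injective b) (v : Fin s) {z : ℤ}
    (hz : z ≠ 0) : -lg b (some v) (z : ℚ) ≤ Real.log |(z : ℝ)| := by
  classical
  have h1 := sum_lg_int_nonneg hb hbi hz
  rw [Fintype.sum_option, lg_none_int] at h1
  have h2 : ∑ w : Fin s, lg b (some w) (z : ℚ) ≤ lg b (some v) (z : ℚ) := by
    rw [← Finset.add_sum_erase _ _ (Finset.mem_univ v)]
    have : ∑ w ∈ Finset.univ.erase v, lg b (some w) (z : ℚ) ≤ 0 :=
      Finset.sum_nonpos fun w _ => lg_int_le hb w z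
    linarith
  linarith

theorem sub_uu (hb : ∀ v, (b v).Prime) (hbi : Function.Injective b) (n : ℕ → ℝ)
    (hn : Tendsto n atTop atTop) {E : Type} [AddCommGroup E] [Module ℚ E] [Module.Finite ℚ E]
    (Λ : ℕ → E →ₗ[ℚ] ℚ) (T : Set E) (hT : Submodule.span ℚ T = ⊤)
    (hTi : ∀ w ∈ T, ∀ᶠ t in (UU : Filter ℕ), ∃ z : ℤ, Λ t w = z)
    (hTb : ∀ w ∈ T, ∃ c : ℝ, ∀ᶠ t in (UU : Filter ℕ), |(Λ t w : ℝ)| ≤ Real.exp (c * n t))
    (hgen : ∀ w : E, w ≠ 0 → ∀ᶠ t in (UU : Filter ℕ), Λ t w ≠ 0)
    {d : ℕ} (hd : Module.finrank ℚ E = d) (G : Option (Fin s) → Fin d → E)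
    (hG : ∀ v, LinearIndependent ℚ (G v)) (γ : ℝ) (hγ : 0 < γ) :
    ∀ᶠ t in (UU : Filter ℕ), -(γ * n t) ≤ ∑ v, ∑ l, lg b v (Λ t (G v l)) := by
  classical
  rcases Nat.eq_zero_or_pos d with hd0 | hd1
  · subst hd0
    filter_upwards [ev_top hn 0] with t ht
    simp only [Finset.univ_eq_empty, Finset.sum_empty, Finset.sum_const_zero]
    have := mul_nonneg hγ.le ht
    linarith
  by_contra hcon
  have hcon' : ∀ᶠ t in (UU : Filter ℕ), ∑ v, ∑ l, lg b v (Λ t (G v l)) < -(γ * n t) := by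
    have := Ultrafilter.eventually_not.2 hcon
    filter_upwards [this] with t ht
    exact not_le.1 ht
  -- a basis
  obtain ⟨T', hT'T, hspan, hli⟩ := exists_linearIndependent ℚ T
  let B0 : Module.Basis T' ℚ E := Module.Basis.mk hli (by
    rw [Subtype.range_coe_subtype, Set.setOf_mem_eq, hspan, hT])
  have hfin : Finite T' := Module.Finite.finite_basis B0
  have : Fintype T' := Fintype.ofFinite T'
  have hcard : Fintype.card T' = d := by
    rw [← hd, Module.finrank_eq_card_basis B0]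
  let E0 : T' ≃ Fin d := Fintype.equivFinOfCardEq hcard
  let B : Module.Basis (Fin d) ℚ E := B0.reindex E0
  have hBT : ∀ j, B j ∈ T := by
    intro j
    have : B j = (E0.symm j : T') := by
      simp [B, B0]
    rw [this]
    exact hT'T (E0.symm j).2
  -- integral matrices
  set D : ℕ := ∏ v, ∏ l, ∏ j, (B.repr (G v l) j).den with hD
  have hD0 : D ≠ 0 := by
    rw [hD]
    exact Finset.prod_ne_zero_iff.2 fun v _ => Finset.prod_ne_zero_iff.2 fun l _ =>
      Finset.prod_ne_zero_iff.2 fun j _ => Rat.den_ne_zero _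
  have hD0' : (D : ℚ) ≠ 0 := by exact_mod_cast hD0
  have hex : ∀ v l j, ∃ a : ℤ, (a : ℚ) = D * B.repr (G v l) j := by
    intro v l j
    obtain ⟨m, hm⟩ : (B.repr (G v l) j).den ∣ D :=
      ((Finset.dvd_prod_of_mem (fun j => (B.repr (G v l) j).den) (Finset.mem_univ j)).trans
        (Finset.dvd_prod_of_mem (fun l => ∏ j, (B.repr (G v l) j).den) (Finset.mem_univ l))).trans
        (Finset.dvd_prod_of_mem (fun v => ∏ l, ∏ j, (B.repr (G v l) j).den) (Finset.mem_univ v))
    refine ⟨(B.repr (G v l) j).num * m, ?_⟩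
    rw [hm]
    push_cast
    have h3 : (B.repr (G v l) j) * ((B.repr (G v l) j).den : ℚ) = (B.repr (G v l) j).num :=
      Rat.mul_den_eq_num _
    rw [← h3]
    ring
  choose a ha using hex
  have hGB : ∀ v l, (D : ℚ) • G v l = ∑ j, (a v l j : ℚ) • B j := by
    intro v l
    conv_lhs => rw [← B.sum_repr (G v l)]
    rw [Finset.smul_sum]
    refine Finset.sum_congr rfl fun j _ => ?_
    rw [smul_smul, ha]
  set M : Option (Fin s) → Matrix (Fin d) (Fin d) ℤ := fun v => Matrix.of (a v) with hM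
  have hMdet : ∀ v, (M v).det ≠ 0 := by
    intro v h0
    obtain ⟨w, hw0, hw⟩ := Matrix.exists_vecMul_eq_zero_iff.2 h0
    apply hw0
    have h1 : ∀ j, ∑ l, w l * a v l j = 0 := fun j => congrFun hw j
    have h2 : ∑ l, (w l : ℚ) • G v l = 0 := by
      have h3 : (D : ℚ) • ∑ l, (w l : ℚ) • G v l = 0 := by
        rw [Finset.smul_sum]
        have h4 : ∀ l, (D : ℚ) • (w l : ℚ) • G v l = ∑ j, ((w l : ℚ) * a v l j) • B j := by
          intro l
          rw [smul_comm, hGB, Finset.smul_sum]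
          exact Finset.sum_congr rfl fun j _ => by rw [smul_smul]
        rw [Finset.sum_congr rfl fun l _ => h4 l, Finset.sum_comm]
        refine Finset.sum_eq_zero fun j _ => ?_
        rw [← Finset.sum_smul]
        have h5 : ∑ l, (w l : ℚ) * a v l j = 0 := by exact_mod_cast h1 j
        rw [h5, zero_smul]
      rcases smul_eq_zero.1 h3 with h | h
      · exact absurd h hD0'
      · exact h
    have h6 := Fintype.linearIndependent_iff.1 (hG v) (fun l => (w l : ℚ)) h2
    funext l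
    exact_mod_cast h6 l
  have hPl : Places (M none) (fun v => M (some v)) b := by
    refine ⟨hMdet _, fun v => hMdet _, fun v => (hb v).two_le, ?_⟩
    intro v v' hvv
    exact (Nat.coprime_primes (hb v) (hb v')).2 fun h => hvv (hbi h)
  -- the integral vectors
  set x : ℕ → Fin d → ℤ := fun t j => (Λ t (B j)).num with hx
  have hxe : ∀ᶠ t in (UU : Filter ℕ), ∀ j, Λ t (B j) = x t j := by
    rw [eventually_all]
    intro j
    filter_upwards [hTi (B j) (hBT j)] with t ht
    obtain ⟨z, hz⟩ := ht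
    simp only [hx]
    rw [hz, Rat.num_intCast]
  set F : Option (Fin s) → Fin d → ℕ → ℤ := fun v l t => ∑ j, a v l j * x t j with hF
  have hFe : ∀ᶠ t in (UU : Filter ℕ), ∀ v l, (F v l t : ℚ) = D * Λ t (G v l) := by
    filter_upwards [hxe] with t ht v l
    have h1 : Λ t ((D : ℚ) • G v l) = Λ t (∑ j, (a v l j : ℚ) • B j) := by rw [hGB]
    rw [map_smul, smul_eq_mul, map_sum] at h1
    rw [h1]
    simp only [hF]
    push_cast
    refine Finset.sum_congr rfl fun j _ => ?_
    rw [map_smul, smul_eq_mul, ht j]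
  have hG0 : ∀ᶠ t in (UU : Filter ℕ), ∀ v l, Λ t (G v l) ≠ 0 := by
    rw [eventually_all]
    intro v
    rw [eventually_all]
    intro l
    exact hgen _ ((hG v).ne_zero l)
  -- bounds
  have hbd : ∃ c : ℝ, ∀ᶠ t in (UU : Filter ℕ), ∀ j, |(Λ t (B j) : ℝ)| ≤ Real.exp (c * n t) := by
    choose cc hcc using fun j => hTb (B j) (hBT j)
    refine ⟨∑ j, |cc j|, ?_⟩
    have h1 : ∀ᶠ t in (UU : Filter ℕ), ∀ j, |(Λ t (B j) : ℝ)| ≤ Real.exp (cc j * n t) := by
      rw [eventually_all]
      exact hcc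
    filter_upwards [h1, ev_top hn 0] with t h2 h3 j
    refine (h2 j).trans (Real.exp_le_exp.2 (mul_le_mul_of_nonneg_right ?_ h3))
    exact (le_abs_self _).trans (Finset.single_le_sum (f := fun j => |cc j|)
      (fun _ _ => abs_nonneg _) (Finset.mem_univ j))
  obtain ⟨c1, hc1⟩ := hbd
  set K : ℝ := ∑ v, ∑ l, ∑ j, |(a v l j : ℝ)| with hK
  have hK0 : 0 ≤ K := by positivity
  have hKv : ∀ v l, ∑ j, |(a v l j : ℝ)| ≤ K := by
    intro v l
    refine le_trans ?_ (Finset.single_le_sum (f := fun v => ∑ l, ∑ j, |(a v l j : ℝ)|)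
      (fun _ _ => by positivity) (Finset.mem_univ v))
    exact Finset.single_le_sum (f := fun l => ∑ j, |(a v l j : ℝ)|)
      (fun _ _ => by positivity) (Finset.mem_univ l)
  set c : ℝ := max 1 (|c1| + 1) with hc
  have hF1 : ∀ᶠ t in (UU : Filter ℕ), ∀ v l, F v l t ≠ 0 ∧ Real.log |(F v l t : ℝ)| ≤ c * n t := by
    filter_upwards [hFe, hG0, hc1, hxe, ev_top hn 0, ev_top hn (Real.log (K + 1))]
      with t h1 h2 h3 h4 h5 h6 v l
    have h7 : F v l t ≠ 0 := by
      intro h0
      have h8 := h1 v l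
      rw [h0, Int.cast_zero] at h8
      exact mul_ne_zero hD0' (h2 v l) h8.symm
    refine ⟨h7, ?_⟩
    have h9 : |(F v l t : ℝ)| ≤ (K + 1) * Real.exp (|c1| * n t) := by
      have h10 : |(F v l t : ℝ)| ≤ ∑ j, |(a v l j : ℝ)| * Real.exp (|c1| * n t) := by
        simp only [hF]
        push_cast
        refine (Finset.abs_sum_le_sum_abs _ _).trans (Finset.sum_le_sum fun j _ => ?_)
        rw [abs_mul]
        refine mul_le_mul_of_nonneg_left ?_ (abs_nonneg _)
        have h11 := h3 j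
        rw [h4 j] at h11
        push_cast at h11
        refine h11.trans (Real.exp_le_exp.2 (mul_le_mul_of_nonneg_right (le_abs_self _) h5))
      rw [← Finset.sum_mul] at h10
      refine h10.trans (mul_le_mul_of_nonneg_right ?_ (Real.exp_pos _).le)
      linarith [hKv v l]
    have h12 : (0 : ℝ) < |(F v l t : ℝ)| := abs_pos.2 (by exact_mod_cast h7)
    have h13 := Real.log_le_log h12 h9
    rw [Real.log_mul (by linarith) (Real.exp_pos _).ne', Real.log_exp] at h13
    have h14 : (|c1| + 1) * n t ≤ c * n t :=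
      mul_le_mul_of_nonneg_right (le_max_right _ _) h5
    linarith
  obtain ⟨C2, hC2⟩ : ∃ C2 : ℝ, C2 = d * ∑ v, lg b v (D : ℚ) := ⟨_, rfl⟩
  -- apply the subspace theorem
  have hmain : ∀ᶠ t in (UU : Filter ℕ), Size b c (γ / 2) (n t)
      (fun v l => padicValInt (b v) (F (some v) l t)) (fun l => |(F none l t : ℝ)|) ∧ x t ≠ 0 ∧
      Sol (M none) (fun v => M (some v)) b (fun v l => padicValInt (b v) (F (some v) l t))
        (fun l => |(F none l t : ℝ)|) (x t) := by
    filter_upwards [hF1, hFe, hG0, hcon', ev_top hn (2 / γ * C2), ev_top hn 0]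
      with t h1 h2 h3 h4 h5 h6
    have hval : ∀ v l, (padicValInt (b v) (F (some v) l t) : ℝ) * Real.log (b v)
        = -lg b (some v) (F (some v) l t : ℚ) := by
      intro v l
      rw [lg_some_int hb v (h1 (some v) l).1]
      ring
    refine ⟨⟨?_, ?_, ?_, ?_⟩, ?_, ?_, ?_⟩
    · intro v l
      rw [hval]
      exact (neg_lg_le hb hbi v (h1 _ l).1).trans (h1 _ l).2
    · intro l
      exact abs_pos.2 (by exact_mod_cast (h1 none l).1)
    · intro l
      have h7 : (1 : ℝ) ≤ |(F none l t : ℝ)| := by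
        exact_mod_cast Int.one_le_abs (h1 none l).1
      rw [abs_of_nonneg (Real.log_nonneg h7)]
      exact (h1 none l).2
    · have h7 : ∑ l, Real.log |(F none l t : ℝ)| -
          ∑ v : Fin s, ∑ l, (padicValInt (b v) (F (some v) l t) : ℝ) * Real.log (b v)
          = ∑ v, ∑ l, lg b v (F v l t : ℚ) := by
        rw [Fintype.sum_option]
        simp only [hval, Finset.sum_neg_distrib, lg_none_int]
        ring
      have h8 : ∑ v, ∑ l, lg b v (F v l t : ℚ) = C2 + ∑ v, ∑ l, lg b v (Λ t (G v l)) := by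
        rw [hC2, Finset.mul_sum, ← Finset.sum_add_distrib]
        refine Finset.sum_congr rfl fun v _ => ?_
        have h9 : ∀ l, lg b v (F v l t : ℚ) = lg b v (D : ℚ) + lg b v (Λ t (G v l)) := by
          intro l
          rw [h2 v l, lg_mul hb v hD0' (h3 v l)]
        rw [Finset.sum_congr rfl fun l _ => h9 l, Finset.sum_add_distrib, Finset.sum_const,
          Finset.card_univ, Fintype.card_fin, nsmul_eq_mul]
      have h10 : C2 ≤ γ / 2 * n t := by
        have := mul_le_mul_of_nonneg_left h5 (half_pos hγ).le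
        have h11 : γ / 2 * (2 / γ * C2) = C2 := by field_simp
        linarith
      linarith
    · intro h0
      have h7 : F none ⟨0, hd1⟩ t = 0 := by
        simp only [hF]
        rw [h0]
        simp
      exact (h1 none ⟨0, hd1⟩).1 h7
    · intro l
      have h7 : (∑ j, M none l j * x t j) = F none l t := rfl
      rw [h7]
    · intro v l
      have h7 : (∑ j, M (some v) l j * x t j) = F (some v) l t := rfl
      rw [h7]
      have := Fact.mk (hb v)
      exact padicValInt_dvd _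
  obtain ⟨y, hy0, hy⟩ := rel_uu hd1 (M none) (fun v => M (some v)) b hPl c (γ / 2)
    (le_max_left _ _) (half_pos hγ) n hn _ _ x hmain
  have hw : ∑ j, (y j : ℚ) • B j ≠ 0 := by
    intro h0
    apply hy0
    have := Fintype.linearIndependent_iff.1 B.linearIndependent (fun j => (y j : ℚ)) h0
    funext j
    exact_mod_cast this j
  obtain ⟨t, h1, h2, h3⟩ := ((hgen _ hw).and (hy.and hxe)).exists
  apply h1
  rw [map_sum]
  have h4 : ∀ j, Λ t ((y j : ℚ) • B j) = ((y j * x t j : ℤ) : ℚ) := by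
    intro j
    rw [map_smul, smul_eq_mul, h3 j]
    push_cast
    ring
  rw [Finset.sum_congr rfl fun j _ => h4 j]
  exact_mod_cast h2

theorem sub_uu' (hb : ∀ v, (b v).Prime) (hbi : Function.Injective b) (n : ℕ → ℝ)
    (hn : Tendsto n atTop atTop) {E : Type} [AddCommGroup E] [Module ℚ E] [Module.Finite ℚ E]
    (Λ : ℕ → E →ₗ[ℚ] ℚ) (T : Set E) (hT : Submodule.span ℚ T = ⊤)
    (hTi : ∀ w ∈ T, ∀ᶠ t in (UU : Filter ℕ), ∃ z : ℤ, Λ t w = z)
    (hTb : ∀ w ∈ T, ∃ c : ℝ, ∀ᶠ t in (UU : Filter ℕ), |(Λ t w : ℝ)| ≤ Real.exp (c * n t))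
    (hgen : ∀ w : E, w ≠ 0 → ∀ᶠ t in (UU : Filter ℕ), Λ t w ≠ 0)
    {ι : Type} [Fintype ι] (hι : Fintype.card ι = Module.finrank ℚ E)
    (G : Option (Fin s) → ι → E)
    (hG : ∀ v, LinearIndependent ℚ (G v)) (γ : ℝ) (hγ : 0 < γ) :
    ∀ᶠ t in (UU : Filter ℕ), -(γ * n t) ≤ ∑ v, ∑ l, lg b v (Λ t (G v l)) := by
  let e : ι ≃ Fin (Fintype.card ι) := Fintype.equivFin ι
  have h := sub_uu hb hbi n hn Λ T hT hTi hTb hgen hι.symm (fun v l => G v (e.symm l))
    (fun v => (hG v).comp _ e.symm.injective) γ hγ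
  filter_upwards [h] with t ht
  refine ht.trans (le_of_eq ?_)
  refine Finset.sum_congr rfl fun v _ => ?_
  rw [← Equiv.sum_comp e]
  exact Finset.sum_congr rfl fun l _ => by rw [Equiv.symm_apply_apply]

end Pool.Agent.H118_IntCx
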