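import Pool.Agent.TH461.SST.Main

/-!
# Sums of few integers equal to a power of two

If a power of two is a sum of a bounded number of positive integers, each a product of primes from
a fixed finite set and of a further factor, then the further factors are large, up to a common
factor.  The proof uses the subspace theorem of `TH461.SST`.
-/

set_option autoImplicit false

namespace Pool.Agent.H118_IntCx

open Finset Filter Topology Pool.Agent.TH461.SST

/-- eventual linear relations along a subsequence -/
def Rel {ι : Type} [Fintype ι] (X : ℕ → ι → ℚ) (φ : ℕ → ℕ) : Submodule ℚ (ι → ℚ) where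
  carrier := {r | ∀ᶠ k in atTop, ∑ o, r o * X (φ k) o = 0}
  add_mem' := by
    intro a b ha hb
    simp only [Set.mem_setOf_eq] at ha hb ⊢
    filter_upwards [ha, hb] with k h1 h2
    simp only [Pi.add_apply, add_mul, Finset.sum_add_distrib, h1, h2, add_zero]
  zero_mem' := by simp
  smul_mem' := by
    intro c a ha
    simp only [Set.mem_setOf_eq] at ha ⊢
    filter_upwards [ha] with k h1
    simp only [Pi.smul_apply, smul_eq_mul, mul_assoc, ← Finset.mul_sum, h1, mul_zero]

theorem mem_Rel {ι : Type} [Fintype ι] {X : ℕ → ι → ℚ} {φ : ℕ → ℕ} {r : ι → ℚ} :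
    r ∈ Rel X φ ↔ ∀ᶠ k in atTop, ∑ o, r o * X (φ k) o = 0 := Iff.rfl

/-- there is a subsequence along which a relation which holds infinitely often holds eventually -/
theorem exists_stable {ι : Type} [Fintype ι] (X : ℕ → ι → ℚ) :
    ∃ φ : ℕ → ℕ, StrictMono φ ∧ ∀ y : ι → ℚ,
      (∃ᶠ k in atTop, ∑ o, y o * X (φ k) o = 0) → y ∈ Rel X φ := by
  classical
  let P : ℕ → Prop := fun d => ∃ φ : ℕ → ℕ, StrictMono φ ∧ Module.finrank ℚ (Rel X φ) = d
  have hP0 : ∃ d, P d := ⟨_, id, strictMono_id, rfl⟩
  have hbd : ∀ d, P d → d ≤ Fintype.card ι := by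
    rintro d ⟨φ, _, rfl⟩
    calc Module.finrank ℚ (Rel X φ) ≤ Module.finrank ℚ (ι → ℚ) := Submodule.finrank_le _
      _ = Fintype.card ι := Module.finrank_fintype_fun_eq_card ℚ
  obtain ⟨d0, hd0⟩ := hP0
  have hspec : P (Nat.findGreatest P (Fintype.card ι)) :=
    Nat.findGreatest_spec (hbd d0 hd0) hd0
  obtain ⟨φ, hφ, hfr⟩ := hspec
  refine ⟨φ, hφ, ?_⟩
  intro y hy
  obtain ⟨ψ, hψ, hψ2⟩ := extraction_of_frequently_atTop hy
  have hle : Rel X φ ≤ Rel X (φ ∘ ψ) := by
    intro r hr
    rw [mem_Rel] at hr ⊢
    exact hψ.tendsto_atTop.eventually hr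
  have hmem : y ∈ Rel X (φ ∘ ψ) := by
    rw [mem_Rel]
    exact Eventually.of_forall hψ2
  have hPd : P (Module.finrank ℚ (Rel X (φ ∘ ψ))) := ⟨φ ∘ ψ, hφ.comp hψ, rfl⟩
  have hle2 : Module.finrank ℚ (Rel X (φ ∘ ψ)) ≤ Module.finrank ℚ (Rel X φ) := by
    rw [hfr]
    exact Nat.le_findGreatest (hbd _ hPd) hPd
  have heq := Submodule.eq_of_le_of_finrank_le hle hle2
  rw [heq]
  exact hmem

/-- minimal relation with nonnegative coefficients on the positive part -/
theorem exists_elementary {N : ℕ} (X : ℕ → Option (Fin N) → ℚ) (hX : ∀ t o, 0 < X t o)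
    (φ : ℕ → ℕ) (hsum : ∀ t, X t none = ∑ i, X t (some i)) (j : Fin N) :
    ∃ r ∈ Rel X φ, r (some j) ≠ 0 ∧ r none ≠ 0 ∧
      ∀ s ∈ Rel X φ, (∀ o, r o = 0 → s o = 0) → (∃ o, r o ≠ 0 ∧ s o = 0) → s = 0 := by
  classical
  -- no nonnegative relation
  have hpos : ∀ s ∈ Rel X φ, (∀ o, 0 ≤ s o) → s = 0 := by
    intro s hs h0
    rw [mem_Rel] at hs
    obtain ⟨k, hk⟩ := hs.exists
    funext o
    have := (Finset.sum_eq_zero_iff_of_nonneg
      (fun o _ => mul_nonneg (h0 o) (hX (φ k) o).le)).1 hk o (mem_univ o)
    rcases mul_eq_zero.1 this with h | h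
    · simpa using h
    · exact absurd h (hX _ _).ne'
  let Q : ℕ → Prop := fun d => ∃ r ∈ Rel X φ, (∀ i, 0 ≤ r (some i)) ∧ 0 < r (some j) ∧
    (univ.filter fun o => r o ≠ 0).card = d
  have hQ : ∃ d, Q d := by
    refine ⟨_, fun o => o.elim (-1) (fun _ => 1), ?_, ?_, ?_, rfl⟩
    · rw [mem_Rel]
      refine Eventually.of_forall fun k => ?_
      rw [Fintype.sum_option]
      simp only [Option.elim_none, Option.elim_some, one_mul, neg_mul]
      rw [hsum]
      ring
    · intro i; simp
    · simp
  obtain ⟨r, hr, hr0, hrj, hcard⟩ := Nat.find_spec hQ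
  have hmin : ∀ r' ∈ Rel X φ, (∀ i, 0 ≤ r' (some i)) → 0 < r' (some j) →
      (univ.filter fun o => r o ≠ 0).card ≤ (univ.filter fun o => r' o ≠ 0).card := by
    intro r' h1 h2 h3
    rw [hcard]
    exact Nat.find_min' hQ ⟨r', h1, h2, h3, rfl⟩
  refine ⟨r, hr, hrj.ne', ?_, ?_⟩
  · intro hnone
    have h := hpos r hr (by
      intro o
      cases o with
      | none => rw [hnone]
      | some i => exact hr0 i)
    rw [h] at hrj
    simp at hrj
  · intro s hs hsub hex
    by_contra hs0
    obtain ⟨o1, ho1, ho1'⟩ := hex
    -- a positive multiple can be subtracted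
    have key : ∀ s' ∈ Rel X φ, (∀ o, r o = 0 → s' o = 0) → s' (some j) ≤ 0 →
        (∃ i, 0 < s' (some i)) → False := by
      intro s' hs' hsub' hj' hi'
      obtain ⟨i0, hi0⟩ := hi'
      have hne : (univ.filter fun i => 0 < s' (some i)).Nonempty := ⟨i0, by simp [hi0]⟩
      obtain ⟨i1, hi1, hi1m⟩ := exists_min_image _ (fun i => r (some i) / s' (some i)) hne
      rw [mem_filter] at hi1
      have hi1p := hi1.2
      set c := r (some i1) / s' (some i1) with hc
      have hrp : 0 < r (some i1) := by
        rcases (hr0 i1).lt_or_eq with h | h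
        · exact h
        · have := hsub' _ h.symm
          rw [this] at hi1p
          exact absurd hi1p (lt_irrefl _)
      have hc0 : 0 < c := div_pos hrp hi1p
      have hmem : r - c • s' ∈ Rel X φ := Submodule.sub_mem _ hr (Submodule.smul_mem _ _ hs')
      have h1 : ∀ i, 0 ≤ (r - c • s') (some i) := by
        intro i
        simp only [Pi.sub_apply, Pi.smul_apply, smul_eq_mul]
        rcases le_or_gt (s' (some i)) 0 with h | h
        · have := hr0 i
          nlinarith
        · have h2 := hi1m i (by simp [h])
          rw [le_div_iff₀ h] at h2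
          linarith
      have h2 : 0 < (r - c • s') (some j) := by
        simp only [Pi.sub_apply, Pi.smul_apply, smul_eq_mul]
        nlinarith
      have h3 := hmin _ hmem h1 h2
      have h4 : (univ.filter fun o => (r - c • s') o ≠ 0) ⊂ (univ.filter fun o => r o ≠ 0) := by
        rw [Finset.ssubset_iff_of_subset]
        · refine ⟨some i1, by simp [hrp.ne'], ?_⟩
          simp only [mem_filter, mem_univ, true_and, not_not, Pi.sub_apply, Pi.smul_apply,
            smul_eq_mul]
          rw [hc]
          field_simp
          ring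
        · intro o ho
          simp only [mem_filter, mem_univ, true_and, Pi.sub_apply, Pi.smul_apply,
            smul_eq_mul] at ho ⊢
          intro h
          apply ho
          rw [h, hsub' o h]
          ring
      exact absurd (Finset.card_lt_card h4) (by omega)
    -- choose the sign
    rcases lt_trichotomy (s (some j)) 0 with h | h | h
    · -- s j < 0
      by_cases hi : ∃ i, 0 < s (some i)
      · exact key s hs hsub h.le hi
      · push Not at hi
        have hmem : -s ∈ Rel X φ := Submodule.neg_mem _ hs
        have h3 := hmin (-s) hmem (fun i => by simpa using hi i) (by simpa using h)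
        have h4 : (univ.filter fun o => (-s) o ≠ 0) ⊂ (univ.filter fun o => r o ≠ 0) := by
          rw [Finset.ssubset_iff_of_subset]
          · exact ⟨o1, by simp [ho1], by simp [ho1']⟩
          · intro o ho
            simp only [mem_filter, mem_univ, true_and, Pi.neg_apply, neg_ne_zero] at ho ⊢
            intro h
            exact ho (hsub o h)
        exact absurd (Finset.card_lt_card h4) (by omega)
    · -- s j = 0
      have hex2 : ∃ i, s (some i) ≠ 0 := by
        by_contra hcon
        push Not at hcon
        rcases le_total 0 (s none) with h5 | h5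
        · apply hs0
          exact hpos s hs (by
            intro o
            cases o with
            | none => exact h5
            | some i => rw [hcon i])
        · have h6 := hpos (-s) (Submodule.neg_mem _ hs) (by
            intro o
            cases o with
            | none => simpa using h5
            | some i => simp [hcon i])
          apply hs0
          simpa using h6
      obtain ⟨i, hi⟩ := hex2
      rcases lt_or_gt_of_ne hi with h5 | h5
      · refine key (-s) (Submodule.neg_mem _ hs) ?_ ?_ ⟨i, by simpa using h5⟩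
        · intro o ho; simp [hsub o ho]
        · simp [h]
      · exact key s hs hsub h.le ⟨i, h5⟩
    · -- s j > 0
      by_cases hi : ∃ i, 0 < (-s) (some i)
      · refine key (-s) (Submodule.neg_mem _ hs) ?_ ?_ hi
        · intro o ho; simp [hsub o ho]
        · simpa using h.le
      · push Not at hi
        have h3 := hmin s hs (fun i => by simpa using hi i) h
        have h4 : (univ.filter fun o => s o ≠ 0) ⊂ (univ.filter fun o => r o ≠ 0) := by
          rw [Finset.ssubset_iff_of_subset]
          · exact ⟨o1, by simp [ho1], by simp [ho1']⟩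
          · intro o ho
            simp only [mem_filter, mem_univ, true_and] at ho ⊢
            intro h
            exact ho (hsub o h)
        exact absurd (Finset.card_lt_card h4) (by omega)

end Pool.Agent.H118_IntCx
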